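import Pool.Agent.P.MP_6f117a_ag.PJ.FIface

/-! A proper specialisation has smaller dimension. -/

namespace Pool.Agent.P.MP_6f117a_ag.PJ

open MvPolynomial Module
open scoped IntermediateField

universe u

namespace TTD

variable {L : Type u} [Field L] {K K' : Type u} [Field K] [Algebra L K] [Field K'] [Algebra L K']
  {n : ℕ}

theorem scale {e : ℕ} {G : MvPolynomial (Fin n) L} (h : G.IsHomogeneous e) (t : K)
    (x : Fin n → K) : aeval (fun i => x i / t) G = aeval x G / t ^ e := by
  rw [aeval_def, aeval_def, eval₂_eq', eval₂_eq', Finset.sum_div]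
  refine Finset.sum_congr rfl fun m hm => ?_
  have h1 : Finsupp.weight (1 : Fin n → ℕ) m = e := h (mem_support_iff.1 hm)
  have h2 : Finsupp.weight (1 : Fin n → ℕ) m = m.degree := by
    rw [Finsupp.degree_eq_weight_one]; rfl
  rw [h2, Finsupp.degree_eq_sum] at h1
  simp only [div_pow, Finset.prod_div_distrib, Finset.prod_pow_eq_pow_sum, h1]
  ring

/-- The homogenisation of `F` with respect to the variable `i`. -/
noncomputable def hom (i : Fin n) (F : MvPolynomial (Fin n) L) : MvPolynomial (Fin n) L :=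
  ∑ e ∈ Finset.range (F.totalDegree + 1), X i ^ (F.totalDegree - e) * homogeneousComponent e F

theorem hom_hom (i : Fin n) (F : MvPolynomial (Fin n) L) :
    (hom i F).IsHomogeneous F.totalDegree := by
  refine IsHomogeneous.sum _ _ _ fun e he => ?_
  have h1 := (isHomogeneous_X_pow (R := L) i (F.totalDegree - e)).mul
    (homogeneousComponent_isHomogeneous e F)
  have h2 : F.totalDegree - e + e = F.totalDegree := by
    have := Finset.mem_range.1 he
    omega
  rwa [h2] at h1

theorem aeval_hom (i : Fin n) (F : MvPolynomial (Fin n) L) (x : Fin n → K) (hx : x i ≠ 0) :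
    aeval x (hom i F) = x i ^ F.totalDegree * aeval (fun j => x j / x i) F := by
  have h1 := scale (hom_hom i F) (x i) x
  have h2 : aeval (fun j => x j / x i) (hom i F) = aeval (fun j => x j / x i) F := by
    conv_rhs => rw [← sum_homogeneousComponent F]
    simp only [hom, map_sum, map_mul, map_pow, aeval_X, div_self hx, one_pow, one_mul]
  rw [← h2, h1]
  field_simp

theorem spec {z : Fin n → K} {ξ : Fin n → K'} (h : OnV L z ξ) {i : Fin n} (hz : z i ≠ 0)
    (hξ : ξ i ≠ 0) (F : MvPolynomial (Fin n) L) (hF : aeval (fun j => z j / z i) F = 0) :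
    aeval (fun j => ξ j / ξ i) F = 0 := by
  have h1 := h (hom i F) ⟨⟨_, hom_hom i F⟩, by rw [aeval_hom i F z hz, hF, mul_zero]⟩
  rw [aeval_hom i F ξ hξ] at h1
  exact (mul_eq_zero.1 h1).resolve_left (pow_ne_zero _ hξ)

theorem alg {ξ : Fin n → K'} (h : rat L ξ = ⊤) {i : Fin n} (hξ : ξ i ≠ 0) :
    Algebra.IsAlgebraic (Algebra.adjoin L (Set.range fun j => ξ j / ξ i)) K' := by
  rw [← IntermediateField.isAlgebraic_adjoin_iff_top]
  have h1 : IntermediateField.adjoin L (Set.range fun j => ξ j / ξ i) = ⊤ := by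
    rw [eq_top_iff, ← h, rat, IntermediateField.adjoin_le_iff]
    rintro _ ⟨a, b, rfl⟩
    have h2 : ξ a / ξ b = (ξ a / ξ i) / (ξ b / ξ i) := by
      rw [div_div_div_cancel_right₀ hξ]
    rw [h2]
    exact div_mem (IntermediateField.subset_adjoin _ _ ⟨a, rfl⟩)
      (IntermediateField.subset_adjoin _ _ ⟨b, rfl⟩)
  refine ⟨fun x => ?_⟩
  exact isAlgebraic_algebraMap
    (⟨x, h1 ▸ IntermediateField.mem_top⟩ :
      IntermediateField.adjoin L (Set.range fun j => ξ j / ξ i))

theorem indep {w : Fin n → K'} [Algebra.IsAlgebraic (Algebra.adjoin L (Set.range w)) K'] {d : ℕ}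
    (h : ¬Algebra.trdeg L K' ≤ d) :
    ∃ J : Fin (d + 1) → Fin n, AlgebraicIndependent L fun j => w (J j) := by
  obtain ⟨t, ht, hb⟩ := exists_isTranscendenceBasis_subset (R := L) (Set.range w)
  rw [← hb.cardinalMk_eq_trdeg, not_le] at h
  have h1 : ((d + 1 : ℕ) : Cardinal) ≤ Cardinal.mk t := by
    rw [Nat.cast_succ]
    exact Cardinal.add_one_le_of_lt h
  have h2 : Cardinal.lift.{u} (Cardinal.mk (Fin (d + 1))) ≤ Cardinal.lift.{0} (Cardinal.mk t) := by
    simpa using h1
  obtain ⟨f⟩ := Cardinal.lift_mk_le'.1 h2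
  choose J hJ using fun j => ht (f j).2
  refine ⟨J, ?_⟩
  have h3 := hb.1.comp f f.injective
  convert h3 using 2 with j
  exact hJ j

end TTD

open TTD in
theorem t_TD (L : Type u) [Field L] [IsAlgClosed L] [CharZero L] : S_TD L := by
  intro K K' _ _ _ _ n d z ξ G e hξ hV hG hzG hξG hK hr
  obtain ⟨i, hi⟩ := Function.ne_iff.1 hξ
  replace hi : ξ i ≠ 0 := hi
  have hz : z i ≠ 0 := fun h =>
    hi (by simpa using hV (X i) ⟨⟨1, isHomogeneous_X L i⟩, by simpa using h⟩)
  by_contra hc
  have := alg hr hi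
  obtain ⟨J, hJ⟩ := indep (w := fun j => ξ j / ξ i) hc
  have hJ' : AlgebraicIndependent L fun j => z (J j) / z i := by
    rw [algebraicIndependent_iff] at hJ ⊢
    intro p hp
    refine hJ p ?_
    have := spec hV hz hi (rename J p) (by rw [aeval_rename]; exact hp)
    rwa [aeval_rename] at this
  have hg : aeval (fun j => z j / z i) G ≠ 0 := by
    rw [scale hG]
    exact div_ne_zero hzG (pow_ne_zero _ hz)
  have hg' : aeval (fun j => ξ j / ξ i) G = 0 := by rw [scale hG, hξG, zero_div]
  have ha : IsAlgebraic (Algebra.adjoin L (Set.range fun j => z (J j) / z i))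
      (aeval (fun j => z j / z i) G) := by
    by_contra ht
    have h1 := ((hJ'.option_iff_transcendental _).2 ht).lift_cardinalMk_le_trdeg
    have h2 : ((d + 1 + 1 : ℕ) : Cardinal.{u}) ≤ Algebra.trdeg L K := by simpa using h1
    have h3 := Nat.cast_le.1 (h2.trans hK)
    omega
  obtain ⟨p, hp0, hp⟩ := ha.exists_nonzero_coeff_and_aeval_eq_zero
    (mem_nonZeroDivisors_of_ne_zero hg)
  have hq : ∀ k, ∃ q : MvPolynomial (Fin (d + 1)) L,
      aeval (fun j => z (J j) / z i) q = (p.coeff k : K) := fun k =>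
    (Algebra.adjoin_range_eq_range_aeval L fun j => z (J j) / z i).le (p.coeff k).2
  choose q hq using hq
  have h1 := spec hV hz hi (∑ k ∈ Finset.range (p.natDegree + 1), rename J (q k) * G ^ k) (by
    rw [Polynomial.aeval_eq_sum_range] at hp
    rw [← hp, map_sum]
    refine Finset.sum_congr rfl fun k _ => ?_
    rw [map_mul, map_pow, aeval_rename, Algebra.smul_def]
    exact congrArg (· * _) (hq k))
  rw [map_sum, Finset.sum_range_succ'] at h1
  simp only [map_mul, map_pow, hg', ne_eq, Nat.add_eq_zero_iff, one_ne_zero, and_false,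
    not_false_eq_true, zero_pow, mul_zero, Finset.sum_const_zero, pow_zero, mul_one, zero_add,
    aeval_rename] at h1
  have h2 : q 0 = 0 := (algebraicIndependent_iff.1 hJ) _ h1
  have h3 := hq 0
  rw [h2, map_zero] at h3
  exact hp0 (Subtype.ext h3.symm)

end Pool.Agent.P.MP_6f117a_ag.PJ
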