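import Pool.Agent.P.MP_6f117a_ag.PJ.Stmt
import Pool.Agent.P.MP_6f117a_ag.Height

/-! The final steps: from the vanishing theorem to the statements on hyperbolicity. -/

namespace Pool.Agent.P.MP_6f117a_ag.PJ

open MvPolynomial Module
open scoped IntermediateField

universe u v

variable (L : Type u) [Field L]

/-- `ξ` is a point of the projective variety with generic point `z`. -/
def OnV {K K' : Type u} [Field K] [Algebra L K] [Field K'] [Algebra L K'] {M : ℕ} (z : Fin M → K)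
    (ξ : Fin M → K') : Prop := ∀ G, Form L z G → aeval ξ G = 0

/-- The field generated by the ratios of the coordinates. -/
noncomputable def rat {K : Type u} [Field K] [Algebra L K] {M : ℕ} (x : Fin M → K) :
    IntermediateField L K := IntermediateField.adjoin L {y | ∃ i j, y = x i / x j}

/-- Outside a proper closed subset, curves have degree at most linear in the genus. -/
def LV {K : Type u} [Field K] [Algebra L K] {N : ℕ} (z : Fin (N + 1) → K) : Prop :=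
  ∃ (α e : ℕ) (G : MvPolynomial (Fin (N + 1)) L), G.IsHomogeneous e ∧ aeval z G ≠ 0 ∧
    ∀ (K' : Type u) [Field K'] [Algebra L K'] [FF L K'] (ξ : Fin (N + 1) → K'), ξ ≠ 0 →
      OnV L z ξ → aeval ξ G ≠ 0 → degree L ξ ≤ α * genus L K'

/-- Properties of the degree. -/
def S_HT : Prop := ∀ (K : Type u) [Field K] [Algebra L K] [FF L K] (n : ℕ) (ξ : Fin (n + 1) → K),
  ξ ≠ 0 → 0 ≤ degree L ξ ∧ (∀ t : K, t ≠ 0 → degree L (fun i => t * ξ i) = degree L ξ) ∧
  (∀ (m b : ℕ) (R : Fin (m + 1) → MvPolynomial (Fin (n + 1)) L), (∀ i, (R i).IsHomogeneous b) →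
    (fun i => aeval ξ (R i)) ≠ 0 → degree L (fun i => aeval ξ (R i)) ≤ b * degree L ξ) ∧
  ∀ (i : Fin (n + 1)) (β : ℕ), ξ i ≠ 0 →
    (∀ j, Transcendental L (ξ j / ξ i) → finrank L⟮ξ j / ξ i⟯ K ≤ β) → degree L ξ ≤ (n + 1) * β

/-- Greedy choice of subspaces in general position. -/
def S_GP : Prop := ∀ (V : Type u) [AddCommGroup V] [Module L V] [FiniteDimensional L V]
  (C : Type v) (U : C → Submodule L V), (∀ s : Finset V, 0 ∉ s → ∃ c, ∀ x ∈ s, x ∉ U c) →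
    ∀ N : ℕ, ∃ c : Fin N → C, ∀ T : Finset (Fin N), finrank L V ≤ T.card →
      ∀ x, (∀ j ∈ T, x ∈ U (c j)) → x = 0

/-- The theorem for smooth models of positive dimension. -/
def S_AP : Prop := ∀ (K : Type u) [Field K] [Algebra L K] (d N : ℕ) (z : Fin (N + 1) → K),
  1 ≤ d → SmoothModel L d z → BigCan L d z → LV L z

/-- Points. -/
def S_A0 : Prop := ∀ (K : Type u) [Field K] [Algebra L K] (N : ℕ) (z : Fin (N + 1) → K),
  z ≠ 0 → rat L z = ⊤ → Algebra.trdeg L K = 0 → LV L z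

/-- Birational invariance. -/
def S_BIR : Prop := ∀ (K : Type u) [Field K] [Algebra L K] (N n : ℕ) (z : Fin (N + 1) → K)
  (x : Fin (n + 1) → K), z ≠ 0 → x ≠ 0 → rat L z = ⊤ → rat L x = ⊤ → LV L z → LV L x

/-- An ideal that contains the homogeneous components of its elements. -/
def Hom {R : Type u} [CommRing R] {σ : Type} (I : Ideal (MvPolynomial σ R)) : Prop :=
  ∀ F ∈ I, ∀ e, homogeneousComponent e F ∈ I

/-- Noetherian induction. -/
def S_NOE : Prop := ∀ (n : ℕ) (C : Type v) (P : C → Ideal (MvPolynomial (Fin n) L))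
  (B : ℕ → C → Prop) (I₀ : Ideal (MvPolynomial (Fin n) L)), (∀ c, (P c).IsPrime) →
  (∀ c, Hom (P c)) → (∀ a b c, a ≤ b → B a c → B b c) →
  (∀ I, I₀ ≤ I → I.IsPrime → Hom I → ∃ α, ∃ G ∉ I, ∀ c, I ≤ P c → G ∉ P c → B α c) →
    ∃ α, ∀ c, I₀ ≤ P c → B α c

/-- Homogeneous primes and points. -/
def S_GEN : Prop := ∀ n : ℕ,
  (∀ I : Ideal (MvPolynomial (Fin n) L), I.IsPrime → Hom I → (∃ i, X i ∉ I) →
    ∃ (K : Type u) (_ : Field K) (_ : Algebra L K) (x : Fin n → K), x ≠ 0 ∧ rat L x = ⊤ ∧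
      ∀ F e, F.IsHomogeneous e → (aeval x F = 0 ↔ F ∈ I)) ∧
  ∀ (K : Type u) [Field K] [Algebra L K] (x : Fin n → K), ∃ I : Ideal (MvPolynomial (Fin n) L),
    I.IsPrime ∧ Hom I ∧ ∀ F e, F.IsHomogeneous e → (aeval x F = 0 ↔ F ∈ I)

/-- Hyperbolic implies algebraically hyperbolic. -/
def S_HYP : Prop := ∀ (n : ℕ) (ι : Type) (G : ι → MvPolynomial (Fin (n + 1)) L),
  (∀ t, ∃ e, (G t).IsHomogeneous e) → Hyperbolic' G → AlgHyperbolic G

/-- A proper specialisation has smaller dimension. -/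
def S_TD : Prop := ∀ (K K' : Type u) [Field K] [Algebra L K] [Field K'] [Algebra L K'] (n d : ℕ)
  (z : Fin n → K) (ξ : Fin n → K') (G : MvPolynomial (Fin n) L) (e : ℕ), ξ ≠ 0 → OnV L z ξ →
    G.IsHomogeneous e → aeval z G ≠ 0 → aeval ξ G = 0 → Algebra.trdeg L K ≤ (d + 1 : ℕ) →
      rat L ξ = ⊤ → Algebra.trdeg L K' ≤ d

/-- Points of a fixed curve. -/
def S_BZ1 : Prop := ∀ (K : Type u) [Field K] [Algebra L K] (n : ℕ) (x : Fin (n + 1) → K), x ≠ 0 →
  rat L x = ⊤ → Algebra.trdeg L K ≤ 1 → ∃ β : ℕ, ∀ (K' : Type u) [Field K'] [Algebra L K']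
    [FF L K'] (ξ : Fin (n + 1) → K'), ξ ≠ 0 → OnV L x ξ → degree L ξ ≤ β * finrank (rat L ξ) K'

/-- Curves on a surface that lie on a fixed hypersurface have bounded degree. -/
def S_BEZ : Prop := ∀ (K : Type u) [Field K] [Algebra L K] (n : ℕ) (z : Fin (n + 1) → K)
  (G : MvPolynomial (Fin (n + 1)) L) (e : ℕ), Algebra.trdeg L K ≤ 2 → G.IsHomogeneous e →
    aeval z G ≠ 0 → ∃ β : ℕ, ∀ (K' : Type u) [Field K'] [Algebra L K'] [FF L K']
      (ξ : Fin (n + 1) → K'), ξ ≠ 0 → OnV L z ξ → aeval ξ G = 0 →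
        degree L ξ ≤ β * finrank (rat L ξ) K'

/-- The two statements on surfaces. -/
def S_SURF : Prop := ∀ (K : Type u) [Field K] [Algebra L K] (n : ℕ) (z : Fin (n + 1) → K),
  Algebra.trdeg L K ≤ 2 → LV L z →
  (∃ α β : ℝ, ∀ (K' : Type u) [Field K'] [Algebra L K'], (⊤ : IntermediateField L K').FG →
    Algebra.trdeg L K' = 1 → ∀ ξ : Fin (n + 1) → K', ξ ≠ 0 → OnV L z ξ → rat L ξ = ⊤ →
      (degree L ξ : ℝ) ≤ α * genus L K' + β) ∧
  ((∀ (K' : Type u) [Field K'] [Algebra L K'], (⊤ : IntermediateField L K').FG →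
    Algebra.trdeg L K' = 1 → genus L K' ≤ 1 → ∀ ξ : Fin (n + 1) → K', ξ ≠ 0 → OnV L z ξ →
      ∃ (c : Fin (n + 1) → L) (g : K'), ∀ i, ξ i = c i • g) →
    ∃ α : ℝ, ∀ (K' : Type u) [Field K'] [Algebra L K'], (⊤ : IntermediateField L K').FG →
      Algebra.trdeg L K' = 1 → ∀ ξ : Fin (n + 1) → K', ξ ≠ 0 → OnV L z ξ →
        (degree L ξ : ℝ) ≤ α * genus L K')

end Pool.Agent.P.MP_6f117a_ag.PJ
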