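import Pool.Agent.P.MP_6f117a_ag.PJ.ZElim

/- The zero estimate for polynomials in Witt coordinates, for a finite family of points. -/

namespace Pool.Agent.P.MP_6f117a_ag.PJ

namespace Z

open Finset MvPolynomial

universe u v w x

variable {p : ℕ} [hp : Fact p.Prime]

section od

variable {k ι B : Type*} [Field k] [CommRing B] [IsDomain B] [Algebra k B]

/-- order of vanishing in `T` -/
noncomputable def od (φ : ι → WittVector p B) (G : MvPolynomial (ι × ℕ) k) : ℕ :=
  (evT p k φ G).natTrailingDegree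

variable (φ : ι → WittVector p B) {G H : MvPolynomial (ι × ℕ) k}

theorem ev_ne (h : G ≠ 0) : evT p k φ G ≠ 0 :=
  (map_ne_zero_iff _ (evT_inj φ (algebraMap k B).injective)).2 h

theorem dvd_iff {R : Type*} [CommRing R] {f : Polynomial R} (h : f ≠ 0) {o : ℕ} :
    Polynomial.X ^ o ∣ f ↔ o ≤ f.natTrailingDegree := by
  rw [Polynomial.X_pow_dvd_iff]
  exact ⟨Polynomial.le_natTrailingDegree h, fun e d hd =>
    Polynomial.coeff_eq_zero_of_lt_natTrailingDegree (hd.trans_le e)⟩

theorem od_mul (hG : G ≠ 0) (hH : H ≠ 0) : od φ (G * H) = od φ G + od φ H := by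
  rw [od, map_mul, Polynomial.natTrailingDegree_mul (ev_ne φ hG) (ev_ne φ hH), od, od]

omit [IsDomain B] in
theorem od_C (c : k) : od φ (C c : MvPolynomial (ι × ℕ) k) = 0 := by
  simp [od, evT]

theorem od_Del {i : ι} {j : ℕ} (hG : ∀ a, j + 1 < a → pderiv (i, a) G = 0)
    (h : Del p i j G ≠ 0) : od φ G ≤ od φ (Del p i j G) + p ^ j := by
  have h0 : G ≠ 0 := by
    rintro rfl
    simp [Del] at h
  have := cost φ G i j hG ((dvd_iff (ev_ne φ h0)).2 le_rfl)
  rwa [mul_comm, dvd_iff (mul_ne_zero (ev_ne φ h) (pow_ne_zero _ Polynomial.X_ne_zero)),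
    Polynomial.natTrailingDegree_mul_X_pow (ev_ne φ h)] at this

theorem add_pow' {f : MvPolynomial (ι × ℕ) k → ℕ}
    (hf : ∀ G H, G ≠ 0 → H ≠ 0 → f (G * H) = f G + f H) (hH : H ≠ 0) (n : ℕ) :
    f (H ^ n) = n * f H := by
  induction n with
  | zero =>
    have := hf 1 1 one_ne_zero one_ne_zero
    simp only [mul_one, pow_zero, zero_mul] at this ⊢
    omega
  | succ n ih => rw [pow_succ, hf _ _ (pow_ne_zero _ hH) hH, ih]; ring

theorem od_le [CharP k p] [PerfectField k] (G : MvPolynomial (ι × ℕ) k) (h : G ≠ 0) :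
    od φ G ≤ sg p G := by
  induction hs : sg p G using Nat.strong_induction_on generalizing G with
  | _ s ih =>
    subst hs
    by_cases hd : ∀ v, pderiv v G = 0
    · by_cases hv : G.vars = ∅
      · rw [vars_eq_empty_iff_eq_C.1 hv, od_C]
        exact Nat.zero_le _
      obtain ⟨v, hv⟩ := nonempty_iff_ne_empty.2 hv
      have h1 := (Nat.pow_pos hp.1.pos).trans_le (pow_le_sg (p := p) hv)
      obtain ⟨H, rfl⟩ := ex_root (p := p) hd
      have hH : H ≠ 0 := fun e => h (by simp [e, hp.1.ne_zero])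
      have e := add_pow' (f := sg p) (fun _ _ => sg_mul) hH p
      rw [add_pow' (fun _ _ => od_mul φ) hH, e]
      rw [e] at h1 ih
      have := hp.1.two_le
      exact Nat.mul_le_mul_left _ (ih _ (by nlinarith [Nat.pos_of_mul_pos_left h1]) H hH rfl)
    · obtain ⟨v, hv⟩ := not_forall.1 hd
      obtain ⟨i, j, h1, h2, -⟩ := exD (p := p) hv
      have h3 := sg_Del hp.1.one_le h2
      have h4 := od_Del φ h1 h2
      have h5 := Nat.pow_pos (n := j) hp.1.pos
      have := ih _ (by omega) _ h2 rfl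
      omega

end od

theorem pigeon {k ι J : Type*} [Field k] [CharP k p] [PerfectField k] {B : J → Type*}
    [∀ j, CommRing (B j)] [∀ j, IsDomain (B j)] [∀ j, Algebra k (B j)]
    (φ : ∀ j, ι → WittVector p (B j)) (I : Finset J) (hI : I.Nonempty) (K : ℕ)
    (P : MvPolynomial (ι × ℕ) k) (h0 : P ≠ 0) (h : ∀ j ∈ I, sg p P < K * od (φ j) P) :
    ∃ G, Irreducible G ∧ G ∣ P ∧ #I ≤ 2 * K * #{j ∈ I | sg p G < 2 * K * od (φ j) G} := by
  by_contra hc
  push Not at hc
  have key : ∀ Q : MvPolynomial (ι × ℕ) k, Q ≠ 0 → Q ∣ P →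
      ∑ j ∈ I, K * od (φ j) Q ≤ #I * sg p Q := by
    intro Q
    induction Q using WfDvdMonoid.induction_on_irreducible with
    | zero => simp
    | unit u hu =>
      intro _ _
      obtain ⟨c, -, rfl⟩ := isUnit_iff_eq_C_of_isReduced.1 hu
      simp [od_C]
    | mul a G ha hG ih =>
      intro _ hd
      have h1 := ih ha (dvd_of_mul_left_dvd hd)
      have h2 := hc G hG (dvd_of_mul_right_dvd hd)
      have h3 : ∑ j ∈ I, 2 * (K * od (φ j) G) ≤
          ∑ j ∈ I, (sg p G + if sg p G < 2 * K * od (φ j) G then 2 * K * sg p G else 0) :=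
        sum_le_sum fun j _ => by
          have := od_le (φ j) G hG.ne_zero
          split_ifs with h
          · nlinarith
          · nlinarith
      rw [sum_add_distrib, ← sum_filter, ← mul_sum, sum_const, sum_const, smul_eq_mul,
        smul_eq_mul] at h3
      simp only [od_mul _ hG.ne_zero ha, sg_mul hG.ne_zero ha, mul_add, sum_add_distrib]
      nlinarith
  have h1 := key P h0 dvd_rfl
  have h2 := sum_lt_sum_of_nonempty hI h
  rw [sum_const, smul_eq_mul] at h2
  omega

theorem num {N q s o K : ℕ} (hq : 0 < q) (h1 : 1 ≤ N) (h2 : N * q ≤ 2 * s) (h3 : s < 4 * K * o) :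
    N * s < 128 * K ^ 2 * ∑ r ∈ range N, (o - r * q) := by
  have hK : 1 ≤ K := Nat.pos_of_ne_zero (by rintro rfl; simp at h3)
  have ho : 1 ≤ o := Nat.pos_of_ne_zero (by rintro rfl; simp at h3)
  have key : ∀ M ≤ N, (∀ r < M, 2 * (r * q) ≤ o) → M * o ≤ 2 * ∑ r ∈ range N, (o - r * q) := by
    intro M hM h
    have h4 : ∑ r ∈ range M, o ≤ ∑ r ∈ range M, 2 * (o - r * q) := sum_le_sum fun r hr => by
      have := h r (mem_range.1 hr)
      omega
    rw [sum_const, card_range, smul_eq_mul, ← mul_sum] at h4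
    exact h4.trans (Nat.mul_le_mul_left _ (sum_le_sum_of_subset (range_subset_range.2 hM)))
  have hd : ∀ r < o / (2 * q) + 1, 2 * (r * q) ≤ o := fun r hr => by
    have := (Nat.le_div_iff_mul_le (by omega)).1 (Nat.lt_succ_iff.1 hr)
    nlinarith
  generalize ∑ r ∈ range N, (o - r * q) = f at key ⊢
  rcases le_total N (o / (2 * q) + 1) with h | h
  · have h4 := key N le_rfl fun r hr => hd r (by omega)
    have h5 : N * s < N * (4 * K * o) := Nat.mul_lt_mul_of_pos_left h3 h1
    have h6 : 8 * K * f ≤ 128 * K ^ 2 * f := Nat.mul_le_mul_right _ (by nlinarith)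
    nlinarith
  · have h4 := key _ h hd
    have h5 : o < (o / (2 * q) + 1) * (2 * q) := by
      rw [mul_comm]
      exact Nat.lt_mul_div_succ o (by omega)
    generalize o / (2 * q) + 1 = M at h4 h5
    refine Nat.lt_of_mul_lt_mul_right (a := q) ?_
    have h6 : s * s < (4 * K * o) * (4 * K * o) := Nat.mul_lt_mul'' h3 h3
    have h7 : o * o ≤ 4 * (f * q) := by nlinarith
    have h8 : K ^ 2 * (o * o) ≤ K ^ 2 * (4 * (f * q)) := Nat.mul_le_mul_left _ h7
    have h9 : N * q * s ≤ 2 * s * s := Nat.mul_le_mul_right _ h2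
    nlinarith

theorem main (M K : ℕ) : ∃ K₁ : ℕ, ∀ (p : ℕ) [Fact p.Prime], K₁ < p →
    ∀ (k : Type u) [Field k] [CharP k p] [PerfectField k] (ι : Type v) (J : Type w)
      (B : J → Type x) [∀ j, CommRing (B j)] [∀ j, IsDomain (B j)] [∀ j, Algebra k (B j)]
      (φ : ∀ j, ι → WittVector p (B j)) (S : Finset (ι × ℕ)), #S ≤ M →
      (∀ i l, (i, l + 1) ∈ S → (i, l) ∈ S) → ∀ P : MvPolynomial (ι × ℕ) k, P ≠ 0 → P.vars ⊆ S →
      ∀ I : Finset J, (∀ j ∈ I, sg p P < K * od (φ j) P) →
      ∃ G : MvPolynomial ι k, G ≠ 0 ∧ G.totalDegree ≤ K₁ ∧ ∃ I' ⊆ I, #I ≤ K₁ * #I' ∧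
        ∀ j ∈ I', aeval (fun a => (φ j a).coeff 0) G = 0 := by
  classical
  induction M generalizing K with
  | zero =>
    refine ⟨0, fun p _ _ k _ _ _ ι J B _ _ _ φ S hS _ P _ hP I h => ⟨1, one_ne_zero, by simp, ∅,
      empty_subset _, ?_, by simp⟩⟩
    rw [card_eq_zero.1 (Nat.le_zero.1 hS), subset_empty, vars_eq_empty_iff_eq_C] at hP
    simp only [zero_mul, Nat.le_zero, card_eq_zero, eq_empty_iff_forall_notMem]
    intro j hj
    have := h j hj
    rw [hP, od_C] at this
    simp at this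
  | succ M ih =>
    obtain ⟨K₂, ih⟩ := ih (128 * K ^ 2 + 2 * K)
    refine ⟨4 * K + (2 * K + 1) * K₂, fun p hp hK k _ _ _ ι J B _ _ _ φ S hS hd P h0 hP I h => ?_⟩
    rcases I.eq_empty_or_nonempty with rfl | hI
    · exact ⟨1, one_ne_zero, by simp, ∅, empty_subset _, by simp, by simp⟩
    obtain ⟨G, hG, hGP, hc⟩ := pigeon φ I hI K P h0 h
    have hsub : {j ∈ I | sg p G < 2 * K * od (φ j) G} ⊆ I := filter_subset _ _
    have hI₁ : ∀ j ∈ ({j ∈ I | sg p G < 2 * K * od (φ j) G} : Finset J),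
      sg p G < 2 * K * od (φ j) G := fun j hj => (mem_filter.1 hj).2
    generalize ({j ∈ I | sg p G < 2 * K * od (φ j) G} : Finset J) = I₁ at hc hsub hI₁
    have GS : G.vars ⊆ S := fun v hv => hP (by
      obtain ⟨Q, rfl⟩ := hGP
      rw [mem_vars_iff_degreeOf_ne_zero] at hv ⊢
      rw [degreeOf_mul_eq (left_ne_zero_of_mul h0) (right_ne_zero_of_mul h0)]
      omega)
    by_cases hs : sg p G ≤ 4 * K
    · have hv : ∀ v ∈ G.vars, v.2 = 0 := fun v hv => by
        by_contra hc
        have := Nat.le_self_pow hc p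
        have := pow_le_sg (p := p) hv
        omega
      have e : rename (fun a => (a, 0)) (rename Prod.fst G) = G :=
        hom_congr_vars (f₁ := (rename fun a : ι => (a, 0)).toRingHom.comp
          (rename Prod.fst).toRingHom) (f₂ := RingHom.id _) (by ext; simp)
          (fun v h _ => by simp [← hv v h]) rfl
      refine ⟨rename Prod.fst G, fun e' => hG.ne_zero (by rw [← e, e', map_zero]), ?_, I₁, hsub,
        hc.trans (Nat.mul_le_mul_right _ (by omega)), fun j hj => ?_⟩
      · refine (totalDegree_rename_le _ _).trans (Finset.sup_le fun u hu => ?_)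
        refine le_trans ?_ ((wt_le (p := p) hu).trans (by omega))
        rw [wt, Finsupp.weight_apply]
        exact sum_le_sum fun v _ => Nat.le_mul_of_pos_right _ (Nat.pow_pos hp.1.pos)
      · have h1 : 1 ≤ od (φ j) G := Nat.pos_of_ne_zero fun e => by simpa [e] using hI₁ j hj
        have h2 := evT_zero (φ j) G (by
          simpa using (dvd_iff (ev_ne (φ j) hG.ne_zero)).2 h1)
        rw [← e, aeval_rename] at h2
        exact h2
    have hK1 : 1 ≤ K := by
      obtain ⟨j, hj⟩ := hI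
      exact Nat.pos_of_ne_zero fun e => by simpa [e] using h j hj
    obtain ⟨y, hyS, hy⟩ := exists_max_image S Prod.snd (nonempty_iff_ne_empty.2 fun e => by
      rw [e, subset_empty, vars_eq_empty_iff_eq_C] at GS
      rw [GS] at hs
      simp [sg, sc] at hs)
    have fin : ∀ R : MvPolynomial (ι × ℕ) k, R ≠ 0 → R.vars ⊆ S.erase y →
        (∀ j ∈ I₁, sg p R < (128 * K ^ 2 + 2 * K) * od (φ j) R) →
        ∃ G : MvPolynomial ι k, G ≠ 0 ∧ G.totalDegree ≤ 4 * K + (2 * K + 1) * K₂ ∧ ∃ I' ⊆ I,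
          #I ≤ (4 * K + (2 * K + 1) * K₂) * #I' ∧
          ∀ j ∈ I', aeval (fun a => (φ j a).coeff 0) G = 0 := by
      intro R R0 RS hR
      obtain ⟨G', g1, g2, I', g3, g4, g5⟩ := ih p (by nlinarith) k ι J B φ (S.erase y)
        (by rw [card_erase_of_mem hyS]; omega) (fun i l hl => by
          have h1 := mem_of_mem_erase hl
          refine mem_erase.2 ⟨?_, hd i l h1⟩
          rintro rfl
          simpa using hy _ h1) R R0 RS I₁ hR
      exact ⟨G', g1, by nlinarith, I', g3.trans hsub, by nlinarith, g5⟩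
    by_cases hv : y ∈ G.vars
    swap
    · exact fin G hG.ne_zero (subset_erase.2 ⟨GS, hv⟩) fun j hj =>
        (hI₁ j hj).trans_le (Nat.mul_le_mul_right _ (by omega))
    obtain ⟨v, hv'⟩ : ∃ v, pderiv v G ≠ 0 := by
      by_contra hc
      push Not at hc
      obtain ⟨H, rfl⟩ := ex_root (p := p) hc
      exact not_irreducible_pow hp.1.ne_one hG
    obtain ⟨i, j, d1, d2, d3⟩ := exD (p := p) hv'
    have d4 := sg_Del hp.1.one_le d2
    have d5 := Nat.pow_pos (n := j) hp.1.pos
    have d6 : 4 * K * p ^ j < sg p G := by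
      rcases d3 with ⟨rfl, -⟩ | d3
      · simpa using hs
      · have := pow_le_sg (p := p) d3
        rw [pow_succ] at this
        nlinarith
    obtain ⟨R, R0, RS, N, n1, n2, n3, n4⟩ := elim.{x} (p := p) hy hG hv GS (H := Del p i j G) (by
      refine coe_subset.1 (mem_supported.1 (sub_mem (mem_supported.2 (coe_subset.2
        ((vars_pderiv _ _).trans GS))) ?_))
      rcases d3 with ⟨-, d3⟩ | d3
      · simp [d3]
      · exact mul_mem (pow_mem (X_mem_supported.2 (hd i j (GS d3))) _)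
          (mem_supported.2 (coe_subset.2 ((vars_pderiv _ _).trans GS)))) d2 (by
      rintro ⟨Q, hQ⟩
      rw [hQ, sg_mul hG.ne_zero (right_ne_zero_of_mul (hQ ▸ d2))] at d4
      omega) (by omega)
    refine fin R R0 RS fun a ha => ?_
    have e1 := hI₁ a ha
    have e2 := od_Del (φ a) d1 d2
    have e3 := (dvd_iff (ev_ne (φ a) R0)).1 (n4 (B a) (φ a) (od (φ a) G - p ^ j)
      ((dvd_iff (ev_ne (φ a) hG.ne_zero)).2 (Nat.sub_le _ _))
      ((dvd_iff (ev_ne (φ a) d2)).2 (Nat.sub_le_iff_le_add.2 e2)))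
    have e4 : p ^ j ≤ od (φ a) G := by nlinarith
    have e5 := num (K := K) (o := od (φ a) G - p ^ j) (Nat.pow_pos hp.1.pos) n1 n2 (by
      obtain ⟨o, ho⟩ := Nat.exists_eq_add_of_le e4
      rw [ho, Nat.add_sub_cancel_left]
      rw [ho] at e1
      nlinarith)
    exact (n3.trans_lt e5).trans_le (Nat.mul_le_mul (by omega) e3)

end Z

universe u v w x

open MvPolynomial in
/-- Zero estimate: a polynomial in Witt coordinates of weighted degree `≤ s` that vanishes to order
`> s / K` at every point of a finite family forces a hypersurface of bounded degree through a fixed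
proportion of the points. -/
theorem zero_est (D n K : ℕ) : ∃ K₁ : ℕ, ∀ (p : ℕ) [Fact p.Prime], K₁ < p →
    ∀ (k : Type u) [Field k] [CharP k p] [PerfectField k] (ι : Type v) [Fintype ι]
      (J : Type w) [Fintype J] (B : J → Type x) [∀ j, CommRing (B j)] [∀ j, IsDomain (B j)]
      [∀ j, Algebra k (B j)] (φ : ∀ j, ι → WittVector p (B j)) (P : MvPolynomial (ι × ℕ) k)
      (s : ℕ), Fintype.card ι ≤ D → P ≠ 0 → (∀ v ∈ P.vars, v.2 ≤ n) →
      (∀ u ∈ P.support, (u.sum fun v e => e * p ^ v.2) ≤ s) →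
      (∀ j, ∃ o, s < K * o ∧ Polynomial.X ^ o ∣ evT p k (φ j) P) →
      ∃ G : MvPolynomial ι k, G ≠ 0 ∧ G.totalDegree ≤ K₁ ∧ Fintype.card J ≤
        K₁ * Nat.card {j // aeval (fun a => (φ j a).coeff 0) G = 0} := by
  classical
  obtain ⟨K₁, h⟩ := Z.main.{u, v, w, x} (D * (n + 1)) K
  refine ⟨K₁, fun p _ hp k _ _ _ ι _ J _ B _ _ _ φ P s hD h0 hn hs ho => ?_⟩
  obtain ⟨G, g1, g2, I, -, g4, g5⟩ := h p hp k ι J B φ (Finset.univ ×ˢ Finset.range (n + 1))
    (by simpa using hD) (fun i l hl => by simp at hl ⊢; omega) P h0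
    (fun v hv => by simpa [Nat.lt_succ_iff] using hn v hv) Finset.univ fun j _ => by
      obtain ⟨o, h1, h2⟩ := ho j
      refine (Z.sg_le.2 fun u hu => ?_).trans_lt (h1.trans_le (Nat.mul_le_mul_left _
        ((Z.dvd_iff (Z.ev_ne (φ j) h0)).1 h2)))
      simpa [Z.wt, Finsupp.weight_apply] using hs u hu
  refine ⟨G, g1, g2, g4.trans (Nat.mul_le_mul_left _ ?_)⟩
  rw [Nat.card_eq_fintype_card, Fintype.card_subtype]
  exact Finset.card_le_card fun j hj => by simpa using g5 j hj

end Pool.Agent.P.MP_6f117a_ag.PJ
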