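import Mathlib

/- Perturbed Witt vectors `φ + [T] F` and evaluation of polynomials in Witt coordinates on them. -/

namespace Pool.Agent.P.MP_6f117a_ag.PJ

/-- The Witt vector `φ a + [T] F a`, where `F a` has the free variables `(a, l)` as components
and `T` is the outer polynomial variable. -/
noncomputable def pert (p : ℕ) [Fact p.Prime] {ι B : Type*} [CommRing B]
    (φ : ι → WittVector p B) (a : ι) : WittVector p (Polynomial (MvPolynomial (ι × ℕ) B)) :=
  WittVector.map (Polynomial.C.comp MvPolynomial.C) (φ a) +
    WittVector.teichmuller p Polynomial.X *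
      WittVector.mk p fun l => Polynomial.C (MvPolynomial.X (a, l))

/-- Evaluation of a polynomial in Witt coordinates at `φ + [T] F`. -/
noncomputable def evT (p : ℕ) [Fact p.Prime] (k : Type*) {ι B : Type*} [CommRing k] [CommRing B]
    [Algebra k B] (φ : ι → WittVector p B) :
    MvPolynomial (ι × ℕ) k →ₐ[k] Polynomial (MvPolynomial (ι × ℕ) B) :=
  MvPolynomial.aeval fun v => (pert p φ v.1).coeff v.2

end Pool.Agent.P.MP_6f117a_ag.PJ
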