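import Pool.Agent.P.MP_6f117a_ag.Defs

/-! Smooth projective varieties with big canonical bundle, in terms of a generic point. -/

namespace Pool.Agent.P.MP_6f117a_ag.PJ

open MvPolynomial

universe u

variable (L : Type u) [Field L] {K : Type u} [Field K] [Algebra L K] {M : ℕ}

/-- The forms vanishing on the projective variety `Y` with generic point `z`. -/
def Form (z : Fin M → K) (G : MvPolynomial (Fin M) L) : Prop :=
  (∃ e, G.IsHomogeneous e) ∧ aeval z G = 0

/-- `a` is a system of homogeneous coordinates of a closed point of `Y`. -/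
def OnY (z : Fin M → K) (a : Fin M → L) : Prop := a ≠ 0 ∧ ∀ G, Form L z G → eval a G = 0

/-- The local ring of `Y` at the closed point `a`. -/
def locRing (z : Fin M → K) (a : Fin M → L) : Set K :=
  {f | ∃ (e : ℕ) (P Q : MvPolynomial (Fin M) L), P.IsHomogeneous e ∧ Q.IsHomogeneous e ∧
    eval a Q ≠ 0 ∧ f = aeval z P / aeval z Q}

/-- `z` is the generic point of a smooth projective variety `Y` of dimension `d` with function
field `K` (Jacobian criterion at every closed point). -/
def SmoothModel (d : ℕ) (z : Fin M → K) : Prop :=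
  z ≠ 0 ∧ IntermediateField.adjoin L {y | ∃ i j, y = z i / z j} = ⊤ ∧ Algebra.trdeg L K = d ∧
    ∀ a, OnY L z a → ∃ (c : ℕ) (G : Fin c → MvPolynomial (Fin M) L) (J : Fin c → Fin M),
      c + d + 1 = M ∧ (∀ i, Form L z (G i)) ∧
        (Matrix.of fun i j => eval a (pderiv (J j) (G i))).det ≠ 0

/-- Global sections of the `r`-th power of the canonical bundle of `Y`, written in the frame dual
to `D 1 ∧ ⋯ ∧ D d`: the form `d f₁ ∧ ⋯ ∧ d f_d` has coordinate `det (D i (f j))`. -/
def canSec {d : ℕ} (z : Fin M → K) (D : Fin d → Derivation L K K) (r : ℕ) : Set K :=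
  {h | ∀ a, OnY L z a → h ∈ AddSubgroup.closure {y | ∃ (b : K) (f : Fin r → Fin d → K),
    b ∈ locRing L z a ∧ (∀ s j, f s j ∈ locRing L z a) ∧
      y = b * ∏ s, (Matrix.of fun i j => D i (f s j)).det}}

/-- The canonical bundle of `Y` is big: some pluricanonical system has an image of dimension
`d = dim Y`. -/
def BigCan (d : ℕ) (z : Fin M → K) : Prop :=
  ∃ (D : Module.Basis (Fin d) K (Derivation L K K)) (r : ℕ) (h₀ : K) (h : Fin d → K),
    0 < r ∧ h₀ ≠ 0 ∧ h₀ ∈ canSec L z D r ∧ (∀ i, h i ∈ canSec L z D r) ∧
      AlgebraicIndependent L fun i => h i / h₀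

/-- A variety with function field `K` is of general type: it has a smooth projective model whose
canonical bundle is big. -/
def GenType (K : Type u) [Field K] [Algebra L K] : Prop :=
  ∃ (d M : ℕ) (z : Fin M → K), SmoothModel L d z ∧ BigCan L d z

variable {L}

/-- Every integral closed subvariety of `X = {G = 0}` (generic point `x`, function field `K`) is
of general type. -/
def Hyperbolic' {n : ℕ} {ι : Type} (G : ι → MvPolynomial (Fin (n + 1)) L) : Prop :=
  ∀ (K : Type u) [Field K] [Algebra L K] (x : Fin (n + 1) → K), x ≠ 0 →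
    (∀ t, aeval x (G t) = 0) → IntermediateField.adjoin L {y | ∃ i j, y = x i / x j} = ⊤ →
      GenType L K

end Pool.Agent.P.MP_6f117a_ag.PJ
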