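import Pool.Agent.P.MP_6f117a_ag.PJ.IfW

/-! The Witt vectors with filtered components form a subring. -/

namespace Pool.Agent.P.MP_6f117a_ag.PJ

open WittVector

namespace TW1

section

variable {p : ℕ} [Fact p.Prime] {A : Type} [CommRing A]

theorem trunc_eq_iff (n : ℕ) (x y : WittVector p A) :
    truncate (n + 1) x = truncate (n + 1) y ↔ ∀ l ≤ n, x.coeff l = y.coeff l := by
  constructor
  · intro h l hl
    have := congrArg (TruncatedWittVector.coeff (⟨l, by omega⟩ : Fin (n + 1))) h
    simpa only [WittVector.coeff_truncate] using this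
  · intro h
    refine TruncatedWittVector.ext fun i => ?_
    rw [WittVector.coeff_truncate, WittVector.coeff_truncate]
    exact h i (by omega)

theorem exists_lift (S : Subring A) (n : ℕ) (x : WittVector p A) (hx : ∀ l ≤ n, x.coeff l ∈ S) :
    ∃ x' : WittVector p S, truncate (n + 1) x = truncate (n + 1) (WittVector.map S.subtype x') := by
  refine ⟨WittVector.mk p fun l => if h : l ≤ n then ⟨x.coeff l, hx l h⟩ else 0, ?_⟩
  rw [trunc_eq_iff]
  intro l hl
  rw [WittVector.map_coeff, WittVector.coeff_mk, dif_pos hl]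
  rfl

theorem mem_of_lift (S : Subring A) (n : ℕ) (x : WittVector p A) (x' : WittVector p S)
    (h : truncate (n + 1) x = truncate (n + 1) (WittVector.map S.subtype x')) :
    ∀ l ≤ n, x.coeff l ∈ S := by
  intro l hl
  rw [(trunc_eq_iff n _ _).1 h l hl, WittVector.map_coeff]
  exact (x'.coeff l).2

theorem sub_mem_sub (S : Subring A) (n : ℕ) (x y : WittVector p A) (hx : ∀ l ≤ n, x.coeff l ∈ S)
    (hy : ∀ l ≤ n, y.coeff l ∈ S) : ∀ l ≤ n, (x - y).coeff l ∈ S := by
  obtain ⟨x', hx'⟩ := exists_lift S n x hx
  obtain ⟨y', hy'⟩ := exists_lift S n y hy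
  refine mem_of_lift S n _ (x' - y') ?_
  rw [map_sub, map_sub, map_sub, hx', hy']

/-- Polynomials whose coefficient of degree `j` has weight at most `l * j`. -/
def rees (F : Fil A) (l : ℕ) : Subring (Polynomial A) where
  carrier := {f | ∀ j, f.coeff j ∈ F.F (l * j)}
  mul_mem' {f g} h1 h2 j := by
    rw [Polynomial.coeff_mul]
    refine sum_mem fun c hc => ?_
    rw [← Finset.HasAntidiagonal.mem_antidiagonal.1 hc, mul_add]
    exact F.mul (h1 _) (h2 _)
  one_mem' j := by
    rw [Polynomial.coeff_one]
    split_ifs with h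
    · subst h; exact F.one
    · exact zero_mem _
  add_mem' h1 h2 j := by rw [Polynomial.coeff_add]; exact add_mem (h1 j) (h2 j)
  zero_mem' j := by simp
  neg_mem' h j := by rw [Polynomial.coeff_neg]; exact neg_mem (h j)

theorem mono_mem_rees (F : Fil A) (l e : ℕ) (a : A) :
    Polynomial.X ^ e * Polynomial.C a ∈ rees F l ↔ a ∈ F.F (l * e) := by
  have hc : ∀ j, (Polynomial.X ^ e * Polynomial.C a : Polynomial A).coeff j =
      if j = e then a else 0 := fun j => by
    rw [mul_comm, Polynomial.coeff_C_mul, Polynomial.coeff_X_pow]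
    split_ifs <;> simp
  constructor
  · intro h
    have := h e
    rwa [hc, if_pos rfl] at this
  · intro h j
    rw [hc]
    split_ifs with hj
    · subst hj; exact h
    · exact zero_mem _

theorem win_sub (hW3 : S_W3) (n : ℕ) (F : Fil A) (x y : WittVector p A) (hx : WIn p n F x)
    (hy : WIn p n F y) : WIn p n F (x - y) := by
  intro l hl
  have key : ∀ z : WittVector p A, WIn p n F z → ∀ j ≤ l,
      (teichmuller p (Polynomial.X : Polynomial A) *
        WittVector.map Polynomial.C z).coeff j ∈ rees F l := by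
    intro z hz j hj
    rw [hW3, WittVector.map_coeff, mono_mem_rees]
    exact F.mono (Nat.mul_le_mul_right _ hj) (hz j (hj.trans hl))
  have := sub_mem_sub (rees F l) l _ _ (key x hx) (key y hy) l le_rfl
  rwa [← mul_sub, ← map_sub, hW3, WittVector.map_coeff, mono_mem_rees] at this

/-- The additive group of Witt vectors with filtered components. -/
noncomputable def grp (hW3 : S_W3) (p : ℕ) [Fact p.Prime] (n : ℕ) (F : Fil A) :
    AddSubgroup (WittVector p A) :=
  AddSubgroup.ofSub {z | WIn p n F z} ⟨0, fun l _ => by simp⟩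
    (by intro x hx y hy; rw [← sub_eq_add_neg]; exact win_sub hW3 n F x y hx hy)

theorem mem_grp (hW3 : S_W3) (n : ℕ) (F : Fil A) (z : WittVector p A) :
    z ∈ grp hW3 p n F ↔ WIn p n F z := Iff.rfl

/-- The Witt vector with one component. -/
noncomputable def sing (p : ℕ) [Fact p.Prime] (k : ℕ) (a : A) : WittVector p A :=
  verschiebung^[k] (teichmuller p a)

theorem coeff_sing (k : ℕ) (a : A) (l : ℕ) : (sing p k a).coeff l = if l = k then a else 0 := by
  unfold sing
  rcases lt_or_ge l k with h | h
  · rw [iterate_verschiebung_coeff_eq_zero _ h, if_neg h.ne]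
  · obtain ⟨m, rfl⟩ := Nat.exists_eq_add_of_le' h
    rw [iterate_verschiebung_coeff]
    rcases Nat.eq_zero_or_pos m with rfl | hm
    · simp
    · rw [teichmuller_coeff_pos p a m hm, if_neg (by omega)]

theorem frob_teich [CharP A p] (j : ℕ) (a : A) :
    frobenius^[j] (teichmuller p a) = teichmuller p (a ^ p ^ j) := by
  ext l
  rw [iterate_frobenius_coeff]
  rcases Nat.eq_zero_or_pos l with rfl | hl
  · rw [teichmuller_coeff_zero, teichmuller_coeff_zero]
  · rw [teichmuller_coeff_pos p _ l hl, teichmuller_coeff_pos p _ l hl,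
      zero_pow (pow_ne_zero _ (Fact.out : p.Prime).ne_zero)]

theorem sing_mul [CharP A p] (i j : ℕ) (a b : A) :
    sing p i a * sing p j b = sing p (i + j) (a ^ p ^ j * b ^ p ^ i) := by
  unfold sing
  rw [iterate_verschiebung_mul, frob_teich, frob_teich, map_mul]

theorem win_sing (n : ℕ) (F : Fil A) (k : ℕ) (a : A) (ha : a ∈ F.F (k * p ^ k)) :
    WIn p n F (sing p k a) := by
  intro l _
  rw [coeff_sing]
  split_ifs with h
  · subst h; exact ha
  · exact zero_mem _

/-- The generators. -/
def gen (p : ℕ) [Fact p.Prime] (n : ℕ) (F : Fil A) : Set (WittVector p A) :=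
  {z | (∃ k a, a ∈ F.F (k * p ^ k) ∧ z = sing p k a) ∨ z ∈ RingHom.ker (truncate (p := p) (n + 1))}

theorem win_ker (n : ℕ) (F : Fil A) (z : WittVector p A)
    (hz : z ∈ RingHom.ker (truncate (p := p) (n + 1))) : WIn p n F z := by
  intro l hl
  rw [(mem_ker_truncate _ _).1 hz l (by omega)]
  exact zero_mem _

theorem gen_mul [CharP A p] (n : ℕ) (F : Fil A) (x y : WittVector p A) (hx : x ∈ gen p n F)
    (hy : y ∈ gen p n F) : WIn p n F (x * y) := by
  rcases hx with ⟨i, a, ha, rfl⟩ | hx
  · rcases hy with ⟨j, b, hb, rfl⟩ | hy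
    · rw [sing_mul]
      refine win_sing n F _ _ ?_
      have := F.mul (F.pow ha (p ^ j)) (F.pow hb (p ^ i))
      have e : p ^ j * (i * p ^ i) + p ^ i * (j * p ^ j) = (i + j) * p ^ (i + j) := by ring
      rwa [e] at this
    · exact win_ker n F _ (Ideal.mul_mem_left _ _ hy)
  · exact win_ker n F _ (Ideal.mul_mem_right _ _ hx)

theorem mem_closure (n : ℕ) (F : Fil A) (d : ℕ) : ∀ k, k + d = n + 1 → ∀ z : WittVector p A,
    WIn p n F z → (∀ l < k, z.coeff l = 0) → z ∈ AddSubgroup.closure (gen p n F) := by
  induction d with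
  | zero =>
    intro k hk z _ h0
    exact AddSubgroup.subset_closure (Or.inr ((mem_ker_truncate _ _).2 fun l hl => h0 l (by omega)))
  | succ d ih =>
    intro k hk z hz h0
    let t : WittVector p A := WittVector.mk p fun l => if l = k then 0 else z.coeff l
    have ht : ∀ l, t.coeff l = if l = k then 0 else z.coeff l := fun l => rfl
    have e : z = sing p k (z.coeff k) + t := by
      ext l
      rw [coeff_add_of_disjoint, coeff_sing, ht]
      · split_ifs with h
        · rw [h, add_zero]
        · rw [zero_add]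
      · intro m
        rw [coeff_sing, ht]
        split_ifs <;> simp
    rw [e]
    refine add_mem (AddSubgroup.subset_closure (Or.inl ⟨k, _, hz k (by omega), rfl⟩))
      (ih (k + 1) (by omega) t (fun l hl => ?_) fun l hl => ?_)
    · rw [ht]
      split_ifs
      · exact zero_mem _
      · exact hz l hl
    · rw [ht]
      split_ifs with h
      · rfl
      · exact h0 l (by omega)

theorem win_mul [CharP A p] (hW3 : S_W3) (n : ℕ) (F : Fil A) (x y : WittVector p A)
    (hx : WIn p n F x) (hy : WIn p n F y) : WIn p n F (x * y) := by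
  have hx' := mem_closure n F (n + 1) 0 (by omega) x hx (fun l hl => absurd hl (by omega))
  have hy' := mem_closure n F (n + 1) 0 (by omega) y hy (fun l hl => absurd hl (by omega))
  rw [← mem_grp hW3]
  clear hx hy
  induction hx' using AddSubgroup.closure_induction with
  | zero => rw [zero_mul]; exact zero_mem _
  | add a b _ _ ha hb => rw [add_mul]; exact add_mem ha hb
  | neg a _ ha => rw [neg_mul]; exact neg_mem ha
  | mem a ha =>
    induction hy' using AddSubgroup.closure_induction with
    | zero => rw [mul_zero]; exact zero_mem _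
    | add b c _ _ hb hc => rw [mul_add]; exact add_mem hb hc
    | neg b _ hb => rw [mul_neg]; exact neg_mem hb
    | mem b hb => exact gen_mul n F a b ha hb

end

end TW1

theorem t_W1 (hW3 : S_W3) : S_W1 := by
  intro p _ A _ _ n F
  refine ⟨{ TW1.grp hW3 p n F with
    mul_mem' := fun hx hy => TW1.win_mul hW3 n F _ _ hx hy
    one_mem' := ?_ }, fun z => Iff.rfl⟩
  have := TW1.win_sing (p := p) n F 0 1 (by simpa using F.one)
  have h1 : WIn p n F 1 := by simpa [TW1.sing] using this
  exact h1

end Pool.Agent.P.MP_6f117a_ag.PJ
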