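import Pool.Agent.P.MP_6f117a_ag.PJ.IfW

/-! The top component of a polynomial expression in Witt vectors. -/

namespace Pool.Agent.P.MP_6f117a_ag.PJ

open WittVector MvPolynomial

namespace TW2

variable {p : ℕ} [Fact p.Prime] {A : Type} [CommRing A] {L : ℕ}

theorem tail_mem (L : ℕ) (x : WittVector p A) : tail L x ∈ RingHom.ker (truncate (p := p) L) :=
  (mem_ker_truncate _ _).2 fun i hi => by simp [tail, select, hi]

theorem tail_coeff (L : ℕ) (x : WittVector p A) : (tail L x).coeff L = x.coeff L := by
  simp [tail, select]

theorem add_low {x t : WittVector p A} (hx : x ∈ RingHom.ker (truncate (p := p) L))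
    (ht : t ∈ RingHom.ker (truncate (p := p) L)) : (x + t).coeff L = x.coeff L + t.coeff L := by
  have k := fun y : WittVector p A => iterate_verschiebung_coeff y L 0
  simp only [zero_add] at k
  rw [eq_iterate_verschiebung ((mem_ker_truncate _ _).1 hx),
    eq_iterate_verschiebung ((mem_ker_truncate _ _).1 ht), ← iterate_map_add, k, k, k,
    add_coeff_zero]

theorem add_top (x : WittVector p A) {t : WittVector p A}
    (ht : t ∈ RingHom.ker (truncate (p := p) L)) : (x + t).coeff L = x.coeff L + t.coeff L := by
  have := (mem_ker_truncate _ _).1 (add_mem (tail_mem L x) ht)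
  conv_lhs => rw [← init_add_tail x L, add_assoc]
  rw [coeff_add_of_disjoint, add_low (tail_mem L x) ht, tail_coeff]
  · simp [init, select]
  · intro n
    by_cases h : n < L
    · exact Or.inr (this n h)
    · simp [init, select, h]

theorem mul_top [CharP A p] (a : WittVector p A) {t : WittVector p A}
    (ht : t ∈ RingHom.ker (truncate (p := p) L)) :
    (a * t).coeff L = a.coeff 0 ^ p ^ L * t.coeff L := by
  have := iterate_verschiebung_mul_coeff a (t.shift L) 0 L
  rwa [← eq_iterate_verschiebung ((mem_ker_truncate _ _).1 ht), zero_add, pow_zero,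
    pow_one] at this

end TW2

open TW2

theorem t_W2 (_hW3 : S_W3) : S_W2 := by
  intro p _ A _ _ ι _ G z l
  classical
  have key : eval z G - eval (fun i => init (l + 1) (z i)) G ∈ RingHom.ker (truncate (l + 1)) ∧
      (eval z G - eval (fun i => init (l + 1) (z i)) G).coeff (l + 1) =
        ∑ i, (eval z (pderiv i G)).coeff 0 ^ p ^ (l + 1) * (z i).coeff (l + 1) := by
    induction G using MvPolynomial.induction_on with
    | C a => simp [(Fact.out : p.Prime).ne_zero]
    | add G H hG hH =>
      simp only [map_add, add_sub_add_comm, add_low hG.1 hH.1, hG.2, hH.2, add_coeff_zero,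
        add_pow_char_pow, add_mul, Finset.sum_add_distrib, and_true]
      exact add_mem hG.1 hH.1
    | mul_X G j hG =>
      have e : eval z (G * X j) - eval (fun i => init (l + 1) (z i)) (G * X j) =
          z j * (eval z G - eval (fun i => init (l + 1) (z i)) G) +
            eval (fun i => init (l + 1) (z i)) G * tail (l + 1) (z j) := by
        rw [map_mul, map_mul, eval_X, eval_X, eq_sub_of_add_eq' (init_add_tail (z j) (l + 1))]
        ring
      have e0 : (eval (fun i => init (l + 1) (z i)) G).coeff 0 = (eval z G).coeff 0 := by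
        rw [← sub_add_cancel (eval z G) (eval (fun i => init (l + 1) (z i)) G), add_coeff_zero,
          (mem_ker_truncate _ _).1 hG.1 0 l.succ_pos, zero_add]
      have m1 := Ideal.mul_mem_left _ (z j) hG.1
      have m2 := Ideal.mul_mem_left _ (eval (fun i => init (l + 1) (z i)) G)
        (tail_mem (l + 1) (z j))
      refine ⟨e ▸ add_mem m1 m2, ?_⟩
      rw [e, add_low m1 m2, mul_top _ hG.1, mul_top _ (tail_mem _ _), hG.2, tail_coeff, e0,
        Finset.mul_sum]
      simp only [pderiv_mul, map_add, map_mul, eval_X, add_coeff_zero, mul_coeff_zero,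
        add_pow_char_pow, add_mul, Finset.sum_add_distrib, mul_pow]
      refine congrArg₂ _ (Finset.sum_congr rfl fun i _ => by ring) ?_
      rw [Finset.sum_eq_single j (fun i _ h => by
        simp [pderiv_X_of_ne h.symm, (Fact.out : p.Prime).ne_zero]) (by simp)]
      simp
  rw [← key.2, ← add_top _ key.1, add_sub_cancel]

end Pool.Agent.P.MP_6f117a_ag.PJ
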