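import Pool.Agent.P.MP_6f117a_ag.PJ.IfW

/-! Components of a Teichmüller multiple. -/

namespace Pool.Agent.P.MP_6f117a_ag.PJ

open WittVector

namespace TW3

variable {p : ℕ} [Fact p.Prime]

theorem rat {R : Type} (a : MvPolynomial R ℚ) (z : WittVector p (MvPolynomial R ℚ)) (l : ℕ) :
    (teichmuller p a * z).coeff l = a ^ p ^ l * z.coeff l := by
  have : teichmuller p a * z = mk p fun l => a ^ p ^ l * z.coeff l := by
    apply (ghostMap.bijective_of_invertible p (MvPolynomial R ℚ)).1
    rw [map_mul]
    ext1 n
    simp only [Pi.mul_apply, ghostMap_apply, ghostComponent_teichmuller]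
    simp only [ghostComponent_apply, aeval_wittPolynomial, coeff_mk, Finset.mul_sum]
    refine Finset.sum_congr rfl fun i hi => ?_
    rw [mul_pow, ← pow_mul, ← pow_add, Nat.add_sub_cancel' (Finset.mem_range_succ_iff.1 hi)]
    ring
  rw [this, coeff_mk]

theorem of_map {A B : Type} [CommRing A] [CommRing B] (f : A →+* B) (a : A) (z : WittVector p A)
    (l : ℕ) : f ((teichmuller p a * z).coeff l) = (teichmuller p (f a) * map f z).coeff l := by
  rw [← map_coeff, map_mul, map_teichmuller]

end TW3

theorem t_W3 : S_W3 := by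
  intro p _ A _ a z l
  obtain ⟨a, rfl⟩ := MvPolynomial.counit_surjective A a
  obtain ⟨z, rfl⟩ := map_surjective _ (MvPolynomial.counit_surjective A) z
  refine (TW3.of_map (MvPolynomial.counit A) a z l).symm.trans ?_
  have : (teichmuller p a * z).coeff l = a ^ p ^ l * z.coeff l := by
    apply MvPolynomial.map_injective (Int.castRingHom ℚ) Int.cast_injective
    rw [TW3.of_map, TW3.rat, map_mul, map_pow, map_coeff]
  rw [this, map_mul, map_pow]
  rfl

end Pool.Agent.P.MP_6f117a_ag.PJ
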