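import Pool.Agent.P.MP_6f117a_ag.PJ.IfW

/-! Simple roots of polynomials over Witt vectors have filtered components. -/

namespace Pool.Agent.P.MP_6f117a_ag.PJ

open WittVector

namespace TW4b

variable {p : ℕ} [Fact p.Prime] {A : Type} [CommRing A] [CharP A p]

theorem uni (hW2 : S_W2) (Q : Polynomial (WittVector p A)) (w : WittVector p A) (l : ℕ) :
    (Q.eval w).coeff (l + 1) = (Q.eval (init (l + 1) w)).coeff (l + 1) +
      (Q.derivative.eval w).coeff 0 ^ p ^ (l + 1) * w.coeff (l + 1) := by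
  have h := hW2 p A Unit (Q.toMvPolynomial ()) (fun _ => w) l
  have e : MvPolynomial.pderiv () (Q.toMvPolynomial ()) = Q.derivative.toMvPolynomial () := by
    rw [Polynomial.toMvPolynomial, Derivation.map_aeval, MvPolynomial.pderiv_X_self, smul_eq_mul,
      mul_one]
  rwa [Fintype.sum_unique, e, MvPolynomial.eval_toMvPolynomial, MvPolynomial.eval_toMvPolynomial,
    MvPolynomial.eval_toMvPolynomial] at h

theorem step (hW1 : S_W1) {n l : ℕ} (hl : l + 1 ≤ n) (G : Fil A) {Q : Polynomial (WittVector p A)}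
    (hQ : ∀ j, WIn p n G (Q.coeff j)) {w : WittVector p A}
    (hw : ∀ j ≤ l, w.coeff j ∈ G.F (j * p ^ j)) :
    (Q.eval (init (l + 1) w)).coeff (l + 1) ∈ G.F ((l + 1) * p ^ (l + 1)) := by
  obtain ⟨S, hS⟩ := hW1 p A n G
  have h1 : init (l + 1) w ∈ S := (hS _).2 fun j _ => by
    simp only [init, select, coeff_mk]
    split_ifs with h
    exacts [hw j (by omega), zero_mem _]
  refine (hS _).1 ?_ _ hl
  rw [Polynomial.eval_eq_sum_range]
  exact sum_mem fun j _ => S.mul_mem ((hS _).2 (hQ j)) (S.pow_mem h1 j)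

theorem main (hW1 : S_W1) (hW2 : S_W2) {n : ℕ} {F : Fil A} {Q : Polynomial (WittVector p A)}
    {w : WittVector p A} {J : A} (hQ : ∀ j, WIn p n F (Q.coeff j)) (h0 : Q.eval w = 0)
    (hw : w.coeff 0 ∈ F.F 0) (hJ : J * (Q.derivative.eval w).coeff 0 = 1) {c : ℕ}
    (hc : J ∈ F.F c) (l : ℕ) : l ≤ n → ∀ j ≤ l, w.coeff j ∈ F.F ((c * l + 1) * (j * p ^ j)) := by
  induction l with
  | zero =>
    intro _ j hj
    obtain rfl : j = 0 := by omega
    simpa using hw
  | succ l ih =>
    intro hl j hj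
    have ih := ih (by omega)
    rcases hj.lt_or_eq with hj | rfl
    · exact F.mono (Nat.mul_le_mul_right _ (by nlinarith)) (ih j (by omega))
    have h1 := step hW1 hl (F.scale (c * l + 1))
      (fun j i hi => F.mono (Nat.le_mul_of_pos_left _ (by omega)) (hQ j i hi)) ih
    have h2 := uni hW2 Q w l
    rw [h0, zero_coeff] at h2
    have h3 : w.coeff (l + 1) =
        -(J ^ p ^ (l + 1) * (Q.eval (init (l + 1) w)).coeff (l + 1)) := by
      have := congrArg (· ^ p ^ (l + 1)) hJ
      simp only [mul_pow, one_pow] at this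
      linear_combination (-J ^ p ^ (l + 1)) * h2 - w.coeff (l + 1) * this
    rw [h3]
    refine neg_mem (F.mono ?_ (F.mul (F.pow hc _) h1))
    generalize p ^ (l + 1) = P
    nlinarith [Nat.zero_le (c * l * P)]

end TW4b

theorem t_W4b (hW1 : S_W1) (hW2 : S_W2) : S_W4b := by
  intro p _ A _ _ n F Q w J hQ h0 hw hJ
  refine ⟨fun hc l hl => ?_, fun hc l hl => ?_⟩
  · simpa using TW4b.main hW1 hW2 hQ h0 hw hJ hc n le_rfl l hl
  · have := TW4b.main hW1 hW2 hQ h0 hw hJ hc n le_rfl l hl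
    rwa [one_mul] at this

end Pool.Agent.P.MP_6f117a_ag.PJ
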