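import Pool.Agent.P.MP_6f117a_ag.PJ.IfW

/-! Hensel lifting in Witt vectors. -/

namespace Pool.Agent.P.MP_6f117a_ag.PJ

open WittVector
open Polynomial hiding constantCoeff

namespace TW4a

variable {p : ℕ} [Fact p.Prime] {A : Type} [CommRing A]

theorem top (hW2 : S_W2) [CharP A p] (Q : (WittVector p A)[X]) (w : WittVector p A) (l : ℕ) :
    (Q.eval w).coeff (l + 1) = (Q.eval (init (l + 1) w)).coeff (l + 1) +
      (Q.derivative.eval w).coeff 0 ^ p ^ (l + 1) * w.coeff (l + 1) := by
  have := hW2 p A Unit (Q.toMvPolynomial ()) (fun _ => w) l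
  have e : MvPolynomial.pderiv () (Q.toMvPolynomial ()) = Q.derivative.toMvPolynomial () := by
    simp [toMvPolynomial]
  simpa [e] using this

theorem bot (Q : (WittVector p A)[X]) (w : WittVector p A) :
    (Q.eval w).coeff 0 = Q.eval₂ constantCoeff (w.coeff 0) :=
  (eval₂_at_apply constantCoeff w).symm

theorem lift (hW2 : S_W2) [CharP A p] (Q : (WittVector p A)[X]) (a : A)
    (h1 : Q.eval₂ constantCoeff a = 0) (h2 : IsUnit (Q.derivative.eval₂ constantCoeff a)) :
    ∃ w, Q.eval w = 0 ∧ w.coeff 0 = a := by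
  obtain ⟨J, hJ⟩ := h2.exists_right_inv
  let u : ℕ → WittVector p A := Nat.rec (mk p (Pi.single 0 a)) fun l x =>
    mk p (Function.update x.coeff (l + 1) (-(J ^ p ^ (l + 1) * (Q.eval x).coeff (l + 1))))
  have e : ∀ l j, (u l).coeff j = if j < l + 1 then (u j).coeff j else 0 := fun l j => by
    induction l with
    | zero => cases j <;> simp [u]
    | succ l ih =>
      by_cases k : j = l + 1
      · simp [k]
      · rw [show (u (l + 1)).coeff j = (u l).coeff j from Function.update_of_ne k _ _, ih]
        exact if_congr (by omega) rfl rfl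
  have e0 : (mk p fun l => (u l).coeff l).coeff 0 = a := by simp [u]
  refine ⟨_, WittVector.ext fun l => ?_, e0⟩
  cases l with
  | zero => rw [bot, e0, h1, zero_coeff]
  | succ l =>
    rw [top hW2, bot, e0, show init (l + 1) (mk p fun l => (u l).coeff l) = u l from
      WittVector.ext fun j => by simp [init, select, e l j], zero_coeff, coeff_mk,
      show (u (l + 1)).coeff (l + 1) = _ from Function.update_self _ _ _, mul_neg, ← mul_assoc,
      ← mul_pow, hJ, one_pow, one_mul, add_neg_cancel]

end TW4a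

theorem t_W4a (hW2 : S_W2) : S_W4a := by
  refine fun p _ A _ _ => ⟨TW4a.lift hW2, fun z hz => ?_⟩
  obtain ⟨a, ha⟩ := hz.exists_right_inv
  obtain ⟨w, hw, -⟩ := TW4a.lift hW2 (C z * X - 1) a (by simp [eval₂_sub, ha]) (by simpa using hz)
  exact .of_mul_eq_one w (by simpa [sub_eq_zero] using hw)

end Pool.Agent.P.MP_6f117a_ag.PJ
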