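import Pool.Agent.P.MP_6f117a_ag.PJ.TAP0
import Pool.Agent.P.MP_6f117a_ag.M.Iface

/-! The bound for the degree on smooth models with big canonical bundle. -/

namespace Pool.Agent.P.MP_6f117a_ag.PJ

universe u

theorem t_AP (L : Type u) [Field L] [IsAlgClosed L] [CharZero L] (hM : Mid.S_MID L)
    (hW : EX.W_TOP) : S_AP L := by
  intro K _ _ d N z hd h1 h2
  obtain ⟨M, y, e, c, r, C₀, δ, hc, hy, hr, -, a1, a2, a3, a4⟩ := hM K d _ z h1 h2
  obtain rfl : y = fun a => c * z (e a) := funext hy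
  exact lv_of hW z M e hc hd hr (fun a => (a1 a).2) a2 a3 a4

end Pool.Agent.P.MP_6f117a_ag.PJ
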