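import Pool.Agent.P.MP_6f117a_ag.PJ.FAll
import Pool.Agent.P.MP_6f117a_ag.PJ.TAP
import Pool.Agent.P.MP_6f117a_ag.E.WTop
import Pool.Agent.P.MP_6f117a_ag.M.All

/-! The bound for the degree of curves on varieties of general type, without hypotheses. -/

namespace Pool.Agent.P.MP_6f117a_ag.PJ

universe u

variable (L : Type u) [Field L] [IsAlgClosed L] [CharZero L]

theorem ap_all : S_AP L := t_AP L (Mid.allMID L) EX.wTOP

theorem lv_all (K : Type u) [Field K] [Algebra L K] (n : ℕ) (x : Fin (n + 1) → K) (hx : x ≠ 0)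
    (hr : rat L x = ⊤) (hK : GenType L K) : LV L x := lv_of_ap L (ap_all L) K n x hx hr hK

end Pool.Agent.P.MP_6f117a_ag.PJ
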