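import Mathlib

/-! Filtrations, Witt vectors with filtered components, jets. -/

namespace Pool.Agent.P.MP_6f117a_ag.PJ

open WittVector

universe u

/-- A multiplicative increasing filtration. -/
structure Fil (A : Type u) [CommRing A] where
  F : ℕ → AddSubgroup A
  mono : ∀ {i j : ℕ}, i ≤ j → F i ≤ F j
  one : 1 ∈ F 0
  mul : ∀ {i j : ℕ} {a b : A}, a ∈ F i → b ∈ F j → a * b ∈ F (i + j)

section

variable {A : Type u} [CommRing A]

theorem Fil.pow (F : Fil A) {i : ℕ} {a : A} (h : a ∈ F.F i) (e : ℕ) : a ^ e ∈ F.F (e * i) := by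
  induction e with
  | zero => simpa using F.one
  | succ e ih => rw [pow_succ, Nat.succ_mul]; exact F.mul ih h

theorem Fil.prod (F : Fil A) {ι : Type*} (s : Finset ι) (a : ι → A) (w : ι → ℕ)
    (h : ∀ i ∈ s, a i ∈ F.F (w i)) : ∏ i ∈ s, a i ∈ F.F (∑ i ∈ s, w i) := by
  classical
  induction s using Finset.induction_on with
  | empty => simpa using F.one
  | insert i s hi ih =>
    rw [Finset.prod_insert hi, Finset.sum_insert hi]
    exact F.mul (h i (by simp)) (ih fun j hj => h j (by simp [hj]))

/-- The degree zero part. -/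
def Fil.zero (F : Fil A) : Subring A where
  carrier := F.F 0
  mul_mem' h1 h2 := F.mul h1 h2
  one_mem' := F.one
  add_mem' := (F.F 0).add_mem
  zero_mem' := (F.F 0).zero_mem
  neg_mem' := (F.F 0).neg_mem

/-- The constant filtration of a subring. -/
def Fil.const (S : Subring A) : Fil A where
  F _ := S.toAddSubgroup
  mono _ := le_rfl
  one := S.one_mem
  mul := S.mul_mem

/-- The filtration `j ↦ F (c * j)`. -/
def Fil.scale (F : Fil A) (c : ℕ) : Fil A where
  F j := F.F (c * j)
  mono h := F.mono (Nat.mul_le_mul_left c h)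
  one := F.one
  mul h1 h2 := by rw [mul_add]; exact F.mul h1 h2

/-- The image of a filtration. -/
def Fil.map (F : Fil A) {B : Type u} [CommRing B] (f : A →+* B) : Fil B where
  F j := (F.F j).map f.toAddMonoidHom
  mono h := AddSubgroup.map_mono (F.mono h)
  one := ⟨1, F.one, map_one f⟩
  mul := by
    rintro i j _ _ ⟨a, ha, rfl⟩ ⟨b, hb, rfl⟩
    exact ⟨a * b, F.mul ha hb, map_mul f a b⟩

/-- Polynomials with coefficients in `F j`. -/
def Fil.mvp (F : Fil A) (σ : Type) : Fil (MvPolynomial σ A) where
  F j :=
    { carrier := {f | ∀ b, f.coeff b ∈ F.F j}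
      add_mem' := fun h1 h2 b => by
        rw [MvPolynomial.coeff_add]; exact add_mem (h1 b) (h2 b)
      zero_mem' := fun b => by simp
      neg_mem' := fun h b => by rw [MvPolynomial.coeff_neg]; exact neg_mem (h b) }
  mono h f hf b := F.mono h (hf b)
  one b := by
    classical
    rw [MvPolynomial.coeff_one]; split_ifs
    exacts [F.one, zero_mem _]
  mul h1 h2 b := by
    classical
    rw [MvPolynomial.coeff_mul]; exact sum_mem fun _ _ => F.mul (h1 _) (h2 _)

/-- Power series with coefficients in `F j`. -/
def Fil.ps (F : Fil A) : Fil (PowerSeries A) where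
  F j :=
    { carrier := {f | ∀ e, PowerSeries.coeff e f ∈ F.F j}
      add_mem' := fun h1 h2 b => by rw [map_add]; exact add_mem (h1 b) (h2 b)
      zero_mem' := fun b => by simp
      neg_mem' := fun h b => by rw [map_neg]; exact neg_mem (h b) }
  mono h f hf b := F.mono h (hf b)
  one b := by
    rw [PowerSeries.coeff_one]; split_ifs
    exacts [F.one, zero_mem _]
  mul h1 h2 b := by
    rw [PowerSeries.coeff_mul]; exact sum_mem fun _ _ => F.mul (h1 _) (h2 _)

/-- `S`-combinations of monomials in `y` of `w`-weight at most `j`. -/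
def Fil.wt (S : Subring A) {ι : Type} [Fintype ι] (y : ι → A) (w : ι → ℕ) : Fil A where
  F j := AddSubgroup.closure
    {f | ∃ c ∈ S, ∃ b : ι → ℕ, ∑ v, w v * b v ≤ j ∧ f = c * ∏ v, y v ^ b v}
  mono h := AddSubgroup.closure_mono fun _ ⟨c, hc, b, hb, e⟩ => ⟨c, hc, b, hb.trans h, e⟩
  one := AddSubgroup.subset_closure ⟨1, S.one_mem, 0, by simp, by simp⟩
  mul {i j a b} h1 h2 := by
    induction h1 using AddSubgroup.closure_induction with
    | zero => simp
    | add x y _ _ hx hy => rw [add_mul]; exact add_mem hx hy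
    | neg x _ hx => rw [neg_mul]; exact neg_mem hx
    | mem x hx =>
      induction h2 using AddSubgroup.closure_induction with
      | zero => simp
      | add x y _ _ hx hy => rw [mul_add]; exact add_mem hx hy
      | neg x _ hx => rw [mul_neg]; exact neg_mem hx
      | mem z hz =>
        obtain ⟨c, hc, b, hb, rfl⟩ := hx
        obtain ⟨c', hc', b', hb', rfl⟩ := hz
        refine AddSubgroup.subset_closure ⟨c * c', S.mul_mem hc hc', b + b', ?_, ?_⟩
        · simp only [Pi.add_apply, mul_add, Finset.sum_add_distrib]; omega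
        · simp only [Pi.add_apply, pow_add, Finset.prod_mul_distrib]; ring

/-- Elements `f` with `d ^ j * f ∈ S`. -/
def Fil.den (S : Subring A) {d : A} (hd : d ∈ S) : Fil A where
  F j :=
    { carrier := {f | d ^ j * f ∈ S}
      add_mem' := fun h1 h2 => by
        simp only [Set.mem_ofPred_eq, mul_add] at *; exact add_mem h1 h2
      zero_mem' := by simp
      neg_mem' := fun h => by simp only [Set.mem_ofPred_eq, mul_neg] at *; exact neg_mem h }
  mono {i j} h f hf := by
    obtain ⟨e, rfl⟩ := Nat.exists_eq_add_of_le h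
    change d ^ (i + e) * f ∈ S
    rw [add_comm, pow_add, mul_assoc]; exact S.mul_mem (S.pow_mem hd e) hf
  one := by change d ^ 0 * 1 ∈ S; simp
  mul {i j a b} h1 h2 := by
    change d ^ (i + j) * (a * b) ∈ S
    rw [pow_add, mul_mul_mul_comm]; exact S.mul_mem h1 h2

variable (p : ℕ) [Fact p.Prime]

/-- The components of level `l ≤ n` have weight at most `l * p ^ l`. -/
def WIn (n : ℕ) (F : Fil A) (z : WittVector p A) : Prop := ∀ l ≤ n, z.coeff l ∈ F.F (l * p ^ l)

end

/-- Jet variables: level and coordinate. -/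
abbrev JV (n D : ℕ) : Type := Fin (n + 1) × Fin D

/-- The scaling weight `p ^ l` of a jet variable of level `l`. -/
def sw (p : ℕ) {n D : ℕ} (v : JV n D) : ℕ := p ^ (v.1 : ℕ)

/-- Position of a jet variable in the elimination order. -/
def ordv {n D : ℕ} (v : JV n D) : ℕ := v.1 * D + v.2

/-- The ring of the perturbed jets. -/
abbrev Om (n D : ℕ) (B : Type u) [CommRing B] : Type u := PowerSeries (MvPolynomial (JV n D) B)

section

variable (p : ℕ) [Fact p.Prime] (n : ℕ) {D : ℕ} {B : Type u} [CommRing B]

/-- Constants. -/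
noncomputable def cOm (D : ℕ) (B : Type u) [CommRing B] : B →+* Om n D B :=
  PowerSeries.C.comp MvPolynomial.C

/-- The generic Witt vector with components the variables `(l, i)`, `l ≤ n`. -/
noncomputable def genW (B : Type u) [CommRing B] (i : Fin D) : WittVector p (Om n D B) :=
  WittVector.mk p fun l => if h : l < n + 1 then PowerSeries.C (MvPolynomial.X (⟨l, h⟩, i)) else 0

/-- The perturbed point `φ + [T] F`. -/
noncomputable def prt (φ : Fin D → WittVector p B) (i : Fin D) : WittVector p (Om n D B) :=
  WittVector.map (cOm n D B) (φ i) + teichmuller p PowerSeries.X * genW p n B i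

/-- Evaluation of a polynomial in the jet variables at the perturbed point. -/
noncomputable def Phi {k : Type u} [CommRing k] (c : k →+* B) (φ : Fin D → WittVector p B) :
    MvPolynomial (JV n D) k →+* Om n D B :=
  MvPolynomial.eval₂Hom ((cOm n D B).comp c) fun v => (prt p n φ v.2).coeff v.1

end

/-- The components of the invariant vector field on the Witt vectors. -/
noncomputable def dpoly (p : ℕ) : ℕ → MvPolynomial ℕ ℤ
  | 0 => 1
  | l + 1 => -∑ j : Fin (l + 1), MvPolynomial.X (j : ℕ) ^ (p ^ (l + 1 - j) - 1) * dpoly p j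
decreasing_by exact j.2

theorem dpoly_zero (p : ℕ) : dpoly p 0 = 1 := by rw [dpoly]

theorem dpoly_succ (p l : ℕ) : dpoly p (l + 1) =
    -∑ j : Fin (l + 1), MvPolynomial.X (j : ℕ) ^ (p ^ (l + 1 - j) - 1) * dpoly p j := by
  rw [dpoly]

/-- The invariant vector field in the direction of coordinate `i`. -/
noncomputable def Dv (p : ℕ) {n D : ℕ} (k : Type u) [CommRing k] (i : Fin D) :
    Derivation k (MvPolynomial (JV n D) k) (MvPolynomial (JV n D) k) :=
  MvPolynomial.mkDerivation k fun v => if v.2 = i then MvPolynomial.aeval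
    (fun j : ℕ => if h : j < n + 1 then MvPolynomial.X (⟨j, h⟩, i) else 0) (dpoly p v.1) else 0

/-- A polynomial viewed as a polynomial in the variable `y`. -/
noncomputable def toY {σ : Type} [DecidableEq σ] {k : Type u} [CommRing k] (y : σ) :
    MvPolynomial σ k →ₐ[k] Polynomial (MvPolynomial σ k) :=
  MvPolynomial.aeval fun v => if v = y then Polynomial.X else Polynomial.C (MvPolynomial.X v)

end Pool.Agent.P.MP_6f117a_ag.PJ
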