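import Pool.Agent.P.MP_6f117a_ag.PJ.Final

/-! Smooth hypersurfaces of degree at least `d + 3` in projective space of dimension `d + 1` are
of general type. -/

namespace Pool.Agent.P.MP_6f117a_ag.PJ

open MvPolynomial Module Mid

universe u

variable {L K : Type u} [Field L] [Field K] [Algebra L K] {d : ℕ}

namespace ExA

variable (D : Fin d → Derivation L K K) (y : Fin (d + 2) → K)

/-- The vector `u`, the point, and its derivatives. -/
def mat (u : Fin (d + 2) → K) : Matrix (Fin (d + 2)) (Fin (d + 2)) K :=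
  Matrix.of (Fin.cons u (Fin.cons y fun i b => D i (y b)))

theorem det_col {n : Type} [Fintype n] [DecidableEq n] {A : Matrix n n K} (B : Matrix n n K)
    (c : n → K) (k : n) (hk : c k = 0) (h : ∀ i j, A i j = B i j + c j * B i k) : A.det = B.det := by
  rw [← Matrix.det_transpose A, ← Matrix.det_transpose B]
  exact Matrix.det_eq_of_forall_row_eq_smul_add_const c k hk fun i j => h j i

theorem det_mat (σ : Equiv.Perm (Fin (d + 2))) (h : y (σ 1) ≠ 0) :
    (mat D y (Pi.single (σ 0) 1)).det = Equiv.Perm.sign σ * (y (σ 1) ^ (d + 1) *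
      (Matrix.of fun i s : Fin d => D i (y (σ s.succ.succ) / y (σ 1))).det) := by
  have h1 := Matrix.det_permute' σ (mat D y (Pi.single (σ 0) 1))
  have h2 : ((Equiv.Perm.sign σ : ℤ) : K) * (Equiv.Perm.sign σ : ℤ) = 1 := by
    rw [← Int.cast_mul, ← Units.val_mul, Int.units_mul_self]; simp
  suffices h3 : ((mat D y (Pi.single (σ 0) 1)).submatrix id σ).det = y (σ 1) ^ (d + 1) *
      (Matrix.of fun i s : Fin d => D i (y (σ s.succ.succ) / y (σ 1))).det by
    rw [← h3, h1, ← mul_assoc, h2, one_mul]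
  rw [Matrix.det_succ_row_zero, Fin.sum_univ_succ, Finset.sum_eq_zero fun s _ => by
    simp [mat, Fin.succ_ne_zero]]
  rw [det_col (Matrix.of fun r s =>
    Fin.cons (α := fun _ => K) (Fin.cons (α := fun _ => K) (y (σ 1)) (fun i => D i (y (σ 1))) r)
      (fun s => y (σ 1) * Fin.cons (α := fun _ => K) 0
        (fun i => D i (y (σ s.succ.succ) / y (σ 1))) r) s)
    (Fin.cons 0 fun s => y (σ s.succ.succ) / y (σ 1)) 0 rfl]
  · rw [Matrix.det_succ_row_zero, Fin.sum_univ_succ, Finset.sum_eq_zero fun s _ => by simp]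
    have := Matrix.det_smul (Matrix.of fun i s : Fin d => D i (y (σ s.succ.succ) / y (σ 1)))
      (y (σ 1))
    rw [Fintype.card_fin] at this
    rw [pow_succ' (y (σ 1)), mul_assoc (y (σ 1)), ← this]
    simp [mat]
    left; congr 1
  · intro r s
    refine Fin.cases ?_ (fun s => ?_) s
    · refine Fin.cases ?_ (fun i => ?_) r <;> simp [mat]
    · refine Fin.cases ?_ (fun i => ?_) r
      · simp [mat, h]
      · have := (D i).leibniz (y (σ 1)) (y (σ s.succ.succ) / y (σ 1))
        rw [mul_div_cancel₀ _ h] at this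
        simpa [mat] using this

theorem prop {F : MvPolynomial (Fin (d + 2)) L} {e : ℕ} (hF : F.IsHomogeneous e)
    (h : aeval y F = 0) (j b : Fin (d + 2)) :
    (mat D y (Pi.single j 1)).det * aeval y (pderiv b F) =
      aeval y (pderiv j F) * (mat D y (Pi.single b 1)).det := by
  have h1 : (mat D y (Pi.single j 1)).mulVec (fun b => aeval y (pderiv b F)) =
      Pi.single 0 (aeval y (pderiv j F)) := by
    funext r
    refine Fin.cases ?_ (fun r => Fin.cases ?_ (fun i => ?_) r) r
    · simp [mat, Matrix.mulVec]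
    · simpa [mat, Matrix.mulVec, dotProduct, mul_comm] using JacA.euler y hF h
    · have := JacA.chain (D i) y F
      rw [h, map_zero] at this
      simpa [mat, Matrix.mulVec, dotProduct, mul_comm] using this.symm
  have h2 := congrFun (congrArg (mat D y (Pi.single j 1)).adjugate.mulVec h1) b
  rw [Matrix.mulVec_mulVec, Matrix.adjugate_mul, Matrix.smul_mulVec, Matrix.one_mulVec,
    Matrix.mulVec_single, Pi.smul_apply, smul_eq_mul] at h2
  rw [h2, mul_comm]
  simp only [Pi.smul_apply, Matrix.col_apply, MulOpposite.smul_eq_mul_unop, MulOpposite.unop_op,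
    Matrix.adjugate_apply]
  congr 2
  ext r s
  refine Fin.cases ?_ (fun r => ?_) r <;> simp [mat, Matrix.updateRow_apply]

end ExA

open ExA in
theorem hyp_genType [IsAlgClosed L] [CharZero L] (F : MvPolynomial (Fin (d + 2)) L) (e : ℕ)
    (hF : F.IsHomogeneous e) (he : d + 3 ≤ e)
    (smooth : ∀ a : Fin (d + 2) → L, (∀ i, eval a (pderiv i F) = 0) → a = 0)
    (z : Fin (d + 2) → K) (hz : z ≠ 0) (hr : rat L z = ⊤) (ht : Algebra.trdeg L K = d)
    (hI : aeval z F = 0) : GenType L K := by
  obtain ⟨Q, c, hc, hy⟩ := pBASE L (pFB L) K d (d + 1) z hz hr ht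
  have hf : Form L Q.y = Form L z := hy ▸ ScaleA.form z hc
  have h0 : Form L Q.y F := hf ▸ ⟨⟨e, hF⟩, hI⟩
  have sm : ∀ a : Fin (d + 2) → L, a ≠ 0 → ∃ j, eval a (pderiv j F) ≠ 0 := fun a ha => by
    by_contra h
    exact ha (smooth a fun i => by_contra fun h' => h ⟨i, h'⟩)
  refine ⟨d, d + 2, Q.y, hy ▸ ((pSCALE L) K d _ z c hc).1 ⟨hz, hr, ht, fun a ha => ?_⟩, ?_⟩
  · obtain ⟨j, hj⟩ := sm a ha.1
    exact ⟨1, fun _ => F, fun _ => j, by omega, fun _ => hf ▸ h0, by simpa using hj⟩
  obtain ⟨D, hD, -⟩ := exists_basis_der (L := L) Q.x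
    (isTranscendenceBasis_iff_algebraicIndependent_isAlgebraic.2 ⟨Q.indx, Q.alg⟩)
  obtain ⟨j₁, hj₁⟩ : ∃ j, aeval Q.y (pderiv j F) ≠ 0 := by
    by_contra h
    refine bot_ne_top (pLOCG L K _ Q.y (Q.e 0) (Q.y0 ▸ one_ne_zero) ⊥ fun a ha _ => ?_)
    obtain ⟨j, hj⟩ := sm a ha.1
    exact absurd (ha.2 _ ⟨⟨_, hF.pderiv⟩, by_contra fun h' => h ⟨j, h'⟩⟩) hj
  set η := (mat D Q.y (Pi.single j₁ 1)).det / aeval Q.y (pderiv j₁ F) with hη
  have eη : ∀ j, η * aeval Q.y (pderiv j F) = (mat D Q.y (Pi.single j 1)).det := fun j => by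
    rw [hη, div_mul_eq_mul_div, prop D Q.y hF h0.2, mul_div_cancel_left₀ _ hj₁]
  have η0 : η ≠ 0 := by
    obtain ⟨σ, hσ⟩ := Equiv.Perm.exists_extending_pair (f := Fin.succ) (g := Q.e)
      (Fin.succ_injective _) fun i i' h => by
        have := Q.f_e i
        rw [h, Q.f_e, sub_right_inj] at this
        exact (Option.some.inj (X_injective this)).symm
    have e1 : Q.y (σ 1) = 1 := by rw [← Q.y0, ← hσ]; rfl
    refine left_ne_zero_of_mul (b := aeval Q.y (pderiv (σ 0) F)) ?_
    have e2 : (Matrix.of fun i s : Fin d => D i (Q.y (σ s.succ.succ) / Q.y (σ 1))) = 1 := by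
      ext i s
      rw [Matrix.of_apply, e1, div_one, hσ, Matrix.one_apply]
      exact (hD i s).trans (if_congr eq_comm rfl rfl)
    rw [eη, det_mat D Q.y σ (e1 ▸ one_ne_zero), e2, e1]
    rcases Int.units_eq_one_or (Equiv.Perm.sign σ) with h | h <;> simp [h]
  have key : ∀ i, η * Q.y i ∈ canSec L Q.y D 1 := fun i a ha => by
    obtain ⟨c, hc⟩ := Function.ne_iff.1 ha.1
    obtain ⟨j, hjc, hj⟩ : ∃ j, j ≠ c ∧ eval a (pderiv j F) ≠ 0 := by
      by_contra h
      have h' : ∀ j, j ≠ c → eval a (pderiv j F) = 0 := fun j h1 => by_contra fun h2 => h ⟨j, h1, h2⟩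
      have := JacA.euler (K := L) a hF (ha.2 F h0)
      rw [Finset.sum_eq_single c (fun j _ h1 => by simp [h' j h1]) (by simp)] at this
      refine ha.1 (smooth a fun j => ?_)
      rcases eq_or_ne j c with rfl | h1
      · simpa using (mul_eq_zero.1 this).resolve_right hc
      · exact h' j h1
    obtain ⟨σ, hσ⟩ := Equiv.Perm.exists_extending_pair (f := ![(0 : Fin (d + 2)), 1])
      (g := ![j, c]) (by simp [Function.Injective, Fin.forall_fin_two, zero_ne_one])
      (by simp [Function.Injective, Fin.forall_fin_two, hjc, hjc.symm])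
    obtain rfl : σ 0 = j := hσ 0
    obtain rfl : σ 1 = c := hσ 1
    have n1 : Q.y (σ 1) ≠ 0 := fun h => hc (by
      simpa using ha.2 (X (σ 1)) ⟨⟨_, isHomogeneous_X _ _⟩, by simpa using h⟩)
    have n2 : aeval Q.y (pderiv (σ 0) F) ≠ 0 := fun h => hj (ha.2 _ ⟨⟨_, hF.pderiv⟩, h⟩)
    refine AddSubgroup.subset_closure ⟨_, fun _ s => Q.y (σ s.succ.succ) / Q.y (σ 1),
      ⟨e - 1, C ((Equiv.Perm.sign σ : ℤ) : L) * (X i * X (Q.e 0) ^ (e - (d + 3)) *
        X (σ 1) ^ (d + 1)), pderiv (σ 0) F, ?_, hF.pderiv, hj, rfl⟩,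
      fun _ s => ⟨1, X (σ s.succ.succ), X (σ 1), isHomogeneous_X _ _, isHomogeneous_X _ _, by simpa using hc,
        by simp⟩, ?_⟩
    · convert (((isHomogeneous_X L i).mul (isHomogeneous_X_pow (Q.e 0) (e - (d + 3)))).mul
        (isHomogeneous_X_pow (σ 1) (d + 1))).C_mul _ using 1
      omega
    · have := eη (σ 0)
      rw [det_mat D Q.y σ n1] at this
      rw [eq_comm, div_mul_eq_mul_div, div_eq_iff n2]
      simp only [map_mul, map_pow, aeval_X, map_intCast, Q.y0, one_pow, mul_one,
        Fin.prod_univ_one]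
      linear_combination -Q.y i * this
  refine ⟨D, 1, η * Q.y (Q.e 0), fun i => η * Q.x i, one_pos, by simpa [Q.y0] using η0, key _,
    fun i => key _, ?_⟩
  simp only [Q.y0, mul_one, mul_div_cancel_left₀ _ η0]
  exact Q.indx

/-- In every dimension there is a function field of general type (Fermat hypersurfaces). -/
theorem exists_genType (L : Type u) [Field L] [IsAlgClosed L] [CharZero L] (d : ℕ) :
    ∃ (K : Type u) (_ : Field K) (_ : Algebra L K), Algebra.trdeg L K = d ∧ GenType L K := by
  let Ω := AlgebraicClosure (FractionRing (MvPolynomial (Fin d) L))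
  let x : Fin d → Ω := fun i => algebraMap (MvPolynomial (Fin d) L) Ω (X i)
  have hx : AlgebraicIndependent L x := by
    have := (algebraicIndependent_X (Fin d) L).map' (f := IsScalarTower.toAlgHom L _ Ω)
      ((algebraMap (FractionRing (MvPolynomial (Fin d) L)) Ω).injective.comp
        (IsFractionRing.injective _ _))
    exact this
  obtain ⟨w, hw⟩ := IsAlgClosed.exists_pow_nat_eq (-(1 + ∑ i, x i ^ (d + 3))) (n := d + 3) (by omega)
  let v : Fin (d + 2) → Ω := Fin.cons w (Fin.cons 1 x)
  let K := IntermediateField.adjoin L (Set.range v)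
  let z : Fin (d + 2) → K := fun b => ⟨v b, IntermediateField.subset_adjoin _ _ ⟨b, rfl⟩⟩
  have z1 : z 1 = 1 := rfl
  have top : IntermediateField.adjoin L (Set.range z) = ⊤ := by
    apply IntermediateField.map_injective K.val
    rw [IntermediateField.adjoin_map, ← Set.range_comp, ← AlgHom.fieldRange_eq_map,
      IntermediateField.fieldRange_val]
    rfl
  have hz : ∑ b, z b ^ (d + 3) = 0 := Subtype.ext (by
    simp only [Fin.sum_univ_succ, AddMemClass.coe_add, SubmonoidClass.coe_pow,
      AddSubmonoidClass.coe_finsetSum, z, v, Fin.cons_zero, Fin.cons_succ, hw, one_pow]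
    simp)
  have ht : Algebra.trdeg L K = d := by
    have h1 : AlgebraicIndependent L fun i : Fin d => z i.succ.succ := .of_comp K.val hx
    have h2 : IsTranscendenceBasis L fun i : Fin d => z i.succ.succ := by
      rw [isTranscendenceBasis_iff_algebraicIndependent_isAlgebraic,
        ← IntermediateField.isAlgebraic_adjoin_iff_top]
      refine ⟨h1, ?_⟩
      set E := IntermediateField.adjoin L (Set.range fun i : Fin d => z i.succ.succ)
      have hE : ∀ i : Fin d, z i.succ.succ ∈ E := fun i =>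
        IntermediateField.subset_adjoin _ _ ⟨i, rfl⟩
      have h3 : ∀ b, IsIntegral E (z b) := fun b => by
        refine Fin.cases ?_ (fun b => Fin.cases isIntegral_one
          (fun i => isIntegral_algebraMap (x := (⟨_, hE i⟩ : E))) b) b
        refine .of_pow (n := d + 3) (by omega) ?_
        rw [Fin.sum_univ_succ, Fin.sum_univ_succ] at hz
        rw [eq_neg_of_add_eq_zero_left hz]
        exact ((isIntegral_one.pow _).add (.sum _ fun i _ =>
          (isIntegral_algebraMap (x := (⟨_, hE i⟩ : E))).pow _)).neg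
      have h4 : (algebraicClosure E K).restrictScalars L = ⊤ :=
        top_le_iff.1 (top ▸ IntermediateField.adjoin_le_iff.2 (by rintro _ ⟨b, rfl⟩; exact h3 b))
      exact ⟨fun t => (show IsIntegral E t from
        (h4.ge (IntermediateField.mem_top (x := t)))).isAlgebraic⟩
    simpa using h2.lift_cardinalMk_eq_trdeg.symm
  refine ⟨K, inferInstance, inferInstance, ht, hyp_genType (∑ b, X b ^ (d + 3)) (d + 3)
    (.sum _ _ _ fun b _ => isHomogeneous_X_pow b _) le_rfl (fun a ha => funext fun i => ?_) z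
    (fun h => one_ne_zero (z1.symm.trans (congrFun h 1))) ?_ ht (by simpa using hz)⟩
  · have := ha i
    simp only [map_sum, Derivation.leibniz_pow, pderiv_X, Pi.single_apply, smul_eq_mul,
      mul_one, mul_zero, smul_zero, apply_ite, Finset.sum_ite_eq',
      Finset.mem_univ, if_true, nsmul_eq_mul, map_mul, map_natCast, map_pow, eval_X] at this
    exact pow_eq_zero_iff (n := d + 3 - 1) (by omega) |>.1
      ((mul_eq_zero.1 this).resolve_left (Nat.cast_ne_zero.2 (by omega)))
  · exact top_le_iff.1 (top ▸ IntermediateField.adjoin.mono _ _ _ (by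
      rintro _ ⟨b, rfl⟩; exact ⟨b, 1, by rw [z1, div_one]⟩))

/-- Points are of general type. -/
theorem point_genType [IsAlgClosed L] (ht : Algebra.trdeg L K = 0) : GenType L K := by
  have := trdeg_eq_zero_iff.1 ht
  have hs := (IsAlgClosed.algebraMap_bijective_of_isIntegral (k := L) (K := K)).2
  have : Subsingleton (Derivation L K K) := ⟨fun a b => Derivation.ext fun t => by
    obtain ⟨t, rfl⟩ := hs t; simp⟩
  refine ⟨0, 1, fun _ => 1, ⟨fun h => one_ne_zero (congrFun h 0), top_le_iff.1 fun t _ => ?_,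
    by simpa using ht, fun a _ => ⟨0, Fin.elim0, Fin.elim0, rfl, fun i => i.elim0, by simp⟩⟩,
    Basis.empty _, 1, 1, Fin.elim0, one_pos, one_ne_zero, fun a _ => ?_, fun i => i.elim0,
    algebraicIndependent_empty_type⟩
  · obtain ⟨t, rfl⟩ := hs t
    exact IntermediateField.algebraMap_mem _ t
  · exact AddSubgroup.subset_closure ⟨1, fun _ => Fin.elim0,
      ⟨0, 1, 1, isHomogeneous_one _ _, isHomogeneous_one _ _, by simp, by simp⟩,
      fun _ j => j.elim0, by simp⟩

/-- Smooth plane curves of degree at least four are hyperbolic. -/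
theorem plane_hyperbolic [IsAlgClosed L] [CharZero L] (F : MvPolynomial (Fin 3) L) (e : ℕ)
    (hF : F.IsHomogeneous e) (he : 4 ≤ e)
    (smooth : ∀ a : Fin 3 → L, (∀ i, eval a (pderiv i F) = 0) → a = 0) :
    Hyperbolic' fun _ : Unit => F := by
  intro K _ _ x hx h0 hr
  have fg : (⊤ : IntermediateField L K).FG := by
    rw [← hr]
    refine IntermediateField.fg_adjoin_of_finite
      ((Set.finite_range fun q : Fin 3 × Fin 3 => x q.1 / x q.2).subset ?_)
    rintro _ ⟨i, j, rfl⟩
    exact ⟨(i, j), rfl⟩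
  obtain ⟨s, hs⟩ := fg
  have : Algebra.IsAlgebraic (Algebra.adjoin L (s : Set K)) K := by
    rw [← IntermediateField.isAlgebraic_adjoin_iff_top, hs]
    infer_instance
  obtain ⟨n, hn⟩ := Cardinal.lt_aleph0.1 ((Algebra.IsAlgebraic.trdeg_le_cardinalMk L (s : Set K)).trans_lt
    s.finite_toSet.lt_aleph0)
  obtain _ | _ | n := n
  · exact point_genType (by simpa using hn)
  · exact hyp_genType (d := 1) F e hF he smooth x hx hr hn (h0 ())
  obtain ⟨Q, c, hc, hy⟩ := pBASE L (pFB L) K _ 2 x hx hr hn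
  have inj : Function.Injective Q.e := fun i i' h => by
    have := Q.f_e i
    rw [h, Q.f_e, sub_right_inj] at this
    exact (Option.some.inj (X_injective this)).symm
  obtain rfl : n = 0 := by have := Fintype.card_le_of_injective _ inj; simp at this; omega
  let σ := Equiv.ofBijective _ (Finite.injective_iff_bijective.1 inj)
  have := pCONE L K _ (fun i => Q.y (Q.e i)) Q.y0 Q.indx (rename σ.symm F) e
    hF.rename_isHomogeneous (by
      rw [aeval_rename, show (fun i => Q.y (Q.e i)) ∘ σ.symm = Q.y from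
        funext fun i => congrArg Q.y (σ.apply_symm_apply i), hy, JacA.scale _ _ hF, h0 (), mul_zero])
  obtain rfl : F = 0 := rename_injective _ σ.symm.injective (this.trans (map_zero _).symm)
  exact absurd (smooth 1 (by simp)) one_ne_zero

end Pool.Agent.P.MP_6f117a_ag.PJ
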