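import Pool.Agent.P.MP_6f117a_ag.PJ.FIface

/-! The case of a point. -/

namespace Pool.Agent.P.MP_6f117a_ag.PJ

open MvPolynomial Module
open scoped IntermediateField

universe u

theorem t_A0 (L : Type u) [Field L] [IsAlgClosed L] [CharZero L] (hHT : S_HT L) : S_A0 L := by
  intro K _ _ N z hz _ htr
  have halg : Algebra.IsAlgebraic L K := by
    rw [← trdeg_eq_zero_iff]; exact htr
  obtain ⟨i0, hi0⟩ : ∃ i, z i ≠ 0 := Function.ne_iff.1 hz
  have hsurj : Function.Surjective (algebraMap L K) :=
    (IsAlgClosed.algebraMap_bijective_of_isIntegral (k := L) (K := K)).2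
  choose c hc using fun k => hsurj (z k / z i0)
  refine ⟨0, 0, 1, isHomogeneous_one _ _, by simp, ?_⟩
  intro K' _ _ _ ξ hξ hon _
  have hk : ∀ k, ξ k = algebraMap L K' (c k) * ξ i0 := by
    intro k
    have hF : Form L z (X k - C (c k) * X i0) := by
      refine ⟨⟨1, (isHomogeneous_X L k).sub ?_⟩, ?_⟩
      · simpa using (isHomogeneous_C (Fin (N + 1)) (c k)).mul (isHomogeneous_X L i0)
      · simp only [map_sub, map_mul, aeval_X, aeval_C, hc]
        field_simp
        ring
    have := hon _ hF
    simp only [map_sub, map_mul, aeval_X, aeval_C] at this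
    exact sub_eq_zero.1 this
  have h0 : ξ i0 ≠ 0 := by
    intro h
    apply hξ
    funext k
    rw [hk k, h, mul_zero]; rfl
  have := (hHT K' N ξ hξ).2.2.2 i0 0 h0 (fun j hj => by
    exfalso
    apply hj
    rw [hk j, mul_div_assoc, div_self h0, mul_one]
    exact isAlgebraic_algebraMap _)
  simpa using this

end Pool.Agent.P.MP_6f117a_ag.PJ
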