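import Pool.Agent.P.MP_6f117a_ag.PJ.FIface

/-! Curves on a surface that lie on a fixed hypersurface have bounded degree. -/

namespace Pool.Agent.P.MP_6f117a_ag.PJ

open MvPolynomial Module

universe u

namespace TBEZ

/-- A point of projective space with values in a function field of one variable. -/
structure Pt (L : Type u) [Field L] (n : ℕ) where
  K : Type u
  [fld : Field K]
  [alg : Algebra L K]
  [ff : FF L K]
  ξ : Fin (n + 1) → K
  ne : ξ ≠ 0

attribute [instance] Pt.fld Pt.alg Pt.ff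

end TBEZ

open TBEZ in
theorem t_BEZ (L : Type u) [Field L] [IsAlgClosed L] [CharZero L] (hNOE : S_NOE.{u, u + 1} L)
    (hGEN : S_GEN L) (hTD : S_TD L) (hBZ1 : S_BZ1 L) : S_BEZ L := by
  intro K _ _ n z G e hK hG hz
  obtain ⟨J, -, hJ, hJz⟩ := (hGEN (n + 1)).2 K z
  choose P hP1 hP2 hP3 using fun c : Pt L n => (hGEN (n + 1)).2 c.K c.ξ
  obtain ⟨β, hβ⟩ := hNOE (n + 1) (Pt L n) P
    (fun b c => degree L c.ξ ≤ b * finrank (rat L c.ξ) c.K) (J ⊔ Ideal.span {G}) hP1 hP2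
    (fun a b c h h' => h'.trans (by gcongr)) fun I hI hp hh => by
      by_cases hX : ∃ i, X i ∉ I
      · obtain ⟨K₁, _, _, x, hx, hr, hxI⟩ := (hGEN (n + 1)).1 I hp hh hX
        have h1 : Algebra.trdeg L K₁ ≤ (1 : ℕ) := hTD K K₁ (n + 1) 1 z x G e hx
          (fun F ⟨⟨d, hd⟩, hF⟩ => (hxI F d hd).2 (hI (Ideal.mem_sup_left ((hJz F d hd).1 hF))))
          hG hz ((hxI G e hG).2 (hI (Ideal.mem_sup_right (Ideal.mem_span_singleton_self G))))
          (by exact_mod_cast hK) hr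
        obtain ⟨β, hβ⟩ := hBZ1 K₁ n x hx hr (by exact_mod_cast h1)
        exact ⟨β, 1, (Ideal.ne_top_iff_one I).1 hp.ne_top, fun c hc _ => hβ c.K c.ξ c.ne
          fun F ⟨⟨d, hd⟩, hF⟩ => (hP3 c F d hd).2 (hc ((hxI F d hd).1 hF))⟩
      · push Not at hX
        refine ⟨0, 1, (Ideal.ne_top_iff_one I).1 hp.ne_top, fun c hc _ =>
          absurd (funext fun i => ?_) c.ne⟩
        simpa using (hP3 c _ 1 (isHomogeneous_X L i)).2 (hc (hX i))
  refine ⟨β, fun K' _ _ _ ξ h0 h1 h2 => hβ ⟨K', ξ, h0⟩ (sup_le (fun F hF => ?_) ?_)⟩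
  · rw [← sum_homogeneousComponent F]
    exact Ideal.sum_mem _ fun d _ => (hP3 _ _ d (homogeneousComponent_isHomogeneous d F)).1
      (h1 _ ⟨⟨d, homogeneousComponent_isHomogeneous d F⟩,
        (hJz _ d (homogeneousComponent_isHomogeneous d F)).2 (hJ F hF d)⟩)
  · exact (Ideal.span_singleton_le_iff_mem _).2 ((hP3 _ G e hG).1 h2)

end Pool.Agent.P.MP_6f117a_ag.PJ
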