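import Pool.Agent.P.MP_6f117a_ag.PJ.FIface

/-! Birational invariance of the linear degree bound. -/

namespace Pool.Agent.P.MP_6f117a_ag.PJ

open MvPolynomial

universe u

namespace TBIR

variable {L : Type u} [Field L] {K : Type u} [Field K] [Algebra L K]

theorem frac {M : ℕ} (x : Fin M → K) (k : K) (hk : k ∈ rat L x) :
    ∃ (n : ℕ) (A B : MvPolynomial (Fin M) L), A.IsHomogeneous n ∧ B.IsHomogeneous n ∧
      aeval x B ≠ 0 ∧ k * aeval x B = aeval x A := by
  unfold rat at hk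
  induction hk using IntermediateField.adjoin_induction with
  | mem k hk =>
    obtain ⟨i, j, rfl⟩ := hk
    by_cases h : x j = 0
    · exact ⟨0, 0, 1, isHomogeneous_zero _ _ _, isHomogeneous_one _ _, by simp, by simp [h]⟩
    · exact ⟨1, X i, X j, isHomogeneous_X L i, isHomogeneous_X L j, by simpa using h,
        by simp [h]⟩
  | algebraMap c =>
    exact ⟨0, C c, 1, isHomogeneous_C _ _, isHomogeneous_one _ _, by simp, by simp⟩
  | add a b _ _ ha hb =>
    obtain ⟨n, A, B, h1, h2, h3, h4⟩ := ha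
    obtain ⟨m, A', B', h5, h6, h7, h8⟩ := hb
    refine ⟨n + m, A * B' + B * A', B * B', (h1.mul h6).add (h2.mul h5), h2.mul h6,
      by rw [map_mul]; exact mul_ne_zero h3 h7, ?_⟩
    rw [map_add, map_mul, map_mul, map_mul, ← h4, ← h8]
    ring
  | inv a _ ha =>
    obtain ⟨n, A, B, h1, h2, h3, h4⟩ := ha
    by_cases h0 : a = 0
    · exact ⟨0, 0, 1, isHomogeneous_zero _ _ _, isHomogeneous_one _ _, by simp, by simp [h0]⟩
    · refine ⟨n, B, A, h2, h1, by rw [← h4]; exact mul_ne_zero h0 h3, ?_⟩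
      rw [← h4, ← mul_assoc, inv_mul_cancel₀ h0, one_mul]
  | mul a b _ _ ha hb =>
    obtain ⟨n, A, B, h1, h2, h3, h4⟩ := ha
    obtain ⟨m, A', B', h5, h6, h7, h8⟩ := hb
    refine ⟨n + m, A * A', B * B', h1.mul h5, h2.mul h6,
      by rw [map_mul]; exact mul_ne_zero h3 h7, ?_⟩
    rw [map_mul, map_mul, ← h4, ← h8]
    ring

theorem common {M : ℕ} (x : Fin M → K) {κ : Type} (e : κ → K) (he : ∀ k, e k ∈ rat L x)
    (s : Finset κ) : ∃ (n : ℕ) (B : MvPolynomial (Fin M) L), B.IsHomogeneous n ∧ aeval x B ≠ 0 ∧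
      ∀ k ∈ s, ∃ A : MvPolynomial (Fin M) L, A.IsHomogeneous n ∧ e k * aeval x B = aeval x A := by
  classical
  induction s using Finset.induction_on with
  | empty => exact ⟨0, 1, isHomogeneous_one _ _, by simp, by simp⟩
  | insert i s _ ih =>
    obtain ⟨n, B, h1, h2, h3⟩ := ih
    obtain ⟨m, A', B', h5, h6, h7, h8⟩ := frac x (e i) (he i)
    refine ⟨n + m, B * B', h1.mul h6, by rw [map_mul]; exact mul_ne_zero h2 h7, fun k hk => ?_⟩
    rcases Finset.mem_insert.mp hk with rfl | hk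
    · exact ⟨B * A', h1.mul h5, by rw [map_mul, map_mul, ← h8]; ring⟩
    · obtain ⟨A, h9, h10⟩ := h3 k hk
      exact ⟨A * B', h9.mul h6, by rw [map_mul, map_mul, ← h10]; ring⟩

theorem scale {M e : ℕ} {F : MvPolynomial (Fin M) L} (hF : F.IsHomogeneous e) (t : K)
    (y : Fin M → K) : aeval (fun i => t * y i) F = t ^ e * aeval y F := by
  classical
  rw [aeval_def, aeval_def, eval₂_eq', eval₂_eq', Finset.mul_sum]
  refine Finset.sum_congr rfl fun d hd => ?_
  have h1 : ∑ i, d i = e := by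
    have h2 := hF (mem_support_iff.mp hd)
    rw [← h2, Finsupp.weight_apply, Finsupp.sum_fintype _ _ (by simp)]
    simp
  simp only [mul_pow, Finset.prod_mul_distrib, Finset.prod_pow_eq_pow_sum, h1]
  ring

theorem aeval_sub {M N : ℕ} (P : Fin M → MvPolynomial (Fin N) L) (F : MvPolynomial (Fin M) L)
    (y : Fin N → K) : aeval y (aeval P F) = aeval (fun k => aeval y (P k)) F := by
  rw [← AlgHom.comp_apply, comp_aeval]

end TBIR

open TBIR

theorem t_BIR (L : Type u) [Field L] [IsAlgClosed L] [CharZero L] (hHT : S_HT L) : S_BIR L := by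
  intro K _ _ N n z x hz hx hrz hrx hLV
  obtain ⟨α, e, G, hG, hzG, hb⟩ := hLV
  obtain ⟨k0, hk0⟩ := Function.ne_iff.mp hz
  obtain ⟨i0, hi0⟩ := Function.ne_iff.mp hx
  replace hk0 : z k0 ≠ 0 := hk0
  replace hi0 : x i0 ≠ 0 := hi0
  obtain ⟨a, Q, -, hQ, hP⟩ := common (L := L) x (fun k => z k / z k0)
    (fun k => by rw [hrx]; trivial) Finset.univ
  choose P hP1 hP2 using fun k => hP k (Finset.mem_univ k)
  obtain ⟨b, S, hS1, hS, hR⟩ := common (L := L) z (fun i => x i / x i0)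
    (fun k => by rw [hrz]; trivial) Finset.univ
  choose R hR1 hR2 using fun k => hR k (Finset.mem_univ k)
  set t : K := aeval x Q / z k0 with ht
  have ht0 : t ≠ 0 := div_ne_zero hQ hk0
  have hPx : (fun k => aeval x (P k)) = fun k => t * z k := by
    funext k
    rw [← hP2 k, ht]
    ring
  have hsub : ∀ (F : MvPolynomial (Fin (N + 1)) L) (d : ℕ), F.IsHomogeneous d →
      (aeval P F : MvPolynomial (Fin (n + 1)) L).IsHomogeneous (a * d) ∧
        aeval x (aeval P F : MvPolynomial (Fin (n + 1)) L) = t ^ d * aeval z F := by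
    intro F d hF
    exact ⟨hF.aeval P hP1, by rw [aeval_sub, hPx, scale hF]⟩
  refine ⟨b * α, a * e + a * b + a + 1, aeval P G * aeval P S * P k0 * X i0,
    (((hsub G e hG).1.mul (hsub S b hS1).1).mul (hP1 k0)).mul (isHomogeneous_X L i0), ?_, ?_⟩
  · rw [map_mul, map_mul, map_mul, (hsub G e hG).2, (hsub S b hS1).2, congrFun hPx k0, aeval_X]
    exact mul_ne_zero (mul_ne_zero (mul_ne_zero (mul_ne_zero (pow_ne_zero _ ht0) hzG)
      (mul_ne_zero (pow_ne_zero _ ht0) hS)) (mul_ne_zero ht0 hk0)) hi0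
  intro K' _ _ _ ξ' hξ' hon hne
  rw [map_mul, map_mul, map_mul, aeval_sub, aeval_sub, aeval_X] at hne
  set ξ : Fin (N + 1) → K' := fun k => aeval ξ' (P k) with hξ
  have h4 : ξ' i0 ≠ 0 := right_ne_zero_of_mul hne
  have h3 : ξ k0 ≠ 0 := right_ne_zero_of_mul (left_ne_zero_of_mul hne)
  have h2 : aeval ξ S ≠ 0 :=
    right_ne_zero_of_mul (left_ne_zero_of_mul (left_ne_zero_of_mul hne))
  have h1 : aeval ξ G ≠ 0 :=
    left_ne_zero_of_mul (left_ne_zero_of_mul (left_ne_zero_of_mul hne))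
  have hξ0 : ξ ≠ 0 := fun h => h3 (congrFun h k0)
  have honz : OnV L z ξ := by
    rintro F ⟨⟨d, hF⟩, hF0⟩
    have h5 := hon (aeval P F) ⟨⟨_, (hsub F d hF).1⟩, by rw [(hsub F d hF).2, hF0, mul_zero]⟩
    rwa [aeval_sub] at h5
  have hdeg := hb K' ξ hξ0 honz h1
  have hrel : ξ' = fun i => (ξ' i0 / aeval ξ S) * aeval ξ (R i) := by
    funext i
    have h5 := hon (X i * aeval P S - X i0 * aeval P (R i))
      ⟨⟨1 + a * b, ((isHomogeneous_X L i).mul (hsub S b hS1).1).sub
        ((isHomogeneous_X L i0).mul (hsub (R i) b (hR1 i)).1)⟩, by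
        rw [map_sub, map_mul, map_mul, (hsub S b hS1).2, (hsub (R i) b (hR1 i)).2, aeval_X,
          aeval_X, ← hR2 i]
        field_simp
        ring⟩
    rw [map_sub, map_mul, map_mul, aeval_sub, aeval_sub, aeval_X, aeval_X, ← hξ] at h5
    field_simp
    linear_combination h5
  have hRne : (fun i => aeval ξ (R i)) ≠ 0 := by
    intro h
    apply h4
    rw [congrFun hrel i0, congrFun h i0, Pi.zero_apply, mul_zero]
  have h6 := (hHT K' n (fun i => aeval ξ (R i)) hRne).2.1 (ξ' i0 / aeval ξ S) (div_ne_zero h4 h2)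
  have h7 := (hHT K' N ξ hξ0).2.2.1 n b R hR1 hRne
  rw [← hrel] at h6
  rw [h6]
  refine h7.trans ?_
  push_cast
  rw [mul_assoc]
  exact mul_le_mul_of_nonneg_left hdeg (Int.natCast_nonneg b)

end Pool.Agent.P.MP_6f117a_ag.PJ
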