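import Pool.Agent.P.MP_6f117a_ag.PJ.FIface

/-! Points of a fixed curve have degree bounded by a multiple of the degree of the covering. -/

namespace Pool.Agent.P.MP_6f117a_ag.PJ

open MvPolynomial Module
open scoped IntermediateField

universe u

namespace TBZ1

variable {L K K' : Type u} [Field L] [Field K] [Algebra L K] [Field K'] [Algebra L K']

theorem hom_eval {n d : ℕ} {F : MvPolynomial (Fin n) L} (hF : F.IsHomogeneous d) (s : K)
    (z : Fin n → K) : aeval (fun i => s * z i) F = s ^ d * aeval z F := by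
  simp only [aeval_def, eval₂_eq, Finset.mul_sum]
  refine Finset.sum_congr rfl fun m hm => ?_
  have h : ∑ i ∈ m.support, m i = d := by
    simpa [Finsupp.weight_apply, Finsupp.sum] using hF (mem_support_iff.1 hm)
  simp only [mul_pow, Finset.prod_mul_distrib, Finset.prod_pow_eq_pow_sum, h]
  ring

theorem hom_div {n d : ℕ} {F : MvPolynomial (Fin n) L} (hF : F.IsHomogeneous d)
    (z : Fin n → K) (i : Fin n) (hi : z i ≠ 0) :
    aeval (fun j => z j / z i) F = 0 ↔ aeval z F = 0 := by
  have : (fun j => z j / z i) = fun j => (z i)⁻¹ * z j := by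
    funext j; rw [div_eq_inv_mul]
  rw [this, hom_eval hF, mul_eq_zero, or_iff_right (pow_ne_zero _ (inv_ne_zero hi))]

theorem rat_eq {n : ℕ} (z : Fin n → K) (i : Fin n) (hi : z i ≠ 0) :
    rat L z = IntermediateField.adjoin L (Set.range fun j => z j / z i) := by
  refine le_antisymm (IntermediateField.adjoin_le_iff.2 ?_)
    (IntermediateField.adjoin.mono _ _ _ ?_)
  · rintro _ ⟨j, k, rfl⟩
    have e : z j / z k = (z j / z i) / (z k / z i) := by rw [div_div_div_cancel_right₀ hi]
    rw [e]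
    exact div_mem (IntermediateField.subset_adjoin _ _ ⟨j, rfl⟩)
      (IntermediateField.subset_adjoin _ _ ⟨k, rfl⟩)
  · rintro _ ⟨j, rfl⟩
    exact ⟨j, i, rfl⟩

theorem homog {n : ℕ} (i : Fin n) (F : MvPolynomial (Fin n) L) :
    ∃ (H : MvPolynomial (Fin n) L) (D : ℕ), H.IsHomogeneous D ∧
      ∀ (E : Type u) [Field E] [Algebra L E] (y : Fin n → E), y i = 1 → aeval y H = aeval y F := by
  refine ⟨∑ k ∈ Finset.range (F.totalDegree + 1),
    X i ^ (F.totalDegree - k) * homogeneousComponent k F, F.totalDegree,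
    IsHomogeneous.sum _ _ _ fun k hk => ?_, fun E _ _ y hy => ?_⟩
  · have h := ((isHomogeneous_X L i).pow (F.totalDegree - k)).mul
      (homogeneousComponent_isHomogeneous k F)
    rwa [one_mul, Nat.sub_add_cancel (Nat.lt_succ_iff.1 (Finset.mem_range.1 hk))] at h
  · conv_rhs => rw [← sum_homogeneousComponent F]
    simp [hy]

theorem transfer {n : ℕ} (x : Fin n → K) (ξ : Fin n → K') (i : Fin n) (hx : x i ≠ 0)
    (hξ : ξ i ≠ 0) (h : ∀ (G : MvPolynomial (Fin n) L) e, G.IsHomogeneous e → aeval x G = 0 →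
      aeval ξ G = 0) (F : MvPolynomial (Fin n) L) (hF : aeval (fun j => x j / x i) F = 0) :
    aeval (fun j => ξ j / ξ i) F = 0 := by
  obtain ⟨H, D, hH, e⟩ := homog i F
  rw [← e K _ (div_self hx), hom_div hH _ _ hx] at hF
  rw [← e K' _ (div_self hξ), hom_div hH _ _ hξ]
  exact h H D hH hF

theorem exists_hom {ι : Type} (a : ι → K) (b : ι → K')
    (ha : IntermediateField.adjoin L (Set.range a) = ⊤)
    (h : ∀ F : MvPolynomial ι L, aeval a F = 0 ↔ aeval b F = 0) :
    ∃ φ : K →ₐ[L] K', ∀ j, φ (a j) = b j := by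
  let f : MvPolynomial ι L →ₐ[L] K := aeval a
  have : IsFractionRing f.range K := IsFractionRing.of_field _ _ fun z => by
    obtain ⟨r, s, e⟩ := (IntermediateField.mem_adjoin_range_iff L a z).1
      (ha ▸ IntermediateField.mem_top)
    exact ⟨⟨_, r, rfl⟩, ⟨_, s, rfl⟩, e⟩
  have hs : Function.Surjective f.rangeRestrict := f.rangeRestrict_surjective
  have hk : RingHom.ker f.rangeRestrict.toRingHom ≤
      RingHom.ker (aeval b : MvPolynomial ι L →ₐ[L] K').toRingHom := fun F hF =>
    (h F).1 (congrArg Subtype.val hF)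
  let g : f.range →ₐ[L] K' := AlgHom.liftOfSurjective _ hs (aeval b) hk
  have hg : ∀ F, g (f.rangeRestrict F) = aeval b F := AlgHom.liftOfSurjective_apply _ hs _ hk
  have gi : Function.Injective g := (injective_iff_map_eq_zero g).2 fun r hr => by
    obtain ⟨F, rfl⟩ := hs r
    exact Subtype.ext ((h F).2 (hg F ▸ hr))
  refine ⟨IsFractionRing.liftAlgHom gi, fun j => ?_⟩
  have e : a j = algebraMap f.range K (f.rangeRestrict (X j)) := (aeval_X a j).symm
  rw [e, IsFractionRing.liftAlgHom_apply, IsFractionRing.lift_algebraMap]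
  exact (hg _).trans (aeval_X b j)

theorem finrank_map (φ : K →ₐ[L] K') (S : IntermediateField L K) :
    finrank (S.map φ) K' = finrank S K * finrank φ.fieldRange K' := by
  let : Algebra K K' := φ.toAlgebra
  have h1 : finrank K K' = finrank φ.fieldRange K' :=
    Algebra.finrank_eq_of_equiv_equiv φ.equivFieldRange.toRingEquiv (RingEquiv.refl K')
      (by ext; rfl)
  have h2 : finrank S K' = finrank (S.map φ) K' :=
    Algebra.finrank_eq_of_equiv_equiv (S.equivMap φ).toRingEquiv (RingEquiv.refl K')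
      (by ext; rfl)
  rw [← h1, ← h2, finrank_mul_finrank]

end TBZ1

open TBZ1 in
theorem t_BZ1 (L : Type u) [Field L] [IsAlgClosed L] [CharZero L] (hHT : S_HT L) (hTD : S_TD L) :
    S_BZ1 L := by
  intro K _ _ n x _ hx h1
  obtain ⟨b, hb⟩ : ∃ b : ℕ, ∀ j i, finrank L⟮x j / x i⟯ K ≤ b := by
    obtain ⟨b, hb⟩ := (Set.finite_range fun p : Fin (n + 1) × Fin (n + 1) =>
      finrank L⟮x p.1 / x p.2⟯ K).bddAbove
    exact ⟨b, fun j i => hb ⟨(j, i), rfl⟩⟩
  refine ⟨(n + 1) * b, fun K' _ _ _ ξ ξ0 hξ => ?_⟩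
  obtain ⟨i, hi⟩ := Function.ne_iff.1 ξ0
  have hi : ξ i ≠ 0 := hi
  have H := (hHT K' n ξ ξ0).2.2.2 i
  have hE := rat_eq (L := L) ξ i hi
  by_cases hA : ∃ (G : MvPolynomial (Fin (n + 1)) L) (e : ℕ), G.IsHomogeneous e ∧
      aeval x G ≠ 0 ∧ aeval ξ G = 0
  · obtain ⟨G, e, hG, Gx, Gξ⟩ := hA
    let y : Fin (n + 1) → rat L ξ := fun j =>
      ⟨ξ j / ξ i, IntermediateField.subset_adjoin _ _ ⟨j, i, rfl⟩⟩
    have hy : ∀ F : MvPolynomial (Fin (n + 1)) L,
        ((aeval y F : rat L ξ) : K') = aeval (fun j => ξ j / ξ i) F := fun F =>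
      comp_aeval_apply y (rat L ξ).val F
    have yi : y i = 1 := Subtype.ext (div_self hi)
    have hy0 : ∀ (F : MvPolynomial (Fin (n + 1)) L) (d : ℕ), F.IsHomogeneous d → aeval ξ F = 0 →
        aeval y F = 0 := fun F d hF h0 =>
      Subtype.ext ((hy F).trans ((hom_div hF ξ i hi).2 h0))
    have ht : rat L y = ⊤ := by
      apply IntermediateField.map_injective (rat L ξ).val
      rw [rat_eq y i (yi ▸ one_ne_zero), IntermediateField.adjoin_map, ← Set.range_comp,
        ← AlgHom.fieldRange_eq_map, IntermediateField.fieldRange_val]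
      refine Eq.trans ?_ hE.symm
      congr 2
      funext j
      simp [yi, y]
    have h0 := hTD K (rat L ξ) (n + 1) 0 x y G e
      (fun h => one_ne_zero (yi.symm.trans (congrFun h i)))
      (fun F hF => hF.1.elim fun d hd => hy0 F d hd (hξ F hF)) hG Gx (hy0 G e hG Gξ)
      (by simpa using h1) ht
    have hal : Algebra.IsAlgebraic L (rat L ξ) := trdeg_eq_zero_iff.1 (by simpa using h0)
    have h2 := H 0 hi fun j hj => (hj ((hal.isAlgebraic (y j)).algHom (rat L ξ).val)).elim
    refine h2.trans ?_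
    simp only [Nat.cast_zero, mul_zero]
    positivity
  · have hB : ∀ (G : MvPolynomial (Fin (n + 1)) L) e, G.IsHomogeneous e → aeval ξ G = 0 →
        aeval x G = 0 := fun G e hG h0 => by_contra fun h => hA ⟨G, e, hG, h, h0⟩
    have hB' : ∀ (G : MvPolynomial (Fin (n + 1)) L) e, G.IsHomogeneous e → aeval x G = 0 →
        aeval ξ G = 0 := fun G e hG h0 => hξ G ⟨⟨e, hG⟩, h0⟩
    have xi : x i ≠ 0 := fun h => hi (by
      simpa using hB' (X i) 1 (isHomogeneous_X L i) (by simpa using h))
    obtain ⟨φ, hφ⟩ := exists_hom (L := L) (fun j => x j / x i) (fun j => ξ j / ξ i)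
      ((rat_eq x i xi).symm.trans hx) fun F =>
        ⟨transfer x ξ i xi hi hB' F, transfer ξ x i hi xi hB F⟩
    have hr : φ.fieldRange = rat L ξ := by
      rw [AlgHom.fieldRange_eq_map, ← hx, rat_eq x i xi, IntermediateField.adjoin_map,
        ← Set.range_comp, hE]
      congr 2
      funext j
      exact hφ j
    have h2 := H (b * finrank (rat L ξ) K') hi fun j _ => by
      have e : L⟮ξ j / ξ i⟯ = L⟮x j / x i⟯.map φ := by
        rw [IntermediateField.adjoin_map, Set.image_singleton, hφ j]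
      rw [e, finrank_map, hr]
      exact Nat.mul_le_mul_right _ (hb j i)
    refine h2.trans_eq ?_
    push_cast
    ring

end Pool.Agent.P.MP_6f117a_ag.PJ
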