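import Pool.Agent.P.MP_6f117a_ag.PJ.FIface

/-! Homogeneous primes and points. -/

namespace Pool.Agent.P.MP_6f117a_ag.PJ

open MvPolynomial Module

universe u

namespace TGEN

variable {L : Type u} [Field L]

theorem aeval_scale {A : Type u} [CommRing A] [Algebra L A] {n : ℕ} {F : MvPolynomial (Fin n) L}
    {d : ℕ} (hF : F.IsHomogeneous d) (t : A) (x : Fin n → A) :
    aeval (fun i => x i * t) F = aeval x F * t ^ d := by
  rw [aeval_def, aeval_def, eval₂_eq', eval₂_eq', Finset.sum_mul]
  refine Finset.sum_congr rfl fun m hm => ?_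
  have hdeg : m.degree = d := by
    by_contra hc
    exact mem_support_iff.1 hm (hF.coeff_eq_zero hc)
  simp only [mul_pow, Finset.prod_mul_distrib, Finset.prod_pow_eq_pow_sum,
    ← Finsupp.degree_eq_sum, hdeg]
  ring

variable {K : Type u} [Field K] [Algebra L K] {n : ℕ}

/-- Evaluation at the generic multiple of a point. -/
noncomputable def ev (L : Type u) [Field L] [Algebra L K] (x : Fin n → K) :
    MvPolynomial (Fin n) L →ₐ[L] Polynomial K :=
  aeval fun i => Polynomial.C (x i) * Polynomial.X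

theorem ev_hom (x : Fin n → K) {F : MvPolynomial (Fin n) L} {d : ℕ} (hF : F.IsHomogeneous d) :
    ev L x F = Polynomial.C (aeval x F) * Polynomial.X ^ d := by
  rw [ev, aeval_scale hF]
  congr 1
  exact (MvPolynomial.comp_aeval_apply x
    ((Polynomial.CAlgHom (R := K) (A := K)).restrictScalars L) F).symm

theorem coeff_ev (x : Fin n → K) (F : MvPolynomial (Fin n) L) (e : ℕ) :
    (ev L x F).coeff e = aeval x (homogeneousComponent e F) := by
  conv_lhs => rw [← sum_homogeneousComponent F]
  rw [map_sum, Polynomial.finsetSum_coeff]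
  simp only [ev_hom x (homogeneousComponent_isHomogeneous _ F), Polynomial.coeff_C_mul_X_pow]
  rw [Finset.sum_ite_eq]
  split_ifs with h
  · rfl
  · rw [homogeneousComponent_eq_zero _ _ (by simpa using h), map_zero]

theorem rat_top (y : Fin n → K) {i₀ : Fin n} (h : y i₀ ≠ 0) :
    ∃ x : Fin n → rat L y, (∀ i, (x i : K) = y i / y i₀) ∧ rat L x = ⊤ := by
  have mem : ∀ k l, y k / y l ∈ rat L y := fun k l =>
    IntermediateField.subset_adjoin _ _ ⟨k, l, rfl⟩
  refine ⟨fun i => ⟨_, mem i i₀⟩, fun _ => rfl, ?_⟩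
  apply IntermediateField.map_injective (rat L y).val
  rw [← AlgHom.fieldRange_eq_map, IntermediateField.fieldRange_val]
  refine (IntermediateField.adjoin_map _ _ _).trans (congrArg (IntermediateField.adjoin L) ?_)
  ext w
  constructor
  · rintro ⟨_, ⟨k, l, rfl⟩, rfl⟩
    exact ⟨k, l, by simp [div_div_div_cancel_right₀ h]⟩
  · rintro ⟨k, l, rfl⟩
    exact ⟨_, ⟨k, l, rfl⟩, by simp [div_div_div_cancel_right₀ h]⟩

end TGEN

open TGEN in
theorem t_GEN (L : Type u) [Field L] [IsAlgClosed L] [CharZero L] : S_GEN L := by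
  intro n
  refine ⟨fun I hI _ ⟨i₀, hi⟩ => ?_, fun K _ _ x => ⟨RingHom.ker (ev L x),
    RingHom.ker_isPrime _, fun F hF e => ?_, fun F e hF => ?_⟩⟩
  · let K₀ := FractionRing (MvPolynomial (Fin n) L ⧸ I)
    let φ : MvPolynomial (Fin n) L →ₐ[L] K₀ :=
      (IsScalarTower.toAlgHom L (MvPolynomial (Fin n) L ⧸ I) K₀).comp (Ideal.Quotient.mkₐ L I)
    have hφ : ∀ F, φ F = 0 ↔ F ∈ I := fun F =>
      (map_eq_zero_iff _ (IsFractionRing.injective (MvPolynomial (Fin n) L ⧸ I) K₀)).trans
        Ideal.Quotient.eq_zero_iff_mem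
    have h0 : φ (X i₀) ≠ 0 := fun h => hi ((hφ _).1 h)
    obtain ⟨x, h1, h2⟩ := rat_top (L := L) (fun i => φ (X i)) h0
    refine ⟨rat L fun i => φ (X i), inferInstance, inferInstance, x, fun h => ?_, h2,
      fun F e hF => ?_⟩
    · have := h1 i₀
      rw [h, div_self h0] at this
      exact zero_ne_one this
    · have e1 : (rat L fun i => φ (X i)).val (aeval x F) = φ F * (φ (X i₀))⁻¹ ^ e := by
        have e2 : φ F = aeval (fun i => φ (X i)) F := DFunLike.congr_fun (aeval_unique φ) F
        rw [MvPolynomial.comp_aeval_apply, e2, ← aeval_scale hF]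
        congr 2
        funext i
        exact (h1 i).trans (div_eq_mul_inv _ _)
      rw [← map_eq_zero (rat L fun i => φ (X i)).val, e1, mul_eq_zero, hφ,
        or_iff_left (pow_ne_zero _ (inv_ne_zero h0))]
  · rw [RingHom.mem_ker] at hF ⊢
    rw [ev_hom x (homogeneousComponent_isHomogeneous e F), ← coeff_ev, hF]
    simp
  · rw [RingHom.mem_ker, ev_hom x hF, mul_eq_zero, Polynomial.C_eq_zero,
      or_iff_left (pow_ne_zero _ Polynomial.X_ne_zero)]

end Pool.Agent.P.MP_6f117a_ag.PJ
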