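import Pool.Agent.P.MP_6f117a_ag.PJ.FIface

/-! Hyperbolic implies algebraically hyperbolic. -/

namespace Pool.Agent.P.MP_6f117a_ag.PJ

open MvPolynomial Module

universe u

namespace THYP

/-- A map from a curve to projective space. -/
structure Cu (L : Type u) [Field L] (n : ℕ) where
  K : Type u
  [fld : Field K]
  [alg : Algebra L K]
  [ff : FF L K]
  ξ : Fin (n + 1) → K
  ne : ξ ≠ 0

attribute [instance] Cu.fld Cu.alg Cu.ff

end THYP

open THYP in
theorem t_HYP (L : Type u) [Field L] [IsAlgClosed L] [CharZero L] (hAP : S_AP L) (hA0 : S_A0 L)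
    (hBIR : S_BIR L) (hNOE : S_NOE.{u, u + 1} L) (hGEN : S_GEN L) : S_HYP L := by
  intro n ι G hG hH
  choose P hP1 hP2 hP3 using fun c : Cu L n => (hGEN (n + 1)).2 c.K c.ξ
  obtain ⟨α, hα⟩ := hNOE (n + 1) (Cu L n) P (fun a c => degree L c.ξ ≤ a * genus L c.K)
    (Ideal.span (Set.range G)) hP1 hP2
    (fun a b c hab h => h.trans (by gcongr)) fun I hI0 hI hI' => by
      by_cases hX : ∃ i, X i ∉ I
      · obtain ⟨K, _, _, x, hx, hr, hker⟩ := (hGEN (n + 1)).1 I hI hI' hX
        obtain ⟨d, M, z, hs, hb⟩ := hH K x hx (fun t => by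
          obtain ⟨e, he⟩ := hG t
          exact (hker _ e he).2 (hI0 (Ideal.subset_span ⟨t, rfl⟩))) hr
        obtain ⟨N, rfl⟩ : ∃ N, M = N + 1 := by
          cases M with
          | zero => exact absurd (Subsingleton.elim _ _) hs.1
          | succ N => exact ⟨N, rfl⟩
        have hz : LV L z := by
          rcases Nat.eq_zero_or_pos d with rfl | hd
          · exact hA0 K N z hs.1 hs.2.1 (by simpa using hs.2.2.1)
          · exact hAP K d N z hd hs hb
        obtain ⟨a, e, F, hF, hF0, H⟩ := hBIR K N n z x hs.1 hx hs.2.1 hr hz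
        refine ⟨a, F, fun h => hF0 ((hker F e hF).2 h), fun c hc hc' => H c.K c.ξ c.ne
          (fun F' hF' => ?_) fun h => hc' ((hP3 c F e hF).1 h)⟩
        obtain ⟨e', he'⟩ := hF'.1
        exact (hP3 c F' e' he').2 (hc ((hker F' e' he').1 hF'.2))
      · push Not at hX
        refine ⟨0, 1, (Ideal.ne_top_iff_one I).1 hI.ne_top, fun c hc _ => absurd ?_ c.ne⟩
        funext i
        simpa using (hP3 c (X i) 1 (isHomogeneous_X L i)).2 (hc (hX i))
  refine ⟨α, fun K _ _ h1 h2 x hx hx0 => ?_⟩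
  have := FF.of_fg h1 h2.le
  have key := hα ⟨K, x, hx⟩ (Ideal.span_le.2 (by
    rintro _ ⟨t, rfl⟩
    obtain ⟨e, he⟩ := hG t
    exact (hP3 ⟨K, x, hx⟩ _ e he).1 (hx0 t)))
  exact_mod_cast key

end Pool.Agent.P.MP_6f117a_ag.PJ
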