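import Pool.Agent.P.MP_6f117a_ag.PJ.FIface

/-! Noetherian induction over homogeneous primes. -/

namespace Pool.Agent.P.MP_6f117a_ag.PJ

open MvPolynomial

universe u v

namespace TNOE

variable {L : Type u} [Field L] {n : ℕ}

/-- The ideal generated by the homogeneous components of the elements of `I`. -/
noncomputable def hull (I : Ideal (MvPolynomial (Fin n) L)) : Ideal (MvPolynomial (Fin n) L) :=
  Ideal.span {G | ∃ F ∈ I, ∃ e, homogeneousComponent e F = G}

theorem le_hull (I : Ideal (MvPolynomial (Fin n) L)) : I ≤ hull I := fun F hF => by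
  rw [← sum_homogeneousComponent F]
  exact Ideal.sum_mem _ fun e _ => Ideal.subset_span ⟨F, hF, e, rfl⟩

theorem hull_le {I P : Ideal (MvPolynomial (Fin n) L)} (hP : Hom P) (h : I ≤ P) : hull I ≤ P :=
  Ideal.span_le.2 fun _ ⟨F, hF, e, he⟩ => he ▸ hP F (h hF) e

end TNOE

open TNOE

theorem t_NOE (L : Type u) [Field L] [IsAlgClosed L] [CharZero L] : S_NOE.{u, v} L := by
  intro n C P B I₀ hP hH hB h
  suffices H : ∀ I : Ideal (MvPolynomial (Fin n) L), I₀ ≤ I → ∃ α, ∀ c, I ≤ P c → B α c from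
    H I₀ le_rfl
  intro I
  induction I using IsNoetherian.induction with
  | hgt I ih =>
    intro hI
    have key : ∀ G ∉ I, ∃ α, ∀ c, I ≤ P c → G ∈ P c → B α c := fun G hG => by
      obtain ⟨α, hα⟩ := ih (I ⊔ Ideal.span {G}) (lt_of_le_of_ne le_sup_left fun e =>
        hG (e ▸ Ideal.mem_sup_right (Ideal.mem_span_singleton_self G))) (hI.trans le_sup_left)
      exact ⟨α, fun c h1 h2 => hα c (sup_le h1 ((Ideal.span_singleton_le_iff_mem _).2 h2))⟩
    by_cases ht : I = ⊤
    · exact ⟨0, fun c hc => ((hP c).ne_top (top_le_iff.1 (ht ▸ hc))).elim⟩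
    by_cases hp : Ideal.IsPrime I
    · by_cases hh : hull I = I
      · obtain ⟨α, G, hG, hα⟩ := h I hI hp fun F hF e => hh ▸ Ideal.subset_span ⟨F, hF, e, rfl⟩
        obtain ⟨β, hβ⟩ := key G hG
        refine ⟨max α β, fun c hc => ?_⟩
        by_cases hc' : G ∈ P c
        · exact hB _ _ c (le_max_right _ _) (hβ c hc hc')
        · exact hB _ _ c (le_max_left _ _) (hα c hc hc')
      · obtain ⟨α, hα⟩ := ih (hull I) (lt_of_le_of_ne (le_hull I) (Ne.symm hh))
          (hI.trans (le_hull I))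
        exact ⟨α, fun c hc => hα c (hull_le (hH c) hc)⟩
    · obtain ⟨a, ha, b, hb, hab⟩ := (Ideal.not_isPrime_iff.1 hp).resolve_left ht
      obtain ⟨α, hα⟩ := key a ha
      obtain ⟨β, hβ⟩ := key b hb
      refine ⟨max α β, fun c hc => ?_⟩
      rcases (hP c).mem_or_mem (hc hab) with h1 | h1
      · exact hB _ _ c (le_max_left _ _) (hα c hc h1)
      · exact hB _ _ c (le_max_right _ _) (hβ c hc h1)

end Pool.Agent.P.MP_6f117a_ag.PJ
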