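import Pool.Agent.P.MP_6f117a_ag.PJ.FIface
import Pool.Agent.P.MP_6f117a_ag.SBnd2

/-! The two statements on surfaces. -/

namespace Pool.Agent.P.MP_6f117a_ag.PJ

open MvPolynomial Module

universe u

namespace TSURF

variable {L : Type u} [Field L] {K : Type u} [Field K] [Algebra L K]

theorem aeval_scale {n : ℕ} {F : MvPolynomial (Fin n) L} {d : ℕ} (hF : F.IsHomogeneous d) (t : K)
    (x : Fin n → K) : aeval (t • x) F = t ^ d * aeval x F := by
  rw [aeval_def, aeval_def, eval₂_eq', eval₂_eq', Finset.mul_sum]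
  refine Finset.sum_congr rfl fun m hm => ?_
  have hdeg : m.degree = d := by
    by_contra hc
    exact mem_support_iff.1 hm (hF.coeff_eq_zero hc)
  simp only [Pi.smul_apply, smul_eq_mul, mul_pow, Finset.prod_mul_distrib,
    Finset.prod_pow_eq_pow_sum, ← Finsupp.degree_eq_sum, hdeg]
  ring

variable [IsAlgClosed L] [CharZero L]

theorem rank_le {n : ℕ} {K₀ : Type u} [Field K₀] [Algebra L K₀] {z : Fin (n + 1) → K₀}
    (hN : ∀ (K' : Type u) [Field K'] [Algebra L K'], (⊤ : IntermediateField L K').FG →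
      Algebra.trdeg L K' = 1 → genus L K' ≤ 1 → ∀ ξ : Fin (n + 1) → K', ξ ≠ 0 → OnV L z ξ →
        ∃ (c : Fin (n + 1) → L) (g : K'), ∀ i, ξ i = c i • g)
    [FF L K] (h2 : Algebra.trdeg L K = 1) {x : Fin (n + 1) → K} (hx : x ≠ 0)
    (hF0 : OnV L z x) : finrank (rat L x) K ≤ 2 * genus L K := by
  by_cases hE : rat L x = ⊥
  · rw [hE, IntermediateField.finrank_bot', finrank_of_not_finite fun h => ?_]
    · omega
    · rw [trdeg_eq_zero_iff.2 inferInstance] at h2
      exact zero_ne_one h2
  refine Surf.pBND2 L K _ hE ?_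
  by_contra hg
  obtain ⟨i, hi⟩ := Function.ne_iff.1 hx
  have hi : x i ≠ 0 := hi
  have mem : ∀ k l, x k / x l ∈ rat L x := fun k l =>
    IntermediateField.subset_adjoin _ _ ⟨k, l, rfl⟩
  have fg : (⊤ : IntermediateField L (rat L x)).FG := by
    rw [IntermediateField.fg_top_iff, IntermediateField.essFiniteType_iff]
    refine IntermediateField.fg_adjoin_of_finite
      ((Set.finite_range fun p : Fin (n + 1) × Fin (n + 1) => x p.1 / x p.2).subset ?_)
    rintro _ ⟨k, l, rfl⟩
    exact ⟨(k, l), rfl⟩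
  have tr : Algebra.trdeg L (rat L x) = 1 := by
    refine le_antisymm (h2 ▸ trdeg_le_of_injective (rat L x).val Subtype.val_injective) ?_
    rw [Cardinal.one_le_iff_ne_zero, Ne, trdeg_eq_zero_iff]
    intro h
    refine hE (eq_bot_iff.2 fun w hw => ?_)
    rcases const_or_trans (L := L) w with ⟨c, hc⟩ | ht
    · exact IntermediateField.mem_bot.2 ⟨c, hc⟩
    · exact absurd ((h.isAlgebraic ⟨w, hw⟩).algHom (rat L x).val) ht
  obtain ⟨c, g, hc⟩ := hN (rat L x) fg tr (by omega) (fun k => ⟨_, mem k i⟩)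
    (fun e => by simpa [hi] using congrArg Subtype.val (congrFun e i))
    fun G hG => (map_eq_zero (rat L x).val).1 ((MvPolynomial.comp_aeval_apply _ _ _).trans (by
      obtain ⟨e, he⟩ := hG.1
      have := aeval_scale he (x i)⁻¹ x
      rw [hF0 G hG, mul_zero] at this
      rw [← this]
      congr 2
      funext k
      simp [div_eq_inv_mul]))
  have hc' : ∀ k, x k / x i = c k • (g : K) := fun k => congrArg Subtype.val (hc k)
  have g0 : (g : K) ≠ 0 := fun e => by simpa [e, hi] using hc' i
  refine hE (eq_bot_iff.2 (IntermediateField.adjoin_le_iff.2 ?_))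
  rintro _ ⟨k, l, rfl⟩
  refine IntermediateField.mem_bot.2 ⟨c k / c l, ?_⟩
  rw [← div_div_div_cancel_right₀ hi, hc', hc', Algebra.smul_def, Algebra.smul_def,
    mul_div_mul_right _ _ g0, map_div₀]

end TSURF

open TSURF in
theorem t_SURF (L : Type u) [Field L] [IsAlgClosed L] [CharZero L] (hBEZ : S_BEZ L) :
    S_SURF L := by
  rintro K₀ _ _ n z hz ⟨α, e, G, hG, hG0, H⟩
  obtain ⟨β, hβ⟩ := hBEZ K₀ n z G e hz hG hG0
  refine ⟨⟨α, β, fun K _ _ h1 h2 x hx hF0 hr => ?_⟩,
    fun hN => ⟨α + 2 * β, fun K _ _ h1 h2 x hx hF0 => ?_⟩⟩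
  · have := FF.of_fg h1 h2.le
    have key : degree L x ≤ α * genus L K + β := by
      by_cases h : aeval x G = 0
      · have := hβ K x hx hF0 h
        rw [hr, IntermediateField.finrank_top] at this
        have : (0 : ℤ) ≤ α * genus L K := by positivity
        omega
      · have := H K x hx hF0 h
        omega
    exact_mod_cast key
  · have := FF.of_fg h1 h2.le
    have key : degree L x ≤ (α + 2 * β) * genus L K := by
      by_cases h : aeval x G = 0
      · have h3 := hβ K x hx hF0 h
        have h4 : (finrank (rat L x) K : ℤ) ≤ 2 * genus L K := by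
          exact_mod_cast rank_le hN h2 hx hF0
        have h5 := mul_le_mul_of_nonneg_left h4 (Int.natCast_nonneg β)
        have : (0 : ℤ) ≤ α * genus L K := by positivity
        linarith
      · have := H K x hx hF0 h
        have : (0 : ℤ) ≤ β * genus L K := by positivity
        linarith
    exact_mod_cast key

end Pool.Agent.P.MP_6f117a_ag.PJ
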