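import Pool.Agent.P.MP_6f117a_ag.PJ.THT
import Pool.Agent.P.MP_6f117a_ag.PJ.TA0
import Pool.Agent.P.MP_6f117a_ag.PJ.TBIR
import Pool.Agent.P.MP_6f117a_ag.PJ.TNOE
import Pool.Agent.P.MP_6f117a_ag.PJ.TGEN
import Pool.Agent.P.MP_6f117a_ag.PJ.THYP
import Pool.Agent.P.MP_6f117a_ag.PJ.TTD
import Pool.Agent.P.MP_6f117a_ag.PJ.TBZ1
import Pool.Agent.P.MP_6f117a_ag.PJ.TBEZ
import Pool.Agent.P.MP_6f117a_ag.PJ.TSURF

/-! The final theorems, from the theorem on smooth models. -/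

namespace Pool.Agent.P.MP_6f117a_ag.PJ

universe u

variable (L : Type u) [Field L] [IsAlgClosed L] [CharZero L]

theorem hyp_of_ap (h : S_AP L) : S_HYP L :=
  t_HYP L h (t_A0 L (t_HT L)) (t_BIR L (t_HT L)) (t_NOE L) (t_GEN L)

theorem surf_all : S_SURF L :=
  t_SURF L (t_BEZ L (t_NOE L) (t_GEN L) (t_TD L) (t_BZ1 L (t_HT L) (t_TD L)))

theorem lv_of_ap (h : S_AP L) (K : Type u) [Field K] [Algebra L K] (n : ℕ) (x : Fin (n + 1) → K)
    (hx : x ≠ 0) (hr : rat L x = ⊤) (hK : GenType L K) : LV L x := by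
  obtain ⟨d, M, z, h1, h2⟩ := hK
  obtain _ | N := M
  · exact absurd (Subsingleton.elim _ _) h1.1
  refine t_BIR L (t_HT L) K N n z x h1.1 hx h1.2.1 hr ?_
  obtain _ | d := d
  · exact t_A0 L (t_HT L) K N z h1.1 h1.2.1 (by simpa using h1.2.2.1)
  · exact h K _ N z (by omega) h1 h2

end Pool.Agent.P.MP_6f117a_ag.PJ
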