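import Pool.Agent.P.MP_6f117a_ag.PJ.Basic

/-! Existence of sections by slicing, the numerical estimate, triangular substitutions. -/

namespace Pool.Agent.P.MP_6f117a_ag.PJ

open Module

/-- Generators `g a` of a multigraded ring, `g a` in degree `e (blk a)`. -/
structure BD (K ι : Type) (r : ℕ) where
  blk : ι → Fin r
  g : ι → K

/-- The sum of the absolute values. -/
def nrm {r : ℕ} (n : Fin r → ℤ) : ℕ := ∑ j, (n j).natAbs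

namespace BD

variable (k : Type) {K ι : Type} [Field k] [Field K] [Algebra k K] [Fintype ι] {r : ℕ}
  (B : BD K ι r)

/-- The part of multidegree `n`. -/
def Bn (n : Fin r → ℤ) : Submodule k K := Submodule.span k {f | ∃ b : ι → ℕ,
  (∀ j, ∑ a ∈ Finset.univ.filter fun a => B.blk a = j, (b a : ℤ) = n j) ∧ f = ∏ a, B.g a ^ b a}

/-- A chart: one nonzero generator in each block. -/
def Chart : Type := {α : Fin r → ι // ∀ j, B.blk (α j) = j ∧ B.g (α j) ≠ 0}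

/-- The coordinate ring of a chart. -/
def Rc (α : B.Chart) : Subalgebra k K :=
  Algebra.adjoin k (Set.range fun a => B.g a / B.g (α.1 (B.blk a)))

/-- The local generator in multidegree `n`. -/
def gc (α : B.Chart) (n : Fin r → ℤ) : K := ∏ j, B.g (α.1 j) ^ n j

/-- The contribution of a graded piece of multidegree `n`. -/
noncomputable def psi (n₀ : ℕ) (n : Fin r → ℤ) : ℤ :=
  if ∀ j, (n₀ : ℤ) ≤ n j then finrank k (B.Bn k n)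
  else -finrank k (B.Bn k fun _ => (2 * n₀ + 2 * nrm n : ℕ))

/-- Families that are compatible modulo `θ`. -/
def Zc (θ : K) (n : Fin r → ℤ) (f : B.Chart → K) : Prop :=
  (∀ α, ∃ x ∈ B.Rc k α, f α = B.gc α n * x) ∧ ∀ α α', ∃ N : ℕ, ∃ y ∈ B.Rc k α,
    (B.gc α' 1 / B.gc α 1) ^ N * (f α - f α') = θ * B.gc α (n - 1) * y

/-- Families that vanish modulo `θ`. -/
def Z0 (θ : K) (n : Fin r → ℤ) (f : B.Chart → K) : Prop :=
  ∀ α, ∃ y ∈ B.Rc k α, f α = θ * B.gc α (n - 1) * y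

/-- Sections on the slice `θ = 0` form a space of dimension at most `h`. -/
def Zb (θ : K) (n : Fin r → ℤ) (h : ℕ) : Prop :=
  ∃ φ : (B.Chart → K) →ₗ[k] (Fin h → k), ∀ f, B.Zc k θ n f → φ f = 0 → B.Z0 k θ n f

variable {E β : Type} [AddCommGroup E] [Module K E] [LinearOrder β] (𝒜 : Finset β)

/-- Global sections of the twist by `n` of the bundle with local frames `ξ`. -/
def Gam (ξ : B.Chart → β → E) (n : Fin r → ℤ) (v : E) : Prop :=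
  ∀ α, ∃ c : β → K, (∀ a, c a ∈ B.Rc k α) ∧ v = B.gc α n • ∑ a ∈ 𝒜, c a • ξ α a

/-- Triangular local frames that glue. -/
def Frames (e : β → E) (lam : β → Fin r → ℤ) (ξ : B.Chart → β → E) : Prop :=
  LinearIndependent K e ∧
  (∀ α, ∀ a ∈ 𝒜, ξ α a - B.gc α (lam a) • e a ∈ Submodule.span K (e '' Set.Iio a)) ∧
  ∀ α α', ∀ a ∈ 𝒜, ∃ (N : ℕ) (c : β → K), (∀ a, c a ∈ B.Rc k α) ∧
    (B.gc α' 1 / B.gc α 1) ^ N • ξ α' a = ∑ b ∈ 𝒜, c b • ξ α b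

end BD

/-- Vanishing of local cohomology in high degrees. -/
def S_E1 : Prop := ∀ (k K ι : Type) [Field k] [Field K] [Algebra k K] [Fintype ι] (r : ℕ)
  (B : BD K ι r), ∀ θ ∈ B.Bn k 1, ∀ θ' ∈ B.Bn k 1, ∃ n₀ : ℕ, ∀ n : Fin r → ℤ,
    (∀ j, (n₀ : ℤ) ≤ n j) → ∀ f ∈ B.Bn k n,
    (∀ α, ∃ x ∈ B.Rc k α, ∃ y ∈ B.Rc k α, f = B.gc α (n - 1) * (θ * x + θ' * y)) →
      ∃ x ∈ B.Bn k (n - 1), ∃ y ∈ B.Bn k (n - 1), f = θ * x + θ' * y

/-- Linear forms that are nonzero divisors on the slice. -/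
def S_E2 : Prop := ∀ (k K ι : Type) [Field k] [Infinite k] [Field K] [Algebra k K] [Fintype ι]
  (r : ℕ) (B : BD K ι r), ∀ θ ∈ B.Bn k 1, ∀ j, ∃ l ∈ B.Bn k (Pi.single j 1), ∀ α,
    ∀ x ∈ B.Rc k α, (∃ y ∈ B.Rc k α, l / B.g (α.1 j) * x = θ / B.gc α 1 * y) →
      ∃ y ∈ B.Rc k α, x = θ / B.gc α 1 * y

/-- Sections on the slice. -/
def S_E3 : Prop := ∀ (k K ι : Type) [Field k] [Infinite k] [Field K] [Algebra k K] [Fintype ι]
  (r : ℕ) (B : BD K ι r), ∀ θ ∈ B.Bn k 1, θ ≠ 0 → ∃ n₀ : ℕ, ∀ n u : Fin r → ℤ, n ≤ u →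
    (∀ j, (n₀ : ℤ) ≤ u j) → ∃ h : ℕ,
      h + finrank k (B.Bn k (u - 1)) ≤ finrank k (B.Bn k u) ∧ B.Zb k θ n h

/-- One slicing step. -/
def S_E4 : Prop := ∀ (k K ι : Type) [Field k] [Field K] [Algebra k K] [Fintype ι] (r : ℕ)
  (B : BD K ι r) (E β : Type) [AddCommGroup E] [Module K E] [Module k E] [IsScalarTower k K E]
  [LinearOrder β] (𝒜 : Finset β) (e : β → E) (lam : β → Fin r → ℤ) (ξ : B.Chart → β → E),
  B.Frames k 𝒜 e lam ξ → ∀ θ ∈ B.Bn k 1, θ ≠ 0 → Nonempty B.Chart →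
  ∀ (n : Fin r → ℤ) (h : β → ℕ), (∀ a ∈ 𝒜, B.Zb k θ (n + lam a) (h a)) →
    ∃ Ψ : E →ₗ[k] (Fin (∑ a ∈ 𝒜, h a) → k), ∀ v, B.Gam k 𝒜 ξ n v → Ψ v = 0 →
      ∃ v', B.Gam k 𝒜 ξ (n - 1) v' ∧ v = θ • v'

/-- Many sections in a very positive twist. -/
def S_E5 : Prop := ∀ (k K ι : Type) [Field k] [Field K] [Algebra k K] [Fintype ι] (r : ℕ)
  (B : BD K ι r) (E β : Type) [AddCommGroup E] [Module K E] [Module k E] [IsScalarTower k K E]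
  [LinearOrder β] (𝒜 : Finset β) (e : β → E) (lam : β → Fin r → ℤ) (ξ : B.Chart → β → E),
  B.Frames k 𝒜 e lam ξ → ∀ n : Fin r → ℤ, ∃ N₀ : ℕ, ∀ N : ℕ, N₀ ≤ N → ∃ W : Submodule k E,
    FiniteDimensional k W ∧ (∀ v ∈ W, B.Gam k 𝒜 ξ (n + fun _ => (N : ℤ)) v) ∧
      ∑ a ∈ 𝒜, finrank k (B.Bn k (n + (fun _ => (N : ℤ)) + lam a)) ≤ finrank k W

/-- Existence of a section. -/
def S_EABS : Prop := ∀ (k K ι : Type) [Field k] [Infinite k] [Field K] [Algebra k K] [Fintype ι]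
  (r : ℕ) (B : BD K ι r), Nonempty B.Chart → ∃ n₀ : ℕ, ∀ (E β : Type) [AddCommGroup E]
  [Module K E] [LinearOrder β] (𝒜 : Finset β) (e : β → E) (lam : β → Fin r → ℤ)
  (ξ : B.Chart → β → E), B.Frames k 𝒜 e lam ξ → ∀ n : Fin r → ℤ,
    0 < ∑ a ∈ 𝒜, B.psi k n₀ (n + lam a) → ∃ v ≠ 0, B.Gam k 𝒜 ξ n v

/-- Exponent vectors of weight at most `m`. -/
def IdxW {σ : Type} [Fintype σ] [DecidableEq σ] (w : σ → ℕ) (m : ℕ) : Finset (σ → ℕ) :=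
  (Fintype.piFinset fun _ => Finset.range (m + 1)).filter fun a => ∑ v, w v * a v ≤ m

/-- The weight `l * p ^ l` of a jet variable of level `l ≥ 1`. -/
def wtv (p : ℕ) {n : ℕ} {τ : Type} (v : Fin n × τ) : ℕ := (v.1 + 1) * p ^ ((v.1 : ℕ) + 1)

/-- The multidegree of the `s`-th quotient of the flag. -/
def lamS {D : ℕ} (s : Fin D) (j : Fin (D + 1)) : ℤ :=
  (if (j : ℕ) = s + 1 then 1 else 0) - (if (j : ℕ) = s + 2 then 1 else 0) -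
    if (j : ℕ) = 0 then 1 else 0

/-- The multidegree of a jet monomial. -/
def lamA (p : ℕ) {n D : ℕ} (a : Fin n × Fin D → ℕ) (j : Fin (D + 1)) : ℤ :=
  ∑ v, (p ^ ((v.1 : ℕ) + 1) * a v : ℕ) * lamS v.2 j

/-- The twist in which a section is sought. -/
def tgt (D q β t : ℕ) (j : Fin (D + 1)) : ℤ :=
  if (j : ℕ) = 0 then β * (1 + q * D) - t else if (j : ℕ) = 1 then β - β * q else β

/-- Generating functions. -/
def S_GEO : Prop := ∀ (σ : Type) [Fintype σ] [DecidableEq σ] (w : σ → ℕ), (∀ v, 0 < w v) →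
  ∀ θ : ℝ, 0 < θ → θ < 1 → ∀ M : ℕ,
  (∀ τ : σ → ℝ, (∀ v, 0 ≤ τ v) → (∀ v, θ ^ w v * τ v < 1) →
    ∑ m ∈ Finset.range (M + 1), θ ^ m * ∑ a ∈ IdxW w m, ∏ v, τ v ^ a v ≤
      (1 - θ)⁻¹ * ∏ v, (1 - θ ^ w v * τ v)⁻¹) ∧
  ∀ s : ℝ, 1 ≤ s → θ * s < 1 →
    (1 - θ)⁻¹ * ∏ v, (1 - θ ^ w v)⁻¹ ≤ ∑ m ∈ Finset.range (M + 1), θ ^ m * (IdxW w m).card +
      (s ^ M)⁻¹ * ((1 - θ * s)⁻¹ * ∏ v, (1 - (θ * s) ^ w v)⁻¹)

/-- The numerical estimate. -/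
def S_PROB : Prop := ∀ d q C : ℕ, 0 < q → ∃ n c : ℕ, ∀ p n₀ : ℕ, 2 ≤ p → ∃ m β t : ℕ,
  0 < t ∧ t ≤ β ∧ m ≤ c * t ∧ β ≤ c * t ∧ ∀ ψ : (Fin (d + 2) → ℤ) → ℝ,
    (∀ x, (∀ j, (n₀ : ℤ) ≤ x j) → (x 0 : ℝ) ^ d / d.factorial ≤ ψ x) →
    (∀ x, -(C * (2 * n₀ + 2 * nrm x + 1 : ℝ) ^ d) ≤ ψ x) →
      0 < ∑ a ∈ IdxW (σ := Fin n × Fin (d + 1)) (wtv p) m, ψ (tgt (d + 1) q β t + lamA p a)

/-- `y` is a triangular substitution with diagonal `c`. -/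
def TriS {σ K : Type} [CommRing K] (rk : σ → ℕ) (y : σ → MvPolynomial σ K) (c : σ → K) : Prop :=
  ∀ v, y v - MvPolynomial.C (c v) * MvPolynomial.X v ∈ MvPolynomial.supported K {w | rk w < rk v}

/-- Triangular substitutions are triangular on monomials. -/
def S_TRI : Prop := ∀ (σ : Type) [Fintype σ] (rk : σ → ℕ), Function.Injective rk →
  ∃ o : LinearOrder (σ → ℕ), ∀ (K : Type) [CommRing K] (y : σ → MvPolynomial σ K) (c : σ → K),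
    TriS rk y c → ∀ (b : σ → ℕ) (b' : σ →₀ ℕ), b' ∈ (∏ v, y v ^ b v -
      MvPolynomial.C (∏ v, c v ^ b v) * ∏ v, MvPolynomial.X v ^ b v).support → o.lt b' b

/-- The leading coefficient in local jet coordinates. -/
def S_LEAD : Prop := ∀ (σ K : Type) [Fintype σ] [Field K] (rk : σ → ℕ), Function.Injective rk →
  ∀ f : MvPolynomial σ K, f ≠ 0 → ∃ b : σ →₀ ℕ, f.coeff b ≠ 0 ∧
    ∀ (V : Subring K) (y : σ → MvPolynomial σ K) (c : σ → K) (w : σ → ℕ) (m : ℕ) (a : K),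
      TriS rk y c → (∀ v, c v ≠ 0) → a ≠ 0 →
      MvPolynomial.C a * f ∈ (Fil.wt (V.map MvPolynomial.C) y w).F m →
        ∑ v, w v * b v ≤ m ∧ ∃ γ ∈ V, a * f.coeff b = γ * ∏ v, c v ^ b v

end Pool.Agent.P.MP_6f117a_ag.PJ
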