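import Pool.Agent.P.MP_6f117a_ag.PJ.Basic

/-! Statements on Witt vectors and the zero estimate. -/

namespace Pool.Agent.P.MP_6f117a_ag.PJ

open WittVector

/-- Components of a Teichmüller multiple. -/
def S_W3 : Prop := ∀ (p : ℕ) [Fact p.Prime] (A : Type) [CommRing A] (a : A) (z : WittVector p A)
  (l : ℕ), (teichmuller p a * z).coeff l = a ^ p ^ l * z.coeff l

/-- The Witt vectors with filtered components form a subring. -/
def S_W1 : Prop := ∀ (p : ℕ) [Fact p.Prime] (A : Type) [CommRing A] [CharP A p] (n : ℕ) (F : Fil A),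
  ∃ S : Subring (WittVector p A), ∀ z, z ∈ S ↔ WIn p n F z

/-- The top component of a polynomial expression is affine linear in the top components. -/
def S_W2 : Prop := ∀ (p : ℕ) [Fact p.Prime] (A : Type) [CommRing A] [CharP A p] (ι : Type)
  [Fintype ι] (G : MvPolynomial ι (WittVector p A)) (z : ι → WittVector p A) (l : ℕ),
  (MvPolynomial.eval z G).coeff (l + 1) =
    (MvPolynomial.eval (fun i => init (l + 1) (z i)) G).coeff (l + 1) +
      ∑ i, (MvPolynomial.eval z (MvPolynomial.pderiv i G)).coeff 0 ^ p ^ (l + 1) *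
        (z i).coeff (l + 1)

/-- Hensel lifting in Witt vectors, and units. -/
def S_W4a : Prop := ∀ (p : ℕ) [Fact p.Prime] (A : Type) [CommRing A] [CharP A p],
  (∀ (Q : Polynomial (WittVector p A)) (a : A), Q.eval₂ constantCoeff a = 0 →
    IsUnit (Q.derivative.eval₂ constantCoeff a) → ∃ w, Q.eval w = 0 ∧ w.coeff 0 = a) ∧
  ∀ z : WittVector p A, IsUnit (z.coeff 0) → IsUnit z

/-- Simple roots have filtered components. -/
def S_W4b : Prop := ∀ (p : ℕ) [Fact p.Prime] (A : Type) [CommRing A] [CharP A p] (n : ℕ)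
  (F : Fil A) (Q : Polynomial (WittVector p A)) (w : WittVector p A) (J : A),
  (∀ j, WIn p n F (Q.coeff j)) → Q.eval w = 0 → w.coeff 0 ∈ F.F 0 →
  J * (Q.derivative.eval w).coeff 0 = 1 →
    (J ∈ F.F 0 → WIn p n F w) ∧ (J ∈ F.F 1 → WIn p n (F.scale (n + 1)) w)

/-- Denominators of an inverse. -/
def S_W5 : Prop := ∀ (p : ℕ) [Fact p.Prime] (A : Type) [CommRing A] [CharP A p] (n : ℕ)
  (F : Fil A) (y y' : WittVector p A), WIn p n F y → y * y' = 1 →
    WIn p n F (teichmuller p (y.coeff 0) ^ (n + 1) * y')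

/-- First order expansion of a Witt vector sum. -/
def S_ZEPS : Prop := ∀ (p : ℕ) [Fact p.Prime] (A : Type) [CommRing A] (e : A), e * e = 0 →
  ∀ (x : WittVector p A) (l : ℕ), (x + teichmuller p e).coeff l =
    x.coeff l + e * MvPolynomial.aeval x.coeff (dpoly p l)

/-- The vector field lowers the order by at most one. -/
def S_ZORD : Prop := ∀ (p : ℕ) [Fact p.Prime] (n D : ℕ) (k B : Type) [CommRing k] [CommRing B]
  (c : k →+* B) (φ : Fin D → WittVector p B) (i : Fin D) (G : MvPolynomial (JV n D) k) (o : ℕ),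
  PowerSeries.X ^ (o + 1) ∣ Phi p n c φ G → PowerSeries.X ^ o ∣ Phi p n c φ (Dv p k i G)

/-- The common kernel of the vector fields consists of `p`-th powers. -/
def S_ZKER : Prop := ∀ (p : ℕ) [Fact p.Prime] (n D : ℕ) (k : Type) [Field k] [CharP k p]
  [PerfectField k] (G : MvPolynomial (JV n D) k), (∀ i, Dv p k i G = 0) → ∃ H, G = H ^ p

/-- The vector field lowers the weight and involves no later variables. -/
def S_ZDEG : Prop := ∀ (p : ℕ) [Fact p.Prime] (n D : ℕ) (k : Type) [Field k] (i : Fin D)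
  (G : MvPolynomial (JV n D) k), (Dv p k i G ≠ 0 →
    (Dv p k i G).weightedTotalDegree (sw p) < G.weightedTotalDegree (sw p)) ∧
    ∀ t, (∀ v ∈ G.vars, ordv v < t) → ∀ v ∈ (Dv p k i G).vars, ordv v < t

/-- Weighted degree is additive; an irreducible factor with a good ratio. -/
def S_ZFAC : Prop := ∀ (σ k B : Type) [Field k] [CommRing B] [IsDomain B] (w : σ → ℕ),
  (∀ v, 0 < w v) → (∀ G H : MvPolynomial σ k, H ≠ 0 → G ∣ H →
    G.weightedTotalDegree w ≤ H.weightedTotalDegree w) ∧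
  ∀ (Φ : MvPolynomial σ k →+* PowerSeries B) (P : MvPolynomial σ k) (N o : ℕ), P ≠ 0 →
    P.weightedTotalDegree w < N * o → PowerSeries.X ^ o ∣ Φ P →
      ∃ (G : MvPolynomial σ k) (o' : ℕ), Irreducible G ∧ G ∣ P ∧
        G.weightedTotalDegree w < N * o' ∧ PowerSeries.X ^ o' ∣ Φ G

/-- Order of vanishing of a resultant. -/
def S_ZSYL : Prop := ∀ (Ω : Type) [CommRing Ω] (T c : Ω) (f g : Polynomial Ω) (a b k : ℕ),
  f.natDegree ≤ a → g.natDegree ≤ b → 2 * k ≤ a + b →
  (∀ j, T ^ (k - j) ∣ (Polynomial.taylor c f).coeff j) →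
  (∀ j, T ^ (k - j) ∣ (Polynomial.taylor c g).coeff j) → T ^ (k * k) ∣ f.resultant g a b

/-- Orders of the Taylor coefficients in the last variable. -/
def S_ZTAY : Prop := ∀ (p : ℕ) [Fact p.Prime] (n D : ℕ) (k B : Type) [CommRing k] [CommRing B]
  [CharP B p] (c : k →+* B) (φ : Fin D → WittVector p B) (y : JV n D), ∃ c₀ : Om n D B,
  ∀ G : MvPolynomial (JV n D) k, (∀ v ∈ G.vars, ordv v ≤ ordv y) → ∀ o j : ℕ,
    PowerSeries.X ^ o ∣ Phi p n c φ G → PowerSeries.X ^ (o - j * sw p y) ∣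
      (Polynomial.taylor c₀ ((toY y G).map (Phi p n c φ))).coeff j

/-- Elimination of one variable. -/
def S_ZRES : Prop := ∀ (σ k : Type) [DecidableEq σ] [Field k] (w : σ → ℕ) (y : σ)
  (G H : MvPolynomial σ k) (b s : ℕ), Irreducible G → ¬ G ∣ H → y ∈ G.vars → H.degreeOf y ≤ b →
  G.weightedTotalDegree w ≤ s → H.weightedTotalDegree w ≤ s →
    (toY y G).natDegree = G.degreeOf y ∧ (toY y H).natDegree = H.degreeOf y ∧
    ∀ R, R = (toY y G).resultant (toY y H) (G.degreeOf y) b →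
      R ≠ 0 ∧ (∀ v ∈ R.vars, v ≠ y ∧ (v ∈ G.vars ∨ v ∈ H.vars)) ∧
      R.weightedTotalDegree w ≤ (G.degreeOf y + b) * s ∧ R ∈ Ideal.span {G, H}

/-- The zero estimate. -/
def S_Z : Prop := ∀ n D N : ℕ, ∃ D₀ p₀ : ℕ, ∀ (p : ℕ) [Fact p.Prime], p₀ ≤ p →
  ∀ (k B : Type) [Field k] [CharP k p] [PerfectField k] [CommRing B] [IsDomain B] (c : k →+* B)
    (φ : Fin D → WittVector p B) (P : MvPolynomial (JV n D) k) (o : ℕ), P ≠ 0 →
    P.weightedTotalDegree (sw p) < N * o → PowerSeries.X ^ o ∣ Phi p n c φ P →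
      ∃ G : MvPolynomial (Fin D) k, G ≠ 0 ∧ G.totalDegree ≤ D₀ ∧
        MvPolynomial.eval₂ c (fun i => (φ i).coeff 0) G = 0

/-- The zero estimate for weighted homogeneous polynomials gives a form. -/
def S_ZH : Prop := ∀ n D N : ℕ, ∃ D₀ p₀ : ℕ, ∀ (p : ℕ) [Fact p.Prime], p₀ ≤ p →
  ∀ (k B : Type) [Field k] [CharP k p] [PerfectField k] [CommRing B] [IsDomain B] (c : k →+* B)
    (φ : Fin D → WittVector p B) (P : MvPolynomial (JV n D) k) (s o : ℕ), P ≠ 0 →
    P.IsWeightedHomogeneous (sw p) s → s < N * o → PowerSeries.X ^ o ∣ Phi p n c φ P →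
      ∃ (G : MvPolynomial (Fin D) k) (e : ℕ), G ≠ 0 ∧ e ≤ D₀ ∧ G.IsHomogeneous e ∧
        MvPolynomial.eval₂ c (fun i => (φ i).coeff 0) G = 0

/-- The perturbed jets are algebraically independent. -/
def S_ZIND : Prop := ∀ (p : ℕ) [Fact p.Prime] (n D : ℕ) (k B : Type) [Field k] [CommRing B]
  [IsDomain B] [CharP B p] (c : k →+* B) (φ : Fin D → WittVector p B),
  Function.Injective (Phi p n c φ)

end Pool.Agent.P.MP_6f117a_ag.PJ
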