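import Pool.Agent.P.MP_6f117a_ag.PJ.FIface
import Pool.Agent.P.MP_6f117a_ag.E.WIface
import Pool.Agent.P.MP_6f117a_ag.C.All

/-! From a model with certificates in large characteristic to the bound for the degree. -/

namespace Pool.Agent.P.MP_6f117a_ag.PJ

open MvPolynomial Filter Sp

universe u

variable {L : Type u} [Field L]

theorem aeval_scale {K σ : Type*} [CommRing K] [Algebra L K] {G : MvPolynomial σ L} {e : ℕ}
    (h : G.IsHomogeneous e) (c : K) (x : σ → K) :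
    aeval (fun i => c * x i) G = c ^ e * aeval x G := JetA.scale _ h c x

theorem degree_perm {K : Type u} [Field K] [Algebra L K] {n m : ℕ} (e : Fin (n + 1) ≃ Fin (m + 1))
    (ξ : Fin (m + 1) → K) : degree L (fun a => ξ (e a)) = degree L ξ := by
  refine finsum_congr fun P => congrArg _ ?_
  rw [← Finset.univ_map_equiv_to_embedding e, Finset.sup_map]
  rfl

theorem hs_of (hW : EX.W_TOP) (M : Sp.Mod L) {d r C₀ δ : ℕ} (hd : 1 ≤ d) (hr : 1 ≤ r)
    (h : ∀ᶠ ω in spF L, ∃ (K : Type) (_ : Field K) (_ : Algebra (kk ω.p) K),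
      Nonempty (EX.L0 (M.red ω) K d r C₀ δ)) : ∃ n q c, M.HS n q c := by
  obtain ⟨n, q, -, h1⟩ := hW d r C₀ hd hr
  obtain ⟨c, h2⟩ := h1 δ (∑ a, M.df a)
  exact ⟨n, q, c, h.mono fun ω ⟨K, _, _, ⟨G⟩⟩ => h2 ω.p (kk ω.p) (M.red ω) K G le_rfl⟩

theorem lv_of [IsAlgClosed L] [CharZero L] (hW : EX.W_TOP) {K : Type u} [Field K] [Algebra L K]
    {N : ℕ} (z : Fin (N + 1) → K) (M : Sp.Mod L) (e : Fin (M.N + 1) ≃ Fin (N + 1)) {c : K}
    (hc : c ≠ 0) {d r C₀ δ : ℕ} (hd : 1 ≤ d) (hr : 1 ≤ r)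
    (h1 : ∀ a, aeval (fun b => c * z (e b)) (M.eqn a) = 0)
    (h2 : aeval (fun b => c * z (e b)) M.Del ≠ 0)
    (h3 : ∀ (G : MvPolynomial M.ι L) b, G.IsHomogeneous b →
      aeval (fun i => c * z (e (M.e i))) G = 0 → G = 0)
    (h : ∀ᶠ ω in spF L, ∃ (K : Type) (_ : Field K) (_ : Algebra (kk ω.p) K),
      Nonempty (EX.L0 (M.red ω) K d r C₀ δ)) : LV L z := by
  have : (spF L).NeBot := pSPEC L
  have : Nonempty M.ι := by
    obtain ⟨ω, K, _, _, ⟨G⟩⟩ := h.exists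
    exact ⟨G.ε 0⟩
  obtain ⟨n, q, c', hs⟩ := hs_of hW M hd hr h
  obtain ⟨a, G, g0, ⟨b, gb⟩, hG⟩ := core M hs
  have ev : ∀ {K' : Type u} [Field K'] [Algebra L K'] (ξ : Fin (N + 1) → K'),
      aeval ξ (rename e (M.Del * rename M.e G)) =
        aeval (fun a => ξ (e a)) M.Del * aeval (fun i => ξ (e (M.e i))) G := fun ξ => by
    rw [aeval_rename, map_mul, aeval_rename]; rfl
  refine ⟨a, _, rename e (M.Del * rename M.e G),
    (M.Del_hom.mul gb.rename_isHomogeneous).rename_isHomogeneous, ?_, fun K' _ _ _ ξ _ hξ h4 => ?_⟩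
  · rw [ev]
    refine mul_ne_zero (fun e1 => h2 ?_) fun e1 => g0 (h3 G b gb ?_)
    · rw [aeval_scale M.Del_hom, e1, mul_zero]
    · rw [aeval_scale gb, e1, mul_zero]
  · rw [ev] at h4
    rw [← degree_perm e]
    refine hG K' _ (fun a => ?_) (left_ne_zero_of_mul h4) (right_ne_zero_of_mul h4)
    have hh : (M.eqn a).IsHomogeneous (M.df a) := (M.f_hom a).rename_isHomogeneous
    have := hξ (rename e (M.eqn a)) ⟨⟨_, hh.rename_isHomogeneous⟩, by
      have := h1 a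
      rw [aeval_scale hh] at this
      rw [aeval_rename]
      exact (mul_eq_zero.1 this).resolve_left (pow_ne_zero _ hc)⟩
    rwa [aeval_rename] at this

end Pool.Agent.P.MP_6f117a_ag.PJ
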