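import Pool.Agent.P.MP_6f117a_ag.PJ.IfE

/-! Vanishing of local cohomology in high degrees. -/

namespace Pool.Agent.P.MP_6f117a_ag.PJ

open MvPolynomial

namespace TE1

variable {k K ι : Type} [Field k] [Field K] [Algebra k K] [Fintype ι] {r : ℕ} (B : BD K ι r)

/-- The multidegree of an exponent vector. -/
def dg (b : ι → ℕ) : Fin r → ℤ :=
  fun j => ∑ a ∈ Finset.univ.filter fun a => B.blk a = j, (b a : ℤ)

/-- The monomial in the generators. -/
def gm (b : ι → ℕ) : K := ∏ a, B.g a ^ b a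

omit [Field K] in
theorem dg_add (b b' : ι → ℕ) : dg B (b + b') = dg B b + dg B b' := by
  funext j; simp [dg, Finset.sum_add_distrib]

theorem gm_add (b b' : ι → ℕ) : gm B (b + b') = gm B b * gm B b' := by
  simp [gm, pow_add, Finset.prod_mul_distrib]

theorem gm_mem (b : ι → ℕ) : gm B b ∈ B.Bn k (dg B b) :=
  Submodule.subset_span ⟨b, fun _ => rfl, rfl⟩

theorem mul_mem_Bn {m m' : Fin r → ℤ} {x y : K} (hx : x ∈ B.Bn k m) (hy : y ∈ B.Bn k m') :
    x * y ∈ B.Bn k (m + m') := by
  have : B.Bn k m * B.Bn k m' ≤ B.Bn k (m + m') := by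
    rw [BD.Bn, BD.Bn, Submodule.span_mul_span]
    refine Submodule.span_le.2 ?_
    rintro _ ⟨_, ⟨b, h1, rfl⟩, _, ⟨b', h2, rfl⟩, rfl⟩
    have e1 : dg B b = m := funext h1
    have e2 : dg B b' = m' := funext h2
    have := gm_mem (k := k) B (b + b')
    rw [dg_add, gm_add, e1, e2] at this
    exact this
  exact this (Submodule.mul_mem_mul hx hy)

open Classical in
/-- The exponent vector of the local generator of a chart. -/
noncomputable def ex (α : B.Chart) (n : Fin r → ℕ) : ι → ℕ :=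
  fun a => if a = α.1 (B.blk a) then n (B.blk a) else 0

theorem dg_ex (α : B.Chart) (n : Fin r → ℕ) : dg B (ex B α n) = fun j => (n j : ℤ) := by
  funext j
  rw [dg, Finset.sum_eq_single (α.1 j)]
  · simp [ex, (α.2 j).1]
  · intro a ha h
    rw [Finset.mem_filter] at ha
    simp [ex, ha.2, h]
  · simp [(α.2 j).1]

theorem gm_ex (α : B.Chart) (n : Fin r → ℕ) : gm B (ex B α n) = B.gc α fun j => (n j : ℤ) := by
  rw [gm, BD.gc, ← Finset.prod_fiberwise (g := B.blk)]
  refine Finset.prod_congr rfl fun j _ => ?_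
  rw [Finset.prod_eq_single (α.1 j)]
  · simp [ex, (α.2 j).1]
  · intro a ha h
    rw [Finset.mem_filter] at ha
    simp [ex, ha.2, h]
  · simp [(α.2 j).1]

theorem gc_mem (α : B.Chart) {n : Fin r → ℤ} (hn : ∀ j, 0 ≤ n j) : B.gc α n ∈ B.Bn k n := by
  obtain ⟨m, rfl⟩ : ∃ m : Fin r → ℕ, n = fun j => (m j : ℤ) :=
    ⟨fun j => (n j).toNat, funext fun j => (Int.toNat_of_nonneg (hn j)).symm⟩
  rw [← gm_ex, ← dg_ex B α]
  exact gm_mem B _

omit [Fintype ι] in
theorem gc_add (α : B.Chart) (n m : Fin r → ℤ) : B.gc α (n + m) = B.gc α n * B.gc α m := by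
  simp only [BD.gc, Pi.add_apply, zpow_add₀ (α.2 _).2, Finset.prod_mul_distrib]

/-- The constant multidegree. -/
def cst (r T : ℕ) : Fin r → ℤ := fun _ => T

theorem cst_add (T S : ℕ) : cst r (T + S) = cst r T + cst r S := by
  funext j; simp [cst]

theorem clear_mono (α : B.Chart) {x : K} {T S : ℕ} (h : B.gc α (cst r T) * x ∈ B.Bn k (cst r T))
    (hS : T ≤ S) : B.gc α (cst r S) * x ∈ B.Bn k (cst r S) := by
  obtain ⟨U, rfl⟩ := Nat.exists_eq_add_of_le' hS
  rw [cst_add, gc_add, mul_assoc]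
  exact mul_mem_Bn B (gc_mem B α fun _ => Int.natCast_nonneg _) h

theorem g_mem (a : ι) : B.g a ∈ B.Bn k (Pi.single (B.blk a) 1) := by
  classical
  refine Submodule.subset_span ⟨Pi.single a 1, fun j => ?_, ?_⟩
  · by_cases h : B.blk a = j
    · subst h
      rw [Finset.sum_eq_single a (fun b _ hb => by simp [hb]) (by simp)]; simp
    · rw [Pi.single_eq_of_ne' h]
      refine Finset.sum_eq_zero fun b hb => ?_
      have : b ≠ a := fun e => h (e ▸ (Finset.mem_filter.1 hb).2)
      simp [this]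
  · rw [Finset.prod_eq_single a (fun b _ hb => by simp [hb]) (by simp)]; simp

theorem clear (α : B.Chart) {x : K} (hx : x ∈ B.Rc k α) :
    ∃ T : ℕ, B.gc α (cst r T) * x ∈ B.Bn k (cst r T) := by
  induction hx using Algebra.adjoin_induction with
  | mem x hx =>
    obtain ⟨a, rfl⟩ := hx
    refine ⟨1, ?_⟩
    have e : cst r 1 = (cst r 1 - Pi.single (B.blk a) 1) + Pi.single (B.blk a) 1 := by simp
    have e2 : B.gc α (Pi.single (B.blk a) 1) = B.g (α.1 (B.blk a)) := by
      rw [BD.gc, Finset.prod_eq_single (B.blk a) (fun b _ hb => by simp [hb]) (by simp)]; simp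
    rw [e, gc_add, e2, mul_assoc, mul_div_cancel₀ _ (α.2 _).2]
    refine mul_mem_Bn B (gc_mem B α fun j => ?_) (g_mem B a)
    by_cases h : j = B.blk a
    · simp [cst, h]
    · simp [cst, h]
  | algebraMap c =>
    refine ⟨0, ?_⟩
    rw [mul_comm, ← Algebra.smul_def]
    exact Submodule.smul_mem _ _ (gc_mem B α fun _ => Int.natCast_nonneg _)
  | add x y _ _ hx hy =>
    obtain ⟨T, h1⟩ := hx
    obtain ⟨S, h2⟩ := hy
    refine ⟨max T S, ?_⟩
    rw [mul_add]
    exact add_mem (clear_mono B α h1 (le_max_left _ _)) (clear_mono B α h2 (le_max_right _ _))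
  | mul x y _ _ hx hy =>
    obtain ⟨T, h1⟩ := hx
    obtain ⟨S, h2⟩ := hy
    refine ⟨T + S, ?_⟩
    rw [cst_add, gc_add, mul_mul_mul_comm]
    exact mul_mem_Bn B h1 h2

variable (k) in
/-- The map to the ring that records the multidegree. -/
noncomputable def Ph : MvPolynomial ι k →ₐ[k] AddMonoidAlgebra K (Fin r → ℤ) :=
  aeval fun a => AddMonoidAlgebra.single (Pi.single (B.blk a) 1) (B.g a)

theorem prod_single {M σ : Type} [AddCommMonoid M] (s : Finset σ) (m : σ → M) (c : σ → K) :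
    ∏ a ∈ s, AddMonoidAlgebra.single (m a) (c a) =
      AddMonoidAlgebra.single (∑ a ∈ s, m a) (∏ a ∈ s, c a) := by
  classical
  induction s using Finset.induction_on with
  | empty => simp [AddMonoidAlgebra.one_def]
  | insert a s ha ih =>
    rw [Finset.prod_insert ha, Finset.prod_insert ha, Finset.sum_insert ha, ih,
      AddMonoidAlgebra.single_mul_single]

theorem Ph_monomial (b : ι →₀ ℕ) (c : k) :
    Ph k B (monomial b c) = AddMonoidAlgebra.single (dg B b) (c • gm B b) := by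
  rw [Ph, aeval_monomial, Finsupp.prod_fintype _ _ (by simp)]
  simp only [AddMonoidAlgebra.single_pow]
  rw [prod_single, ← Algebra.smul_def, AddMonoidAlgebra.smul_single]
  congr 1
  funext j
  rw [dg, Finset.sum_filter, Finset.sum_apply]
  refine Finset.sum_congr rfl fun a _ => ?_
  by_cases h : B.blk a = j
  · simp [h]
  · simp [h]

theorem coeff_mon_mul (b : ι →₀ ℕ) (c : k) (P : MvPolynomial ι k) (n : Fin r → ℤ) :
    (Ph k B (monomial b c * P)).coeff n = (c • gm B b) * (Ph k B P).coeff (-dg B b + n) := by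
  rw [map_mul, Ph_monomial, AddMonoidAlgebra.coeff_single_mul_apply]

theorem lift_Bn {n : Fin r → ℤ} {f : K} (hf : f ∈ B.Bn k n) :
    ∃ P, Ph k B P = AddMonoidAlgebra.single n f := by
  induction hf using Submodule.span_induction with
  | mem f hf =>
    obtain ⟨b, h1, rfl⟩ := hf
    refine ⟨monomial (Finsupp.equivFunOnFinite.symm b) 1, ?_⟩
    rw [Ph_monomial, one_smul, show n = dg B b from (funext h1).symm]
    rfl
  | zero => exact ⟨0, by simp⟩
  | add x y _ _ hx hy =>
    obtain ⟨P, h1⟩ := hx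
    obtain ⟨Q, h2⟩ := hy
    exact ⟨P + Q, by rw [map_add, h1, h2, AddMonoidAlgebra.single_add]⟩
  | smul c x _ hx =>
    obtain ⟨P, h1⟩ := hx
    exact ⟨c • P, by rw [map_smul, h1, AddMonoidAlgebra.smul_single]⟩

variable (k) (θ θ' : K)

/-- The graded pieces of the ideal generated by `θ` and `θ'`. -/
def MM (n : Fin r → ℤ) : Submodule k K where
  carrier := {f | ∃ x ∈ B.Bn k (n - 1), ∃ y ∈ B.Bn k (n - 1), f = θ * x + θ' * y}
  add_mem' := by
    rintro _ _ ⟨x, hx, y, hy, rfl⟩ ⟨x', hx', y', hy', rfl⟩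
    exact ⟨x + x', add_mem hx hx', y + y', add_mem hy hy', by ring⟩
  zero_mem' := ⟨0, zero_mem _, 0, zero_mem _, by simp⟩
  smul_mem' := by
    rintro c _ ⟨x, hx, y, hy, rfl⟩
    exact ⟨c • x, Submodule.smul_mem _ _ hx, c • y, Submodule.smul_mem _ _ hy, by
      simp only [smul_add, mul_smul_comm]⟩

variable {k θ θ'} in
theorem mul_mem_MM {m n : Fin r → ℤ} {z f : K} (hz : z ∈ B.Bn k m) (hf : f ∈ MM k B θ θ' n) :
    z * f ∈ MM k B θ θ' (m + n) := by
  obtain ⟨x, hx, y, hy, rfl⟩ := hf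
  refine ⟨z * x, ?_, z * y, ?_, by ring⟩
  · rw [add_sub_assoc]; exact mul_mem_Bn B hz hx
  · rw [add_sub_assoc]; exact mul_mem_Bn B hz hy

/-- The preimage of the ideal generated by `θ` and `θ'`. -/
def II : Ideal (MvPolynomial ι k) where
  carrier := {P | ∀ n, (Ph k B P).coeff n ∈ MM k B θ θ' n}
  add_mem' h1 h2 n := by
    rw [map_add, AddMonoidAlgebra.coeff_add]; exact add_mem (h1 n) (h2 n)
  zero_mem' n := by simp
  smul_mem' q P h n := by
    rw [smul_eq_mul]
    induction q using MvPolynomial.induction_on' with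
    | monomial b c =>
      rw [coeff_mon_mul]
      have := mul_mem_MM B (Submodule.smul_mem _ c (gm_mem B b)) (h (-dg B b + n))
      rwa [add_neg_cancel_left] at this
    | add p q h1 h2 =>
      rw [add_mul, map_add, AddMonoidAlgebra.coeff_add]; exact add_mem h1 h2

/-- The monomial of a chart. -/
noncomputable def uu (α : B.Chart) (T : ℕ) : MvPolynomial ι k :=
  monomial (Finsupp.equivFunOnFinite.symm (ex B α fun _ => T)) 1

omit [Algebra k K] in
theorem uu_add (α : B.Chart) (T S : ℕ) : uu k B α (T + S) = uu k B α T * uu k B α S := by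
  rw [uu, uu, uu, monomial_mul, one_mul]
  congr 2
  ext a
  simp only [Finsupp.coe_add, Finsupp.coe_equivFunOnFinite_symm, Pi.add_apply, ex]
  split_ifs <;> rfl

variable {k θ θ'} in
theorem uu_mono {α : B.Chart} {T S : ℕ} {P : MvPolynomial ι k}
    (h : uu k B α T * P ∈ II k B θ θ') (hS : T ≤ S) : uu k B α S * P ∈ II k B θ θ' := by
  obtain ⟨U, rfl⟩ := Nat.exists_eq_add_of_le' hS
  rw [uu_add, mul_assoc]
  exact Ideal.mul_mem_left _ _ h

/-- The saturation. -/
def JJ : Ideal (MvPolynomial ι k) where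
  carrier := {P | ∀ α, ∃ T, uu k B α T * P ∈ II k B θ θ'}
  add_mem' h1 h2 α := by
    obtain ⟨T, h3⟩ := h1 α
    obtain ⟨S, h4⟩ := h2 α
    refine ⟨max T S, ?_⟩
    rw [mul_add]
    exact add_mem (uu_mono B h3 (le_max_left _ _)) (uu_mono B h4 (le_max_right _ _))
  zero_mem' α := ⟨0, by simp⟩
  smul_mem' q P h α := by
    obtain ⟨T, h1⟩ := h α
    exact ⟨T, by rw [smul_eq_mul, mul_left_comm]; exact Ideal.mul_mem_left _ _ h1⟩

variable {k θ θ'} in
theorem pigeon {T : ℕ} {P : MvPolynomial ι k} (h : ∀ α, uu k B α T * P ∈ II k B θ θ')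
    (b : ι →₀ ℕ) (c : k) (hb : ∀ j, (Fintype.card ι * T : ℕ) < dg B b j) :
    monomial b c * P ∈ II k B θ θ' := by
  have h1 : ∀ j, ∃ a, B.blk a = j ∧ T < b a := fun j => by
    by_contra hc
    push Not at hc
    refine (hb j).not_ge ?_
    calc dg B b j ≤ ∑ _a ∈ Finset.univ.filter fun a => B.blk a = j, (T : ℤ) :=
          Finset.sum_le_sum fun a ha => by exact_mod_cast hc a (Finset.mem_filter.1 ha).2
      _ ≤ _ := by
          rw [Finset.sum_const, nsmul_eq_mul, Nat.cast_mul]
          gcongr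
          exact Finset.card_le_univ _
  choose α h2 h3 using h1
  by_cases h0 : ∀ j, B.g (α j) ≠ 0
  · let α' : B.Chart := ⟨α, fun j => ⟨h2 j, h0 j⟩⟩
    have hle : Finsupp.equivFunOnFinite.symm (ex B α' fun _ => T) ≤ b := fun a => by
      simp only [Finsupp.coe_equivFunOnFinite_symm, ex]
      split_ifs with e
      · rw [e]; exact (h3 _).le
      · exact Nat.zero_le _
    have : monomial b c = monomial (b - Finsupp.equivFunOnFinite.symm (ex B α' fun _ => T)) c *
        uu k B α' T := by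
      rw [uu, monomial_mul, mul_one, tsub_add_cancel_of_le hle]
    rw [this, mul_assoc]
    exact Ideal.mul_mem_left _ _ (h α')
  · push Not at h0
    obtain ⟨j, hj⟩ := h0
    intro n
    have : gm B b = 0 :=
      Finset.prod_eq_zero (Finset.mem_univ (α j)) (by rw [hj, zero_pow (h3 j).ne_bot])
    rw [coeff_mon_mul, this]
    simp

theorem main : ∃ n₀ : ℕ, ∀ n : Fin r → ℤ, (∀ j, (n₀ : ℤ) ≤ n j) → ∀ P ∈ JJ k B θ θ',
    (Ph k B P).coeff n ∈ MM k B θ θ' n := by
  classical
  obtain ⟨s, hs⟩ := (IsNoetherian.noetherian (JJ k B θ θ') :)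
  have h1 : ∀ Q : s, ∀ α, ∃ T, uu k B α T * Q.1 ∈ II k B θ θ' := fun Q => by
    have : Q.1 ∈ JJ k B θ θ' := hs ▸ Submodule.subset_span Q.2
    exact this
  choose T₀ hT₀ using h1
  have : Finite B.Chart := Subtype.finite
  obtain ⟨T, hT⟩ := (Set.finite_range fun x : s × B.Chart => T₀ x.1 x.2).bddAbove
  obtain ⟨D, hD⟩ : ∃ D : ℕ, ∀ Q ∈ s, ∀ m ∈ (Ph k B Q).coeff.support, ∀ j, m j < D := by
    refine ⟨(s.sup fun Q => (Ph k B Q).coeff.support.sup fun m =>
      Finset.univ.sup fun j => (m j).toNat) + 1, fun Q hQ m hm j => ?_⟩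
    have := (Finset.le_sup (f := fun j => (m j).toNat) (Finset.mem_univ j)).trans
      ((Finset.le_sup (f := fun m : Fin r → ℤ => Finset.univ.sup fun j => (m j).toNat) hm).trans
        (Finset.le_sup (f := fun Q => (Ph k B Q).coeff.support.sup fun m =>
          Finset.univ.sup fun j => (m j).toNat) hQ))
    omega
  refine ⟨Fintype.card ι * T + D, fun n hn P hP => ?_⟩
  suffices h : ∀ q, (Ph k B (q * P)).coeff n ∈ MM k B θ θ' n by simpa using h 1
  rw [← hs] at hP
  induction hP using Submodule.span_induction with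
  | mem Q hQ =>
    intro q
    induction q using MvPolynomial.induction_on' with
    | monomial b c =>
      by_cases hb : ∀ j, (Fintype.card ι * T : ℕ) < dg B b j
      · exact pigeon B (fun α => uu_mono B (hT₀ ⟨Q, hQ⟩ α) (hT ⟨(⟨Q, hQ⟩, α), rfl⟩)) b c hb n
      · push Not at hb
        obtain ⟨j, hj⟩ := hb
        have : (Ph k B Q).coeff (-dg B b + n) = 0 := by
          by_contra hc
          have h2 := hD Q hQ _ (Finsupp.mem_support_iff.2 hc) j
          have h3 := hn j
          simp only [Pi.add_apply, Pi.neg_apply] at h2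
          push_cast at h3 hj
          omega
        rw [coeff_mon_mul, this]
        simp
    | add p q h1 h2 =>
      rw [add_mul, map_add, AddMonoidAlgebra.coeff_add]; exact add_mem h1 h2
  | zero => intro q; simp
  | add x y _ _ hx hy =>
    intro q
    rw [mul_add, map_add, AddMonoidAlgebra.coeff_add]; exact add_mem (hx q) (hy q)
  | smul c x _ hx =>
    intro q
    rw [smul_eq_mul, ← mul_assoc]; exact hx _

end TE1

open TE1 in
theorem t_E1 : S_E1 := by
  intro k K ι _ _ _ _ r B θ _ θ' _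
  obtain ⟨n₀, h₀⟩ := main k B θ θ'
  refine ⟨n₀ + 1, fun n hn f hf hloc => ?_⟩
  obtain ⟨P, hP⟩ := lift_Bn B hf
  have h1 : P ∈ JJ k B θ θ' := fun α => by
    obtain ⟨x, hx, y, hy, e⟩ := hloc α
    obtain ⟨T, h2⟩ := clear B α hx
    obtain ⟨S, h3⟩ := clear B α hy
    have h4 : B.gc α (n - 1) ∈ B.Bn k (n - 1) := gc_mem B α fun j => by
      have := hn j
      simp only [Pi.sub_apply, Pi.one_apply]; omega
    refine ⟨max T S, fun m => ?_⟩
    rw [uu, coeff_mon_mul, hP, Finsupp.coe_equivFunOnFinite_symm, dg_ex, gm_ex, one_smul]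
    change B.gc α (cst r (max T S)) * (AddMonoidAlgebra.single n f).coeff (-cst r (max T S) + m) ∈ _
    by_cases hm : -cst r (max T S) + m = n
    · have e2 : m - 1 = cst r (max T S) + (n - 1) := by rw [← hm]; abel
      rw [hm, AddMonoidAlgebra.coeff_single, Finsupp.single_eq_same]
      refine ⟨B.gc α (cst r (max T S)) * x * B.gc α (n - 1), ?_,
        B.gc α (cst r (max T S)) * y * B.gc α (n - 1), ?_, by rw [e]; ring⟩
      · rw [e2]; exact mul_mem_Bn B (clear_mono B α h2 (le_max_left _ _)) h4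
      · rw [e2]; exact mul_mem_Bn B (clear_mono B α h3 (le_max_right _ _)) h4
    · rw [AddMonoidAlgebra.coeff_single, Finsupp.single_eq_of_ne hm, mul_zero]
      exact zero_mem _
  have := h₀ n (fun j => by have := hn j; omega) P h1
  rwa [hP, AddMonoidAlgebra.coeff_single, Finsupp.single_eq_same] at this

end Pool.Agent.P.MP_6f117a_ag.PJ
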