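import Pool.Agent.P.MP_6f117a_ag.PJ.IfE

/-! Linear forms that are nonzero divisors on the slice. -/

namespace Pool.Agent.P.MP_6f117a_ag.PJ

namespace TE2

theorem avoid {k V γ : Type} [Field k] [Infinite k] [AddCommGroup V] [Module k V] [Finite γ]
    (R : γ → Type) [∀ α, CommRing (R α)] [∀ α, IsNoetherianRing (R α)] [∀ α, Algebra k (R α)]
    (I : ∀ α, Ideal (R α)) (φ : ∀ α, V →ₗ[k] R α) (h : ∀ α, ∃ v, φ α v = 1) :
    ∃ v, ∀ α x, φ α v * x ∈ I α → x ∈ I α := by
  by_contra hc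
  push Not at hc
  have : ∀ α, Finite (associatedPrimes (R α) (R α ⧸ I α)) := fun α =>
    (associatedPrimes.finite _ _).to_subtype
  obtain ⟨⟨α, P, hP⟩, e⟩ := Subspace.exists_eq_top_of_iUnion_eq_univ
    (ι := Σ α, associatedPrimes (R α) (R α ⧸ I α))
    (p := fun i => (i.2.1.restrictScalars k).comap (φ i.1)) (Set.eq_univ_of_forall fun v => by
      obtain ⟨α, x, h1, h2⟩ := hc v
      have : φ α v ∈ ⋃ p ∈ associatedPrimes (R α) (R α ⧸ I α), (p : Set (R α)) := by
        rw [biUnion_associatedPrimes_eq_zero_divisors]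
        exact ⟨Ideal.Quotient.mk _ x, fun e => h2 (Ideal.Quotient.eq_zero_iff_mem.1 e),
          Ideal.Quotient.eq_zero_iff_mem.2 h1⟩
      obtain ⟨P, hP, hv⟩ := Set.mem_iUnion₂.1 this
      exact Set.mem_iUnion.2 ⟨⟨α, P, hP⟩, hv⟩)
  obtain ⟨v, hv⟩ := h α
  have h1 : φ α v ∈ P := (e ▸ Submodule.mem_top : v ∈ (P.restrictScalars k).comap (φ α))
  exact (Ideal.ne_top_iff_one P).1 hP.isPrime.ne_top (hv ▸ h1)

variable {k K ι : Type} [Field k] [Field K] [Algebra k K] [Fintype ι] {r : ℕ} (B : BD K ι r)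

omit [Fintype ι] in
theorem gen_mem (α : B.Chart) (a : ι) : B.g a / B.g (α.1 (B.blk a)) ∈ B.Rc k α :=
  Algebra.subset_adjoin ⟨a, rfl⟩

theorem div_mem (α : B.Chart) {m : Fin r → ℤ} {f : K} (hf : f ∈ B.Bn k m) :
    f / B.gc α m ∈ B.Rc k α := by
  induction hf using Submodule.span_induction with
  | zero => simp
  | add x y _ _ hx hy => rw [add_div]; exact add_mem hx hy
  | smul c x _ hx => rw [smul_div_assoc]; exact Subalgebra.smul_mem _ hx c
  | mem x hx =>
    obtain ⟨b, hb, rfl⟩ := hx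
    have : B.gc α m = ∏ a, B.g (α.1 (B.blk a)) ^ b a := by
      rw [BD.gc, ← Finset.prod_fiberwise Finset.univ B.blk]
      refine Finset.prod_congr rfl fun j _ => ?_
      rw [← hb j, ← Nat.cast_sum, zpow_natCast, ← Finset.prod_pow_eq_pow_sum]
      exact Finset.prod_congr rfl fun a ha => by rw [(Finset.mem_filter.1 ha).2]
    rw [this, ← Finset.prod_div_distrib]
    exact prod_mem fun a _ => by rw [← div_pow]; exact pow_mem (gen_mem B α a) _

theorem g_mem (a : ι) : B.g a ∈ B.Bn k (Pi.single (B.blk a) 1) := by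
  classical
  refine Submodule.subset_span ⟨Pi.single a 1, fun j => ?_, ?_⟩
  · by_cases h : j = B.blk a
    · subst h
      rw [Finset.sum_eq_single a] <;> simp +contextual
    · rw [Pi.single_eq_of_ne h]
      refine Finset.sum_eq_zero fun c hc => ?_
      rw [Pi.single_eq_of_ne, Nat.cast_zero]
      rintro rfl
      exact h (Finset.mem_filter.1 hc).2.symm
  · rw [Finset.prod_eq_single a] <;> simp +contextual

omit [Fintype ι] in
theorem gc_single (α : B.Chart) (j : Fin r) : B.gc α (Pi.single j 1) = B.g (α.1 j) := by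
  rw [BD.gc, Finset.prod_eq_single j] <;> simp +contextual

end TE2

theorem t_E2 : S_E2 := by
  intro k K ι _ _ _ _ _ r B θ hθ j
  have : Finite B.Chart := Subtype.finite
  have : ∀ α, IsNoetherianRing (B.Rc k α) := fun α =>
    have : Algebra.FiniteType k (B.Rc k α) :=
      Algebra.FiniteType.adjoin_of_finite (Set.finite_range _)
    Algebra.FiniteType.isNoetherianRing k _
  have hm : ∀ α, ∀ l ∈ B.Bn k (Pi.single j 1), l / B.g (α.1 j) ∈ B.Rc k α := fun α l hl =>
    TE2.gc_single B α j ▸ TE2.div_mem B α hl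
  obtain ⟨l, hl⟩ := TE2.avoid (k := k) (V := B.Bn k (Pi.single j 1)) (fun α => B.Rc k α)
    (fun α => Ideal.span {⟨θ / B.gc α 1, TE2.div_mem B α hθ⟩})
    (fun α =>
      { toFun := fun l => ⟨l.1 / B.g (α.1 j), hm α _ l.2⟩
        map_add' := fun x y => Subtype.ext (add_div _ _ _)
        map_smul' := fun c x => Subtype.ext (smul_div_assoc _ _ _) })
    fun α => ⟨⟨B.g (α.1 j), by simpa [(α.2 j).1] using TE2.g_mem (k := k) B (α.1 j)⟩,
      Subtype.ext (div_self (α.2 j).2)⟩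
  refine ⟨l, l.2, fun α x hx ⟨y, hy, e⟩ => ?_⟩
  obtain ⟨z, hz⟩ := Ideal.mem_span_singleton.1 (hl α ⟨x, hx⟩
    (Ideal.mem_span_singleton.2 ⟨⟨y, hy⟩, Subtype.ext e⟩))
  exact ⟨z, z.2, congrArg Subtype.val hz⟩

end Pool.Agent.P.MP_6f117a_ag.PJ
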