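import Pool.Agent.P.MP_6f117a_ag.PJ.IfE

/-! Sections on the slice. -/

namespace Pool.Agent.P.MP_6f117a_ag.PJ

open Module

namespace TE3

variable {k K ι : Type} [Field k] [Field K] [Algebra k K] [Fintype ι] {r : ℕ} {B : BD K ι r}

theorem gc_ne (α : B.Chart) (n : Fin r → ℤ) : B.gc α n ≠ 0 :=
  Finset.prod_ne_zero_iff.2 fun j _ => zpow_ne_zero _ (α.2 j).2

theorem gc_add (α : B.Chart) (m n : Fin r → ℤ) : B.gc α (m + n) = B.gc α m * B.gc α n := by
  rw [BD.gc, BD.gc, BD.gc, ← Finset.prod_mul_distrib]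
  exact Finset.prod_congr rfl fun j _ => zpow_add₀ (α.2 j).2 _ _

theorem gc_sub (α : B.Chart) (m n : Fin r → ℤ) : B.gc α (m - n) = B.gc α m / B.gc α n := by
  rw [eq_div_iff (gc_ne α n), ← gc_add, sub_add_cancel]

theorem gc_pow (α : B.Chart) (T : ℕ) : B.gc α (fun _ => (T : ℤ)) = B.gc α 1 ^ T := by
  simp [BD.gc, Finset.prod_pow]

theorem gc_single (α : B.Chart) (j : Fin r) : B.gc α (Pi.single j 1) = B.g (α.1 j) := by
  rw [BD.gc, Finset.prod_eq_single j (fun i _ h => by simp [h]) (by simp)]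
  simp

theorem mul_mem {m n : Fin r → ℤ} {x y : K} (hx : x ∈ B.Bn k m) (hy : y ∈ B.Bn k n) :
    x * y ∈ B.Bn k (m + n) := by
  have h := Submodule.mul_mem_mul hx hy
  rw [BD.Bn, BD.Bn, Submodule.span_mul_span] at h
  refine Submodule.span_mono ?_ h
  rintro _ ⟨_, ⟨b, hb, rfl⟩, _, ⟨c, hc, rfl⟩, rfl⟩
  refine ⟨b + c, fun j => ?_, ?_⟩
  · simp only [Pi.add_apply, Nat.cast_add, Finset.sum_add_distrib, hb, hc]
  · simp only [Pi.add_apply, pow_add, Finset.prod_mul_distrib]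

theorem mul_mem' {m n s : Fin r → ℤ} {x y : K} (hx : x ∈ B.Bn k m) (hy : y ∈ B.Bn k n)
    (h : m + n = s) : x * y ∈ B.Bn k s := h ▸ mul_mem hx hy

theorem one_mem : (1 : K) ∈ B.Bn k 0 := Submodule.subset_span ⟨0, by simp, by simp⟩

theorem g_mem (a : ι) : B.g a ∈ B.Bn k (Pi.single (B.blk a) 1) := by
  classical
  refine Submodule.subset_span ⟨Pi.single a 1, fun j => ?_, ?_⟩
  · rw [Finset.sum_filter, Finset.sum_eq_single a (fun i _ h => by simp [h]) (by simp)]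
    by_cases h : B.blk a = j
    · simp [h]
    · simp [h, Ne.symm h]
  · rw [Finset.prod_eq_single a (fun i _ h => by simp [h]) (by simp)]
    simp

theorem pow_mem {m : Fin r → ℤ} {x : K} (hx : x ∈ B.Bn k m) (t : ℕ) : x ^ t ∈ B.Bn k (t • m) := by
  induction t with
  | zero => simpa using one_mem
  | succ n ih => rw [pow_succ, succ_nsmul]; exact mul_mem ih hx

theorem prod_mem {l : Fin r → K} (hl : ∀ j, l j ∈ B.Bn k (Pi.single j 1)) (m : Fin r → ℕ) :
    ∏ j, l j ^ m j ∈ B.Bn k fun j => (m j : ℤ) := by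
  have h : ∀ s : Finset (Fin r), ∏ j ∈ s, l j ^ m j ∈ B.Bn k (∑ j ∈ s, m j • Pi.single j 1) := by
    intro s
    induction s using Finset.induction_on with
    | empty => simpa using one_mem
    | insert a s ha ih =>
      rw [Finset.prod_insert ha, Finset.sum_insert ha]
      exact mul_mem (pow_mem (hl a) _) ih
  have e : ∑ j, m j • (Pi.single j 1 : Fin r → ℤ) = fun j => (m j : ℤ) := by
    funext i
    rw [Finset.sum_apply, Finset.sum_eq_single i (fun j _ h => by simp [Ne.symm h]) (by simp)]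
    simp
  exact e ▸ h Finset.univ

theorem gc_mem (α : B.Chart) {m : Fin r → ℤ} (hm : 0 ≤ m) : B.gc α m ∈ B.Bn k m := by
  lift m to Fin r → ℕ using hm
  have h := prod_mem (k := k) (l := fun j => B.g (α.1 j))
    (fun j => by have := g_mem (k := k) (B := B) (α.1 j); rwa [(α.2 j).1] at this) m
  simpa [BD.gc] using h

theorem loc (α : B.Chart) {m : Fin r → ℤ} {f : K} (hf : f ∈ B.Bn k m) :
    ∃ x ∈ B.Rc k α, f = B.gc α m * x := by
  induction hf using Submodule.span_induction with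
  | mem f h =>
    obtain ⟨b, hb, rfl⟩ := h
    refine ⟨∏ a, (B.g a / B.g (α.1 (B.blk a))) ^ b a, Subalgebra.prod_mem _ fun a _ =>
      Subalgebra.pow_mem _ (Algebra.subset_adjoin (Set.mem_range_self a)) _, ?_⟩
    have e : B.gc α m = ∏ a, B.g (α.1 (B.blk a)) ^ b a := by
      rw [← Finset.prod_fiberwise Finset.univ B.blk]
      refine Finset.prod_congr rfl fun j _ => ?_
      rw [← hb j, ← Nat.cast_sum, zpow_natCast, ← Finset.prod_pow_eq_pow_sum]
      exact Finset.prod_congr rfl fun a ha => by rw [(Finset.mem_filter.1 ha).2]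
    rw [e, ← Finset.prod_mul_distrib]
    exact Finset.prod_congr rfl fun a _ => by rw [← mul_pow, mul_div_cancel₀ _ (α.2 _).2]
  | zero => exact ⟨0, zero_mem _, by simp⟩
  | add f g _ _ hf hg =>
    obtain ⟨x, hx, rfl⟩ := hf
    obtain ⟨y, hy, rfl⟩ := hg
    exact ⟨x + y, add_mem hx hy, (mul_add _ _ _).symm⟩
  | smul c f _ hf =>
    obtain ⟨x, hx, rfl⟩ := hf
    exact ⟨c • x, Subalgebra.smul_mem _ hx c, (mul_smul_comm _ _ _).symm⟩

theorem loc' (α : B.Chart) {m : Fin r → ℤ} {f : K} (hf : f ∈ B.Bn k m) :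
    f / B.gc α m ∈ B.Rc k α := by
  obtain ⟨x, hx, rfl⟩ := loc α hf
  rwa [mul_div_cancel_left₀ _ (gc_ne α m)]

theorem clr (α : B.Chart) {x : K} (hx : x ∈ B.Rc k α) :
    ∀ᶠ T : ℕ in Filter.atTop, B.gc α (fun _ => (T : ℤ)) * x ∈ B.Bn k fun _ => (T : ℤ) := by
  have up : ∀ (y : K) (T : ℕ), B.gc α (fun _ => (T : ℤ)) * y ∈ B.Bn k (fun _ => (T : ℤ)) →
      ∀ᶠ T : ℕ in Filter.atTop, B.gc α (fun _ => (T : ℤ)) * y ∈ B.Bn k fun _ => (T : ℤ) := by
    refine fun y T h => Filter.eventually_atTop.2 ⟨T, fun S hS => ?_⟩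
    obtain ⟨c, rfl⟩ := Nat.exists_eq_add_of_le' hS
    have h1 := mul_mem (gc_mem α (m := fun _ => (c : ℤ)) fun _ => Int.natCast_nonneg c) h
    rwa [← mul_assoc, ← gc_add] at h1
  induction hx using Algebra.adjoin_induction with
  | mem x h =>
    obtain ⟨a, rfl⟩ := h
    refine up _ 1 ?_
    have h1 := mul_mem' (gc_mem (k := k) α (m := 1 - Pi.single (B.blk a) 1) fun j => by
      by_cases h : j = B.blk a <;> simp [h]) (g_mem a) (sub_add_cancel _ _)
    rw [gc_sub, gc_single, div_mul_eq_mul_div, mul_div_assoc] at h1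
    exact h1
  | algebraMap c =>
    refine Filter.Eventually.of_forall fun T => ?_
    rw [mul_comm, ← Algebra.smul_def]
    exact Submodule.smul_mem _ c (gc_mem α fun _ => Int.natCast_nonneg T)
  | add x y _ _ hx hy =>
    filter_upwards [hx, hy] with T h1 h2
    rw [mul_add]
    exact add_mem h1 h2
  | mul x y _ _ hx hy =>
    obtain ⟨T, h1, h2⟩ := (hx.and hy).exists
    refine up _ (T + T) ?_
    have h3 := mul_mem h1 h2
    rwa [mul_mul_mul_comm, ← gc_add] at h3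

theorem fin (n : Fin r → ℤ) : FiniteDimensional k (B.Bn k n) := by
  classical
  refine FiniteDimensional.span_of_finite k (((Set.finite_Iic fun a => (n (B.blk a)).toNat).image
    fun b : ι → ℕ => ∏ a, B.g a ^ b a).subset ?_)
  rintro _ ⟨b, hb, rfl⟩
  refine ⟨b, fun a => ?_, rfl⟩
  have h := Finset.single_le_sum (f := fun a => (b a : ℤ)) (fun a _ => Int.natCast_nonneg _)
    (Finset.mem_filter.2 ⟨Finset.mem_univ a, rfl⟩ :
      a ∈ Finset.univ.filter fun a' => B.blk a' = B.blk a)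
  rw [hb] at h
  exact (Int.le_toNat ((Int.natCast_nonneg _).trans h)).2 h

variable (k) in
/-- nonzero divisors modulo `θ` in a chart -/
def NZ (θ : K) (α : B.Chart) (c : K) : Prop :=
  c ∈ B.Rc k α ∧ ∀ x ∈ B.Rc k α, (∃ y ∈ B.Rc k α, c * x = θ / B.gc α 1 * y) →
    ∃ y ∈ B.Rc k α, x = θ / B.gc α 1 * y

theorem nz_prod {θ : K} {α : B.Chart} {l : Fin r → K} (hl : ∀ j, NZ k θ α (l j / B.g (α.1 j)))
    (m : Fin r → ℕ) : NZ k θ α ((∏ j, l j ^ m j) / B.gc α fun j => (m j : ℤ)) := by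
  have h1 : NZ k θ α 1 := ⟨Subalgebra.one_mem _, fun x _ h => by simpa using h⟩
  have h2 : ∀ a b, NZ k θ α a → NZ k θ α b → NZ k θ α (a * b) := fun a b ha hb =>
    ⟨Subalgebra.mul_mem _ ha.1 hb.1, fun x hx h => hb.2 x hx
      (ha.2 _ (Subalgebra.mul_mem _ hb.1 hx) (by simpa only [mul_assoc] using h))⟩
  have h3 : ∀ a, NZ k θ α a → ∀ t : ℕ, NZ k θ α (a ^ t) := fun a ha t => by
    induction t with
    | zero => simpa using h1
    | succ n ih => rw [pow_succ]; exact h2 _ _ ih ha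
  have e : ((∏ j, l j ^ m j) / B.gc α fun j => (m j : ℤ)) = ∏ j, (l j / B.g (α.1 j)) ^ m j := by
    simp [BD.gc, div_pow]
  rw [e]
  exact Finset.prod_induction _ _ h2 h1 fun j _ => h3 _ (hl j) _

theorem cancel {θ c : K} {m n : Fin r → ℤ} {f : B.Chart → K} (hc : ∀ α, NZ k θ α (c / B.gc α m))
    (hf : ∀ α, ∃ x ∈ B.Rc k α, f α = B.gc α n * x) (h : B.Z0 k θ (n + m) fun α => c * f α) :
    B.Z0 k θ n f := fun α => by
  obtain ⟨x, hx, e⟩ := hf α
  obtain ⟨y, hy, e'⟩ := h α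
  have h1 := gc_ne α m
  have h2 := gc_ne α n
  have h3 := gc_ne α 1
  obtain ⟨z, hz, e2⟩ := (hc α).2 x hx ⟨y, hy, by
    simp only [e, gc_sub, gc_add] at e'
    field_simp at e' ⊢
    linear_combination e'⟩
  exact ⟨z, hz, by rw [e, e2, gc_sub]; ring⟩

theorem zc_mul {θ c : K} {m n : Fin r → ℤ} {f : B.Chart → K} (hc : c ∈ B.Bn k m)
    (h : B.Zc k θ n f) : B.Zc k θ (n + m) fun α => c * f α := by
  refine ⟨fun α => ?_, fun α α' => ?_⟩
  · obtain ⟨x, hx, e⟩ := h.1 α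
    obtain ⟨z, hz, e'⟩ := loc α hc
    refine ⟨z * x, Subalgebra.mul_mem _ hz hx, ?_⟩
    rw [gc_add]
    linear_combination c * e + B.gc α n * x * e'
  · obtain ⟨N, y, hy, e⟩ := h.2 α α'
    obtain ⟨z, hz, e'⟩ := loc α hc
    refine ⟨N, z * y, Subalgebra.mul_mem _ hz hy, ?_⟩
    rw [add_sub_right_comm, gc_add]
    linear_combination c * e + θ * B.gc α (n - 1) * y * e'

variable (k B) in
/-- the families that vanish modulo `θ` -/
def ZS (θ : K) (n : Fin r → ℤ) : Submodule k (B.Chart → K) where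
  carrier := {f | B.Z0 k θ n f}
  add_mem' hf hg α := by
    obtain ⟨x, hx, e⟩ := hf α
    obtain ⟨y, hy, e'⟩ := hg α
    exact ⟨x + y, add_mem hx hy, by rw [Pi.add_apply, e, e', mul_add]⟩
  zero_mem' α := ⟨0, zero_mem _, by simp⟩
  smul_mem' c f hf α := by
    obtain ⟨x, hx, e⟩ := hf α
    exact ⟨c • x, Subalgebra.smul_mem _ hx c, by rw [Pi.smul_apply, e, mul_smul_comm]⟩

theorem step1 {θ : K} {u : Fin r → ℤ} (hu : 0 ≤ u) {f : B.Chart → K} (h : B.Zc k θ u f) :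
    ∃ t : ℕ, ∀ μ ∈ B.Bn k fun _ => (t : ℤ), ∃ F ∈ B.Bn k (u + fun _ => (t : ℤ)),
      (fun α => μ * f α - F) ∈ ZS k B θ (u + fun _ => (t : ℤ)) := by
  classical
  haveI : Finite B.Chart := Subtype.finite
  have h1 : ∀ β, ∀ᶠ T : ℕ in Filter.atTop,
      B.gc β (fun _ => (T : ℤ)) * f β ∈ B.Bn k (u + fun _ => (T : ℤ)) := fun β => by
    obtain ⟨x, hx, e⟩ := h.1 β
    filter_upwards [clr β hx] with T hT
    rw [e, mul_left_comm]
    exact mul_mem (gc_mem β hu) hT
  have h2 : ∀ β α, ∀ᶠ T : ℕ in Filter.atTop, ∃ y ∈ B.Rc k α,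
      B.gc β (fun _ => (T : ℤ)) * (f α - f β) = θ * B.gc α (u + (fun _ => (T : ℤ)) - 1) * y := by
    intro β α
    obtain ⟨N, y, hy, e⟩ := h.2 α β
    refine Filter.eventually_atTop.2 ⟨N, fun T hT => ?_⟩
    obtain ⟨c, rfl⟩ := Nat.exists_eq_add_of_le' hT
    refine ⟨(B.gc β 1 / B.gc α 1) ^ c * y, Subalgebra.mul_mem _
      (Subalgebra.pow_mem _ (loc' α (gc_mem β zero_le_one)) c) hy, ?_⟩
    have e1 : B.gc β 1 = B.gc β 1 / B.gc α 1 * B.gc α 1 := (div_mul_cancel₀ _ (gc_ne α 1)).symm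
    rw [add_sub_right_comm, gc_add, gc_pow, gc_pow, e1, mul_pow, ← e1, pow_add]
    linear_combination (B.gc β 1 / B.gc α 1) ^ c * B.gc α 1 ^ (c + N) * e
  obtain ⟨T, hT1, hT2⟩ := ((Filter.eventually_all.2 h1).and
    (Filter.eventually_all.2 fun β => Filter.eventually_all.2 (h2 β))).exists
  refine ⟨Fintype.card ι * T + 1, fun μ hμ => ?_⟩
  generalize ht : Fintype.card ι * T + 1 = t at hμ ⊢
  induction hμ using Submodule.span_induction with
  | zero => exact ⟨0, zero_mem _, fun α => ⟨0, zero_mem _, by simp⟩⟩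
  | add x y _ _ hx hy =>
    obtain ⟨F, hF, e⟩ := hx
    obtain ⟨G, hG, e'⟩ := hy
    exact ⟨F + G, add_mem hF hG, (congrArg (· ∈ _) (funext fun α => by
      simp only [Pi.add_apply]; ring)).mp (add_mem e e')⟩
  | smul c x _ hx =>
    obtain ⟨F, hF, e⟩ := hx
    exact ⟨c • F, Submodule.smul_mem _ c hF, (congrArg (· ∈ _) (funext fun α => by
      simp only [Pi.smul_apply, smul_sub, smul_mul_assoc])).mp (Submodule.smul_mem _ c e)⟩
  | mem μ hμ =>
    obtain ⟨b, hb, rfl⟩ := hμ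
    by_cases h0 : ∏ a, B.g a ^ b a = 0
    · exact ⟨0, zero_mem _, fun α => ⟨0, zero_mem _, by simp [h0]⟩⟩
    have h3 : ∀ j, ∃ a, B.blk a = j ∧ T < b a := fun j => by
      by_contra hn
      simp only [not_exists, not_and, not_lt] at hn
      have e1 : ∑ a ∈ Finset.univ.filter fun a => B.blk a = j, b a ≤ _ :=
        Finset.sum_le_card_nsmul _ b T fun a ha => hn a (Finset.mem_filter.1 ha).2
      have e2 := hb j
      have e3 := Nat.mul_le_mul_right T (Finset.card_le_univ (Finset.univ.filter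
        fun a => B.blk a = j))
      rw [← Nat.cast_sum, Nat.cast_inj] at e2
      rw [smul_eq_mul] at e1
      omega
    choose a ha hb' using h3
    let β : B.Chart := ⟨a, fun j => ⟨ha j, fun e => h0 (Finset.prod_eq_zero (Finset.mem_univ (a j))
      (by rw [e, zero_pow (by have := hb' j; omega)]))⟩⟩
    let c : ι → ℕ := fun i => if a (B.blk i) = i then T else 0
    have hc : ∀ i, b i = c i + (b i - c i) := fun i => by
      refine (Nat.add_sub_cancel' ?_).symm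
      by_cases hi : a (B.blk i) = i
      · rw [show c i = T from if_pos hi, ← hi]
        exact (hb' _).le
      · rw [show c i = 0 from if_neg hi]
        exact Nat.zero_le _
    have hj : ∀ j, a j ∈ Finset.univ.filter fun i => B.blk i = j := fun j => by simp [ha]
    have hcj : ∀ j, c (a j) = T := fun j => if_pos (by rw [ha])
    have hc0 : ∀ j, ∀ i ∈ Finset.univ.filter fun i => B.blk i = j, i ≠ a j → c i = 0 :=
      fun j i hi hne => if_neg fun e => hne (by rw [← e, (Finset.mem_filter.1 hi).2])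
    have e1 : ∏ i, B.g i ^ b i = (∏ i, B.g i ^ (b i - c i)) * B.gc β fun _ => (T : ℤ) := by
      have e2 : ∏ i, B.g i ^ c i = B.gc β fun _ => (T : ℤ) := by
        rw [← Finset.prod_fiberwise Finset.univ B.blk]
        refine Finset.prod_congr rfl fun j _ => ?_
        rw [Finset.prod_eq_single_of_mem _ (hj j) fun i hi hne => by rw [hc0 j i hi hne, pow_zero],
          hcj, zpow_natCast]
      rw [← e2, ← Finset.prod_mul_distrib]
      exact Finset.prod_congr rfl fun i _ => by rw [← pow_add, add_comm, ← hc]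
    have hμ' : ∏ i, B.g i ^ (b i - c i) ∈ B.Bn k fun _ => (t : ℤ) - T := by
      refine Submodule.subset_span ⟨_, fun j => ?_, rfl⟩
      have e2 := hb j
      rw [Finset.sum_congr rfl fun i _ => congrArg Nat.cast (hc i)] at e2
      simp only [Nat.cast_add, Finset.sum_add_distrib] at e2
      rw [Finset.sum_eq_single_of_mem _ (hj j) fun i hi hne => by rw [hc0 j i hi hne]; rfl,
        hcj] at e2
      linear_combination e2
    have e3 : ((fun _ => (t : ℤ) - T) + (u + fun _ => (T : ℤ))) = u + fun _ => (t : ℤ) := by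
      funext j
      simp only [Pi.add_apply]
      ring
    refine ⟨_, mul_mem' hμ' (hT1 β) e3, fun α => ?_⟩
    obtain ⟨y, hy, e4⟩ := hT2 β α
    obtain ⟨z, hz, e5⟩ := loc α hμ'
    refine ⟨z * y, Subalgebra.mul_mem _ hz hy, ?_⟩
    rw [← e3, add_sub_assoc, gc_add, e1]
    linear_combination (∏ i, B.g i ^ (b i - c i)) * e4 +
      θ * B.gc α (u + (fun _ => (T : ℤ)) - 1) * y * e5

theorem sat {θ θ' : K} {n₀ : ℕ} (h' : θ' ∈ B.Bn k 1) (hnz : ∀ α, NZ k θ α (θ' / B.gc α 1))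
    (hE : ∀ n : Fin r → ℤ, (∀ j, (n₀ : ℤ) ≤ n j) → ∀ f ∈ B.Bn k n,
      (∀ α, ∃ x ∈ B.Rc k α, ∃ y ∈ B.Rc k α, f = B.gc α (n - 1) * (θ * x + θ' * y)) →
      ∃ x ∈ B.Bn k (n - 1), ∃ y ∈ B.Bn k (n - 1), f = θ * x + θ' * y)
    {u : Fin r → ℤ} (hu : ∀ j, (n₀ : ℤ) ≤ u j) {f : B.Chart → K} (h : B.Zc k θ u f) :
    ∃ F ∈ B.Bn k u, (fun α => f α - F) ∈ ZS k B θ u := by
  have hp : ∀ t : ℕ, θ' ^ t ∈ B.Bn k fun _ => (t : ℤ) := fun t =>
    (congrArg (θ' ^ t ∈ B.Bn k ·) (funext fun _ => by simp)).mp (pow_mem h' t)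
  have key : ∀ t : ℕ, (∃ F ∈ B.Bn k (u + fun _ => (t : ℤ)),
      (fun α => θ' ^ t * f α - F) ∈ ZS k B θ (u + fun _ => (t : ℤ))) →
      ∃ F ∈ B.Bn k u, (fun α => f α - F) ∈ ZS k B θ u := fun t => by
    induction t with
    | zero =>
      have e : (u + fun _ => ((0 : ℕ) : ℤ)) = u := funext fun _ => by simp
      simp only [e, pow_zero, one_mul]
      exact id
    | succ t ih =>
      have e : (u + fun _ => ((t + 1 : ℕ) : ℤ)) = (u + fun _ => (t : ℤ)) + 1 :=
        funext fun _ => by simp [add_assoc]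
      rw [e]
      rintro ⟨F, hF, hZ⟩
      have h1 := (zc_mul (hp t) h).1
      obtain ⟨x, hx, y, hy, rfl⟩ := hE _ (fun j => by
        have := hu j
        simp only [Pi.add_apply, Pi.one_apply]
        omega) F hF fun α => by
          obtain ⟨w, hw, e1⟩ := hZ α
          obtain ⟨z, hz, e2⟩ := h1 α
          refine ⟨-w, neg_mem hw, z, hz, ?_⟩
          simp only [add_sub_cancel_right] at e1 e2 ⊢
          linear_combination θ' * e2 - e1
      rw [add_sub_cancel_right] at hx hy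
      refine ih ⟨y, hy, cancel hnz (fun α => ?_) fun α => ?_⟩
      · obtain ⟨z, hz, e2⟩ := h1 α
        obtain ⟨w, hw, e1⟩ := loc α hy
        exact ⟨z - w, sub_mem hz hw, by linear_combination e2 - e1⟩
      · obtain ⟨w, hw, e1⟩ := hZ α
        obtain ⟨z, hz, e2⟩ := loc α hx
        refine ⟨w + z, add_mem hw hz, ?_⟩
        simp only [add_sub_cancel_right] at e1 ⊢
        linear_combination e1 + θ * e2
  obtain ⟨t, ht⟩ := step1 (fun j => (Int.natCast_nonneg n₀).trans (hu j)) h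
  exact key t (ht _ (hp t))

theorem dim {θ : K} (hθ : θ ∈ B.Bn k 1) (h0 : θ ≠ 0) {u : Fin r → ℤ}
    (hs : ∀ f, B.Zc k θ u f → ∃ F ∈ B.Bn k u, (fun α => f α - F) ∈ ZS k B θ u) :
    ∃ h : ℕ, h + finrank k (B.Bn k (u - 1)) ≤ finrank k (B.Bn k u) ∧ B.Zb k θ u h := by
  haveI := fin (k := k) (B := B) u
  let ψ : B.Bn k u →ₗ[k] (B.Chart → K) ⧸ ZS k B θ u :=
    (ZS k B θ u).mkQ ∘ₗ (LinearMap.pi fun _ => LinearMap.id) ∘ₗ (B.Bn k u).subtype
  let χ : B.Bn k (u - 1) →ₗ[k] LinearMap.ker ψ :=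
    { toFun := fun x => ⟨⟨θ * x, mul_mem' hθ x.2 (add_sub_cancel _ _)⟩,
        (Submodule.Quotient.mk_eq_zero _).2 fun α => by
          obtain ⟨z, hz, e⟩ := loc α x.2
          exact ⟨z, hz, (congrArg (θ * ·) e).trans (mul_assoc _ _ _).symm⟩⟩
      map_add' := fun x y => Subtype.ext (Subtype.ext (mul_add θ x.1 y.1))
      map_smul' := fun c x => Subtype.ext (Subtype.ext (mul_smul_comm c θ x.1)) }
  have hχ : Function.Injective χ := fun x y e =>
    Subtype.ext (mul_left_cancel₀ h0 (congrArg (fun z : LinearMap.ker ψ => z.1.1) e))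
  have h1 := LinearMap.finrank_le_finrank_of_injective hχ
  have h2 := LinearMap.finrank_range_add_finrank_ker ψ
  obtain ⟨π, hπ⟩ := (LinearMap.range ψ).subtype.exists_leftInverse_of_injective
    (Submodule.ker_subtype _)
  refine ⟨finrank k (LinearMap.range ψ), by omega,
    (Module.finBasis k (LinearMap.range ψ)).equivFun.toLinearMap ∘ₗ π ∘ₗ (ZS k B θ u).mkQ,
    fun f hf e => ?_⟩
  obtain ⟨F, hF, hZ⟩ := hs f hf
  have e1 : (ZS k B θ u).mkQ f = ψ ⟨F, hF⟩ := (Submodule.Quotient.eq _).2 hZ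
  have e2 : π ((ZS k B θ u).mkQ f) = 0 :=
    (Module.finBasis k (LinearMap.range ψ)).equivFun.map_eq_zero_iff.1 e
  have e3 := LinearMap.congr_fun hπ ⟨ψ ⟨F, hF⟩, LinearMap.mem_range_self _ _⟩
  have e4 : ψ ⟨F, hF⟩ = 0 := congrArg Subtype.val (e3.symm.trans (e1 ▸ e2 :))
  exact (Submodule.Quotient.mk_eq_zero _).1 (e1.trans e4)

end TE3

open TE3 in
theorem t_E3 (hE1 : S_E1) (hE2 : S_E2) : S_E3 := by
  intro k K ι _ _ _ _ _ r B θ hθ h0
  choose l hl hl' using hE2 k K ι r B θ hθ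
  have hnz : ∀ α j, NZ k θ α (l j / B.g (α.1 j)) := fun α j =>
    ⟨gc_single α j ▸ loc' α (hl j), hl' j α⟩
  obtain ⟨n₀, hn⟩ := hE1 k K ι r B θ hθ _ (prod_mem hl fun _ => 1)
  refine ⟨n₀, fun n u hnu hu => ?_⟩
  obtain ⟨h, h1, φ, hφ⟩ := dim hθ h0 fun f hf =>
    sat (prod_mem hl fun _ => 1) (fun α => nz_prod (hnz α) fun _ => 1) hn hu hf
  obtain ⟨m, rfl⟩ : ∃ m : Fin r → ℕ, u = n + fun j => (m j : ℤ) :=
    ⟨fun j => (u j - n j).toNat, funext fun j => by
      have : n j ≤ u j := hnu j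
      simp only [Pi.add_apply]
      omega⟩
  exact ⟨h, h1, φ ∘ₗ (LinearMap.mulLeft k (∏ j, l j ^ m j)).compLeft _, fun f hf e =>
    cancel (fun α => nz_prod (hnz α) m) hf.1 (hφ _ (zc_mul (prod_mem hl m) hf) e)⟩

end Pool.Agent.P.MP_6f117a_ag.PJ
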