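import Pool.Agent.P.MP_6f117a_ag.PJ.IfE

/-! One slicing step. -/

namespace Pool.Agent.P.MP_6f117a_ag.PJ

namespace TE4

variable {k K ι : Type} [Field k] [Field K] [Algebra k K] {r : ℕ} {B : BD K ι r}

theorem gc_ne (α : B.Chart) (n : Fin r → ℤ) : B.gc α n ≠ 0 :=
  Finset.prod_ne_zero_iff.2 fun j _ => zpow_ne_zero _ (α.2 j).2

theorem gc_add (α : B.Chart) (m n : Fin r → ℤ) : B.gc α (m + n) = B.gc α m * B.gc α n := by
  simp only [BD.gc, Pi.add_apply, zpow_add₀ (α.2 _).2, Finset.prod_mul_distrib]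

theorem gc_div (α α' : B.Chart) (m : Fin r → ℤ) :
    B.gc α' m / B.gc α m = ∏ j, (B.g (α'.1 j) / B.g (α.1 j)) ^ m j := by
  simp only [BD.gc, div_zpow, Finset.prod_div_distrib]

theorem gen (α α' : B.Chart) (j : Fin r) : B.g (α'.1 j) / B.g (α.1 j) ∈ B.Rc k α :=
  Algebra.subset_adjoin ⟨α'.1 j, by simp only [(α'.2 j).1]⟩

theorem rho (α α' : B.Chart) : B.gc α' 1 / B.gc α 1 ∈ B.Rc k α := by
  rw [gc_div]
  exact prod_mem fun j _ => by simpa using gen α α' j

variable (k) in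
/-- The coordinate ring of the intersection of two charts. -/
def Lc (α α' : B.Chart) : Subalgebra k K where
  carrier := {x | ∃ N : ℕ, (B.gc α' 1 / B.gc α 1) ^ N * x ∈ B.Rc k α}
  mul_mem' := fun ⟨N, h⟩ ⟨M, h'⟩ => ⟨N + M, by
    rw [pow_add, mul_mul_mul_comm]; exact mul_mem h h'⟩
  add_mem' := fun ⟨N, h⟩ ⟨M, h'⟩ => ⟨N + M, by
    rw [mul_add, pow_add, mul_right_comm, mul_assoc _ (_ ^ M)]
    exact add_mem (mul_mem h (pow_mem (rho α α') M)) (mul_mem (pow_mem (rho α α') N) h')⟩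
  algebraMap_mem' c := ⟨0, by simp⟩

theorem le_Lc (α α' : B.Chart) : B.Rc k α ≤ Lc k α α' := fun x h => ⟨0, by simpa using h⟩

theorem inv_mem (α α' : B.Chart) (j : Fin r) : (B.g (α'.1 j) / B.g (α.1 j))⁻¹ ∈ Lc k α α' := by
  refine ⟨1, ?_⟩
  rw [pow_one, gc_div, ← Finset.prod_erase_mul _ _ (Finset.mem_univ j), Pi.one_apply, zpow_one,
    mul_inv_cancel_right₀ (div_ne_zero (α'.2 j).2 (α.2 j).2)]
  exact prod_mem fun j _ => by simpa using gen α α' j

theorem div_mem (α α' : B.Chart) (m : Fin r → ℤ) : B.gc α' m / B.gc α m ∈ Lc k α α' := by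
  rw [gc_div]
  refine prod_mem fun j _ => ?_
  cases m j with
  | ofNat n => simpa using pow_mem (le_Lc α α' (gen α α' j)) n
  | negSucc n => rw [zpow_negSucc, ← inv_pow]; exact pow_mem (inv_mem α α' j) _

theorem le_Lc' (α α' : B.Chart) : B.Rc k α' ≤ Lc k α α' := by
  refine Algebra.adjoin_le ?_
  rintro _ ⟨a, rfl⟩
  have := mul_mem (le_Lc α α' (Algebra.subset_adjoin ⟨a, rfl⟩)) (inv_mem (k := k) α α' (B.blk a))
  rwa [inv_div, div_mul_div_cancel₀ (α.2 _).2] at this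

theorem desc {β : Type} [LinearOrder β] {𝒜 : Finset β} {P : β → Prop}
    (h : ∀ a ∈ 𝒜, (∀ b ∈ 𝒜, a < b → P b) → P a) : ∀ a ∈ 𝒜, P a := by
  classical
  by_contra! h'
  obtain ⟨a, h1, h2⟩ := h'
  obtain ⟨b, h3, h4⟩ := (𝒜.filter fun a => ¬ P a).exists_max_image id ⟨a, by simp [h1, h2]⟩
  simp only [Finset.mem_filter, id] at h3 h4
  exact h3.2 (h b h3.1 fun c h5 h6 => by_contra fun h7 => h6.not_ge (h4 c ⟨h5, h7⟩))

variable {E β : Type} [AddCommGroup E] [Module K E] [LinearOrder β] {𝒜 : Finset β} {e : β → E}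
  {lam : β → Fin r → ℤ} {ξ : B.Chart → β → E}

/-- Coordinates in the local frames, and the transition matrices. -/
theorem coord (hF : B.Frames k 𝒜 e lam ξ) (α : B.Chart) : ∃ g : E →ₗ[K] 𝒜 → K,
    (∀ (c : β → K) a, g (∑ b ∈ 𝒜, c b • ξ α b) a = c a) ∧ ∀ α', ∀ b ∈ 𝒜, ∀ a : 𝒜,
      g (ξ α' b) a ∈ Lc k α α' ∧ (b < a → g (ξ α' b) a = 0) ∧
        (b = a → g (ξ α' b) a = B.gc α' (lam b) / B.gc α (lam b)) := by
  classical
  obtain ⟨h1, h2, h3⟩ := hF
  obtain ⟨co, hco⟩ := (Finsupp.linearCombination K e).exists_leftInverse_of_injective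
    (LinearMap.ker_eq_bot.2 h1)
  have c1 : ∀ b, co (e b) = Finsupp.single b 1 := fun b => by
    simpa using LinearMap.congr_fun hco (Finsupp.single b 1)
  have c2 : ∀ α, ∀ b ∈ 𝒜, ∀ a, b ≤ a → co (ξ α b) a = if b = a then B.gc α (lam b) else 0 := by
    intro α b hb a hba
    have : ∀ w ∈ Submodule.span K (e '' Set.Iio b), co w a = 0 := fun w hw => by
      induction hw using Submodule.span_induction with
      | mem x hx =>
        obtain ⟨c, hc, rfl⟩ := hx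
        rw [c1, Finsupp.single_eq_of_ne (hc.trans_le hba).ne']
      | zero => simp
      | add x y _ _ hx hy => simp [hx, hy]
      | smul c x _ hx => simp [hx]
    simpa [c1, Finsupp.single_apply, sub_eq_zero] using this _ (h2 α b hb)
  have c3 : ∀ c : β → K, ∀ a ∈ 𝒜, (∀ b ∈ 𝒜, a < b → c b = 0) →
      co (∑ b ∈ 𝒜, c b • ξ α b) a = c a * B.gc α (lam a) := fun c a ha h => by
    rw [map_sum, Finsupp.finsetSum_apply, Finset.sum_eq_single_of_mem a ha fun b hb hne => ?_]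
    · simp [c2 α a ha a le_rfl]
    · rcases lt_or_gt_of_ne hne with h' | h'
      · simp [c2 α b hb a h'.le, hne]
      · simp [h b hb h']
  have c4 : ∀ (c : β → K) (p : β → Prop), (∀ a b, a < b → p a → p b) →
      (∀ a ∈ 𝒜, p a → co (∑ b ∈ 𝒜, c b • ξ α b) a = 0) → ∀ a ∈ 𝒜, p a → c a = 0 :=
    fun c p hp h => desc fun a ha ih h' => (mul_eq_zero.1 ((c3 c a ha fun b hb hab =>
      ih b hb hab (hp a b hab h')).symm.trans (h a ha h'))).resolve_right (gc_ne _ _)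
  have e1 : ∀ c : β → K, Fintype.linearCombination K (fun a : 𝒜 => ξ α a) (fun a => c a) =
      ∑ b ∈ 𝒜, c b • ξ α b := fun c => Finset.sum_coe_sort 𝒜 fun b => c b • ξ α b
  obtain ⟨g, hg⟩ := (Fintype.linearCombination K fun a : 𝒜 => ξ α a).exists_leftInverse_of_injective
    (LinearMap.ker_eq_bot'.2 fun c hc => funext fun a => by
      have h4 : c = fun a : 𝒜 => Subtype.val.extend c 0 a :=
        funext fun a => (Subtype.val_injective.extend_apply _ _ a).symm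
      rw [h4, e1] at hc
      rw [h4]
      exact c4 _ (fun _ => True) (fun _ _ _ => id) (fun a _ _ => by simp [hc]) a a.2 trivial)
  have g1 : ∀ (c : β → K) a, g (∑ b ∈ 𝒜, c b • ξ α b) a = c a := fun c a => by
    rw [← e1]; exact congrFun (LinearMap.congr_fun hg _) a
  refine ⟨g, g1, fun α' b hb a => ?_⟩
  obtain ⟨N, c, hc, h⟩ := h3 α α' b hb
  have g2 := g1 c a
  have g3 : (B.gc α' 1 / B.gc α 1) ^ N ≠ 0 := pow_ne_zero _ (div_ne_zero (gc_ne _ _) (gc_ne _ _))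
  have g4 := c4 c (b < ·) (fun _ _ h1 h2 => h2.trans h1) fun a _ h' => by
    simp [← h, c2 α' b hb a h'.le, h'.ne]
  rw [← h, map_smul, Pi.smul_apply, smul_eq_mul] at g2
  refine ⟨⟨N, g2 ▸ hc a⟩, fun h' => (mul_eq_zero.1 (g2.trans (g4 a a.2 h'))).resolve_left g3,
    fun h' => mul_left_cancel₀ g3 ?_⟩
  have g5 := c3 c b hb g4
  rw [← h, map_smul, Finsupp.smul_apply, c2 α' b hb b le_rfl, if_pos rfl, smul_eq_mul] at g5
  rw [g2, ← h', ← mul_div_assoc, g5, mul_div_cancel_right₀ _ (gc_ne _ _)]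

end TE4

open TE4 in
theorem t_E4 : S_E4 := by
  classical
  intro k K ι _ _ _ _ r B E β _ _ _ _ _ 𝒜 e lam ξ hF θ _ hθ _ n h hZ
  choose g g1 g2 using coord hF
  choose φ hφ using fun a : 𝒜 => hZ a a.2
  let σ : (Σ a : 𝒜, Fin (h a)) ≃ Fin (∑ a ∈ 𝒜, h a) :=
    Fintype.equivFinOfCardEq (by simp [Finset.sum_attach])
  refine ⟨LinearMap.pi fun i => LinearMap.proj (σ.symm i).2 ∘ₗ φ (σ.symm i).1 ∘ₗ LinearMap.pi
    fun α => (B.gc α (lam (σ.symm i).1) • LinearMap.proj (σ.symm i).1 ∘ₗ g α).restrictScalars k,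
    fun v hv h0 => ?_⟩
  choose c hc hv using hv
  have gv : ∀ α (a : 𝒜), g α v a = B.gc α n * c α a := fun α a => by
    rw [hv α, map_smul, Pi.smul_apply, g1, smul_eq_mul]
  have key : ∀ a ∈ 𝒜, ∀ α, B.gc α n * c α a / (θ * B.gc α (n - 1)) ∈ B.Rc k α := by
    refine desc fun a ha ih α => ?_
    have e1 : ∀ α, B.gc α (n + lam a - 1) = B.gc α (n - 1) * B.gc α (lam a) := fun α => by
      rw [add_sub_right_comm, gc_add]
    suffices H : B.Zc k θ (n + lam a) fun α => B.gc α (lam a) * g α v ⟨a, ha⟩ by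
      obtain ⟨y, h1, h2⟩ := hφ ⟨a, ha⟩ _ H (funext fun i => by
        have := congrFun h0 (σ ⟨⟨a, ha⟩, i⟩)
        rwa [LinearMap.pi_apply, σ.symm_apply_apply] at this) α
      have := gc_ne α (n - 1)
      simp only [gv, e1] at h2
      rwa [show B.gc α n * c α a / (θ * B.gc α (n - 1)) = y by
        field_simp; apply mul_left_cancel₀ (gc_ne α (lam a)); linear_combination h2]
    refine ⟨fun α => ⟨_, hc α a, by simp only [gv, gc_add]; ring⟩, fun α α' => ?_⟩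
    have n1 := gc_ne α (lam a)
    have n2 := gc_ne α (n - 1)
    have n3 := gc_ne α' (n - 1)
    obtain ⟨N, hN⟩ : ∑ b ∈ 𝒜.erase a, B.gc α' (n - 1) / B.gc α (n - 1) *
        (B.gc α' n * c α' b / (θ * B.gc α' (n - 1)) * g α (ξ α' b) ⟨a, ha⟩) ∈ Lc k α α' :=
      sum_mem fun b hb => by
        obtain ⟨h1, hb⟩ := Finset.mem_erase.1 hb
        obtain ⟨h2, h3, -⟩ := g2 α α' b hb ⟨a, ha⟩
        rcases lt_or_gt_of_ne h1 with h' | h'
        · simp [h3 h']
        · exact mul_mem (div_mem _ _ _) (mul_mem (le_Lc' _ _ (ih b hb h' α')) h2)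
    refine ⟨N, _, hN, ?_⟩
    have h3 := congrArg (fun v => g α v ⟨a, ha⟩) (hv α')
    simp only [map_smul, map_sum, Pi.smul_apply, Finset.sum_apply, smul_eq_mul] at h3
    rw [← Finset.add_sum_erase _ _ ha, (g2 α α' a ha ⟨a, ha⟩).2.2 rfl, mul_add,
      Finset.mul_sum] at h3
    beta_reduce
    rw [h3, gv, e1, mul_left_comm, Finset.mul_sum, mul_add, Finset.mul_sum, add_sub_right_comm,
      show _ - _ = (0 : K) by field_simp; ring, zero_add]
    simp only [Finset.mul_sum]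
    exact Finset.sum_congr rfl fun b _ => by field_simp
  refine ⟨θ⁻¹ • v, fun α => ⟨fun a => if a ∈ 𝒜 then B.gc α n * c α a / (θ * B.gc α (n - 1)) else 0,
    fun a => ?_, ?_⟩, (smul_inv_smul₀ hθ v).symm⟩
  · beta_reduce
    split_ifs with h
    exacts [key a h α, zero_mem _]
  · have := gc_ne α (n - 1)
    rw [hv α]
    simp only [Finset.smul_sum, smul_smul]
    exact Finset.sum_congr rfl fun a ha => by rw [if_pos ha]; congr 1; field_simp

end Pool.Agent.P.MP_6f117a_ag.PJ
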