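import Pool.Agent.P.MP_6f117a_ag.PJ.IfE

/-! Many sections in a very positive twist. -/

namespace Pool.Agent.P.MP_6f117a_ag.PJ

open Module

namespace TE5

variable {k : Type} {K ι : Type} [Field k] [Field K] [Algebra k K] [Fintype ι] {r : ℕ}
  (B : BD K ι r)

omit [Fintype ι] in
lemma gc_ne (α : B.Chart) (n : Fin r → ℤ) : B.gc α n ≠ 0 :=
  Finset.prod_ne_zero_iff.2 fun j _ => zpow_ne_zero _ (α.2 j).2

omit [Fintype ι] in
lemma gc_add (α : B.Chart) (m n : Fin r → ℤ) : B.gc α (m + n) = B.gc α m * B.gc α n := by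
  simp only [BD.gc, Pi.add_apply, ← Finset.prod_mul_distrib]
  exact Finset.prod_congr rfl fun j _ => zpow_add₀ (α.2 j).2 _ _

omit [Fintype ι] in
lemma gc_pow (α : B.Chart) (N : ℕ) : B.gc α 1 ^ N = B.gc α fun _ => (N : ℤ) := by
  simp only [BD.gc, Pi.one_apply, zpow_one, zpow_natCast, Finset.prod_pow]

lemma mono_mem (α : B.Chart) (b : ι → ℕ) (n : Fin r → ℤ)
    (hb : ∀ j, ∑ a ∈ Finset.univ.filter fun a => B.blk a = j, (b a : ℤ) = n j) :
    (∏ a, B.g a ^ b a) / B.gc α n ∈ B.Rc k α := by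
  have h : B.gc α n = ∏ a, B.g (α.1 (B.blk a)) ^ b a := by
    rw [← Finset.prod_fiberwise Finset.univ B.blk]
    refine Finset.prod_congr rfl fun j _ => ?_
    rw [← hb j, ← Nat.cast_sum, zpow_natCast, ← Finset.prod_pow_eq_pow_sum]
    refine Finset.prod_congr rfl fun a ha => ?_
    rw [(Finset.mem_filter.1 ha).2]
  rw [h, ← Finset.prod_div_distrib]
  refine prod_mem fun a _ => ?_
  rw [← div_pow]
  exact pow_mem (Algebra.subset_adjoin (Set.mem_range_self a)) _

lemma div_mono (α : B.Chart) (b : ι → ℕ) (d m : Fin r → ℤ)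
    (hb : ∀ j, ∑ a ∈ Finset.univ.filter fun a => B.blk a = j, (b a : ℤ) = d j)
    (hm : ∀ j, m j ≤ b (α.1 j)) :
    ∃ b' : ι → ℕ, (∀ j, ∑ a ∈ Finset.univ.filter fun a => B.blk a = j, (b' a : ℤ) = (d - m) j) ∧
      ∏ a, B.g a ^ b a = B.gc α m * ∏ a, B.g a ^ b' a := by
  classical
  let b' : ι → ℕ := fun a => if a = α.1 (B.blk a) then (b a - m (B.blk a)).toNat else b a
  have hmem : ∀ j, α.1 j ∈ Finset.univ.filter fun a => B.blk a = j := fun j =>
    Finset.mem_filter.2 ⟨Finset.mem_univ _, (α.2 j).1⟩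
  have h1 : ∀ j, (b' (α.1 j) : ℤ) = b (α.1 j) - m j := fun j => by
    have := hm j
    simp only [b', (α.2 j).1, if_true]
    omega
  have h2 : ∀ j, ∀ a ∈ (Finset.univ.filter fun a => B.blk a = j).erase (α.1 j), b' a = b a :=
    fun j a ha => by
      obtain ⟨h, ha⟩ := Finset.mem_erase.1 ha
      simp only [b', (Finset.mem_filter.1 ha).2, if_neg h]
  refine ⟨b', fun j => ?_, ?_⟩
  · rw [Pi.sub_apply, ← hb j, ← Finset.add_sum_erase _ _ (hmem j),
      ← Finset.add_sum_erase _ _ (hmem j), h1 j,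
      Finset.sum_congr rfl fun a ha => congrArg (Nat.cast : ℕ → ℤ) (h2 j a ha)]
    ring
  · rw [← Finset.prod_fiberwise Finset.univ B.blk,
      ← Finset.prod_fiberwise Finset.univ B.blk fun a => B.g a ^ b' a, BD.gc,
      ← Finset.prod_mul_distrib]
    refine Finset.prod_congr rfl fun j _ => ?_
    rw [← Finset.mul_prod_erase _ _ (hmem j), ← Finset.mul_prod_erase _ _ (hmem j),
      Finset.prod_congr rfl fun a ha => congrArg (B.g a ^ ·) (h2 j a ha), ← mul_assoc,
      ← zpow_natCast _ (b' _), h1 j, ← zpow_add₀ (α.2 j).2, add_sub_cancel, zpow_natCast]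

lemma pigeon (b : ι → ℕ) (d : Fin r → ℤ) (T : ℕ)
    (hb : ∀ j, ∑ a ∈ Finset.univ.filter fun a => B.blk a = j, (b a : ℤ) = d j)
    (hd : ∀ j, (T * Fintype.card ι : ℕ) < d j) (h0 : ∏ a, B.g a ^ b a ≠ 0) :
    ∃ α : B.Chart, ∀ j, T ≤ b (α.1 j) := by
  have h : ∀ j, ∃ a, B.blk a = j ∧ T < b a := fun j => by
    by_contra hc
    push Not at hc
    have h1 : ∑ a ∈ Finset.univ.filter fun a => B.blk a = j, b a ≤
        (Finset.univ.filter fun a => B.blk a = j).card • T :=
      Finset.sum_le_card_nsmul _ _ _ fun a ha => hc a (Finset.mem_filter.1 ha).2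
    have h2 : (Finset.univ.filter fun a => B.blk a = j).card ≤ Fintype.card ι :=
      Finset.card_le_univ _
    have h3 := hd j
    rw [← hb j, ← Nat.cast_sum, Nat.cast_lt] at h3
    rw [smul_eq_mul] at h1
    nlinarith
  choose α h1 h2 using h
  refine ⟨⟨α, fun j => ⟨h1 j, fun hz => h0 ?_⟩⟩, fun j => (h2 j).le⟩
  refine Finset.prod_eq_zero (Finset.mem_univ (α j)) ?_
  rw [hz]
  exact zero_pow (by have := h2 j; omega)

variable {E β : Type} [AddCommGroup E] [Module K E] [LinearOrder β] (𝒜 : Finset β)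

/-- The sections form a subspace. -/
def GamS [Module k E] [IsScalarTower k K E] (ξ : B.Chart → β → E) (n : Fin r → ℤ) :
    Submodule k E where
  carrier := {v | B.Gam k 𝒜 ξ n v}
  zero_mem' := fun α => ⟨0, fun _ => zero_mem _, by simp⟩
  add_mem' := fun {v w} hv hw α => by
    obtain ⟨c, hc, rfl⟩ := hv α
    obtain ⟨c', hc', rfl⟩ := hw α
    refine ⟨c + c', fun a => add_mem (hc a) (hc' a), ?_⟩
    simp only [Pi.add_apply, add_smul, Finset.sum_add_distrib, smul_add]
  smul_mem' := fun t v hv α => by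
    obtain ⟨c, hc, rfl⟩ := hv α
    refine ⟨fun a => t • c a, fun a => Subalgebra.smul_mem _ (hc a) t, ?_⟩
    simp only [smul_assoc, ← Finset.smul_sum]
    exact smul_comm _ _ _

lemma lift [Module k E] [IsScalarTower k K E] (e : β → E) (lam : β → Fin r → ℤ)
    (ξ : B.Chart → β → E) (hF : B.Frames k 𝒜 e lam ξ) :
    ∃ T : ℕ, ∀ n : Fin r → ℤ, ∀ a ∈ 𝒜, (∀ j, (T : ℤ) < (n + lam a) j) →
      ∀ f ∈ B.Bn k (n + lam a), ∃ v ∈ GamS (k := k) B 𝒜 ξ n,
        v - f • e a ∈ Submodule.span K (e '' Set.Iio a) := by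
  classical
  obtain ⟨-, h2, h3⟩ := hF
  have : Finite B.Chart := by unfold BD.Chart; infer_instance
  choose N c hc hN using fun (x : B.Chart × B.Chart × 𝒜) => h3 x.1 x.2.1 x.2.2.1 x.2.2.2
  obtain ⟨T, hT⟩ : ∃ T : ℕ, ∀ (x : B.Chart × B.Chart × 𝒜) (j : Fin r),
      lam x.2.2 j + N x ≤ T := by
    obtain ⟨T, hT⟩ := (Set.finite_range fun y : (B.Chart × B.Chart × 𝒜) × Fin r =>
      (lam y.1.2.2 y.2 + N y.1).toNat).bddAbove
    refine ⟨T, fun x j => ?_⟩
    have : (lam x.2.2 j + N x).toNat ≤ T := hT ⟨(x, j), rfl⟩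
    omega
  refine ⟨T * Fintype.card ι, fun n a ha hn f hf => ?_⟩
  induction hf using Submodule.span_induction with
  | zero => exact ⟨0, zero_mem _, by simp⟩
  | add f f' _ _ ih ih' =>
    obtain ⟨v, hv, h⟩ := ih
    obtain ⟨v', hv', h'⟩ := ih'
    refine ⟨v + v', add_mem hv hv', ?_⟩
    have := add_mem h h'
    rwa [show v - f • e a + (v' - f' • e a) = v + v' - (f + f') • e a by
      rw [add_smul]; abel] at this
  | smul t f _ ih =>
    obtain ⟨v, hv, h⟩ := ih
    refine ⟨t • v, Submodule.smul_mem _ t hv, ?_⟩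
    have := Submodule.smul_mem _ (algebraMap k K t) h
    rwa [algebraMap_smul, smul_sub, ← smul_assoc] at this
  | mem f hf =>
    obtain ⟨b, hb, rfl⟩ := hf
    by_cases h0 : ∏ a, B.g a ^ b a = 0
    · exact ⟨0, zero_mem _, by simp [h0]⟩
    obtain ⟨α', hα'⟩ := pigeon B b _ T hb hn h0
    refine ⟨((∏ a, B.g a ^ b a) / B.gc α' (lam a)) • ξ α' a, fun α => ?_, ?_⟩
    · let x : B.Chart × B.Chart × 𝒜 := (α, α', ⟨a, ha⟩)
      obtain ⟨b', hb', hf⟩ := div_mono B α' b _ (lam a + fun _ => (N x : ℤ)) hb fun j => by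
        have := hT x j
        have := hα' j
        simp only [Pi.add_apply, x] at *
        omega
      have hR := mono_mem (k := k) B α b' _ hb'
      refine ⟨fun a' => _ * c x a', fun a' => mul_mem hR (hc x a'), ?_⟩
      simp only [mul_smul, ← Finset.smul_sum]
      rw [← hN x, smul_smul, smul_smul, div_pow, gc_pow, gc_pow, hf, gc_add]
      congr 1
      have hn' : B.gc α n = B.gc α (n + lam a - (lam a + fun _ => (N x : ℤ))) *
          B.gc α (fun _ => (N x : ℤ)) := by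
        rw [← gc_add]
        congr 1
        abel
      rw [hn']
      have := gc_ne B α' (lam a)
      have := gc_ne B α (fun _ => (N x : ℤ))
      have := gc_ne B α (n + lam a - (lam a + fun _ => (N x : ℤ)))
      simp only [x] at *
      field_simp
    · have := Submodule.smul_mem _ ((∏ a, B.g a ^ b a) / B.gc α' (lam a)) (h2 α' a ha)
      rwa [smul_sub, smul_smul, div_mul_cancel₀ _ (gc_ne B α' _)] at this

lemma indep [Module k E] [IsScalarTower k K E] (e : β → E) (he : LinearIndependent K e)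
    (d : 𝒜 → ℕ) (f : ∀ a : 𝒜, Fin (d a) → K) (hf : ∀ a, LinearIndependent k (f a))
    (v : (Σ a : 𝒜, Fin (d a)) → E)
    (hv : ∀ x, v x - f x.1 x.2 • e x.1 ∈ Submodule.span K (e '' Set.Iio x.1)) :
    LinearIndependent k v := by
  classical
  rw [Fintype.linearIndependent_iff]
  intro c hc
  by_contra hne
  push Not at hne
  obtain ⟨x₀, hx₀, hmax⟩ := Finset.exists_max_image (Finset.univ.filter fun x => c x ≠ 0)
    (fun x => (x.1 : β)) (hne.imp fun x hx => Finset.mem_filter.2 ⟨Finset.mem_univ _, hx⟩)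
  have key : ∀ x, c x • v x - (if x.1 = x₀.1 then c x • f x.1 x.2 else 0) • e x₀.1 ∈
      Submodule.span K (e '' Set.Iio x₀.1) := fun x => by
    by_cases h0 : c x = 0
    · simp [h0]
    have hle : (x.1 : β) ≤ x₀.1 := hmax x (Finset.mem_filter.2 ⟨Finset.mem_univ _, h0⟩)
    have h1 := Submodule.smul_mem _ (algebraMap k K (c x)) (hv x)
    rw [algebraMap_smul, smul_sub, ← smul_assoc] at h1
    split_ifs with h
    · rwa [← h]
    · have hlt : (x.1 : β) < x₀.1 := lt_of_le_of_ne hle fun h' => h (Subtype.ext h')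
      have h2 := Submodule.span_mono (R := K) (Set.image_mono (f := e)
        (Set.Iio_subset_Iio hle)) h1
      have h3 : (c x • f x.1 x.2) • e x.1 ∈ Submodule.span K (e '' Set.Iio x₀.1) :=
        Submodule.smul_mem _ _ (Submodule.subset_span ⟨x.1, hlt, rfl⟩)
      simpa using add_mem h2 h3
  have hs := Submodule.sum_mem _ fun x (_ : x ∈ Finset.univ) => key x
  rw [Finset.sum_sub_distrib, hc, zero_sub, neg_mem_iff, ← Finset.sum_smul] at hs
  have hsub : Set.Iio (x₀.1 : β) ⊆ Set.univ \ {(x₀.1 : β)} := fun b hb =>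
    ⟨trivial, ne_of_lt hb⟩
  have hz := linearIndependent_iff_eq_zero_of_smul_mem_span.1 he x₀.1 _
    (Submodule.span_mono (Set.image_mono hsub) hs)
  rw [Fintype.sum_sigma, Finset.sum_eq_single x₀.1 (fun a _ h => by simp [h]) (by simp)] at hz
  simp only [if_true] at hz
  exact (Finset.mem_filter.1 hx₀).2
    (Fintype.linearIndependent_iff.1 (hf x₀.1) (fun i => c ⟨x₀.1, i⟩) hz x₀.2)

end TE5

theorem t_E5 : S_E5 := by
  intro k K ι _ _ _ _ r B E β _ _ _ _ _ 𝒜 e lam ξ hF n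
  obtain ⟨T, hT⟩ := TE5.lift B 𝒜 e lam ξ hF
  obtain ⟨N₀, hN₀⟩ := (Set.finite_range fun y : 𝒜 × Fin r =>
    (T + 1 - n y.2 - lam y.1 y.2).toNat).bddAbove
  refine ⟨N₀, fun N hN => ?_⟩
  set n' : Fin r → ℤ := n + fun _ => (N : ℤ) with hn'
  have hd : ∀ a : 𝒜, ∀ j, (T : ℤ) < (n' + lam a) j := fun a j => by
    have : (T + 1 - n j - lam a j).toNat ≤ N₀ := hN₀ ⟨(a, j), rfl⟩
    simp only [hn', Pi.add_apply]
    omega
  choose f hf using fun a : 𝒜 =>
    exists_linearIndependent_of_le_finrank (R := k) (M := B.Bn k (n' + lam a)) le_rfl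
  choose v hv hv' using fun x : (Σ a : 𝒜, Fin (finrank k (B.Bn k (n' + lam a)))) =>
    hT n' x.1 x.1.2 (hd x.1) _ (f x.1 x.2).2
  have hi := TE5.indep 𝒜 e hF.1 _ (fun a i => (f a i : K))
    (fun a => (hf a).map' (B.Bn k (n' + lam a)).subtype (Submodule.ker_subtype _)) v hv'
  refine ⟨Submodule.span k (Set.range v), FiniteDimensional.span_of_finite k (Set.finite_range v),
    fun w hw => ?_, ?_⟩
  · exact (Submodule.span_le.2 (by rintro _ ⟨x, rfl⟩; exact hv x) :
      _ ≤ TE5.GamS (k := k) B 𝒜 ξ n') hw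
  · rw [finrank_span_eq_card hi, Fintype.card_sigma, ← Finset.sum_coe_sort]
    simp

end Pool.Agent.P.MP_6f117a_ag.PJ
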