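import Pool.Agent.P.MP_6f117a_ag.PJ.IfE

namespace Pool.Agent.P.MP_6f117a_ag.PJ

open Module Finset

namespace TEABS

variable {k K ι : Type} [Field k] [Field K] [Algebra k K] [Fintype ι] {r : ℕ} {B : BD K ι r}

theorem gc_mem (α : B.Chart) : B.gc α 1 ∈ B.Bn k 1 := by
  classical
  refine Submodule.subset_span ⟨fun a => ∑ j, if a = α.1 j then 1 else 0, fun j => ?_, ?_⟩
  · push_cast
    rw [sum_comm]
    simp [(α.2 _).1]
  · simp only [← prod_pow_eq_pow_sum]
    rw [prod_comm]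
    simp [BD.gc]

omit [Fintype ι] in
theorem gc_ne (α : B.Chart) : B.gc α 1 ≠ 0 :=
  prod_ne_zero_iff.2 fun j _ => zpow_ne_zero _ (α.2 j).2

theorem rank_step {E : Type} [AddCommGroup E] [Module k E] {W W' : Submodule k E} {m : ℕ}
    (Ψ : E →ₗ[k] (Fin m → k)) (T : E →ₗ[k] E) (h : ∀ v ∈ W, Ψ v = 0 → v ∈ W'.map T) :
    Module.rank k W ≤ Module.rank k W' + m := by
  rw [← (Ψ.domRestrict W).rank_range_add_rank_ker, add_comm]
  refine add_le_add ?_ ((Submodule.rank_le _).trans (rank_fin_fun m).le)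
  rw [← rank_map_eq W.injective_subtype]
  refine (Submodule.rank_mono ?_).trans (rank_map_le T W')
  rintro _ ⟨v, hv, rfl⟩
  exact h v v.2 hv

theorem le_nrm (x : Fin r → ℤ) (j : Fin r) : (x j).natAbs ≤ nrm x :=
  single_le_sum (f := fun j => (x j).natAbs) (fun _ _ => Nat.zero_le _) (mem_univ j)

theorem tele {θ : K} {n₀ : ℕ} (h3 : ∀ n u : Fin r → ℤ, n ≤ u → (∀ j, (n₀ : ℤ) ≤ u j) → ∃ h : ℕ,
      h + finrank k (B.Bn k (u - 1)) ≤ finrank k (B.Bn k u) ∧ B.Zb k θ n h) (x : Fin r → ℤ) :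
    ∃ (h : ℕ → ℕ) (s : ℕ), (∀ t, B.Zb k θ (x + fun _ => ((t + 1 : ℕ) : ℤ)) (h t)) ∧ ∀ N, s ≤ N →
      (∑ t ∈ range N, h t : ℕ) + B.psi k n₀ x ≤ finrank k (B.Bn k (x + fun _ => (N : ℤ))) := by
  obtain ⟨s, hs⟩ : ∃ s, s = if ∀ j, (n₀ : ℤ) ≤ x j then 0 else n₀ + nrm x := ⟨_, rfl⟩
  have h1 : ∀ t : ℕ, ∃ h : ℕ, B.Zb k θ (x + fun _ => ((t + 1 : ℕ) : ℤ)) h ∧
      (t < s → h + finrank k (B.Bn k fun _ => ((s + t : ℕ) : ℤ)) ≤
        finrank k (B.Bn k fun _ => ((s + (t + 1) : ℕ) : ℤ))) ∧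
      (s ≤ t → h + finrank k (B.Bn k (x + fun _ => (t : ℤ))) ≤
        finrank k (B.Bn k (x + fun _ => ((t + 1 : ℕ) : ℤ)))) := fun t => by
    rcases lt_or_ge t s with ht | ht
    · have h0 : s = n₀ + nrm x := by split_ifs at hs <;> omega
      obtain ⟨h, a, b⟩ := h3 (x + fun _ => ((t + 1 : ℕ) : ℤ)) (fun _ => ((s + (t + 1) : ℕ) : ℤ))
        (fun j => by have := le_nrm x j; simp only [Pi.add_apply]; omega) fun j => by omega
      refine ⟨h, b, fun _ => ?_, fun h => absurd ht h.not_gt⟩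
      rwa [show ((fun _ => ((s + (t + 1) : ℕ) : ℤ)) - 1 : Fin r → ℤ) =
          fun _ => ((s + t : ℕ) : ℤ) from
        funext fun j => by simp only [Pi.sub_apply, Pi.one_apply]; omega] at a
    · obtain ⟨h, a, b⟩ := h3 _ (x + fun _ => ((t + 1 : ℕ) : ℤ)) le_rfl fun j => by
        have := le_nrm x j
        simp only [Pi.add_apply]
        split_ifs at hs with h0
        · have := h0 j; omega
        · omega
      refine ⟨h, b, fun h => absurd ht h.not_ge, fun _ => ?_⟩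
      rwa [show ((x + fun _ => ((t + 1 : ℕ) : ℤ)) - 1 : Fin r → ℤ) = x + fun _ => (t : ℤ) from
        funext fun j => by simp only [Pi.sub_apply, Pi.add_apply, Pi.one_apply]; omega] at a
  choose h z a b using h1
  have c1 : ∀ t ≤ s, ∑ i ∈ range t, h i ≤ finrank k (B.Bn k fun _ => ((s + t : ℕ) : ℤ)) :=
      fun t ht => by
    induction t with
    | zero => simp
    | succ t ih => rw [sum_range_succ]; linarith [ih (by omega), a t ht]
  have c2 : ∀ N, s ≤ N → ∑ i ∈ range N, h i + finrank k (B.Bn k (x + fun _ => (s : ℤ))) ≤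
      ∑ i ∈ range s, h i + finrank k (B.Bn k (x + fun _ => (N : ℤ))) := fun N hN => by
    induction N, hN using Nat.le_induction with
    | base => rfl
    | succ t ht ih => rw [sum_range_succ]; linarith [b t ht]
  refine ⟨h, s, z, fun N hN => ?_⟩
  have c3 := c1 s le_rfl
  have c4 := c2 N hN
  rw [BD.psi]
  split_ifs at hs ⊢
  · subst hs
    rw [show (x + fun _ => ((0 : ℕ) : ℤ)) = x from add_zero x, sum_range_zero] at c4
    omega
  · rw [show s + s = 2 * n₀ + 2 * nrm x by omega] at c3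
    omega

variable (k B) in
/-- The space of global sections. -/
def G {E β : Type} [AddCommGroup E] [Module K E] [Module k E] [IsScalarTower k K E]
    (𝒜 : Finset β) (ξ : B.Chart → β → E) (n : Fin r → ℤ) : Submodule k E where
  carrier := {v | B.Gam k 𝒜 ξ n v}
  add_mem' := fun hv hw α => by
    obtain ⟨c, h1, h2⟩ := hv α
    obtain ⟨c', h3, h4⟩ := hw α
    exact ⟨c + c', fun a => add_mem (h1 a) (h3 a), by
      simp only [h2, h4, Pi.add_apply, add_smul, sum_add_distrib, smul_add]⟩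
  zero_mem' := fun α => ⟨0, fun _ => zero_mem _, by simp⟩
  smul_mem' := fun t v hv α => by
    obtain ⟨c, h1, h2⟩ := hv α
    exact ⟨t • c, fun a => Subalgebra.smul_mem _ (h1 a) t, by
      simp only [h2, Pi.smul_apply, smul_assoc, ← smul_sum]
      exact smul_comm _ _ _⟩

end TEABS

open TEABS in
theorem t_EABS (hE3 : S_E3) (hE4 : S_E4) (hE5 : S_E5) : S_EABS := by
  intro k K ι _ _ _ _ _ r B ⟨α⟩
  obtain ⟨n₀, h3⟩ := hE3 k K ι r B _ (gc_mem α) (gc_ne α)
  refine ⟨n₀, fun E β _ _ _ 𝒜 e lam ξ hF n hpos => ?_⟩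
  let : Module k E := Module.compHom E (algebraMap k K)
  have : IsScalarTower k K E := IsScalarTower.of_algebraMap_smul fun _ _ => rfl
  by_contra hcon
  choose h s z b using fun a => tele h3 (n + lam a)
  have key : ∀ t : ℕ, Module.rank k (G k B 𝒜 ξ (n + fun _ => (t : ℤ))) ≤
      (∑ a ∈ 𝒜, ∑ i ∈ range t, h a i : ℕ) := fun t => by
    induction t with
    | zero =>
      rw [show (n + fun _ => ((0 : ℕ) : ℤ)) = n from add_zero n, (G k B 𝒜 ξ n).eq_bot_iff.2
        fun v hv => by_contra fun h0 => hcon ⟨v, h0, hv⟩, rank_bot]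
      exact zero_le
    | succ t ih =>
      obtain ⟨Ψ, hΨ⟩ := hE4 k K ι r B E β 𝒜 e lam ξ hF _ (gc_mem α) (gc_ne α) ⟨α⟩
        (n + fun _ => ((t + 1 : ℕ) : ℤ)) (fun a => h a t) fun a _ => add_right_comm n _ _ ▸ z a t
      rw [show ((n + fun _ => ((t + 1 : ℕ) : ℤ)) - 1 : Fin r → ℤ) = n + fun _ => (t : ℤ) from
        funext fun j => by simp only [Pi.sub_apply, Pi.add_apply, Pi.one_apply]; omega] at hΨ
      refine (rank_step (W' := G k B 𝒜 ξ (n + fun _ : Fin r => (t : ℤ))) Ψ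
        ((LinearMap.lsmul K E (B.gc α 1)).restrictScalars k) fun v hv h0 =>
        let ⟨v', h1, h2⟩ := hΨ v hv h0; ⟨v', h1, h2.symm⟩).trans ?_
      simp only [sum_range_succ, sum_add_distrib, Nat.cast_add]
      exact add_le_add ih le_rfl
  obtain ⟨N₀, hN⟩ := hE5 k K ι r B E β 𝒜 e lam ξ hF n
  obtain ⟨W, -, w1, w2⟩ := hN (N₀ + 𝒜.sup s) (Nat.le_add_right _ _)
  have h1 := w2.trans (finrank_le_of_rank_le ((Submodule.rank_mono w1).trans (key _)))
  have h2 := sum_le_sum fun a ha => b a (N₀ + 𝒜.sup s) ((le_sup ha).trans (Nat.le_add_left _ _))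
  simp only [sum_add_distrib, ← Nat.cast_sum] at h2
  rw [sum_congr rfl fun a _ => by rw [add_right_comm]] at h1
  omega

end Pool.Agent.P.MP_6f117a_ag.PJ
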