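import Pool.Agent.P.MP_6f117a_ag.PJ.IfE

/-! Generating functions. -/

namespace Pool.Agent.P.MP_6f117a_ag.PJ

open Finset Filter Topology

namespace TGEO

variable {σ : Type} [Fintype σ] [DecidableEq σ] {w : σ → ℕ}

/-- The box. -/
def Bx (σ : Type) [Fintype σ] [DecidableEq σ] (K : ℕ) : Finset (ℕ × (σ → ℕ)) :=
  range K ×ˢ Fintype.piFinset fun _ => range K

omit [DecidableEq σ] in
theorem le_w (hw : ∀ v, 0 < w v) (a : σ → ℕ) (v : σ) : a v ≤ ∑ u, w u * a u :=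
  (Nat.le_mul_of_pos_left _ (hw v)).trans
    (single_le_sum (f := fun u => w u * a u) (fun _ _ => Nat.zero_le _) (mem_univ v))

theorem mem_idx (hw : ∀ v, 0 < w v) {m : ℕ} {a : σ → ℕ} : a ∈ IdxW w m ↔ ∑ v, w v * a v ≤ m := by
  rw [IdxW, mem_filter, Fintype.mem_piFinset]
  exact ⟨fun h => h.2, fun h => ⟨fun v => mem_range.2 (Nat.lt_succ_of_le ((le_w hw a v).trans h)),
    h⟩⟩

theorem mem_T (hw : ∀ v, 0 < w v) {M : ℕ} {p : ℕ × (σ → ℕ)} :
    p ∈ (Bx σ (M + 1)).filter (fun p => p.1 + ∑ v, w v * p.2 v ≤ M) ↔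
      p.1 + ∑ v, w v * p.2 v ≤ M := by
  rw [mem_filter, Bx, mem_product, Fintype.mem_piFinset]
  refine ⟨fun h => h.2, fun h => ⟨⟨mem_range.2 (by omega), fun v => mem_range.2 ?_⟩, h⟩⟩
  have := le_w hw p.2 v
  omega

theorem key (hw : ∀ v, 0 < w v) (θ : ℝ) (M : ℕ) (f : (σ → ℕ) → ℝ) :
    ∑ m ∈ range (M + 1), θ ^ m * ∑ a ∈ IdxW w m, f a =
      ∑ p ∈ (Bx σ (M + 1)).filter (fun p => p.1 + ∑ v, w v * p.2 v ≤ M),
        θ ^ (p.1 + ∑ v, w v * p.2 v) * f p.2 := by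
  simp only [mul_sum]
  rw [sum_sigma']
  refine sum_nbij' (fun x => (x.1 - ∑ v, w v * x.2 v, x.2))
    (fun p => ⟨p.1 + ∑ v, w v * p.2 v, p.2⟩) (fun x hx => ?_) (fun p hp => ?_) (fun x hx => ?_)
    (fun p _ => ?_) fun x hx => ?_
  · rw [mem_sigma, mem_range, mem_idx hw] at hx
    rw [mem_T hw]
    dsimp only
    omega
  · rw [mem_T hw] at hp
    rw [mem_sigma, mem_range, mem_idx hw]
    dsimp only
    omega
  · rw [mem_sigma, mem_idx hw] at hx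
    dsimp only
    rw [Nat.sub_add_cancel hx.2]
  · simp
  · rw [mem_sigma, mem_idx hw] at hx
    dsimp only
    rw [Nat.sub_add_cancel hx.2]

theorem box (x : ℝ) (z : σ → ℝ) (K : ℕ) : ∑ p ∈ Bx σ K, x ^ p.1 * ∏ v, z v ^ p.2 v =
    (∑ j ∈ range K, x ^ j) * ∏ v, ∑ i ∈ range K, z v ^ i := by
  rw [prod_univ_sum, sum_mul_sum, Bx, sum_product]

theorem geo {x : ℝ} (h0 : 0 ≤ x) (h1 : x < 1) (K : ℕ) : ∑ j ∈ range K, x ^ j ≤ (1 - x)⁻¹ :=
  sum_le_hasSum _ (fun _ _ => pow_nonneg h0 _) (hasSum_geometric_of_lt_one h0 h1)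

theorem box_le {x : ℝ} {z : σ → ℝ} (h0 : 0 ≤ x) (h1 : x < 1) (h2 : ∀ v, 0 ≤ z v)
    (h3 : ∀ v, z v < 1) (K : ℕ) :
    ∑ p ∈ Bx σ K, x ^ p.1 * ∏ v, z v ^ p.2 v ≤ (1 - x)⁻¹ * ∏ v, (1 - z v)⁻¹ := by
  rw [box]
  have h4 : ∀ v, 0 ≤ ∑ i ∈ range K, z v ^ i := fun v => sum_nonneg fun _ _ => pow_nonneg (h2 v) _
  exact mul_le_mul (geo h0 h1 K) (prod_le_prod (fun v _ => h4 v) fun v _ => geo (h2 v) (h3 v) K)
    (prod_nonneg fun v _ => h4 v) (inv_nonneg.2 (sub_nonneg.2 h1.le))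

omit [DecidableEq σ] in
theorem term (θ : ℝ) (p : ℕ × (σ → ℕ)) :
    θ ^ p.1 * ∏ v, (θ ^ w v) ^ p.2 v = θ ^ (p.1 + ∑ v, w v * p.2 v) := by
  simp only [← pow_mul]
  rw [prod_pow_eq_pow_sum, pow_add]

end TGEO

open TGEO in
theorem t_GEO : S_GEO := by
  intro σ _ _ w hw θ h0 h1 M
  refine ⟨fun τ h2 h3 => ?_, fun s h2 h3 => ?_⟩
  · rw [key hw]
    refine le_trans ?_ (box_le h0.le h1 (fun v => mul_nonneg (pow_nonneg h0.le _) (h2 v)) h3 (M + 1))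
    refine le_trans (le_of_eq (sum_congr rfl fun p _ => ?_)) (sum_le_sum_of_subset_of_nonneg
      (filter_subset _ _) fun p _ _ => mul_nonneg (pow_nonneg h0.le _) (prod_nonneg fun v _ =>
        pow_nonneg (mul_nonneg (pow_nonneg h0.le _) (h2 v)) _))
    simp only [mul_pow, prod_mul_distrib]
    rw [← term, mul_assoc]
  · have h4 : 0 < θ * s := mul_pos h0 (one_pos.trans_le h2)
    have h5 : 0 < s ^ M := pow_pos (one_pos.trans_le h2) M
    have h6 := key hw θ M fun _ => 1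
    simp only [sum_const, nsmul_eq_mul, mul_one] at h6
    rw [h6]
    refine le_of_tendsto' (x := atTop) (f := fun K =>
      (∑ j ∈ range K, θ ^ j) * ∏ v, ∑ i ∈ range K, (θ ^ w v) ^ i)
      ((hasSum_geometric_of_lt_one h0.le h1).tendsto_sum_nat.mul (tendsto_finsetProd _ fun v _ =>
        (hasSum_geometric_of_lt_one (pow_nonneg h0.le _)
          (pow_lt_one₀ h0.le h1 (hw v).ne')).tendsto_sum_nat)) fun K => ?_
    rw [← TGEO.box, ← sum_filter_add_sum_filter_not _ fun p => p.1 + ∑ v, w v * p.2 v ≤ M]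
    simp only [term]
    refine add_le_add (sum_le_sum_of_subset_of_nonneg (fun p hp => (mem_T hw).2 (mem_filter.1 hp).2)
      fun p _ _ => pow_nonneg h0.le _) ?_
    refine le_trans ?_ (mul_le_mul_of_nonneg_left (box_le h4.le h3 (fun v => pow_nonneg h4.le _)
      (fun v => pow_lt_one₀ h4.le h3 (hw v).ne') K) (inv_nonneg.2 h5.le))
    simp only [term, mul_sum]
    refine le_trans (sum_le_sum fun p hp => ?_) (sum_le_sum_of_subset_of_nonneg (filter_subset _ _)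
      fun p _ _ => mul_nonneg (inv_nonneg.2 h5.le) (pow_nonneg h4.le _))
    rw [le_inv_mul_iff₀ h5, mul_pow, mul_comm]
    exact mul_le_mul_of_nonneg_left (pow_le_pow_right₀ h2 (not_le.1 (mem_filter.1 hp).2).le)
      (pow_nonneg h0.le _)

end Pool.Agent.P.MP_6f117a_ag.PJ
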