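import Pool.Agent.P.MP_6f117a_ag.PJ.FIface

/-! Greedy choice of subspaces in general position. -/

namespace Pool.Agent.P.MP_6f117a_ag.PJ

open Module

universe u v

namespace TGP

lemma aux (L : Type u) [Field L] (V : Type u) [AddCommGroup V] [Module L V]
    [FiniteDimensional L V] (C : Type v) (U : C → Submodule L V)
    (h : ∀ s : Finset V, 0 ∉ s → ∃ c, ∀ x ∈ s, x ∉ U c) (N : ℕ) :
    ∃ c : Fin N → C, ∀ T : Finset (Fin N),
      finrank L (T.inf fun j => U (c j) : Submodule L V) ≤ finrank L V - T.card := by
  classical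
  induction N with
  | zero =>
    refine ⟨Fin.elim0, fun T => ?_⟩
    rw [Finset.eq_empty_of_isEmpty T, Finset.card_empty]
    exact Submodule.finrank_le _
  | succ N ih =>
    obtain ⟨c, hc⟩ := ih
    have hx : ∀ T : {T : Finset (Fin N) // (T.inf fun j => U (c j)) ≠ ⊥},
        ∃ x ∈ (T.1.inf fun j => U (c j)), x ≠ 0 := fun T => (Submodule.ne_bot_iff _).1 T.2
    choose x hx hx0 using hx
    obtain ⟨c₀, hc₀⟩ := h (Finset.univ.image x) (by
      simp only [Finset.mem_image, not_exists, not_and]
      exact fun T _ => hx0 T)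
    refine ⟨Fin.cons c₀ c, fun T' => ?_⟩
    let T : Finset (Fin N) := Finset.univ.filter fun j => j.succ ∈ T'
    have hT : T'.erase 0 = T.map (Fin.succEmb N) := by
      ext j
      cases j using Fin.cases with
      | zero => simp
      | succ j => simp [T]
    have hinf : ((T'.erase 0).inf fun j => U ((Fin.cons c₀ c : Fin (N + 1) → C) j)) =
        T.inf fun j => U (c j) := by
      rw [hT, Finset.inf_map]
      rfl
    have hcard : (T'.erase 0).card = T.card := by rw [hT, Finset.card_map]
    by_cases h0 : (0 : Fin (N + 1)) ∈ T'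
    · rw [← Finset.insert_erase h0, Finset.inf_insert, hinf,
        Finset.card_insert_of_notMem (Finset.notMem_erase _ _), hcard, Fin.cons_zero]
      by_cases hb : (T.inf fun j => U (c j)) = ⊥
      · rw [hb, inf_bot_eq, finrank_bot]
        exact Nat.zero_le _
      · have hlt : U c₀ ⊓ (T.inf fun j => U (c j)) < T.inf fun j => U (c j) :=
          lt_of_le_of_ne inf_le_right fun he =>
            hc₀ _ (Finset.mem_image_of_mem x (Finset.mem_univ ⟨T, hb⟩))
              (he.ge (hx ⟨T, hb⟩)).1
        have := Submodule.finrank_lt_finrank_of_lt hlt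
        have := hc T
        omega
    · rw [← Finset.erase_eq_of_notMem h0, hinf, hcard]
      exact hc T

end TGP

theorem t_GP (L : Type u) [Field L] [IsAlgClosed L] [CharZero L] : S_GP.{u, v} L := by
  intro V _ _ _ C U h N
  obtain ⟨c, hc⟩ := TGP.aux L V C U h N
  refine ⟨c, fun T hT x hx => ?_⟩
  have h0 : (T.inf fun j => U (c j) : Submodule L V) = ⊥ :=
    Submodule.finrank_eq_zero.1 (by have := hc T; omega)
  rw [← Submodule.mem_bot L, ← h0]
  exact Submodule.mem_finsetInf.2 hx

end Pool.Agent.P.MP_6f117a_ag.PJ
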