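import Pool.Agent.P.MP_6f117a_ag.PJ.FIface

/-! Properties of the degree of a point of projective space over a function field. -/

namespace Pool.Agent.P.MP_6f117a_ag.PJ

open MvPolynomial Module
open scoped IntermediateField WithZero

universe u

namespace THT

open WithZero

variable {L : Type u} [Field L] {K : Type u} [Field K] [Algebra L K] {n : ℕ}
  {ξ : Fin (n + 1) → K}

/-- The largest value of a coordinate. -/
noncomputable def mx (P : Place L K) (ξ : Fin (n + 1) → K) : ℤᵐ⁰ :=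
  Finset.univ.sup fun i => P.v (ξ i)

theorem aeval_smul {b : ℕ} {G : MvPolynomial (Fin (n + 1)) L} (h : G.IsHomogeneous b) (t : K)
    (ξ : Fin (n + 1) → K) : aeval (t • ξ) G = t ^ b * aeval ξ G := by
  rw [aeval_def, aeval_def, eval₂_eq', eval₂_eq', Finset.mul_sum]
  refine Finset.sum_congr rfl fun m hm => ?_
  have := h (mem_support_iff.1 hm)
  rw [show Finsupp.weight (1 : Fin (n + 1) → ℕ) m = m.degree by
    rw [Finsupp.degree_eq_weight_one]; rfl, Finsupp.degree_eq_sum] at this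
  simp only [Pi.smul_apply, smul_eq_mul, mul_pow, Finset.prod_mul_distrib,
    Finset.prod_pow_eq_pow_sum, this]
  ring

theorem le_mx (P : Place L K) (ξ : Fin (n + 1) → K) (i : Fin (n + 1)) : P.v (ξ i) ≤ mx P ξ :=
  Finset.le_sup (f := fun j => P.v (ξ j)) (Finset.mem_univ i)

theorem mx_eq (P : Place L K) (ξ : Fin (n + 1) → K) : ∃ i, mx P ξ = P.v (ξ i) :=
  let ⟨j, _, hj⟩ := Finset.exists_mem_eq_sup Finset.univ Finset.univ_nonempty fun j => P.v (ξ j)
  ⟨j, hj⟩

theorem mx_ne (h : ξ ≠ 0) (P : Place L K) : mx P ξ ≠ 0 := by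
  obtain ⟨i, hi⟩ := Function.ne_iff.1 h
  exact ((zero_lt_iff.2 (by simpa using hi)).trans_le (le_mx P ξ i)).ne'

theorem mx_smul (P : Place L K) (t : K) (ξ : Fin (n + 1) → K) :
    mx P (t • ξ) = P.v t * mx P ξ := by
  obtain ⟨i, hi⟩ := mx_eq P ξ
  refine le_antisymm (Finset.sup_le fun j _ => ?_) ?_
  · rw [Pi.smul_apply, smul_eq_mul, map_mul]
    exact mul_le_mul_right (le_mx P ξ j) _
  · rw [hi, ← map_mul]
    exact le_mx P (t • ξ) i

theorem v_aeval_le (P : Place L K) {η : Fin (n + 1) → K} (h : ∀ j, P.v (η j) ≤ 1)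
    (G : MvPolynomial (Fin (n + 1)) L) : P.v (aeval η G) ≤ 1 := by
  induction G using MvPolynomial.induction_on with
  | C c => rw [aeval_C]; exact P.triv c
  | add p q hp hq => rw [map_add]; exact P.v.map_add_le hp hq
  | mul_X p i hp => rw [map_mul, map_mul, aeval_X]; exact mul_le_one' hp (h i)

theorem norm (h : ξ ≠ 0) (P : Place L K) : ∃ i, ξ i ≠ 0 ∧ mx P ξ = P.v (ξ i) ∧
    (∀ j, P.v (((ξ i)⁻¹ • ξ) j) ≤ 1) ∧ ∀ (b : ℕ) (G : MvPolynomial (Fin (n + 1)) L),
      G.IsHomogeneous b → P.v (aeval ξ G) = mx P ξ ^ b * P.v (aeval ((ξ i)⁻¹ • ξ) G) := by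
  obtain ⟨i, hi⟩ := mx_eq P ξ
  have h0 := mx_ne h P
  have h1 : ξ i ≠ 0 := fun e => h0 (by rw [hi, e, map_zero])
  refine ⟨i, h1, hi, fun j => (le_mx P _ j).trans ?_, fun n G hG => ?_⟩
  · rw [mx_smul, map_inv₀, ← hi, inv_mul_cancel₀ h0]
  · rw [aeval_smul hG, map_mul, map_pow, map_inv₀, ← hi, ← mul_assoc, ← mul_pow,
      mul_inv_cancel₀ h0, one_pow, one_mul]

theorem v_le (h : ξ ≠ 0) (P : Place L K) (b : ℕ) (G : MvPolynomial (Fin (n + 1)) L)
    (hG : G.IsHomogeneous b) : P.v (aeval ξ G) ≤ mx P ξ ^ b := by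
  obtain ⟨i, -, -, h2, h3⟩ := norm h P
  rw [h3 b G hG]
  exact mul_le_of_le_one_right' (v_aeval_le P h2 G)

theorem sum_mx (ξ : Fin (n + 1) → K) (Z : Finset (Place L K)) (hZ : ∀ P, mx P ξ ≠ 1 → P ∈ Z) :
    ∑ P ∈ Z, log (mx P ξ) = degree L ξ :=
  (finsum_eq_sum_of_support_subset (fun P : Place L K => log (mx P ξ)) (s := Z) fun P hP =>
    hZ P fun e => hP (by simp only [e, log_one])).symm

theorem log_nonpos {x : ℤᵐ⁰} (h : x ≤ 1) : log x ≤ 0 := by
  rcases eq_or_ne x 0 with rfl | e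
  · exact le_rfl
  · exact (log_le_iff_le_exp e).2 h

variable [IsAlgClosed L] [CharZero L] [FF L K]

theorem fin (h : ξ ≠ 0) : {P : Place L K | mx P ξ ≠ 1}.Finite := by
  refine (Set.finite_iUnion (f := fun j => {P : Place L K | ξ j ≠ 0 ∧ P.v (ξ j) ≠ 1})
    fun j => ?_).subset fun P hP => ?_
  · by_cases e : ξ j = 0
    · simp [e]
    · simpa [e] using finite_supp e
  · obtain ⟨i, h1, h2, -⟩ := norm h P
    exact Set.mem_iUnion.2 ⟨i, h1, h2 ▸ hP⟩

theorem deg_eq (h : ξ ≠ 0) {i : Fin (n + 1)} (hi : ξ i ≠ 0) : ∃ Z : Finset (Place L K),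
    ∑ P ∈ Z, (log (mx P ξ) - log (P.v (ξ i))) = degree L ξ := by
  classical
  let Y := (fin (L := L) h).toFinset ∪ (finite_supp (L := L) hi).toFinset
  refine ⟨Y, ?_⟩
  rw [Finset.sum_sub_distrib, sum_mx ξ Y (by simp +contextual [Y]),
    prod_formula hi Y (by simp +contextual [Y]), sub_zero]

theorem nonneg (h : ξ ≠ 0) : 0 ≤ degree L ξ := by
  obtain ⟨i, hi⟩ := Function.ne_iff.1 h
  obtain ⟨Z, h3⟩ := deg_eq (L := L) h hi
  rw [← h3]
  exact Finset.sum_nonneg fun P _ => sub_nonneg.2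
    ((log_le_log (by simpa using hi) (mx_ne h P)).2 (le_mx P ξ i))

theorem smul (h : ξ ≠ 0) (t : K) (ht : t ≠ 0) : degree L (t • ξ) = degree L ξ := by
  classical
  let Y := (fin (L := L) h).toFinset ∪ (finite_supp (L := L) ht).toFinset
  rw [← sum_mx ξ Y (by simp +contextual [Y]), ← sum_mx (t • ξ) Y fun P hP => by_contra fun hc =>
    hP (by
      simp only [Y, Finset.mem_union, Set.Finite.mem_toFinset, Set.mem_ofPred_eq, not_or,
        not_not] at hc
      rw [mx_smul, hc.1, hc.2, one_mul]), ← zero_add (∑ P ∈ Y, log (mx P ξ)),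
    ← prod_formula ht Y (by simp +contextual [Y]), ← Finset.sum_add_distrib]
  exact Finset.sum_congr rfl fun P _ => by rw [mx_smul, log_mul (by simpa using ht) (mx_ne h P)]

theorem comp (h : ξ ≠ 0) (m b : ℕ) (R : Fin (m + 1) → MvPolynomial (Fin (n + 1)) L)
    (hR : ∀ i, (R i).IsHomogeneous b) (h0 : (fun i => aeval ξ (R i)) ≠ 0) :
    degree L (fun i => aeval ξ (R i)) ≤ b * degree L ξ := by
  classical
  let Y := (fin (L := L) h).toFinset ∪ (fin (L := L) h0).toFinset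
  rw [← sum_mx ξ Y (by simp +contextual [Y]), ← sum_mx _ Y (by simp +contextual [Y]),
    Finset.mul_sum]
  refine Finset.sum_le_sum fun P _ => ?_
  have := (log_le_log (mx_ne h0 P) (pow_ne_zero b (mx_ne h P))).2
    (Finset.sup_le fun i _ => v_le h P b (R i) (hR i))
  rwa [log_pow, nsmul_eq_mul] at this

theorem sum_max (t : K) (β : ℕ) (h : Transcendental L t → finrank L⟮t⟯ K ≤ β)
    (Z : Finset (Place L K)) : ∑ P ∈ Z, max 0 (log (P.v t)) ≤ β := by
  classical
  rcases const_or_trans (L := L) t with ⟨c, rfl⟩ | ht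
  · rw [Finset.sum_eq_zero fun P _ => max_eq_left (log_nonpos (P.triv c))]
    positivity
  obtain ⟨Y, h1, h2⟩ := exists_poles ht
  refine (Finset.sum_le_sum_of_subset_of_nonneg (Finset.subset_union_left (s₂ := Y))
    fun _ _ _ => le_max_left _ _).trans ?_
  rw [← Finset.sum_subset Finset.subset_union_right fun P _ hP =>
      max_eq_left (log_nonpos (not_lt.1 (mt (h1 P).2 hP))),
    Finset.sum_congr rfl fun P hP => max_eq_right (le_log_of_exp_le ((h1 P).1 hP).le), h2]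
  exact_mod_cast h ht

theorem le_sum (h : ξ ≠ 0) (i : Fin (n + 1)) (β : ℕ) (hi : ξ i ≠ 0)
    (hb : ∀ j, Transcendental L (ξ j / ξ i) → finrank L⟮ξ j / ξ i⟯ K ≤ β) :
    degree L ξ ≤ (n + 1) * β := by
  obtain ⟨Z, h3⟩ := deg_eq (L := L) h hi
  rw [← h3]
  refine (Finset.sum_le_sum (g := fun P : Place L K => ∑ j, max 0 (log (P.v (ξ j / ξ i))))
    fun P _ => ?_).trans ?_
  · obtain ⟨j, hj, e, -⟩ := norm h P
    rw [e, ← log_div (by simpa using hj) (by simpa using hi), ← map_div₀]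
    exact (le_max_right _ _).trans (Finset.single_le_sum
      (f := fun j => max 0 (log (P.v (ξ j / ξ i)))) (fun _ _ => le_max_left _ _)
      (Finset.mem_univ j))
  · rw [Finset.sum_comm]
    refine (Finset.sum_le_card_nsmul _ _ _ fun j _ => sum_max _ β (hb j) Z).trans ?_
    simp

end THT

theorem t_HT (L : Type u) [Field L] [IsAlgClosed L] [CharZero L] : S_HT L :=
  fun _ _ _ _ _ _ h => ⟨THT.nonneg h, fun t ht => THT.smul h t ht, THT.comp h, THT.le_sum h⟩

end Pool.Agent.P.MP_6f117a_ag.PJ
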