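import Pool.Agent.P.MP_6f117a_ag.PJ.IfE

/-! The leading coefficient in local jet coordinates. -/

namespace Pool.Agent.P.MP_6f117a_ag.PJ

open MvPolynomial

namespace TLEAD

variable {σ K : Type} [Fintype σ] [Field K]

theorem rep (V : Subring K) (y : σ → MvPolynomial σ K) (w : σ → ℕ) (m : ℕ) {g : MvPolynomial σ K}
    (hg : g ∈ (Fil.wt (V.map C) y w).F m) : ∃ γ : (σ → ℕ) →₀ K, (∀ u, γ u ∈ V) ∧
      (∀ u, γ u ≠ 0 → ∑ v, w v * u v ≤ m) ∧
      g = Finsupp.linearCombination K (fun u => ∏ v, y v ^ u v) γ := by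
  classical
  induction hg using AddSubgroup.closure_induction with
  | mem x hx =>
    obtain ⟨_, ⟨c, hc, rfl⟩, b, hb, rfl⟩ := hx
    refine ⟨Finsupp.single b c, fun u => ?_, fun u hu => ?_, ?_⟩
    · rw [Finsupp.single_apply]
      split_ifs
      exacts [hc, V.zero_mem]
    · exact (Finsupp.single_apply_ne_zero.1 hu).1 ▸ hb
    · rw [Finsupp.linearCombination_single, smul_eq_C_mul]
  | zero => exact ⟨0, fun _ => V.zero_mem, fun u hu => absurd rfl hu, (map_zero _).symm⟩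
  | add x z _ _ hx hz =>
    obtain ⟨γ, h1, h2, rfl⟩ := hx
    obtain ⟨γ', h3, h4, rfl⟩ := hz
    refine ⟨γ + γ', fun u => V.add_mem (h1 u) (h3 u), fun u hu => ?_, (map_add _ _ _).symm⟩
    by_cases h : γ u = 0
    · exact h4 u fun h' => hu (by rw [Finsupp.add_apply, h, h', add_zero])
    · exact h2 u h
  | neg x _ hx =>
    obtain ⟨γ, h1, h2, rfl⟩ := hx
    exact ⟨-γ, fun u => V.neg_mem (h1 u), fun u hu => h2 u (neg_ne_zero.1 hu), (map_neg _ _).symm⟩

theorem coeff_prod (u : σ → ℕ) (b : σ →₀ ℕ) [Decidable (u = b)] :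
    (∏ v, X v ^ u v : MvPolynomial σ K).coeff b = if u = b then 1 else 0 := by
  classical
  have : (∏ v, X v ^ u v : MvPolynomial σ K) = monomial (Finsupp.equivFunOnFinite.symm u) 1 := by
    rw [monomial_eq, C_1, one_mul, Finsupp.prod_fintype _ _ (by simp)]
    rfl
  rw [this, coeff_monomial]
  exact if_congr (Equiv.symm_apply_eq _) rfl rfl

variable {β : Type} [LinearOrder β] {e : (σ → ℕ) → β} {y : σ → MvPolynomial σ K} {c : σ → K}

theorem top (H : ∀ (b : σ → ℕ) (b' : σ →₀ ℕ),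
      b' ∈ (∏ v, y v ^ b v - C (∏ v, c v ^ b v) * ∏ v, X v ^ b v).support → e b' < e b)
    (γ : (σ → ℕ) →₀ K) (b : σ →₀ ℕ) (hb : ∀ u ∈ γ.support, e u ≤ e b) :
    (Finsupp.linearCombination K (fun u => ∏ v, y v ^ u v) γ).coeff b = γ b * ∏ v, c v ^ b v := by
  classical
  rw [Finsupp.linearCombination_apply, Finsupp.sum, coeff_sum]
  refine (Finset.sum_congr rfl (g := fun u : σ → ℕ =>
    if u = b then γ u * ∏ v, c v ^ u v else 0) fun u hu => ?_).trans ?_
  swap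
  · rw [Finset.sum_ite_eq']
    split_ifs with h
    · rfl
    · rw [Finsupp.notMem_support_iff.1 h, zero_mul]
  · have h1 := notMem_support_iff.1 fun h => (hb u hu).not_gt (H u b h)
    rw [coeff_sub, coeff_C_mul, coeff_prod, sub_eq_zero] at h1
    rw [coeff_smul, h1]
    split_ifs <;> simp

theorem main (H : ∀ (b : σ → ℕ) (b' : σ →₀ ℕ),
      b' ∈ (∏ v, y v ^ b v - C (∏ v, c v ^ b v) * ∏ v, X v ^ b v).support → e b' < e b)
    (hc : ∀ v, c v ≠ 0) (γ : (σ → ℕ) →₀ K) {g : MvPolynomial σ K}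
    (hg : g = Finsupp.linearCombination K (fun u => ∏ v, y v ^ u v) γ) (b : σ →₀ ℕ)
    (hb : g.coeff b ≠ 0) (hmax : ∀ b' : σ →₀ ℕ, g.coeff b' ≠ 0 → e b' ≤ e b) :
    g.coeff b = γ b * ∏ v, c v ^ b v := by
  subst hg
  obtain ⟨u, hu, h1⟩ := γ.support.exists_max_image e (by
    rw [Finsupp.support_nonempty_iff]
    rintro rfl
    simp at hb)
  have h2 := hmax (Finsupp.equivFunOnFinite.symm u) (by
    rw [top H γ _ h1]
    exact mul_ne_zero (Finsupp.mem_support_iff.1 hu)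
      (Finset.prod_ne_zero_iff.2 fun v _ => pow_ne_zero _ (hc v)))
  exact top H γ b fun u' hu' => (h1 u' hu').trans h2

end TLEAD

theorem t_LEAD (hTRI : S_TRI) : S_LEAD := by
  intro σ K _ _ rk hrk f hf
  obtain ⟨o, ho⟩ := hTRI σ rk hrk
  obtain ⟨b, hb, hmax⟩ := @Finset.exists_max_image _ _ o f.support (fun d => d)
    (support_nonempty.2 hf)
  refine ⟨b, mem_support_iff.1 hb, fun V y c w m a hy hc ha hF => ?_⟩
  obtain ⟨γ, h1, h2, h3⟩ := TLEAD.rep V y w m hF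
  have h4 : (C a * f).coeff b ≠ 0 := by
    rw [coeff_C_mul]
    exact mul_ne_zero ha (mem_support_iff.1 hb)
  have h5 := @TLEAD.main σ K _ _ _ o id y c (ho K y c hy) hc γ _ h3 b h4 fun b' hb' =>
    hmax b' (mem_support_iff.2 fun h => hb' (by rw [coeff_C_mul, h, mul_zero]))
  refine ⟨h2 b fun h => h4 (by rw [h5, h, zero_mul]), γ b, h1 b, ?_⟩
  rw [← h5, coeff_C_mul]

end Pool.Agent.P.MP_6f117a_ag.PJ
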