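import Pool.Agent.P.MP_6f117a_ag.PJ.IfE

/-! The numerical estimate. -/

namespace Pool.Agent.P.MP_6f117a_ag.PJ

namespace TPROB

open Real Finset

theorem pos_sub {h : ℝ} (hh : 0 < h) : 0 < 1 - exp (-h) :=
  sub_pos.2 (exp_lt_one_iff.2 (by linarith))

theorem fac {h z : ℝ} (hh : 0 < h) (hz : |z| ≤ 1 / 2) :
    exp (-z) * (1 - exp (-h) * exp (h * z))⁻¹ ≤ exp (2 * h + 2 * z ^ 2) * (1 - exp (-h))⁻¹ := by
  obtain ⟨hz1, hz2⟩ := abs_le.1 hz
  have hx : 0 < h * (1 - z) := mul_pos hh (by linarith)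
  have e1 : exp (-h) * exp (h * z) = exp (-(h * (1 - z))) := by rw [← exp_add]; ring_nf
  have p1 := pos_sub hh
  have p2 := pos_sub hx
  have l1 : 1 - exp (-h) ≤ h := by linarith [add_one_le_exp (-h)]
  have l2 : h * (1 - z) * exp (-(h * (1 - z))) ≤ 1 - exp (-(h * (1 - z))) := by
    have h1 := add_one_le_exp (h * (1 - z))
    have h2 : exp (h * (1 - z)) * exp (-(h * (1 - z))) = 1 := by rw [← exp_add]; simp
    nlinarith [exp_pos (-(h * (1 - z)))]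
  have l3 : 1 ≤ exp (z + 2 * z ^ 2) * (1 - z) := by
    have h1 := add_one_le_exp (z + 2 * z ^ 2)
    nlinarith [mul_nonneg (sq_nonneg z) (show 0 ≤ 1 - 2 * z by linarith)]
  have l4 : exp (-z) * exp (z + 2 * z ^ 2) ≤ exp (2 * h + 2 * z ^ 2) * exp (-(h * (1 - z))) := by
    rw [← exp_add, ← exp_add]
    exact exp_le_exp.2 (by nlinarith)
  rw [e1, ← div_eq_mul_inv, ← div_eq_mul_inv, div_le_div_iff₀ p2 p1]
  calc exp (-z) * (1 - exp (-h)) ≤ exp (-z) * (h * (exp (z + 2 * z ^ 2) * (1 - z))) :=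
        mul_le_mul_of_nonneg_left (by nlinarith) (exp_pos _).le
    _ = exp (-z) * exp (z + 2 * z ^ 2) * (h * (1 - z)) := by ring
    _ ≤ exp (2 * h + 2 * z ^ 2) * exp (-(h * (1 - z))) * (h * (1 - z)) :=
        mul_le_mul_of_nonneg_right l4 hx.le
    _ = exp (2 * h + 2 * z ^ 2) * (h * (1 - z) * exp (-(h * (1 - z)))) := by ring
    _ ≤ _ := mul_le_mul_of_nonneg_left l2 (exp_pos _).le

section

variable {σ : Type} [Fintype σ] [DecidableEq σ] {w : σ → ℕ} {μ : ℝ}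

/-- The total mass. -/
noncomputable def Z (w : σ → ℕ) (μ : ℝ) : ℝ :=
  (1 - exp (-(1 / μ)))⁻¹ * ∏ v, (1 - exp (-(1 / μ)) ^ w v)⁻¹

theorem pw (x : ℝ) (k : ℕ) : exp (-(1 / x)) ^ k = exp (-(k / x)) := by
  rw [← exp_nat_mul]
  ring_nf

omit [DecidableEq σ] in
theorem Z_pos (hw : ∀ v, 0 < w v) (hμ : 0 < μ) : 0 < Z w μ := by
  refine mul_pos (inv_pos.2 (pos_sub (by positivity))) (prod_pos fun v _ => ?_)
  rw [pw]
  have := hw v
  exact inv_pos.2 (pos_sub (by positivity))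

theorem gen (hGEO : S_GEO) (hw : ∀ v, 0 < w v) (hμ : 0 < μ) (hW : ∑ v, (w v : ℝ) ≤ μ)
    (z : σ → ℝ) (hz : ∀ v, |z v| ≤ 1 / 2) (hz2 : ∑ v, z v ^ 2 ≤ 1 / 2) (M : ℕ) :
    ∑ m ∈ range (M + 1), exp (-(1 / μ)) ^ m *
      ∑ a ∈ IdxW w m, exp (∑ v, (w v / μ * a v - 1) * z v) ≤ exp 3 * Z w μ := by
  have hh : ∀ v, 0 < (w v : ℝ) / μ := fun v => by have := hw v; positivity
  have h1 := (hGEO σ w hw (exp (-(1 / μ))) (exp_pos _) (exp_lt_one_iff.2 (by
    have : 0 < 1 / μ := by positivity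
    linarith)) M).1 (fun v => exp (w v / μ * z v)) (fun v => (exp_pos _).le) fun v => by
      rw [pw, ← exp_add]
      refine exp_lt_one_iff.2 ?_
      have := (abs_le.1 (hz v)).2
      nlinarith [hh v]
  have e1 : ∀ a : σ → ℕ, exp (∑ v, (w v / μ * a v - 1) * z v) =
      (∏ v, exp (-z v)) * ∏ v, exp (w v / μ * z v) ^ a v := fun a => by
    rw [exp_sum, ← prod_mul_distrib]
    refine prod_congr rfl fun v _ => ?_
    rw [← exp_nat_mul, ← exp_add]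
    ring_nf
  have e2 : ∑ m ∈ range (M + 1), exp (-(1 / μ)) ^ m *
      ∑ a ∈ IdxW w m, exp (∑ v, (w v / μ * a v - 1) * z v) = (∏ v, exp (-z v)) *
      ∑ m ∈ range (M + 1), exp (-(1 / μ)) ^ m *
        ∑ a ∈ IdxW w m, ∏ v, exp (w v / μ * z v) ^ a v := by
    rw [mul_sum]
    refine sum_congr rfl fun m _ => ?_
    simp only [e1, ← mul_sum]
    ring
  have p0 : 0 ≤ (1 - exp (-(1 / μ)))⁻¹ := (inv_pos.2 (pos_sub (by positivity))).le
  have l1 : (∏ v, exp (-z v)) * ∏ v, (1 - exp (-(1 / μ)) ^ w v * exp (w v / μ * z v))⁻¹ ≤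
      (∏ v, exp (2 * (w v / μ) + 2 * z v ^ 2)) * ∏ v, (1 - exp (-(1 / μ)) ^ w v)⁻¹ := by
    rw [← prod_mul_distrib, ← prod_mul_distrib]
    refine prod_le_prod (fun v _ => ?_) fun v _ => ?_
    · refine mul_nonneg (exp_pos _).le (inv_nonneg.2 (sub_nonneg.2 ?_))
      rw [pw, ← exp_add]
      refine exp_le_one_iff.2 ?_
      have := (abs_le.1 (hz v)).2
      nlinarith [hh v]
    · rw [pw]
      exact fac (hh v) (hz v)
  have l2 : (∏ v, exp (2 * (w v / μ) + 2 * z v ^ 2)) ≤ exp 3 := by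
    rw [← exp_sum, sum_add_distrib, ← mul_sum, ← mul_sum, ← sum_div]
    have : (∑ v, (w v : ℝ)) / μ ≤ 1 := (div_le_one hμ).2 hW
    exact exp_le_exp.2 (by linarith)
  have p1 : 0 ≤ ∏ v, (1 - exp (-(1 / μ)) ^ w v)⁻¹ := prod_nonneg fun v _ => by
    rw [pw]
    exact (inv_pos.2 (pos_sub (hh v))).le
  rw [e2]
  calc _ ≤ (∏ v, exp (-z v)) * ((1 - exp (-(1 / μ)))⁻¹ *
        ∏ v, (1 - exp (-(1 / μ)) ^ w v * exp (w v / μ * z v))⁻¹) :=
        mul_le_mul_of_nonneg_left h1 (prod_nonneg fun v _ => (exp_pos _).le)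
    _ = (1 - exp (-(1 / μ)))⁻¹ * ((∏ v, exp (-z v)) *
        ∏ v, (1 - exp (-(1 / μ)) ^ w v * exp (w v / μ * z v))⁻¹) := by ring
    _ ≤ (1 - exp (-(1 / μ)))⁻¹ * (exp 3 * ∏ v, (1 - exp (-(1 / μ)) ^ w v)⁻¹) :=
        mul_le_mul_of_nonneg_left (l1.trans (mul_le_mul_of_nonneg_right l2 p1)) p0
    _ = exp 3 * Z w μ := by unfold Z; ring

theorem half {y : ℝ} (h0 : 0 ≤ y) (h1 : y < 1) : (1 - y)⁻¹ ≤ 2 * (1 - y ^ 2)⁻¹ := by
  have p1 : 0 < 1 - y := by linarith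
  have p2 : 0 < 1 - y ^ 2 := by nlinarith
  rw [← one_div, ← div_eq_mul_inv, div_le_div_iff₀ p1 p2]
  nlinarith

theorem tail (hGEO : S_GEO) (hw : ∀ v, 0 < w v) (hμ : 0 < μ) {M : ℕ}
    (hM : 2 * μ * (Fintype.card σ + 2) ≤ M) :
    Z w μ / 2 ≤ ∑ m ∈ range (M + 1), exp (-(1 / μ)) ^ m * (IdxW w m).card := by
  have hp : 0 < 1 / (2 * μ) := by positivity
  have e1 : exp (-(1 / μ)) * exp (1 / (2 * μ)) = exp (-(1 / (2 * μ))) := by
    rw [← exp_add]
    congr 1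
    field_simp
    ring
  have e2 : exp (-(1 / (2 * μ))) ^ 2 = exp (-(1 / μ)) := by
    rw [pw]
    congr 1
    push_cast
    field_simp
  have hy : exp (-(1 / (2 * μ))) < 1 := exp_lt_one_iff.2 (by linarith)
  have h1 := (hGEO σ w hw (exp (-(1 / μ))) (exp_pos _) (exp_lt_one_iff.2 (by
    have : 0 < 1 / μ := by positivity
    linarith)) M).2 (exp (1 / (2 * μ))) (one_le_exp hp.le) (by rw [e1]; exact hy)
  rw [e1] at h1
  have l1 : (1 - exp (-(1 / (2 * μ))))⁻¹ ≤ 2 * (1 - exp (-(1 / μ)))⁻¹ := by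
    rw [← e2]
    exact half (exp_pos _).le hy
  have l2 : ∏ v, (1 - exp (-(1 / (2 * μ))) ^ w v)⁻¹ ≤
      2 ^ Fintype.card σ * ∏ v, (1 - exp (-(1 / μ)) ^ w v)⁻¹ := by
    rw [← card_univ, ← prod_const, ← prod_mul_distrib]
    have hv : ∀ v, exp (-(1 / (2 * μ))) ^ w v < 1 := fun v =>
      pow_lt_one₀ (exp_pos _).le hy (hw v).ne'
    refine prod_le_prod (fun v _ => inv_nonneg.2 (sub_nonneg.2 (hv v).le)) fun v _ => ?_
    rw [← e2, ← pow_mul, mul_comm 2 (w v), pow_mul]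
    exact half (by positivity) (hv v)
  have l3 : (2 : ℝ) ^ (Fintype.card σ + 2) ≤ exp (1 / (2 * μ)) ^ M := by
    rw [← exp_nat_mul]
    calc (2 : ℝ) ^ (Fintype.card σ + 2) ≤ exp 1 ^ (Fintype.card σ + 2) :=
          pow_le_pow_left₀ (by norm_num) (by linarith [add_one_le_exp 1]) _
      _ = exp (Fintype.card σ + 2) := by rw [← exp_nat_mul]; push_cast; ring_nf
      _ ≤ _ := by
          refine exp_le_exp.2 ?_
          rw [mul_one_div, le_div_iff₀ (by positivity)]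
          linarith
  have hZ := Z_pos hw hμ
  have p0 : 0 ≤ (1 - exp (-(1 / μ)))⁻¹ := (inv_pos.2 (pos_sub (by positivity))).le
  have l4 : (1 - exp (-(1 / (2 * μ))))⁻¹ * ∏ v, (1 - exp (-(1 / (2 * μ))) ^ w v)⁻¹ ≤
      2 ^ (Fintype.card σ + 1) * Z w μ := by
    refine (mul_le_mul l1 l2 (prod_nonneg fun v _ => inv_nonneg.2 (sub_nonneg.2
      (pow_le_one₀ (exp_pos _).le hy.le))) (by positivity)).trans_eq ?_
    unfold Z
    ring
  have l5 : (exp (1 / (2 * μ)) ^ M)⁻¹ ≤ (2 ^ (Fintype.card σ + 2))⁻¹ :=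
    inv_anti₀ (by positivity) l3
  have l6 := mul_le_mul l5 l4 (mul_nonneg (inv_pos.2 (pos_sub hp)).le (prod_nonneg fun v _ =>
    inv_nonneg.2 (sub_nonneg.2 (pow_le_one₀ (exp_pos _).le hy.le)))) (by positivity)
  have e3 : ((2 : ℝ) ^ (Fintype.card σ + 2))⁻¹ * (2 ^ (Fintype.card σ + 1) * Z w μ) =
      Z w μ / 2 := by
    field_simp
    ring
  change Z w μ ≤ _ at h1
  linarith

end

theorem sq_sum (n : ℕ) : ∑ l ∈ range (n + 1), (1 / (l + 1 : ℝ)) ^ 2 ≤ (2 - 1 / (n + 1) : ℝ) := by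
  induction n with
  | zero => norm_num
  | succ n ih =>
    rw [sum_range_succ]
    push_cast
    have : (1 / (n + 1 + 1 : ℝ)) ^ 2 ≤ 1 / (n + 1) - 1 / (n + 1 + 1) := by
      rw [div_sub_div _ _ (by positivity) (by positivity), div_pow,
        div_le_div_iff₀ (by positivity) (by positivity)]
      nlinarith [Nat.cast_nonneg (α := ℝ) n]
    linarith

theorem sq_sum' (n : ℕ) : ∑ l : Fin n, (1 / ((l : ℕ) + 1 : ℝ)) ^ 2 ≤ 2 := by
  rw [Fin.sum_univ_eq_sum_range (fun l => (1 / (l + 1 : ℝ)) ^ 2) n]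
  have h1 := sq_sum n
  rw [sum_range_succ] at h1
  have : 0 ≤ 1 / (n + 1 : ℝ) := by positivity
  nlinarith [sq_nonneg (1 / (n + 1 : ℝ))]

/-- The degree in one column. -/
def A (p : ℕ) {n D : ℕ} (a : Fin n × Fin D → ℕ) (s : Fin D) : ℤ :=
  ∑ l : Fin n, (p ^ ((l : ℕ) + 1) * a (l, s) : ℕ)

theorem mom (hGEO : S_GEO) {n D p : ℕ} (hp : 2 ≤ p) {μ : ℝ} (hμ : 0 < μ)
    (hW : ∑ v : Fin n × Fin D, (wtv p v : ℝ) ≤ μ) (M : ℕ) (s : Fin D) {ε : ℝ} (hε : |ε| = 1) :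
    ∑ m ∈ range (M + 1), exp (-(1 / μ)) ^ m * ∑ a ∈ IdxW (σ := Fin n × Fin D) (wtv p) m,
      exp (ε * (A p a s - μ * ∑ l : Fin n, 1 / ((l : ℕ) + 1 : ℝ)) / (2 * μ)) ≤
      exp 3 * Z (σ := Fin n × Fin D) (wtv p) μ := by
  have hε2 : ε ^ 2 = 1 := by rw [← sq_abs, hε, one_pow]
  have := gen hGEO (w := wtv (n := n) (τ := Fin D) p) (fun v => by unfold wtv; positivity) hμ hW
    (fun v => if v.2 = s then ε / 2 * (1 / ((v.1 : ℕ) + 1)) else 0) (fun v => ?_) ?_ M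
  · refine le_of_eq_of_le (sum_congr rfl fun m _ => ?_) this
    congr 1
    refine sum_congr rfl fun a _ => ?_
    congr 1
    simp only [Fintype.sum_prod_type, mul_ite, mul_zero, sum_ite_eq', mem_univ, if_true, A, wtv]
    push_cast
    rw [mul_sum, ← sum_sub_distrib, mul_sum, sum_div]
    refine sum_congr rfl fun l _ => ?_
    field_simp
  · split_ifs
    · rw [abs_mul, abs_div, hε, abs_two, abs_of_pos (by positivity)]
      have : 1 / ((v.1 : ℕ) + 1 : ℝ) ≤ 1 := by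
        rw [div_le_one (by positivity)]
        linarith [Nat.cast_nonneg (α := ℝ) (v.1 : ℕ)]
      linarith
    · norm_num
  · simp only [Fintype.sum_prod_type, ite_pow, ne_eq, OfNat.ofNat_ne_zero, not_false_eq_true,
      zero_pow, sum_ite_eq', mem_univ, if_true, mul_pow, ← mul_sum]
    have := sq_sum' n
    rw [div_pow, hε2]
    linarith

theorem sum_ind {D j c : ℕ} (hj : j < D + c) :
    ∑ s : Fin D, (if j = s + c then 1 else 0 : ℤ) = if c ≤ j then 1 else 0 := by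
  split_ifs with h
  · rw [sum_eq_single ⟨j - c, by omega⟩]
    · rw [if_pos (by simp; omega)]
    · intro s _ hs
      refine if_neg fun e => hs (Fin.ext ?_)
      simp
      omega
    · simp
  · exact sum_eq_zero fun s _ => if_neg (by omega)

theorem coord {n D : ℕ} (q β t p : ℕ) (a : Fin n × Fin D → ℕ) (j : Fin (D + 1)) :
    (tgt D q β t + lamA p a) j = β - (if (j : ℕ) = 0 then t else 0) +
      ∑ s, (A p a s - β * q) * lamS s j := by
  have h1 : ∑ s : Fin D, lamS s j = (if 1 ≤ (j : ℕ) then 1 else 0) - (if 2 ≤ (j : ℕ) then 1 else 0) -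
      D * if (j : ℕ) = 0 then 1 else 0 := by
    unfold lamS
    rw [sum_sub_distrib, sum_sub_distrib, sum_ind j.2, sum_ind (by omega)]
    simp
  have h2 : lamA p a j = ∑ s, A p a s * lamS s j := by
    unfold lamA A
    rw [Fintype.sum_prod_type_right]
    simp only [sum_mul]
  simp only [sub_mul, sum_sub_distrib, ← mul_sum, h1, Pi.add_apply, h2, tgt]
  split_ifs <;> first | omega | (push_cast; ring)

theorem lam_le {D : ℕ} (s : Fin D) (j : Fin (D + 1)) : |lamS s j| ≤ 1 := by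
  unfold lamS
  rw [abs_le]
  split_ifs <;> omega

theorem point {d C n₀ t : ℕ} (ht : n₀ < t) {N : ℤ} {x : Fin (d + 2) → ℤ}
    (hx : ∀ j, 3 * t - N ≤ x j ∧ x j ≤ 4 * t + N) (hN : 0 ≤ N) {ψ : (Fin (d + 2) → ℤ) → ℝ}
    (h1 : ∀ x, (∀ j, (n₀ : ℤ) ≤ x j) → (x 0 : ℝ) ^ d / d.factorial ≤ ψ x)
    (h2 : ∀ x, -(C * (2 * n₀ + 2 * nrm x + 1 : ℝ) ^ d) ≤ ψ x) :
    (2 * t : ℝ) ^ d / d.factorial - (2 ^ d + C * (10 * d + 25) ^ d) * (N : ℝ) ^ (d + 1) / t ≤
      ψ x := by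
  have ht0 : (0 : ℝ) < t := by exact_mod_cast (show 0 < t by omega)
  have hN0 : (0 : ℝ) ≤ N := by exact_mod_cast hN
  by_cases h : N ≤ t
  · have h3 := h1 x fun j => by have := (hx j).1; omega
    have h4 : (2 * t : ℝ) ≤ x 0 := by
      have := (hx 0).1
      exact_mod_cast (show (2 * t : ℤ) ≤ x 0 by omega)
    have h5 : (2 * t : ℝ) ^ d / d.factorial ≤ (x 0 : ℝ) ^ d / d.factorial := by gcongr
    have : 0 ≤ (2 ^ d + C * (10 * d + 25) ^ d) * (N : ℝ) ^ (d + 1) / t := by positivity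
    linarith
  · have h3 : (nrm x : ℤ) ≤ (d + 2) * (5 * N) := by
      unfold nrm
      push_cast
      refine (sum_le_card_nsmul _ _ (5 * N) fun j _ => ?_).trans_eq (by simp)
      have := hx j
      rw [abs_le]
      omega
    have h4 : (2 * n₀ + 2 * nrm x + 1 : ℝ) ≤ (10 * d + 25) * N := by
      have : (2 * n₀ + 2 * nrm x + 1 : ℤ) ≤ (10 * d + 25) * N := by nlinarith
      exact_mod_cast this
    have h5 : (t : ℝ) ≤ N := by exact_mod_cast (show (t : ℤ) ≤ N by omega)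
    have h6 : C * (2 * n₀ + 2 * nrm x + 1 : ℝ) ^ d ≤ C * ((10 * d + 25) * N) ^ d := by gcongr
    have h7 : (2 * t : ℝ) ^ d / d.factorial ≤ (2 * N) ^ d := by
      refine (div_le_self (by positivity) ?_).trans (by gcongr)
      exact_mod_cast d.factorial_pos
    have h8 : (2 ^ d + C * (10 * d + 25) ^ d) * (N : ℝ) ^ d ≤
        (2 ^ d + C * (10 * d + 25) ^ d) * (N : ℝ) ^ (d + 1) / t := by
      rw [le_div_iff₀ ht0, pow_succ, mul_assoc]
      gcongr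
    have := h2 x
    rw [mul_pow] at h6
    rw [mul_pow 2 (N : ℝ)] at h7
    linarith

theorem pow_le_exp {Y μ : ℝ} (hμ : 0 < μ) (D : ℕ) :
    |Y| ^ D ≤ D.factorial * (2 * μ) ^ D * (exp (1 * Y / (2 * μ)) + exp (-1 * Y / (2 * μ))) := by
  have h1 := pow_div_factorial_le_exp (x := |Y| / (2 * μ)) (by positivity) D
  have h2 : exp (|Y| / (2 * μ)) ≤ exp (1 * Y / (2 * μ)) + exp (-1 * Y / (2 * μ)) := by
    rcases abs_choice Y with h | h <;> rw [h]
    · rw [one_mul]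
      linarith [exp_pos (-1 * Y / (2 * μ))]
    · rw [neg_one_mul]
      linarith [exp_pos (1 * Y / (2 * μ))]
  have h3 := h1.trans h2
  rw [div_pow, div_div, div_le_iff₀ (by positivity)] at h3
  linarith

end TPROB

open TPROB Real Finset in
theorem t_PROB (hGEO : S_GEO) : S_PROB := by
  intro d q C hq
  obtain ⟨K, hK⟩ : ∃ K : ℝ, K = (2 ^ d + C * (10 * d + 25) ^ d) * (d + 1) ^ d *
    (d + 1).factorial := ⟨_, rfl⟩
  have hK0 : 0 ≤ K := by rw [hK]; positivity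
  obtain ⟨R, hR⟩ : ∃ R : ℝ, R = 4 * (d + 1) * exp 3 * K * (8 * q) ^ (d + 1) * d.factorial :=
    ⟨_, rfl⟩
  have hR0 : 0 ≤ R := by rw [hR]; positivity
  obtain ⟨n, hn⟩ := (tendsto_sum_range_one_div_nat_succ_atTop.eventually_ge_atTop (R + 1)).exists
  rw [← Fin.sum_univ_eq_sum_range (fun l => (1 / (l + 1 : ℝ))) n] at hn
  obtain ⟨H, hH⟩ : ∃ H : ℝ, H = ∑ l : Fin n, 1 / ((l : ℕ) + 1 : ℝ) := ⟨_, rfl⟩
  rw [← hH] at hn
  have hH1 : 1 ≤ H := by linarith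
  refine ⟨n, 8 * q * (n * (d + 1) + 2), fun p n₀ hp => ?_⟩
  obtain ⟨W, hW⟩ : ∃ W : ℝ, W = ∑ v : Fin n × Fin (d + 1), (wtv p v : ℝ) := ⟨_, rfl⟩
  obtain ⟨t, ht1, ht2⟩ : ∃ t : ℕ, n₀ < t ∧ W * H ≤ t :=
    ⟨⌈W * H⌉₊ + n₀ + 1, by omega, (Nat.le_ceil _).trans (by exact_mod_cast (by omega))⟩
  have ht0 : (0 : ℝ) < t := by exact_mod_cast (show 0 < t by omega)
  have hq1 : (1 : ℝ) ≤ q := by exact_mod_cast hq
  obtain ⟨μ, hμ⟩ : ∃ μ : ℝ, μ = 4 * t * q / H := ⟨_, rfl⟩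
  have hμ0 : 0 < μ := by rw [hμ]; positivity
  have hμH : μ * H = 4 * t * q := by rw [hμ]; field_simp
  have hWμ : W ≤ μ := by
    rw [hμ, le_div_iff₀ (by linarith)]
    nlinarith
  have hw : ∀ v : Fin n × Fin (d + 1), 0 < wtv p v := fun v => by unfold wtv; positivity
  obtain ⟨M, hM⟩ : ∃ M : ℕ, M = 8 * q * (n * (d + 1) + 2) * t := ⟨_, rfl⟩
  have hT := tail hGEO hw hμ0 (M := M) (by
    rw [hM, Fintype.card_prod, Fintype.card_fin, Fintype.card_fin]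
    push_cast
    have h1 : μ ≤ 4 * t * q := by nlinarith
    have h2 : (0 : ℝ) ≤ n * (d + 1) + 2 := by positivity
    nlinarith)
  have hZ := Z_pos hw hμ0
  obtain ⟨U, hU⟩ : ∃ U : (Fin n × Fin (d + 1) → ℕ) → ℝ, U = fun a => ∑ s,
    (exp (1 * (A p a s - μ * H) / (2 * μ)) + exp (-1 * (A p a s - μ * H) / (2 * μ))) := ⟨_, rfl⟩
  have hE : ∑ m ∈ range (M + 1), exp (-(1 / μ)) ^ m * ∑ a ∈ IdxW (wtv p) m, U a ≤
      (d + 1) * (2 * (exp 3 * Z (σ := Fin n × Fin (d + 1)) (wtv p) μ)) := by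
    have e1 : ∑ m ∈ range (M + 1), exp (-(1 / μ)) ^ m * ∑ a ∈ IdxW (wtv p) m, U a =
        ∑ s : Fin (d + 1), (∑ m ∈ range (M + 1), exp (-(1 / μ)) ^ m *
          ∑ a ∈ IdxW (σ := Fin n × Fin (d + 1)) (wtv p) m, exp (1 * (A p a s - μ * H) / (2 * μ)) +
          ∑ m ∈ range (M + 1), exp (-(1 / μ)) ^ m *
          ∑ a ∈ IdxW (σ := Fin n × Fin (d + 1)) (wtv p) m,
            exp (-1 * (A p a s - μ * H) / (2 * μ))) := by
      simp only [← sum_add_distrib, ← mul_add]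
      rw [sum_comm]
      refine sum_congr rfl fun m _ => ?_
      rw [← mul_sum, sum_comm, hU]
    rw [e1]
    refine (sum_le_card_nsmul _ _ (2 * (exp 3 * Z (σ := Fin n × Fin (d + 1)) (wtv p) μ))
      fun s _ => ?_).trans_eq (by simp)
    have a1 := mom hGEO hp hμ0 (hW ▸ hWμ) M s (ε := 1) abs_one
    have a2 := mom hGEO hp hμ0 (hW ▸ hWμ) M s (ε := -1) (by simp)
    rw [← hH] at a1 a2
    linarith
  obtain ⟨g, hg⟩ : ∃ g : ℝ, g = (2 * t : ℝ) ^ d / d.factorial := ⟨_, rfl⟩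
  obtain ⟨L, hL⟩ : ∃ L : ℝ, L = K * (2 * μ) ^ (d + 1) / t := ⟨_, rfl⟩
  have hL0 : 0 ≤ L := by rw [hL]; positivity
  have hg0 : 0 ≤ g := by rw [hg]; positivity
  have hgL : 4 * (d + 1) * exp 3 * L < g := by
    have h1 : H ≤ H ^ (d + 1) := le_self_pow₀ hH1 (by omega)
    have h2 : (t : ℝ) ^ d ≤ (2 * t) ^ d := by gcongr; linarith
    have h3 : 4 * (d + 1) * exp 3 * L = R / H ^ (d + 1) * t ^ d / d.factorial := by
      rw [hL, hR, show 2 * μ = 8 * q * t / H by rw [hμ]; ring, div_pow, mul_pow _ (t : ℝ),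
        pow_succ (t : ℝ)]
      field_simp
    have h4 : R / H ^ (d + 1) < 1 := by
      rw [div_lt_one (by positivity)]
      linarith
    rw [h3, hg]
    refine div_lt_div_of_pos_right ?_ (by positivity)
    nlinarith [pow_pos ht0 d]
  have hpos : ∑ m ∈ range (M + 1), (0 : ℝ) <
      ∑ m ∈ range (M + 1), exp (-(1 / μ)) ^ m * ∑ a ∈ IdxW (wtv p) m, (g - L * U a) := by
    have e1 : ∑ m ∈ range (M + 1), exp (-(1 / μ)) ^ m * ∑ a ∈ IdxW (wtv p) m, (g - L * U a) =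
        g * ∑ m ∈ range (M + 1), exp (-(1 / μ)) ^ m *
          (IdxW (σ := Fin n × Fin (d + 1)) (wtv p) m).card -
        L * ∑ m ∈ range (M + 1), exp (-(1 / μ)) ^ m * ∑ a ∈ IdxW (wtv p) m, U a := by
      rw [mul_sum, mul_sum, ← sum_sub_distrib]
      refine sum_congr rfl fun m _ => ?_
      rw [sum_sub_distrib, sum_const, ← mul_sum, nsmul_eq_mul]
      ring
    rw [e1, sum_const_zero]
    have h1 := mul_le_mul_of_nonneg_left hT hg0
    have h2 := mul_le_mul_of_nonneg_left hE hL0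
    have h3 := mul_lt_mul_of_pos_right hgL hZ
    linarith
  obtain ⟨m, hm, hm0⟩ := exists_lt_of_sum_lt hpos
  refine ⟨m, 4 * t, t, by omega, by omega, by rw [← hM]; exact Nat.lt_succ_iff.1 (mem_range.1 hm),
    Nat.mul_le_mul_right _ (by nlinarith [Nat.zero_le (q * (n * (d + 1)))]), fun ψ h1 h2 => ?_⟩
  refine ((mul_pos_iff_of_pos_left (pow_pos (exp_pos _) m)).1 hm0).trans_le (sum_le_sum fun a _ => ?_)
  have hx : ∀ j, 3 * t - ∑ s, |A p a s - (4 * t : ℕ) * q| ≤ (tgt (d + 1) q (4 * t) t + lamA p a) j ∧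
      (tgt (d + 1) q (4 * t) t + lamA p a) j ≤ 4 * t + ∑ s, |A p a s - (4 * t : ℕ) * q| := by
    intro j
    have h3 : |∑ s, (A p a s - (4 * t : ℕ) * q) * lamS s j| ≤ ∑ s, |A p a s - (4 * t : ℕ) * q| := by
      refine (abs_sum_le_sum_abs _ _).trans (sum_le_sum fun s _ => ?_)
      rw [abs_mul]
      exact mul_le_of_le_one_right (abs_nonneg _) (lam_le s j)
    rw [coord]
    have := abs_le.1 h3
    split_ifs <;> omega
  refine le_trans ?_ (point ht1 hx (sum_nonneg fun s _ => abs_nonneg _) h1 h2)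
  have h4 : ((∑ s, |A p a s - (4 * t : ℕ) * q| : ℤ) : ℝ) ^ (d + 1) ≤
      (d + 1) ^ d * ((d + 1).factorial * (2 * μ) ^ (d + 1) * U a) := by
    push_cast
    refine (pow_sum_le_card_mul_sum_pow (fun s _ => abs_nonneg _) d).trans ?_
    rw [card_univ, Fintype.card_fin, hU]
    push_cast
    refine mul_le_mul_of_nonneg_left ?_ (by positivity : (0 : ℝ) ≤ (d + 1) ^ d)
    rw [mul_sum]
    refine sum_le_sum fun s _ => ?_
    rw [← hμH]
    exact pow_le_exp hμ0 (d + 1)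
  have h5 : (2 ^ d + C * (10 * d + 25) ^ d) *
      ((∑ s, |A p a s - (4 * t : ℕ) * q| : ℤ) : ℝ) ^ (d + 1) / t ≤ L * U a := by
    rw [hL, hK, div_mul_eq_mul_div]
    refine div_le_div_of_nonneg_right ?_ ht0.le
    refine (mul_le_mul_of_nonneg_left h4 (by positivity)).trans_eq ?_
    ring
  linarith

end Pool.Agent.P.MP_6f117a_ag.PJ
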