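import Pool.Agent.P.MP_6f117a_ag.PJ.IfE

/-! Triangular substitutions are triangular on monomials. -/

namespace Pool.Agent.P.MP_6f117a_ag.PJ

open MvPolynomial

namespace TTRI

variable {σ K : Type} [CommRing K] [LinearOrder σ] {f g : MvPolynomial σ K}
  {r s t : Lex (σ → ℕ) → Prop} {b b' : σ →₀ ℕ} {c c' : K}

/-- all monomials satisfy `r` -/
def Al (r : Lex (σ → ℕ) → Prop) (f : MvPolynomial σ K) : Prop := ∀ b ∈ f.support, r (toLex b)

/-- the leading term is `c` times the monomial `b` -/
def Ld (b : σ →₀ ℕ) (c : K) (f : MvPolynomial σ K) : Prop :=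
  Al (· < toLex ⇑b) (f - monomial b c)

theorem Al.add (h : Al r f) (h' : Al r g) : Al r (f + g) := fun b hb =>
  (Finset.mem_union.1 (support_add hb)).elim (h b) (h' b)

theorem Al.mul (h : Al r f) (h' : Al s g) (e : ∀ x y, r x → s y → t (x + y)) : Al t (f * g) :=
  fun _ hb => by
    obtain ⟨x, hx, y, hy, rfl⟩ := Finset.mem_add.1 (support_mul f g hb)
    exact e _ _ (h x hx) (h' y hy)

omit [LinearOrder σ] in
theorem mon (h : r (toLex b)) : Al r (monomial b c) := fun _ hb =>
  Finset.mem_singleton.1 (support_monomial_subset hb) ▸ h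

theorem Ld.mul (h : Ld b c f) (h' : Ld b' c' g) : Ld (b + b') (c * c') (f * g) := by
  have h1 : Al (· ≤ toLex ⇑b') g := by
    simpa using Al.add (r := (· ≤ toLex ⇑b')) (fun x hx => (h' x hx).le) (mon (c := c') le_rfl)
  rw [Ld, ← monomial_mul, show f * g - monomial b c * monomial b' c' =
    (f - monomial b c) * g + monomial b c * (g - monomial b' c') by ring]
  exact (Al.mul h h1 fun _ _ => add_lt_add_of_lt_of_le).add
    ((mon (r := (· ≤ toLex ⇑b)) le_rfl).mul h' fun _ _ => add_lt_add_of_le_of_lt)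

theorem one : Ld 0 1 (1 : MvPolynomial σ K) := fun b hb => by simp at hb

theorem Ld.pow (h : Ld b c f) (n : ℕ) : Ld (n • b) (c ^ n) (f ^ n) := by
  induction n with
  | zero => simpa using one
  | succ n ih => simpa only [succ_nsmul, pow_succ] using ih.mul h

theorem prod {ι : Type} (s : Finset ι) {b : ι → σ →₀ ℕ} {c : ι → K} {f : ι → MvPolynomial σ K}
    (h : ∀ i, Ld (b i) (c i) (f i)) : Ld (∑ i ∈ s, b i) (∏ i ∈ s, c i) (∏ i ∈ s, f i) := by
  induction s using Finset.cons_induction with
  | empty => exact one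
  | cons i s hi ih => simpa only [Finset.sum_cons, Finset.prod_cons] using (h i).mul ih

end TTRI

theorem t_TRI : S_TRI := by
  intro σ _ rk hrk
  let _ : LinearOrder σ := .lift' (OrderDual.toDual ∘ rk) (OrderDual.toDual.injective.comp hrk)
  refine ⟨Pi.Lex.linearOrder (β := fun _ : σ => ℕ), fun K _ y c h b b' hb => ?_⟩
  have := TTRI.prod Finset.univ fun v => TTRI.Ld.pow (b := .single v 1) (c := c v) (f := y v)
    (fun a ha => by
      have e : ∀ w, rk v ≤ rk w → a w = 0 := fun w hw => by_contra fun k =>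
        hw.not_gt (mem_supported.1 (h v) ((mem_vars_iff_mem_support w).2
          ⟨a, by rwa [C_mul_X_eq_monomial], Finsupp.mem_support_iff.2 k⟩))
      exact ⟨v, fun d hd => (e d (le_of_lt hd)).trans (Finsupp.single_eq_of_ne hd.ne).symm,
        by simp [e v le_rfl]⟩) (b v)
  have e : ∑ v, b v • Finsupp.single v 1 = Finsupp.equivFunOnFinite.symm b := by
    simpa using Finsupp.univ_sum_single (Finsupp.equivFunOnFinite.symm b)
  rw [e] at this
  exact this b' (by rwa [monomial_eq, Finsupp.prod_fintype _ _ (by simp)])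

end Pool.Agent.P.MP_6f117a_ag.PJ
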