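import Pool.Agent.P.MP_6f117a_ag.PJ.IfW

/-! Denominators of the inverse of a Witt vector. -/

namespace Pool.Agent.P.MP_6f117a_ag.PJ

open WittVector

namespace TW5

theorem pow_mul {p : ℕ} [Fact p.Prime] {A : Type} [CommRing A] [CharP A p] (v : WittVector p A)
    (h : v.coeff 0 = 0) (m : ℕ) (z : WittVector p A) : ∀ l < m, (v ^ m * z).coeff l = 0 := by
  induction m with
  | zero => simp
  | succ m ih =>
    intro l hl
    rw [pow_succ', mul_assoc, eq_iterate_verschiebung ih,
      eq_iterate_verschiebung (x := v) (n := 1) (by simpa using h), iterate_verschiebung_mul]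
    exact iterate_verschiebung_coeff_eq_zero _ (by omega)

end TW5

theorem t_W5 (hW1 : S_W1) : S_W5 := by
  intro p _ A _ _ n F y y' h1 h2
  obtain ⟨S, hS⟩ := hW1 p A n F
  have ha : teichmuller p (y.coeff 0) ∈ S := (hS _).2 fun l hl => by
    cases l with
    | zero => simpa using h1 0 hl
    | succ l => rw [teichmuller_coeff_pos _ _ _ l.succ_pos]; exact zero_mem _
  have h0 : (teichmuller p (y.coeff 0) - y).coeff 0 = 0 := by
    rw [← constantCoeff_apply, map_sub]
    exact sub_eq_zero.2 (teichmuller_coeff_zero p _)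
  generalize teichmuller p (y.coeff 0) = a at *
  have hv := S.sub_mem ha ((hS y).2 h1)
  have e := (Commute.all a (a - y)).geom_sum₂_mul (n + 1)
  rw [sub_sub_cancel, eq_comm, sub_eq_iff_eq_add] at e
  rw [← hS, e, add_mul, mul_assoc, h2, mul_one]
  refine S.add_mem (S.sum_mem fun i _ => S.mul_mem (S.pow_mem ha _) (S.pow_mem hv _))
    ((hS _).2 fun l hl => ?_)
  rw [TW5.pow_mul _ h0 _ _ l (by omega)]
  exact zero_mem _

end Pool.Agent.P.MP_6f117a_ag.PJ
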