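import Pool.Agent.P.MP_6f117a_ag.PJ.IfW

/-! The zero estimate. -/

namespace Pool.Agent.P.MP_6f117a_ag.PJ

open WittVector

namespace TZ

theorem deg_mul_le {σ k : Type} [CommRing k] (w : σ → ℕ) (y : σ) (G : MvPolynomial σ k) :
    G.degreeOf y * w y ≤ G.weightedTotalDegree w := by
  by_cases h : G = 0
  · simp [h]
  · obtain ⟨m, hm, he⟩ := Finset.exists_mem_eq_sup G.support (MvPolynomial.support_nonempty.2 h)
      fun m => m y
    rw [MvPolynomial.degreeOf_eq_sup, he]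
    refine le_trans ?_ (MvPolynomial.le_weightedTotalDegree w hm)
    rw [Finsupp.weight_apply, Finsupp.sum]
    by_cases hy : y ∈ m.support
    · exact Finset.single_le_sum (f := fun i => m i • w i) (fun _ _ => Nat.zero_le _) hy
    · simp [Finsupp.notMem_support_iff.1 hy]

theorem total_le {σ k : Type} [CommRing k] (w : σ → ℕ) (hw : ∀ v, 0 < w v)
    (G : MvPolynomial σ k) : G.totalDegree ≤ G.weightedTotalDegree w := by
  refine Finset.sup_le fun m hm => le_trans ?_ (MvPolynomial.le_weightedTotalDegree w hm)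
  rw [Finsupp.weight_apply]
  exact Finset.sum_le_sum fun i _ => Nat.le_mul_of_pos_right _ (hw i)

theorem vars_dvd {σ k : Type} [Field k] {G P : MvPolynomial σ k} (hP : P ≠ 0) (h : G ∣ P) :
    ∀ v ∈ G.vars, v ∈ P.vars := by
  obtain ⟨Q, rfl⟩ := h
  intro v hv
  rw [MvPolynomial.mem_vars_iff_degreeOf_ne_zero] at hv ⊢
  rw [MvPolynomial.degreeOf_mul_eq (left_ne_zero_of_mul hP) (right_ne_zero_of_mul hP)]
  omega

theorem ordv_inj {n D : ℕ} {v y : JV n D} (h : ordv v = ordv y) : v = y := by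
  obtain ⟨l, i⟩ := v
  obtain ⟨l', i'⟩ := y
  simp only [ordv] at h
  have h1 : (i : ℕ) = i' := by
    have := congrArg (· % D) h
    simpa [Nat.mul_add_mod_of_lt i.2, Nat.mul_add_mod_of_lt i'.2] using this
  have h2 : (l : ℕ) = l' := Nat.eq_of_mul_eq_mul_right i.pos (by omega)
  exact Prod.ext (Fin.ext h2) (Fin.ext h1)

theorem ordv_lt {n D : ℕ} (v : JV n D) : ordv v < (n + 1) * D := by
  have h1 := Nat.mul_le_mul_right D (Nat.le_of_lt_succ v.1.2)
  have h2 := v.2.2
  rw [ordv, Nat.succ_mul]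
  omega

theorem const_Phi (p : ℕ) [Fact p.Prime] (n : ℕ) {D : ℕ} {k B : Type} [CommRing k] [CommRing B]
    (c : k →+* B) (φ : Fin D → WittVector p B) (G : MvPolynomial (Fin D) k) :
    PowerSeries.constantCoeff (Phi p n c φ (MvPolynomial.rename (fun i => ((0 : Fin (n + 1)), i)) G)) =
      MvPolynomial.C (MvPolynomial.eval₂ c (fun i => (φ i).coeff 0) G) := by
  induction G using MvPolynomial.induction_on with
  | C a => simp [Phi, cOm]
  | add f g hf hg => simp only [map_add, hf, hg, MvPolynomial.eval₂_add]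
  | mul_X f i hf =>
    simp only [map_mul, hf, MvPolynomial.eval₂_mul, MvPolynomial.eval₂_X, MvPolynomial.rename_X]
    congr 1
    simp [Phi, prt, cOm, WittVector.add_coeff_zero, WittVector.mul_coeff_zero]

/-- The statement for polynomials in the first `t` variables. -/
def Zt (n D t N : ℕ) : Prop := ∃ D₀ p₀ : ℕ, ∀ (p : ℕ) [Fact p.Prime], p₀ ≤ p →
  ∀ (k B : Type) [Field k] [CharP k p] [PerfectField k] [CommRing B] [IsDomain B] (c : k →+* B)
    (φ : Fin D → WittVector p B) (P : MvPolynomial (JV n D) k) (o : ℕ), P ≠ 0 →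
    (∀ v ∈ P.vars, ordv v < t) →
    P.weightedTotalDegree (sw p) < N * o → PowerSeries.X ^ o ∣ Phi p n c φ P →
      ∃ G : MvPolynomial (Fin D) k, G ≠ 0 ∧ G.totalDegree ≤ D₀ ∧
        MvPolynomial.eval₂ c (fun i => (φ i).coeff 0) G = 0

theorem level_zero (p : ℕ) [Fact p.Prime] (n : ℕ) {D : ℕ} {k B : Type} [Field k] [CommRing B]
    (c : k →+* B) (φ : Fin D → WittVector p B) (P : MvPolynomial (JV n D) k) (o : ℕ)
    (hP : P ≠ 0) (ho : o ≠ 0) (hv : ∀ v ∈ P.vars, v.1 = 0)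
    (hd : PowerSeries.X ^ o ∣ Phi p n c φ P) :
    ∃ G : MvPolynomial (Fin D) k, G ≠ 0 ∧ G.totalDegree ≤ P.weightedTotalDegree (sw p) ∧
      MvPolynomial.eval₂ c (fun i => (φ i).coeff 0) G = 0 := by
  obtain ⟨G, rfl⟩ := MvPolynomial.exists_rename_eq_of_vars_subset_range P
    (fun i : Fin D => ((0 : Fin (n + 1)), i)) (fun i j h => congrArg Prod.snd h)
    fun v h => ⟨v.2, Prod.ext (hv v h).symm rfl⟩
  refine ⟨G, fun h => hP (by rw [h, map_zero]), ?_, ?_⟩
  · refine le_trans ?_ (total_le (sw p) (fun v => pow_pos (Fact.out : p.Prime).pos _) _)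
    refine le_trans (le_of_eq ?_) (MvPolynomial.totalDegree_rename_le Prod.snd _)
    rw [MvPolynomial.rename_rename]
    exact congrArg _ (MvPolynomial.rename_id_apply G).symm
  · have h1 := PowerSeries.X_dvd_iff.1 ((dvd_pow_self _ ho).trans hd)
    rw [const_Phi] at h1
    exact MvPolynomial.C_eq_zero.1 h1

theorem base (n D N : ℕ) : Zt n D 0 N := by
  refine ⟨0, 0, fun p _ _ k B _ _ _ _ _ c φ P o hP hv hw hd => ?_⟩
  have ho : o ≠ 0 := by
    rintro rfl
    simp at hw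
  have h0 : P.vars = ∅ := Finset.eq_empty_of_forall_notMem fun v h => absurd (hv v h) (by simp)
  rw [MvPolynomial.vars_eq_empty_iff_eq_C] at h0
  have h1 := PowerSeries.X_dvd_iff.1 ((dvd_pow_self _ ho).trans hd)
  rw [h0] at h1 hP
  simp [Phi, cOm] at h1
  exact absurd (by rw [h1, map_zero]) hP

theorem arith1 {N o s b a W : ℕ} (hs : s < N * o) (h2 : 2 * N < s) (ha : a ≤ b) (hb : b ≤ 4 * N)
    (hW : W ≤ (a + b) * s) : W < 64 * N ^ 2 * (o - 1) := by
  have hN : 0 < N := Nat.pos_of_ne_zero (by rintro rfl; simp at hs)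
  have ho : 2 < o := by
    by_contra h
    have := Nat.mul_le_mul_left N (not_lt.1 h)
    omega
  obtain ⟨o', rfl⟩ : ∃ o', o = o' + 1 := ⟨o - 1, by omega⟩
  have h3 : (a + b) * s ≤ 8 * N * s := Nat.mul_le_mul_right s (by omega)
  have h4 : 8 * N * s < 8 * N * (N * (o' + 1)) := Nat.mul_lt_mul_of_pos_left hs (by omega)
  have h5 : 8 * N * (N * (o' + 1)) ≤ 8 * N * (N * (8 * o')) :=
    Nat.mul_le_mul_left _ (Nat.mul_le_mul_left _ (by omega))
  rw [Nat.add_sub_cancel]
  calc W < 8 * N * (N * (8 * o')) := by omega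
    _ = 64 * N ^ 2 * o' := by ring

theorem arith2 {N o s q a W : ℕ} (hq : 0 < q) (hs : s < N * o) (ha : a ≤ s / q)
    (hb : 4 * N < s / q) (hW : W ≤ (a + s / q) * s) :
    W < 64 * N ^ 2 * (q * (min ((o - 1) / q) (s / q / 2) * min ((o - 1) / q) (s / q / 2))) := by
  have hN : 0 < N := Nat.pos_of_ne_zero (by rintro rfl; simp at hs)
  have h1 : s / q * q ≤ s := Nat.div_mul_le_self s q
  have h2 : s < (s / q + 1) * q := by
    rw [mul_comm]
    exact Nat.lt_mul_div_succ s hq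
  have h3 : o - 1 < ((o - 1) / q + 1) * q := by
    rw [mul_comm]
    exact Nat.lt_mul_div_succ _ hq
  generalize s / q = b at *
  generalize (o - 1) / q = m at *
  have h4 : b < N * (m + 1) := by
    refine Nat.lt_of_mul_lt_mul_right (a := q) ?_
    have : N * o ≤ N * ((m + 1) * q) := Nat.mul_le_mul_left _ (by omega)
    rw [mul_assoc]
    omega
  have h5 : 4 < m + 1 := Nat.lt_of_mul_lt_mul_left (a := N) (by omega)
  have h6 : b ≤ 4 * N * min m (b / 2) := by
    rcases le_total m (b / 2) with h | h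
    · rw [min_eq_left h]
      have : N * (m + 1) ≤ N * (4 * m) := Nat.mul_le_mul_left _ (by omega)
      calc b ≤ N * (4 * m) := by omega
        _ = 4 * N * m := by ring
    · rw [min_eq_right h]
      have : 4 * 1 * (b / 2) ≤ 4 * N * (b / 2) :=
        Nat.mul_le_mul_right _ (Nat.mul_le_mul_left _ hN)
      omega
  generalize min m (b / 2) = κ at *
  have h7 : (a + b) * s ≤ 2 * b * s := Nat.mul_le_mul_right s (by omega)
  have h8 : 2 * b * s < 2 * b * ((b + 1) * q) := Nat.mul_lt_mul_of_pos_left h2 (by omega)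
  have h9 : 2 * b * ((b + 1) * q) ≤ 2 * b * (2 * b * q) :=
    Nat.mul_le_mul_left _ (Nat.mul_le_mul_right _ (by omega))
  have h10 : b * b ≤ (4 * N * κ) * (4 * N * κ) := Nat.mul_le_mul h6 h6
  calc W < 2 * b * (2 * b * q) := by omega
    _ = 4 * q * (b * b) := by ring
    _ ≤ 4 * q * ((4 * N * κ) * (4 * N * κ)) := Nat.mul_le_mul_left _ h10
    _ = 64 * N ^ 2 * (q * (κ * κ)) := by ring

theorem step (hZORD : S_ZORD) (hZKER : S_ZKER) (hZDEG : S_ZDEG) (hZFAC : S_ZFAC)
    (hZSYL : S_ZSYL) (hZTAY : S_ZTAY) (hZRES : S_ZRES) (n D t N : ℕ) (h1 : Zt n D t N)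
    (h2 : Zt n D t (64 * N ^ 2)) : Zt n D (t + 1) N := by
  classical
  obtain ⟨D1, p1, h1⟩ := h1
  obtain ⟨D2, p2, h2⟩ := h2
  refine ⟨max (max D1 D2) (2 * N), max (max p1 p2) (2 * N + 1),
    fun p _ hp k B _ _ _ _ _ c φ P o₀ hP hv hw hd => ?_⟩
  have hpp : p.Prime := Fact.out
  have hp1 : p1 ≤ p := le_trans (le_trans (le_max_left _ _) (le_max_left _ _)) hp
  have hp2 : p2 ≤ p := le_trans (le_trans (le_max_right _ _) (le_max_left _ _)) hp
  have hp3 : 2 * N + 1 ≤ p := le_trans (le_max_right _ _) hp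
  have : CharP B p := charP_of_injective_ringHom c.injective p
  have hsw : ∀ v : JV n D, 0 < sw p v := fun v => pow_pos hpp.pos _
  obtain ⟨hF1, hF2⟩ := hZFAC (JV n D) k (MvPolynomial (JV n D) B) (sw p) hsw
  obtain ⟨G, o, hG, hGP, hs, hGo⟩ := hF2 (Phi p n c φ) P N o₀ hP hw hd
  have hvG : ∀ v ∈ G.vars, ordv v < t + 1 := fun v h => hv v (vars_dvd hP hGP v h)
  have ho : o ≠ 0 := by
    rintro rfl
    simp at hs
  by_cases hy : ∀ v ∈ G.vars, ordv v < t
  · obtain ⟨Q, q1, q2, q3⟩ := h1 p hp1 k B c φ G o hG.ne_zero hy hs hGo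
    exact ⟨Q, q1, q2.trans (le_trans (le_max_left _ _) (le_max_left _ _)), q3⟩
  push Not at hy
  obtain ⟨y, hyG, hyt⟩ := hy
  have hyt' : ordv y = t := by
    have := hvG y hyG
    omega
  by_cases hsN : G.weightedTotalDegree (sw p) ≤ 2 * N
  · obtain ⟨Q, q1, q2, q3⟩ := level_zero p n c φ G o hG.ne_zero ho (fun v h => by
      have e1 := deg_mul_le (sw p) v G
      have e2 := Nat.pos_of_ne_zero (MvPolynomial.mem_vars_iff_degreeOf_ne_zero.1 h)
      have e3 : sw p v ≤ G.degreeOf v * sw p v := Nat.le_mul_of_pos_left _ e2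
      by_contra h0
      have e4 : p ≤ sw p v := Nat.le_self_pow (fun h5 => h0 (Fin.ext h5)) p
      omega) hGo
    exact ⟨Q, q1, q2.trans (hsN.trans (le_max_right _ _)), q3⟩
  push Not at hsN
  obtain ⟨i, hH⟩ : ∃ i, Dv p k i G ≠ 0 := by
    by_contra h
    push Not at h
    obtain ⟨H, rfl⟩ := hZKER p n D k G h
    exact not_irreducible_pow hpp.ne_one hG
  obtain ⟨hd1, hd2⟩ := hZDEG p n D k i G
  have hd3 := hd1 hH
  have hvH := hd2 (t + 1) hvG
  have hGH : ¬ G ∣ Dv p k i G := fun h => absurd (hF1 G _ hH h) (by omega)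
  have hHo : PowerSeries.X ^ (o - 1) ∣ Phi p n c φ (Dv p k i G) :=
    hZORD p n D k B c φ i G (o - 1) (by rwa [Nat.sub_add_cancel (Nat.pos_of_ne_zero ho)])
  have hGo' : PowerSeries.X ^ (o - 1) ∣ Phi p n c φ G := (pow_dvd_pow _ (Nat.sub_le _ _)).trans hGo
  generalize Dv p k i G = H at *
  have ha : G.degreeOf y ≤ G.weightedTotalDegree (sw p) / sw p y :=
    (Nat.le_div_iff_mul_le (hsw y)).2 (deg_mul_le _ _ _)
  have hb : H.degreeOf y ≤ G.weightedTotalDegree (sw p) / sw p y :=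
    (Nat.le_div_iff_mul_le (hsw y)).2 ((deg_mul_le _ _ _).trans hd3.le)
  obtain ⟨r1, r2, r3⟩ := hZRES (JV n D) k (sw p) y G H _ _ hG hGH hyG hb le_rfl hd3.le
  obtain ⟨R0, Rv, Rw, Ri⟩ := r3 _ rfl
  have Rt : ∀ v ∈ ((toY y G).resultant (toY y H) (G.degreeOf y)
      (G.weightedTotalDegree (sw p) / sw p y)).vars, ordv v < t := fun v h => by
    obtain ⟨e1, e2⟩ := Rv v h
    have e3 : ordv v < t + 1 := e2.elim (hvG v) (hvH v)
    have e4 : ordv v ≠ t := fun e => e1 (ordv_inj (e.trans hyt'.symm))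
    omega
  have fin : ∀ o', ((toY y G).resultant (toY y H) (G.degreeOf y)
      (G.weightedTotalDegree (sw p) / sw p y)).weightedTotalDegree (sw p) < 64 * N ^ 2 * o' →
      PowerSeries.X ^ o' ∣ Phi p n c φ ((toY y G).resultant (toY y H) (G.degreeOf y)
        (G.weightedTotalDegree (sw p) / sw p y)) → ∃ Q : MvPolynomial (Fin D) k, Q ≠ 0 ∧
          Q.totalDegree ≤ max (max D1 D2) (2 * N) ∧
          MvPolynomial.eval₂ c (fun i => (φ i).coeff 0) Q = 0 := fun o' e1 e2 => by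
    obtain ⟨Q, q1, q2, q3⟩ := h2 p hp2 k B c φ _ o' R0 Rt e1 e2
    exact ⟨Q, q1, q2.trans (le_trans (le_max_right _ _) (le_max_left _ _)), q3⟩
  by_cases hbN : G.weightedTotalDegree (sw p) / sw p y ≤ 4 * N
  · refine fin (o - 1) (arith1 hs hsN ha hbN Rw) ?_
    obtain ⟨u, v, e⟩ := Ideal.mem_span_pair.1 Ri
    rw [← e, map_add, map_mul, map_mul]
    exact dvd_add (hGo'.mul_left _) (hHo.mul_left _)
  · push Not at hbN
    refine fin _ (arith2 (hsw y) hs ha hbN Rw) ?_
    obtain ⟨c₀, hc₀⟩ := hZTAY p n D k B c φ y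
    have hκ : sw p y * min ((o - 1) / sw p y) (G.weightedTotalDegree (sw p) / sw p y / 2) ≤ o - 1 :=
      le_trans (Nat.mul_le_mul_left _ (min_le_left _ _)) (Nat.mul_div_le _ _)
    have hκ2 : 2 * min ((o - 1) / sw p y) (G.weightedTotalDegree (sw p) / sw p y / 2) ≤
        G.degreeOf y + G.weightedTotalDegree (sw p) / sw p y := by
      have := min_le_right ((o - 1) / sw p y) (G.weightedTotalDegree (sw p) / sw p y / 2)
      omega
    generalize min ((o - 1) / sw p y) (G.weightedTotalDegree (sw p) / sw p y / 2) = κ at *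
    have key : ∀ F : MvPolynomial (JV n D) k, (∀ v ∈ F.vars, ordv v < t + 1) →
        PowerSeries.X ^ (o - 1) ∣ Phi p n c φ F → ∀ j, (PowerSeries.X ^ sw p y) ^ (κ - j) ∣
          (Polynomial.taylor c₀ ((toY y F).map (Phi p n c φ))).coeff j := fun F e1 e2 j => by
      refine dvd_trans ?_ (hc₀ F (fun v h => by have := e1 v h; omega) (o - 1) j e2)
      rw [← pow_mul]
      refine pow_dvd_pow _ ?_
      rw [Nat.mul_sub, mul_comm j]
      omega
    rw [pow_mul, ← Polynomial.resultant_map_map]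
    exact hZSYL _ _ c₀ _ _ _ _ κ (Polynomial.natDegree_map_le.trans r1.le)
      (Polynomial.natDegree_map_le.trans (r2.le.trans hb)) hκ2 (key G hvG hGo') (key H hvH hHo)

end TZ

theorem t_Z (hZORD : S_ZORD) (hZKER : S_ZKER) (hZDEG : S_ZDEG) (hZFAC : S_ZFAC) (hZSYL : S_ZSYL)
    (hZTAY : S_ZTAY) (hZRES : S_ZRES) : S_Z := by
  intro n D N
  have key : ∀ t N, TZ.Zt n D t N := fun t => by
    induction t with
    | zero => exact TZ.base n D
    | succ t ih =>
      exact fun N => TZ.step hZORD hZKER hZDEG hZFAC hZSYL hZTAY hZRES n D t N (ih _) (ih _)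
  obtain ⟨D₀, p₀, h⟩ := key ((n + 1) * D) N
  exact ⟨D₀, p₀, fun p _ hp k B _ _ _ _ _ c φ P o hP =>
    h p hp k B c φ P o hP fun v _ => TZ.ordv_lt v⟩

end Pool.Agent.P.MP_6f117a_ag.PJ
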