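import Pool.Agent.P.MP_6f117a_ag.PJ.IfW

/-! The invariant vector field lowers the weight. -/

namespace Pool.Agent.P.MP_6f117a_ag.PJ

open MvPolynomial

namespace TZDEG

variable (p : ℕ) [Fact p.Prime] {n D : ℕ} (k : Type) [Field k] (i : Fin D)

/-- the variables of one coordinate -/
noncomputable def xv (n : ℕ) (j : ℕ) : MvPolynomial (JV n D) k :=
  if h : j < n + 1 then X (⟨j, h⟩, i) else 0

theorem dp (l : ℕ) : (aeval (xv k i n) (dpoly p l)).IsWeightedHomogeneous (sw p) (p ^ l - 1) ∧
    aeval (xv k i n) (dpoly p l) ∈ supported k {v : JV n D | (v.1 : ℕ) < l ∧ v.2 = i} := by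
  induction l using Nat.strong_induction_on with
  | _ l ih =>
  cases l with
  | zero =>
    rw [dpoly_zero, map_one]
    exact ⟨by simpa using isWeightedHomogeneous_one k (sw p), one_mem _⟩
  | succ l =>
    rw [dpoly_succ, map_neg, map_sum]
    refine ⟨(weightedHomogeneousSubmodule k (sw p) _).neg_mem
      (Submodule.sum_mem _ fun j _ => ?_), neg_mem (sum_mem fun j _ => ?_)⟩
    · have h1 : (xv k i n j).IsWeightedHomogeneous (sw p) (p ^ (j : ℕ)) := by
        unfold xv
        split_ifs with h
        · exact isWeightedHomogeneous_X k (sw p) ((⟨j, h⟩, i) : JV n D)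
        · exact isWeightedHomogeneous_zero k _ _
      have h2 := (h1.pow (p ^ (l + 1 - j) - 1)).mul (ih j j.2).1
      have h3 : 0 < p := (Fact.out : p.Prime).pos
      have h4 : p ^ (l + 1 - j) * p ^ (j : ℕ) = p ^ (l + 1) := by
        rw [← pow_add, Nat.sub_add_cancel j.2.le]
      have h5 : 1 * p ^ (j : ℕ) ≤ p ^ (l + 1 - j) * p ^ (j : ℕ) :=
        Nat.mul_le_mul_right _ (Nat.pow_pos h3)
      have h6 : 0 < p ^ (j : ℕ) := Nat.pow_pos h3
      rw [smul_eq_mul, Nat.sub_mul,
        show p ^ (l + 1 - j) * p ^ (j : ℕ) - 1 * p ^ (j : ℕ) + (p ^ (j : ℕ) - 1) = p ^ (l + 1) - 1 by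
          omega] at h2
      rw [map_mul, map_pow, aeval_X]
      exact h2
    · rw [map_mul, map_pow, aeval_X]
      refine mul_mem (pow_mem ?_ _) (supported_mono ?_ (ih j j.2).2)
      swap
      · exact fun v hv => ⟨hv.1.trans j.2, hv.2⟩
      unfold xv
      split_ifs with h
      · exact X_mem_supported.2 ⟨j.2, rfl⟩
      · exact zero_mem _

omit [Fact p.Prime] in
theorem dv_X (v : JV n D) :
    Dv p k i (X v) = if v.2 = i then aeval (xv k i n) (dpoly p v.1) else 0 := mkDerivation_X _ _ _

theorem mon (m : JV n D →₀ ℕ) (c : k) (d : JV n D →₀ ℕ)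
    (h : coeff d (Dv p k i (monomial m c)) ≠ 0) :
    Finsupp.weight (sw p) d < Finsupp.weight (sw p) m := by
  rw [Dv, mkDerivation_monomial, coeff_smul, Finsupp.sum, coeff_sum] at h
  obtain ⟨v, hv, h1⟩ := Finset.exists_ne_zero_of_sum_ne_zero (right_ne_zero_of_smul h)
  split_ifs at h1 with hi
  · have h2 := (isWeightedHomogeneous_monomial (sw p) (m - Finsupp.single v 1) ((m v : ℕ) : k) rfl).mul
      (dp p k i (n := n) v.1).1 h1
    have h3 := Finsupp.weight_sub_single_add (w := sw p) (Finsupp.mem_support_iff.1 hv)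
    have h4 : 0 < p ^ (v.1 : ℕ) := Nat.pow_pos (Fact.out : p.Prime).pos
    rw [sw] at h3
    omega
  · simp at h1

end TZDEG

open TZDEG in
theorem t_ZDEG : S_ZDEG := by
  intro p _ n D k _ i G
  refine ⟨fun h0 => ?_, fun t ht => ?_⟩
  · have h1 : ∀ d ∈ (Dv p k i G).support,
        Finsupp.weight (sw p) d < G.weightedTotalDegree (sw p) := by
      intro d hd
      rw [mem_support_iff, G.as_sum, map_sum, coeff_sum] at hd
      obtain ⟨m, hm, h2⟩ := Finset.exists_ne_zero_of_sum_ne_zero hd
      exact (mon p k i m _ d h2).trans_le (le_weightedTotalDegree _ hm)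
    obtain ⟨d, hd⟩ := support_nonempty.2 h0
    exact (Finset.sup_lt_iff ((Nat.zero_le _).trans_lt (h1 d hd))).2 h1
  · have h1 : G ∈ supported k {v : JV n D | ordv v < t} := mem_supported.2 ht
    suffices Dv p k i G ∈ supported k {v : JV n D | ordv v < t} from mem_supported.1 this
    clear ht
    rw [supported_eq_adjoin_X] at h1
    induction h1 using Algebra.adjoin_induction with
    | mem x hx =>
      obtain ⟨v, hv, rfl⟩ := hx
      rw [dv_X]
      split_ifs with hi
      · refine supported_mono ?_ (dp p k i (n := n) v.1).2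
        rintro w ⟨h1, h2⟩
        have h3 : ordv w ≤ ordv v := by
          unfold ordv
          rw [h2, hi]
          exact Nat.add_le_add_right (Nat.mul_le_mul_right _ h1.le) _
        exact h3.trans_lt hv
      · exact zero_mem _
    | algebraMap r => rw [Derivation.map_algebraMap]; exact zero_mem _
    | add x y _ _ hx hy => rw [map_add]; exact add_mem hx hy
    | mul x y h1 h2 hx hy =>
      rw [← supported_eq_adjoin_X] at h1 h2
      rw [Derivation.leibniz]
      exact add_mem (mul_mem h1 hy) (mul_mem h2 hx)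

end Pool.Agent.P.MP_6f117a_ag.PJ
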