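import Pool.Agent.P.MP_6f117a_ag.PJ.IfW

/-! First order expansion of the sum of a Witt vector and a Teichmüller element. -/

namespace Pool.Agent.P.MP_6f117a_ag.PJ

open WittVector

namespace TZEPS

variable {p : ℕ} [hp : Fact p.Prime] {A : Type} [CommRing A]

theorem ghost (x : WittVector p A) (l : ℕ) : ghostComponent l x =
    ∑ i ∈ Finset.range (l + 1), (p : A) ^ i * x.coeff i ^ p ^ (l - i) := by
  rw [ghostComponent_apply, aeval_wittPolynomial]

theorem inj (h : ∀ a : A, p * a = 0 → a = 0) {x y : WittVector p A}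
    (e : ∀ l, ghostComponent l x = ghostComponent l y) (l : ℕ) : x.coeff l = y.coeff l := by
  have h' : ∀ (n : ℕ) (a : A), (p : A) ^ n * a = 0 → a = 0 := fun n => by
    induction n with
    | zero => simp
    | succ n ih => exact fun a ha => ih a (h _ (by rw [← ha]; ring))
  induction l using Nat.strong_induction_on with
  | _ l ih =>
    have := e l
    rw [ghost, ghost, Finset.sum_range_succ, Finset.sum_range_succ, Nat.sub_self, pow_zero, pow_one,
      pow_one, Finset.sum_congr rfl fun i hi => by rw [ih i (Finset.mem_range.1 hi)],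
      add_right_inj] at this
    exact sub_eq_zero.1 (h' l _ (by rw [mul_sub, this, sub_self]))

theorem add_pow_eps {e : A} (he : e * e = 0) (x d : A) (m : ℕ) :
    (x + e * d) ^ m = x ^ m + e * (m * x ^ (m - 1) * d) := by
  induction m with
  | zero => simp
  | succ m ih =>
    rw [pow_succ, ih, Nat.add_sub_cancel]
    cases m with
    | zero => simp
    | succ m =>
      rw [Nat.add_sub_cancel]
      push_cast
      linear_combination ((m + 1) * x ^ m * d * d) * he

theorem free (h : ∀ a : A, p * a = 0 → a = 0) {e : A} (he : e * e = 0) (x : WittVector p A)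
    (l : ℕ) : (x + teichmuller p e).coeff l =
      x.coeff l + e * MvPolynomial.aeval x.coeff (dpoly p l) := by
  refine inj h (y := mk p fun j => x.coeff j + e * MvPolynomial.aeval x.coeff (dpoly p j))
    (fun l => ?_) l
  rw [map_add, ghostComponent_teichmuller, ghost, ghost]
  simp only [coeff_mk, add_pow_eps he, mul_add, Finset.sum_add_distrib, add_right_inj]
  have k : ∑ i ∈ Finset.range (l + 1), (p : A) ^ i * (e * ((p ^ (l - i) : ℕ) *
      x.coeff i ^ (p ^ (l - i) - 1) * MvPolynomial.aeval x.coeff (dpoly p i))) =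
      e * p ^ l * ∑ i ∈ Finset.range (l + 1),
        x.coeff i ^ (p ^ (l - i) - 1) * MvPolynomial.aeval x.coeff (dpoly p i) := by
    rw [Finset.mul_sum]
    refine Finset.sum_congr rfl fun i hi => ?_
    obtain ⟨j, rfl⟩ := Nat.exists_eq_add_of_le (Nat.lt_succ_iff.1 (Finset.mem_range.1 hi))
    rw [Nat.add_sub_cancel_left]
    push_cast
    ring
  rw [k]
  cases l with
  | zero => simp [dpoly_zero]
  | succ l =>
    have p2 : 2 ≤ p ^ (l + 1) := hp.out.two_le.trans (Nat.le_self_pow (by omega) p)
    obtain ⟨j, hj⟩ := Nat.exists_eq_add_of_le p2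
    rw [hj, pow_add, pow_two, he, zero_mul, Finset.sum_range_succ, dpoly_succ, Finset.sum_range]
    simp

end TZEPS

open TZEPS in
theorem t_ZEPS : S_ZEPS := by
  intro p hp A _ e he x l
  let f := (DualNumber.lift ⟨(MvPolynomial.aeval (R := ℤ) x.coeff, e), he,
    fun _ => Commute.all _ _⟩).toRingHom
  let x0 : WittVector p (DualNumber (MvPolynomial ℕ ℤ)) :=
    mk p fun j => TrivSqZeroExt.inl (MvPolynomial.X j)
  have h1 : ∀ j, f (x0.coeff j) = x.coeff j := fun j => by simp [f, x0]
  have h2 : f DualNumber.eps = e := by simp [f]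
  have h3 : map f x0 = x := WittVector.ext h1
  have p0 : (p : MvPolynomial ℕ ℤ) ≠ 0 := Nat.cast_ne_zero.2 hp.out.ne_zero
  have h := congrArg f (free (fun a ha => by
    rw [← nsmul_eq_mul] at ha
    have a1 := congrArg TrivSqZeroExt.fst ha
    have a2 := congrArg TrivSqZeroExt.snd ha
    rw [TrivSqZeroExt.fst_smul, nsmul_eq_mul] at a1
    rw [TrivSqZeroExt.snd_smul, nsmul_eq_mul] at a2
    exact TrivSqZeroExt.ext ((mul_eq_zero.1 a1).resolve_left p0)
      ((mul_eq_zero.1 a2).resolve_left p0)) DualNumber.eps_mul_eps x0 l)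
  rw [← map_coeff, map_add, map_teichmuller, h3, h2, map_add, map_mul, h1, h2,
    MvPolynomial.map_aeval] at h
  rw [h, MvPolynomial.aeval_eq_eval₂Hom, funext h1, RingHom.ext_int (f.comp _)]

end Pool.Agent.P.MP_6f117a_ag.PJ
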