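import Pool.Agent.P.MP_6f117a_ag.PJ.IfW

/-! Additivity of the weighted degree; an irreducible factor with a good ratio. -/

namespace Pool.Agent.P.MP_6f117a_ag.PJ

open MvPolynomial

namespace TZFAC

variable {σ k : Type} [Field k] (w : σ → ℕ)

/-- The generating polynomial of the weighted homogeneous components. -/
noncomputable def psi : MvPolynomial σ k →+* Polynomial (MvPolynomial σ k) :=
  eval₂Hom (Polynomial.C.comp C) fun v => Polynomial.C (X v) * Polynomial.X ^ w v

theorem psi_coeff (G : MvPolynomial σ k) (n : ℕ) :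
    (psi w G).coeff n = weightedHomogeneousComponent w n G := by
  induction G using MvPolynomial.induction_on' with
  | add G H hG hH => simp only [map_add, Polynomial.coeff_add, hG, hH]
  | monomial d a =>
    have : psi w (monomial d a) =
        Polynomial.C (monomial d a) * Polynomial.X ^ Finsupp.weight w d := by
      rw [psi, eval₂Hom_monomial, monomial_eq]
      simp only [RingHom.comp_apply, mul_pow, Finsupp.prod, Finset.prod_mul_distrib, ← pow_mul',
        Finset.prod_pow_eq_pow_sum, Finsupp.weight_apply, Finsupp.sum, map_mul, map_prod, map_pow,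
        smul_eq_mul, mul_assoc]
    rw [this, Polynomial.coeff_C_mul_X_pow,
      weightedHomogeneousComponent_of_mem (isWeightedHomogeneous_monomial w d a rfl)]

theorem psi_deg (G : MvPolynomial σ k) : (psi w G).natDegree = G.weightedTotalDegree w := by
  refine le_antisymm (Polynomial.natDegree_le_iff_coeff_eq_zero.2 fun n hn => ?_)
    (Finset.sup_le fun d hd => Polynomial.le_natDegree_of_ne_zero fun h => mem_support_iff.1 hd ?_)
  · rw [psi_coeff, weightedHomogeneousComponent_eq_zero _ _ hn]
  · have := congrArg (coeff d) h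
    rwa [psi_coeff, coeff_weightedHomogeneousComponent, if_pos rfl] at this

theorem psi_ne {G : MvPolynomial σ k} (h : G ≠ 0) : psi w G ≠ 0 := fun a => by
  obtain ⟨d, hd⟩ := ne_zero_iff.1 h
  have := congrArg (coeff d) (psi_coeff w G (Finsupp.weight w d))
  rw [a, coeff_weightedHomogeneousComponent, if_pos rfl] at this
  exact hd this.symm

theorem deg_mul {G H : MvPolynomial σ k} (hG : G ≠ 0) (hH : H ≠ 0) :
    (G * H).weightedTotalDegree w = G.weightedTotalDegree w + H.weightedTotalDegree w := by
  simp only [← psi_deg, map_mul, Polynomial.natDegree_mul (psi_ne w hG) (psi_ne w hH)]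

theorem split {R : Type} [CommRing R] [IsDomain R] {x : R} (hx : Prime x) (o : ℕ) :
    ∀ a b : R, x ^ o ∣ a * b → ∃ i j, i + j = o ∧ x ^ i ∣ a ∧ x ^ j ∣ b := by
  induction o with
  | zero => exact fun a b _ => ⟨0, 0, rfl, by simp, by simp⟩
  | succ o ih =>
    intro a b h
    rcases hx.dvd_or_dvd ((dvd_pow_self x o.succ_ne_zero).trans h) with ⟨c, rfl⟩ | ⟨c, rfl⟩
    · rw [pow_succ', mul_assoc, mul_dvd_mul_iff_left hx.ne_zero] at h
      obtain ⟨i, j, e, h1, h2⟩ := ih _ _ h
      exact ⟨i + 1, j, by omega, pow_succ' x i ▸ mul_dvd_mul_left x h1, h2⟩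
    · rw [pow_succ', mul_left_comm, mul_dvd_mul_iff_left hx.ne_zero] at h
      obtain ⟨i, j, e, h1, h2⟩ := ih _ _ h
      exact ⟨i, j + 1, by omega, h1, pow_succ' x j ▸ mul_dvd_mul_left x h2⟩

end TZFAC

open TZFAC

theorem t_ZFAC : S_ZFAC := by
  intro σ k B _ _ _ w _
  refine ⟨?_, fun Φ P N => ?_⟩
  · rintro G _ h ⟨Q, rfl⟩
    rw [deg_mul w (left_ne_zero_of_mul h) (right_ne_zero_of_mul h)]
    exact le_self_add
  induction P using UniqueFactorizationMonoid.induction_on_prime with
  | h₁ => exact fun _ h => (h rfl).elim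
  | h₂ P hP =>
    intro o _ h1 h2
    rcases o with _ | o
    · simp at h1
    · exact (PowerSeries.X_prime.not_isUnit
        (isUnit_of_dvd_unit ((dvd_pow_self _ o.succ_ne_zero).trans h2) (hP.map Φ))).elim
  | h₃ Q G hQ hG ih =>
    intro o _ h1 h2
    rw [map_mul] at h2
    obtain ⟨i, j, rfl, a, b⟩ := split PowerSeries.X_prime _ _ _ h2
    rw [deg_mul w hG.ne_zero hQ, mul_add] at h1
    by_cases c : G.weightedTotalDegree w < N * i
    · exact ⟨G, i, hG.irreducible, dvd_mul_right _ _, c, a⟩
    · obtain ⟨G', o', g1, g2, g3⟩ := ih j hQ (by omega) b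
      exact ⟨G', o', g1, g2.mul_left _, g3⟩

end Pool.Agent.P.MP_6f117a_ag.PJ
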