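import Pool.Agent.P.MP_6f117a_ag.PJ.IfW

/-! The zero estimate for weighted homogeneous polynomials. -/

namespace Pool.Agent.P.MP_6f117a_ag.PJ

open WittVector

namespace TZH

open MvPolynomial

theorem scale {σ k R : Type} [CommRing k] [CommRing R] (f : k →+* R) (w : σ → ℕ) (u : R)
    (g : σ → R) {P : MvPolynomial σ k} {s : ℕ} (h : P.IsWeightedHomogeneous w s) :
    eval₂ f (fun v => u ^ w v * g v) P = u ^ s * eval₂ f g P := by
  rw [eval₂_eq, eval₂_eq, Finset.mul_sum]
  refine Finset.sum_congr rfl fun m hm => ?_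
  rw [← h (mem_support_iff.1 hm), Finsupp.weight_apply, Finsupp.sum]
  simp only [mul_pow, Finset.prod_mul_distrib, ← pow_mul, Finset.prod_pow_eq_pow_sum, smul_eq_mul,
    mul_comm (w _)]
  ring

/-- The scaling of the variables. -/
noncomputable def sc {σ R : Type} [CommRing R] (w : σ → ℕ) (u : R) :
    MvPolynomial σ R →+* MvPolynomial σ R := eval₂Hom C fun v => C u ^ w v * X v

theorem coeff_sc {σ R : Type} [CommRing R] (w : σ → ℕ) (u : R) (f : MvPolynomial σ R)
    (m : σ →₀ ℕ) : (sc w u f).coeff m = u ^ Finsupp.weight w m * f.coeff m := by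
  classical
  induction f using MvPolynomial.induction_on' with
  | add f g hf hg => rw [map_add, coeff_add, coeff_add, hf, hg, mul_add]
  | monomial d a =>
    rw [sc, coe_eval₂Hom, scale C w (C u) X (isWeightedHomogeneous_monomial w d a rfl), eval₂_eta,
      ← map_pow, coeff_C_mul, coeff_monomial]
    split_ifs with h
    · rw [h]
    · simp

end TZH

open TZH in
theorem t_ZH (hW3 : S_W3) (hZ : S_Z) : S_ZH := by
  intro n D N
  obtain ⟨D₀, p₀, h⟩ := hZ n D N
  refine ⟨D₀, p₀, fun p _ hp k B _ _ _ _ _ c φ P s o h0 h1 h2 h3 => ?_⟩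
  let φ' : Fin D → WittVector p (Polynomial B) := fun i =>
    teichmuller p Polynomial.X * WittVector.map Polynomial.C (φ i)
  let σ : Om n D (Polynomial B) →+* Om n D (Polynomial B) :=
    PowerSeries.map (sc (sw p) Polynomial.X)
  let ι : Om n D B →+* Om n D (Polynomial B) := PowerSeries.map (MvPolynomial.map Polynomial.C)
  have a1 : ∀ a, σ (cOm n D _ a) = cOm n D _ a := fun a => by simp [σ, cOm, sc]
  have a2 : ∀ a, ι (cOm n D _ a) = cOm n D _ (Polynomial.C a) := fun a => by simp [ι, cOm]
  have a3 : ∀ i, WittVector.map σ (prt p n φ' i) =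
      teichmuller p (cOm n D _ Polynomial.X) * WittVector.map ι (prt p n φ i) := fun i => by
    have b1 : WittVector.map σ (WittVector.map (cOm n D _) (φ' i)) =
        teichmuller p (cOm n D _ Polynomial.X) *
          WittVector.map ι (WittVector.map (cOm n D _) (φ i)) := by
      ext1 l
      simp only [φ', map_coeff, hW3 p, a1, a2]
      rw [map_mul, map_pow]
    have b2 : WittVector.map σ (genW p n _ i) =
        teichmuller p (cOm n D _ Polynomial.X) * WittVector.map ι (genW p n _ i) := by
      ext1 l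
      simp only [map_coeff, hW3 p, genW, coeff_mk]
      split_ifs <;> simp [σ, ι, cOm, sc, sw]
    rw [prt, prt, map_add, map_add, b1, map_mul, map_mul, b2, map_teichmuller, map_teichmuller,
      PowerSeries.map_X, PowerSeries.map_X]
    ring
  have a4 : σ (Phi p n (Polynomial.C.comp c) φ' P) =
      cOm n D _ Polynomial.X ^ s * ι (Phi p n c φ P) := by
    rw [Phi, Phi, MvPolynomial.coe_eval₂Hom, MvPolynomial.coe_eval₂Hom, MvPolynomial.eval₂_comp_left,
      MvPolynomial.eval₂_comp_left, ← scale _ _ _ _ h1]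
    congr 1
    · exact RingHom.ext fun a => (a1 _).trans (a2 _).symm
    · exact funext fun v => (congrArg (·.coeff v.1) (a3 v.2)).trans (hW3 p _ _ _ _)
  obtain ⟨G, g1, g2, g3⟩ := h p hp k (Polynomial B) (Polynomial.C.comp c) φ' P o h0
    (lt_of_le_of_lt (Finset.sup_le fun m hm => (h1 (MvPolynomial.mem_support_iff.1 hm)).le) h2)
    (PowerSeries.X_pow_dvd_iff.2 fun m hm => MvPolynomial.ext _ _ fun d => by
      have b := (map_dvd ι h3).mul_left (cOm n D _ Polynomial.X ^ s)
      rw [← a4, map_pow, PowerSeries.map_X] at b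
      have b2 := congrArg (MvPolynomial.coeff d) (PowerSeries.X_pow_dvd_iff.1 b m hm)
      rw [PowerSeries.coeff_map, coeff_sc] at b2
      exact (mul_eq_zero.1 b2).resolve_left (pow_ne_zero _ Polynomial.X_ne_zero))
  have e := G.sum_homogeneousComponent
  obtain ⟨j, j1, j2⟩ := Finset.exists_ne_zero_of_sum_ne_zero (e.trans_ne g1)
  refine ⟨_, j, j2, (Nat.lt_succ_iff.1 (Finset.mem_range.1 j1)).trans g2,
    MvPolynomial.homogeneousComponent_isHomogeneous j G, ?_⟩
  have e2 : (fun i => (φ' i).coeff 0) = fun i => Polynomial.X ^ (1 : Fin D → ℕ) i *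
      (Polynomial.C ∘ fun i => (φ i).coeff 0) i := funext fun i => by simp [φ', hW3 p]
  rw [← e, MvPolynomial.eval₂_sum, e2, Finset.sum_congr rfl fun i _ => by
    rw [scale _ _ _ _ (MvPolynomial.homogeneousComponent_isHomogeneous i G),
      ← MvPolynomial.eval₂_comp_left]] at g3
  have g4 := congrArg (·.coeff j) g3
  simp only [Polynomial.finsetSum_coeff, Polynomial.X_pow_mul, Polynomial.coeff_C_mul_X_pow,
    Finset.sum_ite_eq, if_pos j1] at g4
  exact g4

end Pool.Agent.P.MP_6f117a_ag.PJ
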