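import Pool.Agent.P.MP_6f117a_ag.PJ.IfW

/-! The perturbed jets are algebraically independent. -/

namespace Pool.Agent.P.MP_6f117a_ag.PJ

open WittVector

namespace TZIND

open MvPolynomial

theorem toY_eval {σ A : Type} [DecidableEq σ] [CommRing A] (y : σ) (a Q : MvPolynomial σ A) :
    (toY y Q).eval a = aeval (fun v => if v = y then a else X v) Q := by
  induction Q using MvPolynomial.induction_on with
  | C r => simp [toY]
  | add f g hf hg => rw [map_add, map_add, Polynomial.eval_add, hf, hg]
  | mul_X f v hf =>
    rw [map_mul, map_mul, Polynomial.eval_mul, hf, toY, aeval_X, aeval_X]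
    split_ifs <;> simp

theorem tri {σ k A : Type} [Fintype σ] [DecidableEq σ] [CommRing k] [CommRing A] [IsDomain A]
    (c : k →+* A) (hc : Function.Injective c) (x : σ → A) (lev : σ → ℕ)
    (h : ∀ y, ∃ ψ : ℕ → A →+* A, (∀ j r, ψ j (c r) = c r) ∧
      (∀ j v, v ≠ y → lev v ≤ lev y → ψ j (x v) = x v) ∧ Function.Injective fun j => ψ j (x y)) :
    Function.Injective (eval₂Hom c x) := by
  have key : ∀ (s : Finset σ) (P : MvPolynomial σ k), eval₂Hom (C.comp c)
      (fun v => if v ∈ s then C (x v) else X v : σ → MvPolynomial σ A) P = 0 → P = 0 := by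
    intro s
    induction s using Finset.induction_on_max_value lev with
    | empty =>
      exact fun P hP => map_injective c hc (by rw [map_zero, ← hP]; simp [map_eq_eval₂Hom_C_comp])
    | insert y s hy hs ih =>
      intro P hP
      obtain ⟨ψ, h1, h2, h3⟩ := h y
      refine ih P ?_
      set Q := eval₂Hom (C.comp c)
        (fun v => if v ∈ s then C (x v) else X v : σ → MvPolynomial σ A) P with hQ
      have e : ∀ j, (toY y Q).IsRoot (C (ψ j (x y))) := fun j => by
        have h4 := congrArg (map (ψ j)) hP
        rw [map_zero] at h4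
        rw [Polynomial.IsRoot, toY_eval, ← h4, hQ]
        refine RingHom.congr_fun (ringHom_ext (f := (aeval (R := A) fun v =>
          if v = y then C (ψ j (x y)) else X v : MvPolynomial σ A →ₐ[A] _).toRingHom.comp _)
          (g := (map (ψ j)).comp _) (fun r => by simp [h1]) fun v => ?_) P
        by_cases a : v ∈ s
        · simp [a, h2 j v (fun e => hy (e ▸ a)) (hs v a)]
        · by_cases b : v = y <;> simp [a, b, hy]
      have h5 : toY y Q = 0 := Polynomial.eq_zero_of_infinite_isRoot _
        (Set.infinite_of_injective_forall_mem ((C_injective σ A).comp h3) e)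
      have h6 := toY_eval y (X y) Q
      rw [h5, Polynomial.eval_zero, show (fun v => if v = y then X y else X v) = X from
        funext fun v => by split_ifs with a <;> simp [*], aeval_X_left_apply] at h6
      exact h6.symm
  refine (injective_iff_map_eq_zero _).2 fun P hP => key Finset.univ P ?_
  rw [← C_0, ← hP]
  exact RingHom.congr_fun (ringHom_ext (g := C.comp (eval₂Hom c x)) (by simp) (by simp)) P

theorem add_coeff (hW2 : S_W2) {p : ℕ} [Fact p.Prime] {A : Type} [CommRing A] [CharP A p]
    (a b b' : WittVector p A) (l : ℕ) (h : ∀ j < l, b.coeff j = b'.coeff j) :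
    (a + b').coeff l = (a + b).coeff l - b.coeff l + b'.coeff l := by
  rcases l with _ | l
  · rw [add_coeff_zero, add_coeff_zero]
    ring
  have key : ∀ z : WittVector p A,
      (a + z).coeff (l + 1) = (a + init (l + 1) z).coeff (l + 1) + z.coeff (l + 1) := fun z => by
    have := hW2 p A Unit (C a + X ()) (fun _ => z) l
    rwa [map_add, map_add, eval_C, eval_C, eval_X, eval_X, Fintype.sum_unique, map_add, pderiv_C,
      pderiv_X_self, zero_add, map_one, one_coeff_zero, one_pow, one_mul] at this
  have e : init (l + 1) b = init (l + 1) b' := by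
    ext j
    simp only [init, select, coeff_mk]
    split_ifs with a
    exacts [h j a, rfl]
  rw [key b, key b', e]
  ring

end TZIND

open MvPolynomial in
theorem t_ZIND (hW2 : S_W2) (hW3 : S_W3) : S_ZIND := by
  intro p _ n D k B _ _ _ _ c φ
  have hc : Function.Injective (cOm n D B) := PowerSeries.C_injective.comp (C_injective _ _)
  have : CharP (Om n D B) p := charP_of_injective_ringHom hc p
  refine TZIND.tri ((cOm n D B).comp c) (hc.comp c.injective :) _
    (fun v : JV n D => (v.1 : ℕ)) fun y => ?_
  let ψ : ℕ → Om n D B →+* Om n D B := fun j => PowerSeries.map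
    (aeval (R := B) fun v => if v = y then X y ^ j else X v : _ →ₐ[B] _).toRingHom
  have h1 : ∀ j r, ψ j (cOm n D B r) = cOm n D B r := fun j r => by simp [ψ, cOm]
  have h2 : ∀ j (v : JV n D), ψ j ((genW p n B v.2).coeff v.1) =
      PowerSeries.C (if v = y then X y ^ j else X v) := fun j v => by
    simp [ψ, genW, v.1.is_le]
  have h3 : ∀ j (v : JV n D), v ≠ y →
      ψ j ((genW p n B v.2).coeff v.1) = (genW p n B v.2).coeff v.1 := fun j v hv => by
    rw [h2, if_neg hv]
    simp [genW, v.1.is_le]
  have key : ∀ j (v : JV n D), (v.1 : ℕ) ≤ y.1 → ψ j ((prt p n φ v.2).coeff v.1) =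
      (prt p n φ v.2).coeff v.1 - PowerSeries.X ^ p ^ (v.1 : ℕ) * (genW p n B v.2).coeff v.1 +
        PowerSeries.X ^ p ^ (v.1 : ℕ) * ψ j ((genW p n B v.2).coeff v.1) := fun j v hv => by
    have e1 : WittVector.map (ψ j) (WittVector.map (cOm n D B) (φ v.2)) =
        WittVector.map (cOm n D B) (φ v.2) := by
      ext l : 1
      simp only [WittVector.map_coeff, h1]
    have e2 : ψ j PowerSeries.X = PowerSeries.X := PowerSeries.map_X _
    rw [← WittVector.map_coeff, prt, map_add, map_mul, e1, map_teichmuller, e2, TZIND.add_coeff hW2 _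
      (teichmuller p PowerSeries.X * genW p n B v.2) _ _ fun l hl => ?_, hW3, hW3,
      WittVector.map_coeff]
    rw [hW3, hW3, WittVector.map_coeff]
    exact congrArg _ (h3 j (⟨l, hl.trans v.1.2⟩, v.2) fun e =>
      (hl.trans_le hv).ne (congrArg (fun w : JV n D => (w.1 : ℕ)) e)).symm
  refine ⟨ψ, fun j r => h1 j _, fun j v hv hl => by rw [key j v hl, h3 j v hv, sub_add_cancel],
    fun j j' e => ?_⟩
  simp only [key _ y le_rfl, h2, if_true, add_right_inj] at e
  have e3 := PowerSeries.C_injective (mul_left_cancel₀ (pow_ne_zero _ PowerSeries.X_ne_zero) e)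
  simpa using congrArg totalDegree e3

end Pool.Agent.P.MP_6f117a_ag.PJ
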