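import Pool.Agent.P.MP_6f117a_ag.PJ.IfW

/-! The common kernel of the invariant vector fields consists of `p`-th powers. -/

namespace Pool.Agent.P.MP_6f117a_ag.PJ

open MvPolynomial

namespace TZKER

section gen
variable {k A : Type} [Field k] [CommRing A] [Algebra k A] (p : ℕ) [Fact p.Prime] [CharP k p]

/-- The derivation as an endomorphism. -/
def en (D : Derivation k A A) : Module.End k A := D.toLinearMap

theorem ad_pow (D : Derivation k A A) (m : ℕ) (a : A) :
    ((LinearMap.mulLeft k (en D) - LinearMap.mulRight k (en D)) ^ m) (LinearMap.mulLeft k a) =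
      LinearMap.mulLeft k ((en D ^ m) a) := by
  induction m with
  | zero => rfl
  | succ m ih =>
    rw [pow_succ', pow_succ', Module.End.mul_apply, ih]
    refine LinearMap.ext fun b => ?_
    change D ((en D ^ m) a * b) - (en D ^ m) a * D b = D ((en D ^ m) a) * b
    rw [D.leibniz, smul_eq_mul, smul_eq_mul]
    ring

theorem leib [Nontrivial A] (D : Derivation k A A) (l : ℕ) (a b : A) :
    (en D ^ p ^ l) (a * b) = a • (en D ^ p ^ l) b + b • (en D ^ p ^ l) a := by
  have : CharP (Module.End k (Module.End k A)) p :=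
    charP_of_injective_algebraMap (algebraMap k _).injective p
  have h := ad_pow D (p ^ l) a
  have e : (LinearMap.mulLeft k (en D) - LinearMap.mulRight k (en D)) ^ p ^ l =
      LinearMap.mulLeft k (en D) ^ p ^ l - LinearMap.mulRight k (en D) ^ p ^ l :=
    sub_pow_char_pow_of_commute (R := Module.End k (Module.End k A)) p l
      (LinearMap.commute_mulLeft_right (en D) (en D))
  rw [e, LinearMap.pow_mulLeft, LinearMap.pow_mulRight] at h
  have h2 := LinearMap.congr_fun h b
  change (en D ^ p ^ l) (a * b) - a * (en D ^ p ^ l) b = (en D ^ p ^ l) a * b at h2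
  rw [smul_eq_mul, smul_eq_mul, mul_comm b, ← h2]
  ring

/-- The `p ^ l`-th iterate is a derivation. -/
def it [Nontrivial A] (D : Derivation k A A) (l : ℕ) : Derivation k A A :=
  Derivation.mk' (en D ^ p ^ l) (leib p D l)

theorem it_apply [Nontrivial A] (D : Derivation k A A) (l : ℕ) (a : A) :
    it p D l a = (en D ^ p ^ l) a := rfl

theorem comm_pow (D : Derivation k A A) (m : ℕ) (a : A) :
    (en D ^ m) (D a) = D ((en D ^ m) a) := by
  change (en D ^ m * en D) a = (en D * en D ^ m) a
  rw [← pow_succ, ← pow_succ']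

theorem pow_kill {D : Derivation k A A} {a : A} {m r : ℕ} (h : (en D ^ m) a = 0) (hr : m ≤ r) :
    (en D ^ r) a = 0 := by
  obtain ⟨s, rfl⟩ := Nat.exists_eq_add_of_le' hr
  rw [pow_add, Module.End.mul_apply, h, map_zero]

theorem one_kill {D : Derivation k A A} {a : A} {m r : ℕ} (h : (en D ^ m) a = 1) (hr : m < r) :
    (en D ^ r) a = 0 := by
  refine pow_kill (m := m + 1) ?_ hr
  rw [pow_succ', Module.End.mul_apply, h]
  exact D.map_one_eq_zero

theorem fact_pow (E : Derivation k A A) {x y : A} (hx : E x = 1) (hy : E y = 0) (m : ℕ) :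
    (en E ^ m) (x ^ m * y) = m.factorial • y := by
  induction m with
  | zero => simp
  | succ m ih =>
    have : en E (x ^ (m + 1) * y) = (m + 1) • (x ^ m * y) := by
      change E (x ^ (m + 1) * y) = _
      rw [E.leibniz, E.leibniz_pow, hx, hy]
      simp only [smul_eq_mul, nsmul_eq_mul, Nat.add_sub_cancel]
      ring
    rw [pow_succ (en E), Module.End.mul_apply, this, map_nsmul, ih, smul_smul, Nat.factorial_succ]

theorem key [Nontrivial A] (D : Derivation k A A) (n : ℕ) (x : ℕ → A) (h0 : D (x 0) = 1)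
    (hs : ∀ l, l + 1 ≤ n → D (x (l + 1)) =
      -∑ j : Fin (l + 1), x j ^ (p ^ (l + 1 - j) - 1) * D (x j)) (l : ℕ) :
    l ≤ n → (en D ^ p ^ l) (x l) = 1 := by
  have hp : 1 < p := (Fact.out : p.Prime).one_lt
  induction l using Nat.strong_induction_on with
  | h l ih =>
    intro hl
    rcases l with _ | l
    · rw [pow_zero, pow_one]
      exact h0
    have hq : 0 < p ^ l := by positivity
    have e1 : p ^ (l + 1) = (p ^ l - 1) + p ^ l * (p - 1) + 1 := by
      obtain ⟨r, rfl⟩ := Nat.exists_eq_add_of_lt hp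
      rw [pow_succ]
      have : 1 + r + 1 - 1 = r + 1 := by omega
      rw [this]
      have : (1 + r + 1) ^ l * (1 + r + 1) = (1 + r + 1) ^ l * (r + 1) + (1 + r + 1) ^ l := by ring
      omega
    have h1 := ih l (by omega) (by omega)
    have h2 : (en D ^ ((p ^ l - 1) + p ^ l * (p - 1))) (x l ^ (p - 1) * D (x l)) = -1 := by
      have h3 := fact_pow (it p D l) (x := x l) (y := D (x l)) h1
        (by rw [it_apply, comm_pow, h1]; exact D.map_one_eq_zero) (p - 1)
      have h4 : (en D ^ (p ^ l - 1)) (D (x l)) = 1 := by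
        change (en D ^ (p ^ l - 1) * en D) (x l) = 1
        rw [← pow_succ, Nat.sub_add_cancel hq, h1]
      have h5 : (((p - 1).factorial : ℕ) : k) = -1 := by
        have := congrArg (ZMod.castHom (dvd_refl p) k) (ZMod.wilsons_lemma p)
        rwa [map_natCast, map_neg, map_one] at this
      rw [pow_add, pow_mul, Module.End.mul_apply]
      change (en D ^ (p ^ l - 1)) ((en (it p D l) ^ (p - 1)) _) = _
      rw [h3, map_nsmul, h4, ← Nat.cast_smul_eq_nsmul k, h5, neg_one_smul]
    have h6 : ∀ j : Fin l, (en D ^ ((p ^ l - 1) + p ^ l * (p - 1)))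
        (x j ^ (p ^ (l + 1 - j) - 1) * D (x j)) = 0 := fun j => by
      have h7 : it p D l (x j) = 0 :=
        one_kill (ih j (by omega) (by omega)) (Nat.pow_lt_pow_right hp j.2)
      have h8 : it p D l (D (x j)) = 0 := by
        rw [it_apply, comm_pow, ← it_apply, h7, map_zero]
      refine pow_kill (m := p ^ l) ?_ ?_
      · rw [← it_apply, Derivation.leibniz, Derivation.leibniz_pow, h7, h8]
        simp
      · exact (Nat.le_mul_of_pos_right _ (by omega)).trans (Nat.le_add_left _ _)
    rw [e1, pow_succ, Module.End.mul_apply]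
    change (en D ^ _) (D (x (l + 1))) = 1
    rw [hs l hl, map_neg, map_sum, Fin.sum_univ_castSucc]
    simp only [Fin.val_castSucc, h6]
    rw [Finset.sum_const_zero, zero_add, Fin.val_last, Nat.add_sub_cancel_left, pow_one, h2, neg_neg]

end gen

theorem der_eq {σ k : Type} [Fintype σ] [Field k] (E : Derivation k (MvPolynomial σ k)
    (MvPolynomial σ k)) (G : MvPolynomial σ k) : E G = ∑ v, E (X v) * pderiv v G := by
  classical
  induction G using MvPolynomial.induction_on with
  | C a => simp [derivation_C]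
  | add f g hf hg => simp only [map_add, hf, hg, mul_add, Finset.sum_add_distrib]
  | mul_X f v hf =>
    simp only [Derivation.leibniz, hf, smul_eq_mul, pderiv_X, mul_add, Finset.sum_add_distrib,
      Finset.mul_sum, Pi.single_apply, mul_ite, mul_one, mul_zero, Finset.sum_ite_eq,
      Finset.mem_univ, if_true]
    rw [mul_comm f]
    exact congrArg _ (Finset.sum_congr rfl fun w _ => by ring)

theorem pow_of_pderiv {σ k : Type} [Field k] (p : ℕ) [Fact p.Prime] [CharP k p] [PerfectField k]
    (G : MvPolynomial σ k) (h : ∀ v, pderiv v G = 0) : ∃ H, G = H ^ p := by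
  have hd : ∀ m ∈ G.support, ∀ v, p ∣ m v := fun m hm v => by
    rcases Nat.eq_zero_or_pos (m v) with h0 | h0
    · rw [h0]; exact dvd_zero p
    have h1 := coeff_pderiv (i := v) G (m - Finsupp.single v 1)
    rw [h v, coeff_zero, tsub_add_cancel_of_le (Finsupp.single_le_iff.2 h0)] at h1
    have h2 := (mul_eq_zero.1 h1.symm).resolve_left (mem_support_iff.1 hm)
    rw [Finsupp.tsub_apply, Finsupp.single_eq_same, ← Nat.cast_add_one,
      Nat.sub_add_cancel h0] at h2
    exact (CharP.cast_eq_zero_iff k p _).1 h2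
  refine ⟨∑ m ∈ G.support, monomial (m.mapRange (· / p) (Nat.zero_div p))
    ((frobeniusEquiv k p).symm (G.coeff m)), ?_⟩
  rw [sum_pow_char]
  refine G.as_sum.trans (Finset.sum_congr rfl fun m hm => ?_)
  rw [monomial_pow, frobeniusEquiv_symm_pow_p]
  congr 2
  ext v
  simp [Nat.mul_div_cancel' (hd m hm v)]

end TZKER

open TZKER in
theorem t_ZKER : S_ZKER := by
  intro p _ n D k _ _ _ G hG
  have hp : 1 < p := (Fact.out : p.Prime).one_lt
  refine pow_of_pderiv p G ?_
  rintro ⟨l, i⟩
  set x : ℕ → MvPolynomial (JV n D) k :=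
    fun j => if h : j < n + 1 then X (⟨j, h⟩, i) else 0 with hx
  have hX : ∀ j : Fin (n + 1), x j = X (j, i) := fun j => dif_pos j.2
  have hD : ∀ j ≤ n, Dv p k i (x j) = aeval x (dpoly p j) := fun j hj => by
    rw [hX ⟨j, by omega⟩, Dv, mkDerivation_X, if_pos rfl]
  have h1 := key p (Dv p k i) n x (by rw [hD 0 (by omega), dpoly_zero, map_one]) fun l hl => by
    rw [hD _ hl, dpoly_succ, map_neg, map_sum]
    refine congrArg _ (Finset.sum_congr rfl fun j _ => ?_)
    rw [map_mul, map_pow, aeval_X, hD j (by omega)]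
  have h0 : ∀ {a : MvPolynomial (JV n D) k} (l : ℕ), Dv p k i a = 0 → it p (Dv p k i) l a = 0 :=
    fun l h => pow_kill (m := 1) h (Nat.one_le_pow _ _ (by omega))
  induction l using WellFoundedGT.induction with
  | ind l ih =>
    have h2 := der_eq (it p (Dv p k i) l) G
    rw [h0 l (hG i), Finset.sum_eq_single (l, i) (fun v _ hv => ?_) (by simp), ← hX, it_apply,
      h1 l (by omega), one_mul] at h2
    · exact h2.symm
    · obtain ⟨j, i'⟩ := v
      by_cases hi : i' = i
      · subst hi
        rcases lt_trichotomy j l with h | h | h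
        · rw [← hX, it_apply, one_kill (h1 j (by omega)) (Nat.pow_lt_pow_right hp h), zero_mul]
        · exact (hv (by rw [h])).elim
        · rw [ih j h, mul_zero]
      · rw [h0 l (by rw [Dv, mkDerivation_X, if_neg hi]), zero_mul]

end Pool.Agent.P.MP_6f117a_ag.PJ
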