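import Pool.Agent.P.MP_6f117a_ag.PJ.IfW

/-! The vector field lowers the order by at most one. -/

namespace Pool.Agent.P.MP_6f117a_ag.PJ

open WittVector

namespace TZORD

/-- The value of a component of the vector field. -/
noncomputable def dv (p : ℕ) {A : Type} [CommRing A] (f : ℕ → A) (l : ℕ) : A :=
  MvPolynomial.eval₂Hom (Int.castRingHom A) f (dpoly p l)

theorem aeval_eq (p : ℕ) {A : Type} [CommRing A] [Algebra ℤ A] (f : ℕ → A) (l : ℕ) :
    MvPolynomial.aeval f (dpoly p l) = dv p f l := by
  rw [MvPolynomial.aeval_eq_eval₂Hom, dv, RingHom.ext_int (algebraMap ℤ A) (Int.castRingHom A)]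

theorem dv_congr (p : ℕ) {A : Type} [CommRing A] (f g : ℕ → A) (l : ℕ)
    (h : ∀ j < l, f j = g j) : dv p f l = dv p g l := by
  unfold dv
  induction l using Nat.strong_induction_on with
  | _ l ih =>
    cases l with
    | zero => simp [dpoly_zero]
    | succ l =>
      simp only [dpoly_succ, map_neg, map_sum, map_mul, map_pow, MvPolynomial.eval₂Hom_X']
      congr 1
      exact Finset.sum_congr rfl fun j _ => by
        rw [h j j.2, ih j j.2 fun m hm => h m (hm.trans j.2)]

theorem map_dv (p : ℕ) {A A' : Type} [CommRing A] [CommRing A'] (f : A →+* A') (g : ℕ → A)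
    (l : ℕ) : f (dv p g l) = dv p (fun j => f (g j)) l := by
  rw [dv, dv, MvPolynomial.map_eval₂Hom,
    RingHom.ext_int (f.comp (Int.castRingHom A)) (Int.castRingHom A')]

variable (p : ℕ) [Fact p.Prime] (n : ℕ) {D : ℕ} (B : Type) [CommRing B]

/-- The inclusion into the dual numbers. -/
noncomputable def io (D : ℕ) : Om n D B →+* PowerSeries (DualNumber (MvPolynomial (JV n D) B)) :=
  PowerSeries.map (TrivSqZeroExt.inlHom _ _)

/-- The infinitesimal element. -/
noncomputable def E (i j : Fin D) : PowerSeries (DualNumber (MvPolynomial (JV n D) B)) :=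
  if j = i then PowerSeries.C DualNumber.eps else 0

/-- The infinitesimal translation. -/
noncomputable def et (i : Fin D) :
    Om n D B →+* PowerSeries (DualNumber (MvPolynomial (JV n D) B)) :=
  PowerSeries.map (MvPolynomial.eval₂Hom ((TrivSqZeroExt.inlHom _ _).comp MvPolynomial.C)
    fun v => TrivSqZeroExt.inl (MvPolynomial.X v) + (if v.2 = i then DualNumber.eps else 0) *
      TrivSqZeroExt.inl (dv p (fun j : ℕ =>
        if h : j < n + 1 then MvPolynomial.X (⟨j, h⟩, v.2) else 0) v.1))

theorem E_sq (i j : Fin D) : E n B i j * E n B i j = 0 := by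
  unfold E
  split_ifs
  · rw [← map_mul, DualNumber.eps_mul_eps, map_zero]
  · exact mul_zero _

theorem et_c (i : Fin D) (b : B) : et p n B i (cOm n D B b) = io n B D (cOm n D B b) := by
  simp [et, io, cOm]

theorem et_X (i : Fin D) : et p n B i PowerSeries.X = PowerSeries.X := PowerSeries.map_X _

theorem io_X : io n B D PowerSeries.X = PowerSeries.X := PowerSeries.map_X _

theorem gen (hZ : S_ZEPS) (i j : Fin D) :
    truncate (n + 1) (map (et p n B i) (genW p n B j)) =
      truncate (n + 1) (map (io n B D) (genW p n B j) + teichmuller p (E n B i j)) := by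
  refine TruncatedWittVector.ext fun l => ?_
  rw [coeff_truncate, coeff_truncate, hZ p _ _ (E_sq n B i j), aeval_eq]
  have h : (map (io n B D) (genW p n B j)).coeff = fun m => (PowerSeries.C.comp
      (TrivSqZeroExt.inlHom _ _)) (if h : m < n + 1 then MvPolynomial.X (⟨m, h⟩, j) else 0) := by
    funext m
    rw [map_coeff, genW, coeff_mk]
    split_ifs <;> simp [io]
  rw [h, ← map_dv, map_coeff, genW, coeff_mk]
  by_cases hj : j = i <;> simp [et, E, hj, l.2]

variable {B}

theorem per (hZ : S_ZEPS) (φ : Fin D → WittVector p B) (i j : Fin D) (l : Fin (n + 1)) :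
    et p n B i ((prt p n φ j).coeff l) = io n B D ((prt p n φ j).coeff l) +
      PowerSeries.X * E n B i j * io n B D (dv p (prt p n φ j).coeff l) := by
  have h1 : map (et p n B i) (map (cOm n D B) (φ j)) = map (io n B D) (map (cOm n D B) (φ j)) := by
    ext1 m
    simp only [map_coeff, et_c]
  have h2 : truncate (n + 1) (map (et p n B i) (prt p n φ j)) = truncate (n + 1)
      (map (io n B D) (prt p n φ j) + teichmuller p (PowerSeries.X * E n B i j)) := by
    simp only [prt, map_add, map_mul, h1, gen p n B hZ, map_teichmuller, et_X, io_X]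
    ring
  have h3 := congrArg (TruncatedWittVector.coeff l) h2
  rw [coeff_truncate, coeff_truncate, hZ p _ _ (by
    rw [mul_mul_mul_comm, E_sq, mul_zero]), map_coeff, map_coeff] at h3
  rw [h3, aeval_eq, map_dv]
  rfl

theorem main (hZ : S_ZEPS) {k : Type} [CommRing k] (c : k →+* B) (φ : Fin D → WittVector p B)
    (i : Fin D) (G : MvPolynomial (JV n D) k) :
    et p n B i (Phi p n c φ G) = io n B D (Phi p n c φ G) +
      PowerSeries.X * E n B i i * io n B D (Phi p n c φ (Dv p k i G)) := by
  have hX : ∀ v, Phi p n c φ (MvPolynomial.X v) = (prt p n φ v.2).coeff v.1 := fun v =>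
    MvPolynomial.eval₂Hom_X' _ _ v
  have h0 : ∀ v, et p n B i (Phi p n c φ (MvPolynomial.X v)) =
      io n B D (Phi p n c φ (MvPolynomial.X v)) +
      PowerSeries.X * E n B i i * io n B D (Phi p n c φ (Dv p k i (MvPolynomial.X v))) := by
    rintro ⟨l, j⟩
    rw [hX, per p n hZ φ i, Dv, MvPolynomial.mkDerivation_X]
    by_cases hj : j = i
    · subst hj
      rw [if_pos rfl, aeval_eq, map_dv p (Phi p n c φ), dv_congr p (prt p n φ j).coeff _ l]
      intro m hm
      rw [dif_pos (hm.trans l.2), hX]
    · simp [E, hj]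
  induction G using MvPolynomial.induction_on with
  | C a =>
    have : Phi p n c φ (MvPolynomial.C a) = cOm n D B (c a) := MvPolynomial.eval₂Hom_C _ _ a
    rw [this, et_c, MvPolynomial.derivation_C]
    simp
  | add G H h1 h2 =>
    simp only [map_add, h1, h2]
    ring
  | mul_X G v h1 =>
    simp only [Derivation.leibniz, smul_eq_mul, map_add, map_mul, h1, h0]
    linear_combination (PowerSeries.X ^ 2 * io n B D (Phi p n c φ (Dv p k i G)) *
      io n B D (Phi p n c φ (Dv p k i (MvPolynomial.X v)))) * E_sq n B i i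

end TZORD

open TZORD in
theorem t_ZORD (hW3 : S_W3) (hZEPS : S_ZEPS) : S_ZORD := by
  intro p _ n D k B _ _ c φ i G o h
  have h1 := map_dvd (et p n B i) h
  have h2 := map_dvd (io n B D) h
  rw [map_pow, et_X, main p n hZEPS] at h1
  rw [map_pow, io_X] at h2
  have h3 := (dvd_add_right h2).1 h1
  rw [PowerSeries.X_pow_dvd_iff] at h3 ⊢
  intro m hm
  have h4 := h3 (m + 1) (by omega)
  rw [mul_assoc, PowerSeries.coeff_succ_X_mul, E, if_pos rfl, PowerSeries.coeff_C_mul, io,
    PowerSeries.coeff_map] at h4
  simpa using congrArg TrivSqZeroExt.snd h4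

end Pool.Agent.P.MP_6f117a_ag.PJ
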