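import Pool.Agent.P.MP_6f117a_ag.PJ.IfW

/-! Elimination of one variable by a resultant. -/

namespace Pool.Agent.P.MP_6f117a_ag.PJ

open MvPolynomial

namespace TZRES

theorem res_ne {S : Type} [CommRing S] [IsDomain S] [UniqueFactorizationMonoid S]
    {f g : Polynomial S} (hf : Irreducible f) (h0 : f.natDegree ≠ 0) (hd : ¬ f ∣ g) {b : ℕ}
    (hb : g.natDegree ≤ b) : f.resultant g f.natDegree b ≠ 0 := by
  classical
  let : GCDMonoid S := UniqueFactorizationMonoid.toGCDMonoid S
  obtain ⟨e, rfl⟩ := Nat.exists_eq_add_of_le hb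
  rw [Polynomial.resultant_add_right_deg _ _ _ _ _ le_rfl]
  refine mul_ne_zero (pow_ne_zero _ (Polynomial.leadingCoeff_ne_zero.2 hf.ne_zero)) fun h => ?_
  have hp := hf.isPrimitive h0
  have hi := IsFractionRing.injective S (FractionRing S)
  refine Polynomial.resultant_ne_zero _ _
    ((hp.irreducible_iff_irreducible_map_fraction_map (K := FractionRing S)).1 hf
      |>.coprime_iff_not_dvd.2 fun q => hd (hp.dvd_of_fraction_map_dvd_fraction_map q)) ?_
  rw [Polynomial.natDegree_map_eq_of_injective hi, Polynomial.natDegree_map_eq_of_injective hi,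
    Polynomial.resultant_map_map, h, map_zero]

variable {σ k : Type} [DecidableEq σ] [Field k]

/-- a polynomial as a polynomial in `y` over the ring of the other variables -/
noncomputable def eqv (y : σ) :
    MvPolynomial σ k ≃ₐ[k] Polynomial (MvPolynomial {v // v ≠ y} k) :=
  (renameEquiv k (Equiv.optionSubtypeNe y).symm).trans (optionEquivLeft k _)

theorem toY_eq (y : σ) (G : MvPolynomial σ k) :
    toY y G = (eqv y G).map (rename (R := k) Subtype.val).toRingHom := by
  have : toY (k := k) y = (Polynomial.mapAlgHom (rename Subtype.val)).comp (eqv y).toAlgHom := by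
    refine algHom_ext fun v => ?_
    by_cases h : v = y
    · simp [toY, eqv, h]
    · simp [toY, eqv, h]
  rw [this]
  rfl

theorem deg (y : σ) (G : MvPolynomial σ k) : (toY y G).natDegree = G.degreeOf y := by
  rw [toY_eq, Polynomial.natDegree_map_eq_of_injective (rename_injective _ Subtype.val_injective),
    degreeOf_eq_natDegree]
  rfl

theorem ev (y : σ) (G : MvPolynomial σ k) : (toY y G).eval (X y) = G := by
  induction G using MvPolynomial.induction_on with
  | C a => simp [toY]
  | add p q hp hq => simp [hp, hq]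
  | mul_X p v hp =>
    rw [map_mul, Polynomial.eval_mul, hp]
    by_cases h : v = y <;> simp [toY, h]

/-- bounded weight, variables in `V` -/
def fil (w : σ → ℕ) (V : σ → Prop) : Fil (MvPolynomial σ k) where
  F j :=
    { carrier := {f | ∀ d ∈ f.support, Finsupp.weight w d ≤ j ∧ ∀ v ∈ d.support, V v}
      add_mem' := fun h1 h2 d hd =>
        (Finset.mem_union.1 (support_add hd)).elim (h1 d) (h2 d)
      zero_mem' := fun d hd => by simp at hd
      neg_mem' := fun h d hd => h d (by simpa using hd) }
  mono h f hf d hd := ⟨(hf d hd).1.trans h, (hf d hd).2⟩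
  one d hd := by
    have : d = 0 := by simpa using support_monomial_subset hd
    simp [this]
  mul h1 h2 d hd := by
    obtain ⟨d₁, a₁, d₂, a₂, rfl⟩ := Finset.mem_add.1 (support_mul _ _ hd)
    exact ⟨(map_add _ _ _).trans_le (add_le_add (h1 _ a₁).1 (h2 _ a₂).1), fun v hv =>
      (Finset.mem_union.1 (Finsupp.support_add hv)).elim ((h1 _ a₁).2 v) ((h2 _ a₂).2 v)⟩

theorem toY_mon (y : σ) (d : σ →₀ ℕ) (c : k) :
    toY y (monomial d c) = Polynomial.C (monomial (d.erase y) c) * Polynomial.X ^ d y := by
  conv_lhs => rw [← Finsupp.erase_add_single y d, monomial_add_single, monomial_eq]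
  rw [monomial_eq, Finsupp.prod]
  simp only [map_mul, map_prod, map_pow]
  rw [Finset.prod_congr rfl (g := fun v => Polynomial.C (X v) ^ d.erase y v) fun v hv => by
    rw [Finsupp.support_erase, Finset.mem_erase] at hv
    simp [toY, hv.1]]
  simp [toY]

theorem coeff_mem (w : σ → ℕ) (y : σ) (V : σ → Prop) (G : MvPolynomial σ k) (s j : ℕ)
    (h : G.weightedTotalDegree w ≤ s) (hV : ∀ v ∈ G.vars, v ≠ y → V v) :
    (toY y G).coeff j ∈ (fil (k := k) w V).F s := by
  rw [G.as_sum, map_sum, Polynomial.finsetSum_coeff]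
  refine sum_mem fun d hd => ?_
  rw [toY_mon, Polynomial.coeff_C_mul_X_pow]
  split_ifs
  · intro e he
    obtain rfl : e = d.erase y := by simpa using support_monomial_subset he
    refine ⟨le_trans ?_ ((le_weightedTotalDegree w hd).trans h), fun v hv => ?_⟩
    · conv_rhs => rw [← Finsupp.erase_add_single y d, map_add]
      exact Nat.le_add_right _ _
    · rw [Finsupp.support_erase, Finset.mem_erase] at hv
      exact hV v ((mem_vars_iff_mem_support v).2 ⟨d, hd, hv.2⟩) hv.1
  · exact zero_mem _

theorem res_mem {A : Type} [CommRing A] (F : Fil A) {f g : Polynomial A} {s : ℕ}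
    (hf : ∀ j, f.coeff j ∈ F.F s) (hg : ∀ j, g.coeff j ∈ F.F s) (a b : ℕ) :
    f.resultant g a b ∈ F.F ((a + b) * s) := by
  rw [Polynomial.resultant, Matrix.det_apply]
  refine sum_mem fun π _ => zsmul_mem ?_ _
  have := F.prod Finset.univ (fun i => f.sylvester g a b (π i) i) (fun _ => s) fun i _ => by
    refine Fin.addCases (fun i => ?_) (fun i => ?_) i
    · simp only [Polynomial.sylvester, Matrix.of_apply, Fin.addCases_left]
      split_ifs
      exacts [hg _, zero_mem _]
    · simp only [Polynomial.sylvester, Matrix.of_apply, Fin.addCases_right]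
      split_ifs
      exacts [hf _, zero_mem _]
  simpa using this

end TZRES

open TZRES in
theorem t_ZRES : S_ZRES := by
  intro σ k _ _ w y G H b s hG hd hy hb sG sH
  refine ⟨deg y G, deg y H, fun R hR => ?_⟩
  have h0 : G.degreeOf y ≠ 0 := mem_vars_iff_degreeOf_ne_zero.1 hy
  have hm := res_mem (fil w fun v => v ≠ y ∧ (v ∈ G.vars ∨ v ∈ H.vars))
    (fun j => coeff_mem w y _ G s j sG fun v h1 h2 => ⟨h2, Or.inl h1⟩)
    (fun j => coeff_mem w y _ H s j sH fun v h1 h2 => ⟨h2, Or.inr h1⟩) (G.degreeOf y) b
  rw [← hR] at hm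
  refine ⟨?_, fun v hv => ?_, Finset.sup_le fun d hd => (hm d hd).1, ?_⟩
  · have e : ∀ G : MvPolynomial σ k, G.degreeOf y = (eqv y G).natDegree :=
      degreeOf_eq_natDegree y
    rw [hR, toY_eq, toY_eq, Polynomial.resultant_map_map, e]
    exact (map_ne_zero_iff _ (rename_injective _ Subtype.val_injective)).2
      (res_ne (hG.map (eqv y)) (e G ▸ h0) (fun q => hd ((map_dvd_iff (eqv y)).1 q)) (e H ▸ hb))
  · obtain ⟨d, h1, h2⟩ := (mem_vars_iff_mem_support v).1 hv
    exact (hm d h1).2 v h2
  · obtain ⟨p, q, -, -, e⟩ := Polynomial.exists_mul_add_mul_eq_C_resultant (toY y G) (toY y H)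
      (deg y G).le ((deg y H).trans_le hb) (Or.inl h0)
    have := congrArg (Polynomial.eval (X y)) e
    rw [Polynomial.eval_add, Polynomial.eval_mul, Polynomial.eval_mul, ev, ev, Polynomial.eval_C,
      ← hR] at this
    rw [mul_comm G, mul_comm H] at this
    exact Ideal.mem_span_pair.2 ⟨_, _, this⟩

end Pool.Agent.P.MP_6f117a_ag.PJ
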