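import Pool.Agent.P.MP_6f117a_ag.PJ.IfW

/-! Order of vanishing of a resultant. -/

namespace Pool.Agent.P.MP_6f117a_ag.PJ

open Polynomial Finset

namespace TZSYL

variable {B : Type} [CommRing B]

theorem coeff_top (c : B) (g : B[X]) (j : ℕ) :
    (taylor c g).coeff (g.natDegree + j) = g.coeff (g.natDegree + j) := by
  rcases j with _ | j
  · exact coeff_taylor_natDegree _ _
  · rw [coeff_eq_zero_of_natDegree_lt (by rw [natDegree_taylor]; omega),
      coeff_eq_zero_of_natDegree_lt (by omega)]

theorem res_taylor (c : B) (f g : B[X]) {a b : ℕ} (hf : f.natDegree ≤ a) (hg : g.natDegree ≤ b) :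
    (taylor c f).resultant (taylor c g) a b = f.resultant g a b := by
  obtain ⟨i, rfl⟩ := Nat.exists_eq_add_of_le hf
  obtain ⟨j, rfl⟩ := Nat.exists_eq_add_of_le hg
  have h := resultant_taylor f g c
  rw [natDegree_taylor, natDegree_taylor] at h
  rw [resultant_add_left_deg _ _ _ _ _ (natDegree_taylor f c).le,
    resultant_add_left_deg _ _ _ _ _ le_rfl,
    resultant_add_right_deg _ _ _ _ _ (natDegree_taylor g c).le,
    resultant_add_right_deg _ _ _ _ _ le_rfl, h, coeff_top, coeff_taylor_natDegree,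
    coeff_natDegree]

theorem tri (m : ℕ) : ∀ N, 2 * ∑ i ∈ range N, (m - i) ≤ m * (m + 1) ∧
    (m ≤ N → 2 * ∑ i ∈ range N, (m - i) = m * (m + 1)) := by
  induction m with
  | zero => simp
  | succ m ih =>
    rintro (_ | N)
    · simp
    · have := ih N
      simp only [sum_range_succ', Nat.add_sub_add_right, Nat.sub_zero]
      exact ⟨by nlinarith [this.1], fun h => by nlinarith [this.2 (by omega)]⟩

theorem zero (T : B) (f g : B[X]) (a b k : ℕ) (h : 2 * k ≤ a + b)
    (hf : ∀ j, T ^ (k - j) ∣ f.coeff j) (hg : ∀ j, T ^ (k - j) ∣ g.coeff j) :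
    T ^ (k * k) ∣ f.resultant g a b := by
  let s : Fin (a + b) → ℕ := fun j => j.addCases (fun j => j) fun j => j
  have h1 : ∀ i j : Fin (a + b), T ^ (k + s j - i) ∣ sylvester f g a b i j := by
    intro i j
    induction j using Fin.addCases with
    | left j =>
      simp only [s, sylvester, Matrix.of_apply, Fin.addCases_left]
      split_ifs with h2
      · exact (pow_dvd_pow _ (by have := h2.1; omega)).trans (hg _)
      · exact dvd_zero _
    | right j =>
      simp only [s, sylvester, Matrix.of_apply, Fin.addCases_right]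
      split_ifs with h2
      · exact (pow_dvd_pow _ (by have := h2.1; omega)).trans (hf _)
      · exact dvd_zero _
  have h2 : ∑ j, (k - s j) = ∑ i ∈ range a, (k - i) + ∑ i ∈ range b, (k - i) := by
    rw [Fin.sum_univ_add, sum_range, sum_range]
    simp only [s, Fin.addCases_left, Fin.addCases_right]
  rw [resultant, Matrix.det_apply']
  refine dvd_sum fun σ _ => Dvd.dvd.mul_left ?_ _
  refine dvd_trans ?_ (prod_dvd_prod_of_dvd _ _ fun j _ => h1 (σ j) j)
  rw [prod_pow_eq_pow_sum]
  refine pow_dvd_pow _ ?_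
  have h3 : ∑ j, (2 * k - (σ j : ℕ)) ≤ ∑ j, (k + s j - σ j) + ∑ j, (k - s j) := by
    rw [← sum_add_distrib]
    exact sum_le_sum fun j _ => by omega
  rw [Equiv.sum_comp σ fun j => 2 * k - (j : ℕ), ← sum_range fun j => 2 * k - j, h2] at h3
  nlinarith [(tri (2 * k) _).2 h, (tri k a).1, (tri k b).1]

end TZSYL

theorem t_ZSYL : S_ZSYL := fun _ _ T c f g a b k hf hg h h1 h2 =>
  TZSYL.res_taylor c f g hf hg ▸ TZSYL.zero T _ _ a b k h h1 h2

end Pool.Agent.P.MP_6f117a_ag.PJ
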