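import Pool.Agent.P.MP_6f117a_ag.PJ.IfW

/-! Orders of the Taylor coefficients in the last variable. -/

namespace Pool.Agent.P.MP_6f117a_ag.PJ

open WittVector

namespace TZTAY

theorem extract {R : Type} [CommRing R] (g : Polynomial (PowerSeries R)) (q e j : ℕ) :
    (PowerSeries.coeff (e + j * q) ((g.map (PowerSeries.map Polynomial.C)).eval
      (PowerSeries.X ^ q * PowerSeries.C Polynomial.X))).coeff j =
      PowerSeries.coeff e (g.coeff j) := by
  induction g using Polynomial.induction_on' with
  | add f g hf hg =>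
    rw [Polynomial.map_add, Polynomial.eval_add, map_add, Polynomial.coeff_add, hf, hg,
      Polynomial.coeff_add, map_add]
  | monomial i a =>
    rw [Polynomial.map_monomial, Polynomial.eval_monomial, mul_pow, ← pow_mul, ← map_pow,
      mul_left_comm, PowerSeries.coeff_X_pow_mul', Polynomial.coeff_monomial]
    by_cases h : i = j
    · subst h
      rw [if_pos (by rw [mul_comm]; omega), if_pos rfl, PowerSeries.coeff_mul_C,
        PowerSeries.coeff_map, Polynomial.coeff_C_mul, Polynomial.coeff_X_pow, if_pos rfl, mul_one,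
        mul_comm q, Nat.add_sub_cancel]
    · rw [if_neg h, map_zero]
      split_ifs
      · rw [PowerSeries.coeff_mul_C, PowerSeries.coeff_map, Polynomial.coeff_C_mul,
          Polynomial.coeff_X_pow, if_neg (Ne.symm h), mul_zero]
      · rfl

variable {p : ℕ} [Fact p.Prime]

theorem add_top (hW2 : S_W2) {A : Type} [CommRing A] [CharP A p] (a b : WittVector p A) (l : ℕ) :
    (a + b).coeff l = (a + init l b).coeff l + b.coeff l := by
  cases l with
  | zero => simp [add_coeff_zero, init, select]
  | succ l =>
    have := hW2 p A Unit (MvPolynomial.C a + MvPolynomial.X ()) (fun _ => b) l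
    rwa [RingHom.map_add, RingHom.map_add, MvPolynomial.eval_C, MvPolynomial.eval_C,
      MvPolynomial.eval_X, MvPolynomial.eval_X, Fintype.sum_unique, Derivation.map_add,
      MvPolynomial.pderiv_C, MvPolynomial.pderiv_X_self, zero_add, RingHom.map_one, one_coeff_zero,
      one_pow, one_mul] at this

theorem add_eq {A A' : Type} [CommRing A] [CommRing A'] (f g : A →+* A') {a b : WittVector p A}
    (ha : ∀ m, f (a.coeff m) = g (a.coeff m)) (hb : ∀ m, f (b.coeff m) = g (b.coeff m)) (l : ℕ) :
    f ((a + b).coeff l) = g ((a + b).coeff l) := by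
  have h1 : WittVector.map f a = WittVector.map g a := by
    ext m
    rw [map_coeff, map_coeff, ha]
  have h2 : WittVector.map f b = WittVector.map g b := by
    ext m
    rw [map_coeff, map_coeff, hb]
  rw [← map_coeff, ← map_coeff, map_add, map_add, h1, h2]

variable {n D : ℕ} {B : Type} [CommRing B]

/-- The variable `y` is singled out. -/
noncomputable def tau (B : Type) [CommRing B] (y : JV n D) :
    Om n D B →+* PowerSeries (Polynomial (MvPolynomial (JV n D) B)) :=
  PowerSeries.map (toY y).toRingHom

/-- The inclusion. -/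
noncomputable def inc (n D : ℕ) (B : Type) [CommRing B] :
    Om n D B →+* PowerSeries (Polynomial (MvPolynomial (JV n D) B)) :=
  PowerSeries.map Polynomial.C

theorem tau_c (y : JV n D) (b : B) : tau B y (cOm n D B b) = inc n D B (cOm n D B b) := by
  simp [tau, inc, cOm, toY]

theorem tau_ne {y v : JV n D} (h : v ≠ y) (e : ℕ) :
    tau B y (PowerSeries.X ^ e * PowerSeries.C (MvPolynomial.X v)) =
      inc n D B (PowerSeries.X ^ e * PowerSeries.C (MvPolynomial.X v)) := by
  simp [tau, inc, toY, h]

theorem tau_self (y : JV n D) (e : ℕ) :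
    tau B y (PowerSeries.X ^ e * PowerSeries.C (MvPolynomial.X y)) =
      PowerSeries.X ^ e * PowerSeries.C Polynomial.X := by
  simp [tau, toY]

/-- The part of a jet that does not involve the top variable. -/
noncomputable def low (φ : Fin D → WittVector p B) (v : JV n D) : Om n D B :=
  (WittVector.map (cOm n D B) (φ v.2) +
    init v.1 (teichmuller p PowerSeries.X * genW p n B v.2)).coeff v.1

theorem pert_eq (hW2 : S_W2) (hW3 : S_W3) [CharP B p] (φ : Fin D → WittVector p B) (v : JV n D) :
    (prt p n φ v.2).coeff v.1 =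
      PowerSeries.X ^ sw p v * PowerSeries.C (MvPolynomial.X v) + low φ v := by
  have : CharP (Om n D B) p := charP_of_injective_ringHom (f := cOm n D B)
    (PowerSeries.C_injective.comp (MvPolynomial.C_injective _ _)) p
  rw [prt, add_top hW2, hW3, add_comm, genW, coeff_mk, dif_pos v.1.2]
  rfl

theorem low_eq (hW3 : S_W3) (φ : Fin D → WittVector p B) {y v : JV n D} (h : ordv v ≤ ordv y) :
    tau B y (low φ v) = inc n D B (low φ v) := by
  refine add_eq _ _ (fun m => by rw [map_coeff, tau_c]) (fun m => ?_) _
  simp only [init, select, coeff_mk]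
  split_ifs with hm
  · have h1 : m < n + 1 := hm.trans v.1.2
    rw [hW3, genW, coeff_mk, dif_pos h1]
    refine tau_ne ?_ _
    rintro rfl
    have h2 : m * D < v.1 * D := Nat.mul_lt_mul_of_pos_right hm v.2.pos
    simp only [ordv] at h
    omega
  · rw [map_zero, map_zero]

end TZTAY

open TZTAY in
theorem t_ZTAY (hW2 : S_W2) (hW3 : S_W3) : S_ZTAY := by
  intro p _ n D k B _ _ _ c φ y
  refine ⟨low φ y, fun G hG o j ho => ?_⟩
  have hX : ∀ v, Phi p n c φ (MvPolynomial.X v) =
      PowerSeries.X ^ sw p v * PowerSeries.C (MvPolynomial.X v) + low φ v := fun v => by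
    rw [Phi, MvPolynomial.eval₂Hom_X', pert_eq hW2 hW3]
  have hC : ∀ a, Phi p n c φ (MvPolynomial.C a) = cOm n D B (c a) := fun a => by
    rw [Phi, MvPolynomial.eval₂Hom_C]
    rfl
  have yC : ∀ a, toY y (MvPolynomial.C a : MvPolynomial (JV n D) k) =
      Polynomial.C (MvPolynomial.C a) := fun a => by simp [toY]
  have e1 : ∀ G, ((toY y G).map (Phi p n c φ)).eval (Phi p n c φ (MvPolynomial.X y)) =
      Phi p n c φ G := by
    intro G
    induction G using MvPolynomial.induction_on with
    | C a => rw [yC, Polynomial.map_C, Polynomial.eval_C]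
    | add f g hf hg => rw [map_add, Polynomial.map_add, Polynomial.eval_add, hf, hg, map_add]
    | mul_X f v hf =>
      rw [map_mul, Polynomial.map_mul, Polynomial.eval_mul, hf, map_mul]
      congr 1
      by_cases h : v = y <;> simp [toY, h]
  have e2 : ((toY y G).map (Phi p n c φ)).map (tau B y) =
      ((toY y G).map (Phi p n c φ)).map (inc n D B) := by
    refine MvPolynomial.hom_congr_vars (R := k) (σ := JV n D)
      (S := Polynomial (PowerSeries (Polynomial (MvPolynomial (JV n D) B))))
      (f₁ := (Polynomial.mapRingHom (tau B y)).comp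
        ((Polynomial.mapRingHom (Phi p n c φ)).comp (toY y).toRingHom))
      (f₂ := (Polynomial.mapRingHom (inc n D B)).comp
        ((Polynomial.mapRingHom (Phi p n c φ)).comp (toY y).toRingHom))
      (RingHom.ext fun a => ?_) (fun v hv _ => ?_) rfl
    · change ((toY y (MvPolynomial.C a)).map _).map _ = ((toY y (MvPolynomial.C a)).map _).map _
      simp only [yC, Polynomial.map_C, hC, tau_c]
    · change ((toY y (MvPolynomial.X v)).map _).map _ = ((toY y (MvPolynomial.X v)).map _).map _
      by_cases h : v = y
      · simp [toY, h]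
      · simp only [toY, MvPolynomial.aeval_X, if_neg h, Polynomial.map_C]
        rw [hX, (tau B y).map_add, (inc n D B).map_add, tau_ne h, low_eq hW3 φ (hG v hv)]
  obtain ⟨g, hg⟩ : ∃ g, g = Polynomial.taylor (low φ y) ((toY y G).map (Phi p n c φ)) := ⟨_, rfl⟩
  have e3 : g.map (tau B y) = g.map (inc n D B) := by
    rw [hg, Polynomial.map_taylor, Polynomial.map_taylor, e2, low_eq hW3 φ le_rfl]
  have e4 : tau B y (Phi p n c φ G) = (g.map (inc n D B)).eval
      (PowerSeries.X ^ sw p y * PowerSeries.C Polynomial.X) := by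
    rw [← e3, ← tau_self y, Polynomial.eval_map, Polynomial.eval₂_at_apply, hg,
      Polynomial.taylor_eval, ← hX, e1]
  have e5 : PowerSeries.X ^ o ∣ tau B y (Phi p n c φ G) := by
    simpa [tau] using map_dvd (tau B y) ho
  rw [← hg, PowerSeries.X_pow_dvd_iff]
  intro e he
  rw [← extract g (sw p y), ← inc, ← e4, PowerSeries.X_pow_dvd_iff.1 e5 _ (by omega),
    Polynomial.coeff_zero]

end Pool.Agent.P.MP_6f117a_ag.PJ
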