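import Pool.Agent.P.MP_6f117a_ag.PJ.ZWitt

namespace Pool.Agent.P.MP_6f117a_ag.PJ

namespace Z

open Finset MvPolynomial
open WittVector hiding map

/-- infinitesimal translation by `V^j [ε]` on polynomials without higher levels -/
noncomputable def Del (p : ℕ) {k ι : Type*} [CommRing k] (i : ι) (j : ℕ)
    (G : MvPolynomial (ι × ℕ) k) : MvPolynomial (ι × ℕ) k :=
  pderiv (i, j) G - X (i, j) ^ (p - 1) * pderiv (i, j + 1) G

variable {p : ℕ} [hp : Fact p.Prime]

section sb

variable {k ι B S : Type*} [CommRing k] [CommRing B] [Algebra k B] [CommRing S]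

/-- substitution for `T` and `F` -/
noncomputable def sb (c : B →+* S) (t : S) (Z : ι → WittVector p S) :
    Polynomial (MvPolynomial (ι × ℕ) B) →+* S :=
  Polynomial.eval₂RingHom (eval₂Hom c fun v => (Z v.1).coeff v.2) t

omit hp in
theorem sb_X (c : B →+* S) (t : S) (Z : ι → WittVector p S) : sb c t Z Polynomial.X = t := by
  simp [sb]

theorem sb_pert (c : B →+* S) (t : S) (Z : ι → WittVector p S) (φ : ι → WittVector p B) (a : ι) :
    WittVector.map (sb c t Z) (pert p φ a) = WittVector.map c (φ a) + teichmuller p t * Z a := by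
  simp only [pert, map_add, map_mul, map_teichmuller, sb_X]
  congr 2 <;> ext1 l <;> simp [sb]

theorem sb_evT (c : B →+* S) (t : S) (Z : ι → WittVector p S) (φ : ι → WittVector p B)
    (G : MvPolynomial (ι × ℕ) k) : sb c t Z (evT p k φ G) = eval₂Hom (c.comp (algebraMap k B))
      (fun v => (WittVector.map c (φ v.1) + teichmuller p t * Z v.1).coeff v.2) G := by
  refine DFunLike.congr_fun (show (sb c t Z).comp (evT p k φ).toRingHom = _ from
    ringHom_ext (fun r => ?_) fun v => ?_) G
  · simp [sb, evT]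
  · simp [evT, ← sb_pert]

theorem evT_inj (φ : ι → WittVector p B) (h : Function.Injective (algebraMap k B)) :
    Function.Injective (evT p k φ) := by
  intro G H e
  have := congrArg (sb (C : B →+* MvPolynomial (ι × ℕ) B) 1
    fun a => WittVector.mk p (fun l => X (a, l)) - WittVector.map C (φ a)) e
  simp only [sb_evT, map_one, one_mul, add_sub_cancel, coeff_mk, Prod.mk.eta] at this
  exact MvPolynomial.map_injective _ h (by rwa [map_eq_eval₂Hom_C_comp])

theorem evT_zero (φ : ι → WittVector p B) (G : MvPolynomial (ι × ℕ) k)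
    (h : Polynomial.X ∣ evT p k φ G) : aeval (fun v => (φ v.1).coeff v.2) G = 0 := by
  obtain ⟨Q, hQ⟩ := h
  have := sb_evT (RingHom.id B) 0 (fun _ => 0) φ G
  rw [hQ, map_mul, sb_X, zero_mul] at this
  simpa [aeval_eq_eval₂Hom] using this.symm

end sb

theorem cost_aux {k ι B S : Type*} [CommRing k] [CommRing B] [Algebra k B] [CommRing S]
    [Algebra k S] (I : Polynomial (MvPolynomial (ι × ℕ) B) →ₐ[k] S) {ε : S} (hε : ε * ε = 0)
    (φ : ι → WittVector p B) (G : MvPolynomial (ι × ℕ) k) (i : ι) (j : ℕ)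
    (hG : ∀ a, j + 1 < a → pderiv (i, a) G = 0) :
    ∃ H : Polynomial (MvPolynomial (ι × ℕ) B) →+* S, H Polynomial.X = I Polynomial.X ∧
      H (evT p k φ G) = I (evT p k φ G) +
        ε * I (Polynomial.X ^ p ^ j * evT p k φ (Del p i j G)) := by
  classical
  let E : ι → WittVector p S := fun a => if a = i then verschiebung^[j] (teichmuller p ε) else 0
  let c : B →+* S := I.toRingHom.comp (Polynomial.C.comp C)
  let Z : ι → WittVector p S := fun a =>
    WittVector.map I.toRingHom (WittVector.mk p fun l => Polynomial.C (X (a, l))) + E a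
  have h1 : ∀ a, WittVector.map c (φ a) + teichmuller p (I Polynomial.X) * Z a =
      WittVector.map I.toRingHom (pert p φ a) + teichmuller p (I Polynomial.X) * E a := by
    intro a
    simp only [pert, map_add, map_mul, map_teichmuller, Z, mul_add, add_assoc]
    rfl
  let y : ι × ℕ → S := fun v => I ((pert p φ v.1).coeff v.2)
  let e : S := I Polynomial.X ^ p ^ j * ε
  have he : e * e = 0 := by
    simp only [e]
    rw [mul_mul_mul_comm, hε, mul_zero]
  have h2 : ∀ v : ι × ℕ, ∃ d, (WittVector.map c (φ v.1) +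
      teichmuller p (I Polynomial.X) * Z v.1).coeff v.2 = y v + e * d ∧
      (v = (i, j) → d = 1) ∧ (v = (i, j + 1) → d = -y (i, j) ^ (p - 1)) ∧
      (v.1 ≠ i ∨ v.2 < j → d = 0) := by
    rintro ⟨a, l⟩
    rw [h1]
    by_cases ha : a = i
    · subst ha
      simp only [E, if_true, teich_mul_V, add_V]
      rcases lt_or_ge l j with hl | hl
      · exact ⟨0, by simp [hl, y], by simp [hl.ne], by simp; omega, fun _ => rfl⟩
      · obtain ⟨b, rfl⟩ := Nat.exists_eq_add_of_le hl
        rw [if_neg (by omega), Nat.add_sub_cancel_left]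
        rcases b with _ | _ | b
        · refine ⟨1, ?_, by simp, by simp, by simp⟩
          rw [add_coeff_zero, teichmuller_coeff_zero]
          simp [shift_coeff, y, e]
        · refine ⟨-y (a, j) ^ (p - 1), ?_, by simp, by simp, by simp⟩
          rw [zero_add, add_teich_one _ he]
          simp [shift_coeff, y, e]
          ring
        · obtain ⟨d, hd⟩ := add_teich_dvd
            ((WittVector.map I.toRingHom (pert p φ a)).shift j) e (b + 1 + 1)
          exact ⟨d, by rw [← hd]; simp [shift_coeff, y, e], by simp, by simp, by simp⟩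
    · exact ⟨0, by simp [E, ha, y], by simp [ha], by simp [ha], fun _ => rfl⟩
  choose d hd d1 d2 d3 using h2
  have h3 : ∀ Q, aeval y Q = I (evT p k φ Q) := fun Q =>
    DFunLike.congr_fun (show aeval y = I.comp (evT p k φ) from
      algHom_ext fun v => by simp [y, evT]) Q
  let U := insert (i, j) (insert (i, j + 1) G.vars)
  have h4 : sb c (I Polynomial.X) Z (evT p k φ G) =
      aeval (fun v => y v + e * if v ∈ U then d v else 0) G := by
    rw [sb_evT, aeval_eq_eval₂Hom]
    refine hom_congr_vars ?_ ?_ rfl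
    · ext1 r
      simp only [RingHom.comp_apply, eval₂Hom_C]
      exact I.commutes r
    · intro v hv _
      simp [hd, U, hv]
  rw [taylor1 y _ he U (fun v hv => if_neg hv), sum_eq_add (i, j) (i, j + 1) (by simp)] at h4
  · refine ⟨_, sb_X _ _ _, h4.trans ?_⟩
    rw [h3, h3, h3, if_pos (by simp [U]), if_pos (by simp [U]), d1 _ rfl, d2 _ rfl]
    simp [Del, evT, y, e]
    ring
  · rintro ⟨a, l⟩ hv ⟨n1, n2⟩
    by_cases hc : a ≠ i ∨ l < j
    · simp [d3 (a, l) hc]
    · obtain rfl : a = i := by tauto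
      rw [hG l (by simp at n1 n2 hc; omega)]
      simp
  · simp [U]
  · simp [U]

theorem cost {k ι B : Type*} [CommRing k] [CommRing B] [Algebra k B] (φ : ι → WittVector p B)
    (G : MvPolynomial (ι × ℕ) k) (i : ι) (j : ℕ) (hG : ∀ a, j + 1 < a → pderiv (i, a) G = 0)
    {o : ℕ} (h : Polynomial.X ^ o ∣ evT p k φ G) :
    Polynomial.X ^ o ∣ Polynomial.X ^ p ^ j * evT p k φ (Del p i j G) := by
  obtain ⟨H, h1, h2⟩ := cost_aux (S := DualNumber (Polynomial (MvPolynomial (ι × ℕ) B)))
    (TrivSqZeroExt.inlAlgHom k _ _) DualNumber.eps_mul_eps φ G i j hG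
  obtain ⟨Q, hQ⟩ := h
  refine ⟨(H Q).snd, ?_⟩
  have h5 := congrArg TrivSqZeroExt.snd h2
  rw [hQ, map_mul, map_pow, h1, ← map_pow] at h5
  simpa [-map_mul, -map_pow] using h5.symm

end Z

end Pool.Agent.P.MP_6f117a_ag.PJ
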