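import Pool.Agent.P.MP_6f117a_ag.PJ.ZCost

namespace Pool.Agent.P.MP_6f117a_ag.PJ

namespace Z

open Finset MvPolynomial

variable {k ι : Type*}

/-- weight of a monomial: level `l` counts `p ^ l` -/
noncomputable def wt (p : ℕ) : (ι × ℕ →₀ ℕ) →+ ℕ := Finsupp.weight fun v => p ^ v.2

theorem wt_single (p : ℕ) (v : ι × ℕ) (n : ℕ) : wt p (Finsupp.single v n) = n * p ^ v.2 := by
  simp [wt, Finsupp.weight_single]

/-- scaling by `T` -/
noncomputable def sc (p : ℕ) [CommRing k] :
    MvPolynomial (ι × ℕ) k →ₐ[k] Polynomial (MvPolynomial (ι × ℕ) k) :=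
  aeval fun v => Polynomial.X ^ p ^ v.2 * Polynomial.C (X v)

/-- weighted degree -/
noncomputable def sg (p : ℕ) [CommRing k] (G : MvPolynomial (ι × ℕ) k) : ℕ := (sc p G).natDegree

section sg

variable [CommRing k] {p : ℕ}

theorem sc_coeff (G : MvPolynomial (ι × ℕ) k) (n : ℕ) (u : ι × ℕ →₀ ℕ) [DecidableEq ι] :
    coeff u ((sc p G).coeff n) = if wt p u = n then coeff u G else 0 := by
  induction G using MvPolynomial.induction_on' with
  | add f g hf hg => simp only [map_add, Polynomial.coeff_add, coeff_add, hf, hg]; split_ifs <;> simp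
  | monomial w c =>
    have : sc p (monomial w c) = Polynomial.monomial (wt p w) (monomial w c) := by
      rw [sc, aeval_monomial, ← Polynomial.C_mul_X_pow_eq_monomial, monomial_eq]
      simp only [Finsupp.prod, mul_pow, prod_mul_distrib, ← pow_mul, prod_pow_eq_pow_sum, wt,
        Finsupp.weight_apply, Finsupp.sum, map_mul, map_prod, map_pow, smul_eq_mul,
        Polynomial.algebraMap_apply, algebraMap_eq, mul_comm]
      ring
    rw [this, Polynomial.coeff_monomial, coeff_monomial]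
    by_cases h : w = u
    · subst h
      split_ifs <;> simp_all
    · split_ifs <;> simp [coeff_monomial, h]

theorem sg_le {G : MvPolynomial (ι × ℕ) k} {s : ℕ} : sg p G ≤ s ↔ ∀ u ∈ G.support, wt p u ≤ s := by
  classical
  rw [sg, Polynomial.natDegree_le_iff_coeff_eq_zero]
  constructor
  · intro h u hu
    by_contra hc
    have := sc_coeff (p := p) G (wt p u) u
    rw [h _ (not_le.1 hc), if_pos rfl] at this
    exact mem_support_iff.1 hu this.symm
  · intro h n hn
    ext u
    rw [sc_coeff]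
    split_ifs with e
    · by_contra hc
      have := h u (mem_support_iff.2 hc)
      omega
    · rfl

theorem wt_le {G : MvPolynomial (ι × ℕ) k} {u : ι × ℕ →₀ ℕ} (hu : u ∈ G.support) :
    wt p u ≤ sg p G := sg_le.1 le_rfl u hu

theorem sc_ne {G : MvPolynomial (ι × ℕ) k} (h : G ≠ 0) : sc p G ≠ 0 := by
  classical
  intro e
  refine h (MvPolynomial.ext _ _ fun u => ?_)
  simpa [e] using (sc_coeff (p := p) G (wt p u) u).symm

theorem sg_mul [IsDomain k] {G H : MvPolynomial (ι × ℕ) k} (hG : G ≠ 0) (hH : H ≠ 0) :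
    sg p (G * H) = sg p G + sg p H := by
  rw [sg, map_mul, Polynomial.natDegree_mul (sc_ne hG) (sc_ne hH), sg, sg]

theorem apply_le_wt (u : ι × ℕ →₀ ℕ) (v : ι × ℕ) : u v * p ^ v.2 ≤ wt p u := by
  classical
  rw [← wt_single]
  conv_rhs => rw [← Finsupp.single_add_erase v u, map_add]
  exact Nat.le_add_right _ _

theorem pow_le_sg {G : MvPolynomial (ι × ℕ) k} {v : ι × ℕ} (h : v ∈ G.vars) :
    p ^ v.2 ≤ sg p G := by
  obtain ⟨u, hu, hv⟩ := (mem_vars_iff_mem_support v).1 h
  exact (Nat.le_mul_of_pos_left _ (Nat.pos_of_ne_zero (Finsupp.mem_support_iff.1 hv))).trans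
    ((apply_le_wt u v).trans (wt_le hu))

theorem supp_pderiv {σ : Type*} {G : MvPolynomial σ k} {v : σ} {u : σ →₀ ℕ}
    (h : u ∈ (pderiv v G).support) : u + Finsupp.single v 1 ∈ G.support := by
  rw [mem_support_iff, coeff_pderiv] at h
  exact mem_support_iff.2 (left_ne_zero_of_mul h)

theorem vars_pderiv {σ : Type*} (G : MvPolynomial σ k) (v : σ) : (pderiv v G).vars ⊆ G.vars := by
  intro w hw
  obtain ⟨u, hu, hv⟩ := (mem_vars_iff_mem_support w).1 hw
  refine (mem_vars_iff_mem_support w).2 ⟨_, supp_pderiv hu, ?_⟩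
  simp only [Finsupp.mem_support_iff, Finsupp.add_apply] at hv ⊢
  omega

theorem wt_Del (hp : 1 ≤ p) {G : MvPolynomial (ι × ℕ) k} {i : ι} {j : ℕ} {u : ι × ℕ →₀ ℕ}
    (h : u ∈ (Del p i j G).support) : wt p u + p ^ j ≤ sg p G := by
  classical
  rcases mem_union.1 (support_sub _ _ _ h) with h | h
  · simpa [wt_single] using wt_le (p := p) (supp_pderiv h)
  · rw [X_pow_eq_monomial, mem_support_iff, coeff_monomial_mul'] at h
    split_ifs at h with hle
    · have h1 := wt_le (p := p) (supp_pderiv (mem_support_iff.2 (right_ne_zero_of_mul h)))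
      rw [← tsub_add_cancel_of_le hle]
      simp only [map_add, wt_single] at h1 ⊢
      obtain ⟨q, rfl⟩ := Nat.exists_eq_add_of_le' hp
      rw [Nat.add_sub_cancel] at h1 ⊢
      rw [pow_succ] at h1
      nlinarith
    · exact absurd rfl h

theorem sg_Del (hp : 1 ≤ p) {G : MvPolynomial (ι × ℕ) k} {i : ι} {j : ℕ} (h : Del p i j G ≠ 0) :
    sg p (Del p i j G) + p ^ j ≤ sg p G := by
  obtain ⟨u, hu⟩ := ne_zero_iff.1 h
  have h1 := wt_Del hp (mem_support_iff.2 hu)
  have h2 : sg p (Del p i j G) ≤ sg p G - p ^ j := sg_le.2 fun w hw => by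
    have := wt_Del hp hw
    omega
  omega

end sg

variable [Field k] {p : ℕ} [hp : Fact p.Prime] [CharP k p]

theorem Del_ne {G : MvPolynomial (ι × ℕ) k} {i : ι} {j : ℕ} (h : pderiv (i, j + 1) G ≠ 0) :
    Del p i j G ≠ 0 := by
  classical
  intro e
  have key : ∀ w : ι × ℕ →₀ ℕ, coeff (w + Finsupp.single (i, j) (p - 1) +
      Finsupp.single (i, j) 1) G * ((w (i, j) + (p - 1) : ℕ) + 1) = coeff w (pderiv (i, j + 1) G) := by
    intro w
    have := congrArg (coeff (Finsupp.single (i, j) (p - 1) + w)) (sub_eq_zero.1 e)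
    rw [X_pow_eq_monomial, coeff_monomial_mul, one_mul, coeff_pderiv, add_comm _ w] at this
    simpa using this
  obtain ⟨u, hu, hm⟩ := exists_max_image (pderiv (i, j + 1) G).support (fun u => u (i, j + 1))
    (support_nonempty.2 h)
  have h1 := key u
  have h0 := mem_support_iff.1 hu
  have hp1 : ((u (i, j) + (p - 1) : ℕ) : k) + 1 = u (i, j) := by
    rw [← Nat.cast_succ, Nat.succ_eq_add_one, add_assoc, Nat.sub_add_cancel hp.1.one_le]
    simp
  rw [hp1] at h1
  have h2 : (u (i, j) : k) ≠ 0 := fun hc => h0 (by rw [← h1, hc, mul_zero])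
  have h3 : u (i, j) ≠ 0 := fun hc => h2 (by simp [hc])
  -- the monomial `u * y / x` of the derivative in `x`
  let w := u + Finsupp.single (i, j + 1) 1 - Finsupp.single (i, j) 1
  have hw : w + Finsupp.single (i, j) 1 = u + Finsupp.single (i, j + 1) 1 :=
    tsub_add_cancel_of_le (by
      rw [Finsupp.single_le_iff]
      simp
      omega)
  have hx : w (i, j) + 1 = u (i, j) := by simpa using DFunLike.congr_fun hw (i, j)
  have hy : w (i, j + 1) = u (i, j + 1) + 1 := by simpa using DFunLike.congr_fun hw (i, j + 1)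
  have h4 : coeff w (pderiv (i, j) G) ≠ 0 := by
    rw [coeff_pderiv, hw, ← Nat.cast_succ, Nat.succ_eq_add_one, hx]
    exact mul_ne_zero (mem_support_iff.1 (supp_pderiv hu)) h2
  rw [sub_eq_zero.1 e, X_pow_eq_monomial, coeff_monomial_mul'] at h4
  split_ifs at h4 with hle
  · have := hm _ (mem_support_iff.2 (right_ne_zero_of_mul h4))
    simp [hy] at this
  · exact h4 rfl

theorem exD {G : MvPolynomial (ι × ℕ) k} {v : ι × ℕ} (h : pderiv v G ≠ 0) :
    ∃ i j, (∀ a, j + 1 < a → pderiv (i, a) G = 0) ∧ Del p i j G ≠ 0 ∧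
      (j = 0 ∧ pderiv (i, j + 1) G = 0 ∨ (i, j + 1) ∈ G.vars) := by
  classical
  have hv : ∀ w, pderiv w G ≠ 0 → w ∈ G.vars := fun w hw => by
    by_contra hc
    exact hw (pderiv_eq_zero_of_notMem_vars hc)
  obtain ⟨⟨i, l⟩, hu, hm⟩ := exists_max_image (G.vars.filter fun w => pderiv w G ≠ 0) Prod.snd
    ⟨v, mem_filter.2 ⟨hv v h, h⟩⟩
  have h1 : ∀ a, l < a → pderiv (i, a) G = 0 := fun a ha => by
    by_contra hc
    exact ha.not_ge (hm (i, a) (mem_filter.2 ⟨hv _ hc, hc⟩))
  obtain ⟨h2, h3⟩ := mem_filter.1 hu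
  rcases l with _ | j
  · exact ⟨i, 0, fun a ha => h1 a (by omega), by simpa [Del, h1 1 one_pos] using h3,
      Or.inl ⟨rfl, h1 1 one_pos⟩⟩
  · exact ⟨i, j, h1, Del_ne h3, Or.inr h2⟩

theorem ex_root [PerfectField k] {σ : Type*} {G : MvPolynomial σ k} (h : ∀ v, pderiv v G = 0) :
    ∃ H, G = H ^ p := by
  classical
  have hd : ∀ u ∈ G.support, ∀ v, p ∣ u v := fun u hu v => by
    by_contra hc
    have h0 : u v ≠ 0 := fun e => hc (e ▸ dvd_zero p)
    have h1 : u - Finsupp.single v 1 + Finsupp.single v 1 = u :=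
      tsub_add_cancel_of_le (Finsupp.single_le_iff.2 (Nat.pos_of_ne_zero h0))
    have h2 : (u - Finsupp.single v 1 : σ →₀ ℕ) v + 1 = u v := by
      simpa using DFunLike.congr_fun h1 v
    have := coeff_pderiv (i := v) G (u - Finsupp.single v 1)
    rw [h, h1, ← Nat.cast_succ, Nat.succ_eq_add_one, h2, coeff_zero] at this
    exact mul_ne_zero (mem_support_iff.1 hu) (mt (CharP.cast_eq_zero_iff k p _).1 hc) this.symm
  have : PerfectRing k p := PerfectField.toPerfectRing p
  refine ⟨∑ u ∈ G.support, monomial (u.mapRange (· / p) (by simp))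
    ((frobeniusEquiv k p).symm (coeff u G)), ?_⟩
  rw [sum_pow_char]
  conv_lhs => rw [G.as_sum]
  refine sum_congr rfl fun u hu => ?_
  rw [monomial_pow, frobeniusEquiv_symm_pow_p]
  congr 2
  ext v
  simp [Nat.mul_div_cancel' (hd u hu v)]

end Z

end Pool.Agent.P.MP_6f117a_ag.PJ
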