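import Pool.Agent.P.MP_6f117a_ag.PJ.ZDeg

namespace Pool.Agent.P.MP_6f117a_ag.PJ

namespace Z

open Finset MvPolynomial

universe u

section toP

variable {k σ : Type*} [DecidableEq σ]

/-- a polynomial as a polynomial in the variable `y` -/
noncomputable def toP [CommRing k] (y : σ) : MvPolynomial σ k →ₐ[k] Polynomial (MvPolynomial σ k) :=
  aeval fun v => if v = y then Polynomial.X else Polynomial.C (X v)

theorem toP_coeff [CommRing k] (y : σ) (G : MvPolynomial σ k) (c : ℕ) (u : σ →₀ ℕ) :
    coeff u ((toP y G).coeff c) = if u y = 0 then coeff (u + Finsupp.single y c) G else 0 := by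
  induction G using MvPolynomial.induction_on' with
  | add f g hf hg => simp only [map_add, Polynomial.coeff_add, coeff_add, hf, hg]; split_ifs <;> simp
  | monomial w r =>
    have : toP y (monomial w r) = Polynomial.monomial (w y) (monomial (w.erase y) r) := by
      conv_lhs => rw [← Finsupp.single_add_erase y w, ← one_mul r, ← monomial_mul,
        ← X_pow_eq_monomial, map_mul, map_pow]
      rw [← Polynomial.C_mul_X_pow_eq_monomial, mul_comm]
      congr 1
      · rw [toP, aeval_monomial, monomial_eq, map_mul, Finsupp.prod, Finsupp.prod, map_prod]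
        congr 1
        refine prod_congr rfl fun v hv => ?_
        rw [if_neg (by rintro rfl; simp at hv), map_pow]
      · simp [toP]
    rw [this, Polynomial.coeff_monomial, coeff_monomial]
    by_cases h1 : w = u + Finsupp.single y c ∧ u y = 0
    · obtain ⟨rfl, h⟩ := h1
      simp [h, Finsupp.erase_add, Finsupp.erase_of_notMem_support]
    · have h2 : ¬(w y = c ∧ w.erase y = u) := by
        rintro ⟨rfl, rfl⟩
        exact h1 ⟨(Finsupp.erase_add_single y w).symm, by simp⟩
      split_ifs <;> simp_all [coeff_monomial]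

theorem toP_supp [CommRing k] {y : σ} {G : MvPolynomial σ k} {c : ℕ} {u : σ →₀ ℕ}
    (h : u ∈ ((toP y G).coeff c).support) : u y = 0 ∧ u + Finsupp.single y c ∈ G.support := by
  rw [mem_support_iff, toP_coeff] at h
  split_ifs at h with e
  · exact ⟨e, mem_support_iff.2 h⟩
  · exact absurd rfl h

theorem toP_deg [CommRing k] {y : σ} {G : MvPolynomial σ k} (h : y ∈ G.vars) :
    (toP y G).natDegree ≠ 0 := by
  obtain ⟨u, hu, hy⟩ := (mem_vars_iff_mem_support y).1 h
  have := toP_coeff y G (u y) (u.erase y)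
  rw [if_pos (by simp), Finsupp.erase_add_single] at this
  intro e
  rw [Polynomial.coeff_eq_zero_of_natDegree_lt
    (e ▸ Nat.pos_of_ne_zero (Finsupp.mem_support_iff.1 hy))] at this
  exact mem_support_iff.1 hu this.symm

theorem res_ne [Field k] {y : σ} {G H : MvPolynomial σ k} (hG : Irreducible G) (hy : y ∈ G.vars)
    (hH : ¬G ∣ H) : (toP y G).resultant (toP y H) ≠ 0 := by
  let e := (renameEquiv k (Equiv.optionSubtypeNe y).symm).trans (optionEquivLeft k _)
  let r : MvPolynomial {v // v ≠ y} k →+* MvPolynomial σ k := (rename Subtype.val).toRingHom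
  have hr : Function.Injective r := rename_injective _ Subtype.val_injective
  have h1 : ∀ Q, toP y Q = (e Q).map r := fun Q =>
    DFunLike.congr_fun (show (toP y).toRingHom = (Polynomial.mapRingHom r).comp e.toRingEquiv from
      ringHom_ext (fun c => by simp [toP, e, r]) fun v => by
        by_cases h : v = y <;> simp [toP, e, r, h]) Q
  have hd := toP_deg hy
  rw [h1, Polynomial.natDegree_map_eq_of_injective hr] at hd
  rw [h1, h1, Polynomial.natDegree_map_eq_of_injective hr,
    Polynomial.natDegree_map_eq_of_injective hr, Polynomial.resultant_map_map,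
    map_ne_zero_iff _ hr]
  have hi : Irreducible (e G) := hG.map e
  have hpr := hi.isPrimitive hd
  let K := FractionRing (MvPolynomial {v // v ≠ y} k)
  have hK := IsFractionRing.injective (MvPolynomial {v // v ≠ y} k) K
  have hc := (hpr.irreducible_iff_irreducible_map_fraction_map (K := K)).1 hi
  have := Polynomial.resultant_ne_zero _ _ (hc.coprime_iff_not_dvd.2 fun h =>
    hH ((map_dvd_iff e).1 (hpr.dvd_of_fraction_map_dvd_fraction_map h)))
  rwa [Polynomial.natDegree_map_eq_of_injective hK, Polynomial.natDegree_map_eq_of_injective hK,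
    Polynomial.resultant_map_map, map_ne_zero_iff _ hK] at this

end toP

theorem res_ind {R : Type*} [CommRing R] (f g : Polynomial R) (m n : ℕ) (P : ℕ → R → Prop)
    (Q : R → Prop) (h0 : ∀ i, P i 0) (hf : ∀ i c, P i (f.coeff (i - c)))
    (hg : ∀ i c, P i (g.coeff (i - c))) (hn : ∀ x, Q x → Q (-x))
    (hs : ∀ (s : Finset (Equiv.Perm (Fin (m + n)))) (x : _ → R), (∀ i, Q (x i)) → Q (∑ i ∈ s, x i))
    (hp : ∀ (x : Fin (m + n) → R), (∀ i : Fin (m + n), P i (x i)) → Q (∏ i, x i)) :
    Q (f.resultant g m n) := by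
  rw [Polynomial.resultant, ← Matrix.det_transpose, Matrix.det_apply]
  refine hs _ _ fun s => ?_
  have : Q (∏ i, (f.sylvester g m n).transpose (s i) i) := hp _ fun i => by
    rw [Matrix.transpose_apply, Polynomial.sylvester, Matrix.of_apply]
    induction s i using Fin.addCases <;> simp only [Fin.addCases_left, Fin.addCases_right] <;>
      split_ifs <;> first | exact h0 _ | exact hf _ _ | exact hg _ _
  rcases Int.units_eq_one_or (Equiv.Perm.sign s) with h | h <;> rw [h]
  · simpa using this
  · simpa using hn _ this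

variable {p : ℕ} [hp : Fact p.Prime]

theorem add_top {R : Type*} [CommRing R] (x z : WittVector p R) (l : ℕ) :
    (x + z).coeff l = (x + WittVector.init l z).coeff l + z.coeff l := by
  have h1 : WittVector.tail l z = WittVector.verschiebung^[l] ((WittVector.tail l z).shift l) :=
    WittVector.eq_iterate_verschiebung fun i hi => by
      simp [WittVector.tail, WittVector.select, hi.not_ge]
  conv_lhs => rw [← WittVector.init_add_tail z l, ← add_assoc, h1, add_V]
  simp [WittVector.add_coeff_zero, WittVector.shift_coeff, WittVector.tail, WittVector.select]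

/-- the target ring of `evT` -/
abbrev RR (ι B : Type*) [CommRing B] := Polynomial (MvPolynomial (ι × ℕ) B)

theorem top_dvd {k ι B : Type*} [DecidableEq ι] [CommRing k] [CommRing B] [Algebra k B]
    (φ : ι → WittVector p B) (y : ι × ℕ) : ∃ ψ, ∀ G : MvPolynomial (ι × ℕ) k,
      (∀ v ∈ G.vars, v.2 ≤ y.2) → ∀ o c, Polynomial.X ^ o ∣ evT p k φ G →
      Polynomial.X ^ o ∣ (((toP y G).map (evT p k φ).toRingHom).taylor ψ).coeff c *
        (Polynomial.X ^ p ^ y.2) ^ c := by
  let c₀ : B →+* RR ι B := Polynomial.C.comp C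
  let F : ι → WittVector p (RR ι B) := fun a => WittVector.mk p fun l => Polynomial.C (X (a, l))
  let Z : ι → WittVector p (Polynomial (RR ι B)) := fun a => WittVector.mk p fun l =>
    if (a, l) = y then Polynomial.X else Polynomial.C (Polynomial.C (X (a, l)))
  let w : ι × ℕ → RR ι B := fun v => (WittVector.map c₀ (φ v.1) +
    WittVector.init v.2 (WittVector.teichmuller p Polynomial.X * F v.1)).coeff v.2
  have h1 : ∀ v : ι × ℕ, v.2 ≤ y.2 → (WittVector.map (Polynomial.C.comp c₀) (φ v.1) +
      WittVector.teichmuller p (Polynomial.C (Polynomial.X : RR ι B)) * Z v.1).coeff v.2 =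
      Polynomial.C (w v) + Polynomial.C (Polynomial.X : RR ι B) ^ p ^ v.2 * (Z v.1).coeff v.2 := by
    intro v hv
    rw [add_top, teich_mul]
    congr 1
    refine Eq.trans ?_ (WittVector.map_coeff Polynomial.C _ _)
    rw [map_add]
    congr 2
    ext1 l
    simp only [WittVector.init, WittVector.select, WittVector.coeff_mk, WittVector.map_coeff,
      teich_mul, Z, F]
    split_ifs with h h'
    · exact absurd (congrArg Prod.snd h') (by simp; omega)
    · rw [map_mul, map_pow]
    · simp
  have h2 : ∀ v : ι × ℕ, evT p k φ (X v) = w v + Polynomial.X ^ p ^ v.2 * Polynomial.C (X v) := by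
    intro v
    rw [evT, aeval_X, pert, add_top, teich_mul]
    rfl
  refine ⟨w y, fun G hG o c ⟨Q, hQ⟩ => ?_⟩
  have h3 : sb (Polynomial.C.comp c₀) (Polynomial.C Polynomial.X) Z (evT p k φ G) =
      (((toP y G).map (evT p k φ).toRingHom).taylor (w y)).comp
        (Polynomial.C (Polynomial.X ^ p ^ y.2) * Polynomial.X) := by
    rw [sb_evT, Polynomial.taylor_apply, Polynomial.comp_assoc]
    refine hom_congr_vars (f₂ := (Polynomial.compRingHom _).comp
      ((Polynomial.mapRingHom (evT p k φ).toRingHom).comp (toP y).toRingHom)) ?_ ?_ rfl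
    · ext1 r
      simp [toP, c₀, evT]
    · intro v hv _
      rw [eval₂Hom_X', h1 v (hG v hv)]
      by_cases h : v = y
      · subst h
        simp [toP, Z, add_comm]
      · simp [toP, Z, h, h2]
        ring
  rw [← Polynomial.comp_C_mul_X_coeff, ← h3, hQ, map_mul, map_pow, sb_X, ← map_pow,
    Polynomial.coeff_C_mul]
  exact dvd_mul_right _ _

theorem elim {k ι : Type*} [DecidableEq ι] [Field k] {S : Finset (ι × ℕ)} {y : ι × ℕ}
    (hy : ∀ v ∈ S, v.2 ≤ y.2) {G H : MvPolynomial (ι × ℕ) k} (hG : Irreducible G)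
    (hv : y ∈ G.vars) (GS : G.vars ⊆ S) (HS : H.vars ⊆ S) (H0 : H ≠ 0) (hH : ¬G ∣ H)
    (hs : sg p H ≤ sg p G) : ∃ R : MvPolynomial (ι × ℕ) k, R ≠ 0 ∧ R.vars ⊆ S.erase y ∧
      ∃ N, 1 ≤ N ∧ N * p ^ y.2 ≤ 2 * sg p G ∧ sg p R ≤ N * sg p G ∧
      ∀ (B : Type u) [CommRing B] [IsDomain B] [Algebra k B] (φ : ι → WittVector p B) (o : ℕ),
        Polynomial.X ^ o ∣ evT p k φ G → Polynomial.X ^ o ∣ evT p k φ H →
        Polynomial.X ^ (∑ r ∈ range N, (o - r * p ^ y.2)) ∣ evT p k φ R := by
  have hd : ∀ Q : MvPolynomial (ι × ℕ) k, Q ≠ 0 → (toP y Q).natDegree * p ^ y.2 ≤ sg p Q := by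
    intro Q hQ
    by_cases h0 : toP y Q = 0
    · simp [h0]
    obtain ⟨u, hu⟩ := ne_zero_iff.1 (Polynomial.leadingCoeff_ne_zero.2 h0)
    have := wt_le (p := p) (toP_supp (mem_support_iff.2 hu)).2
    rw [map_add, wt_single] at this
    omega
  have hc : ∀ Q : MvPolynomial (ι × ℕ) k, Q.vars ⊆ S → ∀ c,
      (toP y Q).coeff c ∈ supported k (S.erase y : Set (ι × ℕ)) := fun Q hQ c =>
    mem_supported.2 fun v hv => by
      obtain ⟨u, hu, h1⟩ := (mem_vars_iff_mem_support v).1 hv
      obtain ⟨h2, h3⟩ := toP_supp hu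
      rw [Finsupp.mem_support_iff] at h1
      exact mem_coe.2 (mem_erase.2 ⟨fun e => h1 (e ▸ h2), hQ ((mem_vars_iff_mem_support v).2
        ⟨_, h3, by simp [h1]⟩)⟩)
  have hg : ∀ (Q : MvPolynomial (ι × ℕ) k) c, sg p ((toP y Q).coeff c) ≤ sg p Q := fun Q c =>
    sg_le.2 fun u hu => le_trans (by simp) (wt_le (toP_supp hu).2)
  refine ⟨_, res_ne hG hv hH, ?_, (toP y G).natDegree + (toP y H).natDegree, ?_, ?_, ?_, ?_⟩
  · exact coe_subset.1 (mem_supported.1 (res_ind _ _ _ _ (fun _ x => x ∈ supported k _)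
      (· ∈ supported k _) (fun _ => zero_mem _) (fun _ _ => hc G GS _) (fun _ _ => hc H HS _)
      (fun _ => neg_mem) (fun _ _ h => sum_mem fun i _ => h i) fun _ h => prod_mem fun i _ => h i))
  · have := toP_deg hv
    omega
  · have := hd G hG.ne_zero
    have := hd H H0
    nlinarith
  · refine res_ind _ _ _ _ (fun _ x => sg p x ≤ sg p G) (fun x => sg p x ≤ _) (fun _ => by simp [sg])
      (fun _ _ => hg G _) (fun _ _ => (hg H _).trans hs) (fun x h => by simpa [sg] using h)
      (fun s x h => ?_) fun x h => ?_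
    · rw [sg, map_sum]
      exact Polynomial.natDegree_sum_le_of_forall_le _ _ fun i _ => h i
    · rw [sg, map_prod]
      exact (Polynomial.natDegree_prod_le _ _).trans ((sum_le_card_nsmul _ _ _ fun i _ => h i).trans
        (by simp))
  · intro B _ _ _ φ o h1 h2
    obtain ⟨ψ, hψ⟩ := top_dvd (k := k) φ y
    have hi : Function.Injective (evT p k φ).toRingHom := evT_inj φ (algebraMap k B).injective
    have key : ∀ Q : MvPolynomial (ι × ℕ) k, Q.vars ⊆ S → Polynomial.X ^ o ∣ evT p k φ Q →
        ∀ i c, Polynomial.X ^ (o - i * p ^ y.2) ∣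
          (((toP y Q).map (evT p k φ).toRingHom).taylor ψ).coeff (i - c) := by
      intro Q hQ h i c
      have := hψ Q (fun v hv => hy v (hQ hv)) o (i - c) h
      rcases le_total o (i * p ^ y.2) with hl | hl
      · simp [Nat.sub_eq_zero_of_le hl]
      · refine (mul_dvd_mul_iff_right (pow_ne_zero (i * p ^ y.2) Polynomial.X_ne_zero)).1 ?_
        rw [← pow_add, Nat.sub_add_cancel hl]
        refine this.trans (mul_dvd_mul_left _ ?_)
        rw [← pow_mul]
        exact pow_dvd_pow _ (by rw [mul_comm]; gcongr; omega)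
    have e := Polynomial.resultant_taylor ((toP y G).map (evT p k φ).toRingHom)
      ((toP y H).map (evT p k φ).toRingHom) ψ
    simp only [Polynomial.natDegree_taylor, Polynomial.natDegree_map_eq_of_injective hi,
      Polynomial.resultant_map_map] at e
    refine dvd_trans ?_ (dvd_of_eq e)
    refine res_ind _ _ _ _ (fun i x => Polynomial.X ^ (o - i * p ^ y.2) ∣ x) (_ ∣ ·)
      (fun _ => dvd_zero _) (key G GS h1) (key H HS h2) (fun _ => dvd_neg.2)
      (fun _ _ h => dvd_sum fun i _ => h i) fun x h => ?_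
    rw [sum_range, ← prod_pow_eq_pow_sum]
    exact prod_dvd_prod_of_dvd _ _ fun i _ => h i

end Z

end Pool.Agent.P.MP_6f117a_ag.PJ
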