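import Pool.Agent.P.MP_6f117a_ag.PJ.ZDefs

namespace Pool.Agent.P.MP_6f117a_ag.PJ

namespace Z

open WittVector Finset

variable {p : ℕ} [hp : Fact p.Prime]

theorem ghost_inj {R : Type*} [CommRing R] (h : ∀ r : R, (p : R) * r = 0 → r = 0)
    {x y : WittVector p R} (e : ∀ n, ghostComponent n x = ghostComponent n y) : x = y := by
  have hk : ∀ (n : ℕ) (r : R), (p : R) ^ n * r = 0 → r = 0 := by
    intro n
    induction n with
    | zero => simp
    | succ n ih => intro r hr; exact ih r (h _ (by rw [← hr]; ring))
  ext n
  induction n using Nat.strong_induction_on with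
  | _ n ih =>
    have := e n
    simp only [ghostComponent_apply, aeval_wittPolynomial, sum_range_succ, Nat.sub_self, pow_zero,
      pow_one] at this
    rw [sum_congr rfl fun i hi => by rw [ih i (mem_range.1 hi)], add_right_inj] at this
    exact sub_eq_zero.1 (hk n _ (by rw [mul_sub, this, sub_self]))

theorem tf_poly (R : Type*) (r : MvPolynomial R ℤ) (h : (p : MvPolynomial R ℤ) * r = 0) : r = 0 :=
  (mul_eq_zero.1 h).resolve_left (Nat.cast_ne_zero.2 hp.1.ne_zero)

theorem teich_mul {R : Type*} [CommRing R] (r : R) (x : WittVector p R) (l : ℕ) :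
    (teichmuller p r * x).coeff l = r ^ p ^ l * x.coeff l := by
  obtain ⟨r, rfl⟩ := MvPolynomial.counit_surjective R r
  obtain ⟨x, rfl⟩ := map_surjective (MvPolynomial.counit R) (MvPolynomial.counit_surjective R) x
  have : teichmuller p r * x = mk p fun l => r ^ p ^ l * x.coeff l := by
    refine ghost_inj (tf_poly R) fun n => ?_
    rw [map_mul, ghostComponent_teichmuller]
    simp only [ghostComponent_apply, aeval_wittPolynomial, coeff_mk, mul_sum]
    refine sum_congr rfl fun i hi => ?_
    rw [mul_pow, ← pow_mul, ← pow_add, Nat.add_sub_cancel' (Nat.lt_succ_iff.1 (mem_range.1 hi))]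
    ring
  rw [← map_teichmuller, ← map_mul, this]
  simp

theorem add_teich_one {R : Type*} [CommRing R] (x : WittVector p R) {e : R} (he : e * e = 0) :
    (x + teichmuller p e).coeff 1 = x.coeff 1 - x.coeff 0 ^ (p - 1) * e := by
  let f : DualNumber (MvPolynomial R ℤ) →ₐ[ℤ] R :=
    DualNumber.lift ⟨((MvPolynomial.counit R).toIntAlgHom, e), he, fun _ => Commute.all _ _⟩
  have hs : Function.Surjective f := fun r => by
    obtain ⟨r, rfl⟩ := MvPolynomial.counit_surjective R r
    exact ⟨TrivSqZeroExt.inl r, by simp [f]; rfl⟩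
  obtain ⟨x, rfl⟩ := map_surjective f.toRingHom hs x
  have h1 : e = f.toRingHom DualNumber.eps := by simp [f]
  rw [h1, ← map_teichmuller, ← map_add]
  simp only [map_coeff, ← map_pow, ← map_mul, ← map_sub]
  congr 1
  have tf : ∀ r : DualNumber (MvPolynomial R ℤ), (p : DualNumber (MvPolynomial R ℤ)) * r = 0 →
      r = 0 := fun r hr => by
    rw [← nsmul_eq_mul] at hr
    refine TrivSqZeroExt.ext (tf_poly (p := p) R _ ?_) (tf_poly (p := p) R _ ?_)
    · simpa using congrArg TrivSqZeroExt.fst hr
    · simpa using congrArg TrivSqZeroExt.snd hr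
  have g := (ghostComponent (p := p) 1).map_add x (teichmuller p DualNumber.eps)
  rw [ghostComponent_teichmuller] at g
  simp only [ghostComponent_apply, aeval_wittPolynomial, sum_range_succ, range_zero, sum_empty,
    add_coeff_zero, teichmuller_coeff_zero, pow_zero, pow_one, Nat.sub_self, Nat.sub_zero,
    one_mul, zero_add] at g
  obtain ⟨c, hc⟩ := Polynomial.powAddExpansion (x.coeff 0) DualNumber.eps p
  have h2 : (DualNumber.eps : DualNumber (MvPolynomial R ℤ)) ^ 2 = 0 := by
    rw [sq, DualNumber.eps_mul_eps]
  have h3 : (DualNumber.eps : DualNumber (MvPolynomial R ℤ)) ^ p = 0 :=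
    pow_eq_zero_of_le hp.1.two_le h2
  rw [hc, h2, h3] at g
  refine sub_eq_zero.1 (tf _ ?_)
  linear_combination g

theorem add_V {R : Type*} [CommRing R] (w u : WittVector p R) (j a : ℕ) :
    (w + verschiebung^[j] u).coeff a =
      if a < j then w.coeff a else (w.shift j + u).coeff (a - j) := by
  have h1 : tail j w = verschiebung^[j] (w.shift j) := by
    rw [eq_iterate_verschiebung (x := tail j w) (n := j) fun i hi => by
      simp [tail, select, hi.not_ge]]
    congr 1
    ext i
    simp [shift_coeff, tail, select]
  have h2 : ∀ (x y : WittVector p R), verschiebung^[j] (x + y) =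
      verschiebung^[j] x + verschiebung^[j] y := iterate_map_add verschiebung j
  have h3 : w + verschiebung^[j] u = init j w + verschiebung^[j] (w.shift j + u) := by
    rw [h2, ← h1, ← add_assoc, init_add_tail]
  rw [h3, coeff_add_of_disjoint]
  · split_ifs with h
    · rw [iterate_verschiebung_coeff_eq_zero _ h]
      simp [init, select, h]
    · obtain ⟨b, rfl⟩ := Nat.exists_eq_add_of_le' (not_lt.1 h)
      rw [iterate_verschiebung_coeff]
      simp [init, select]
  · intro n
    by_cases h : n < j
    · exact Or.inr (iterate_verschiebung_coeff_eq_zero _ h)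
    · exact Or.inl (by simp [init, select, h])

theorem add_teich_dvd {R : Type*} [CommRing R] (x : WittVector p R) (e : R) (a : ℕ) :
    e ∣ (x + teichmuller p e).coeff a - x.coeff a := by
  rw [← Ideal.mem_span_singleton, ← Ideal.Quotient.eq, ← map_coeff, ← map_coeff, map_add,
    map_teichmuller, Ideal.Quotient.eq_zero_iff_mem.2 (Ideal.mem_span_singleton_self e),
    teichmuller_zero, add_zero]

theorem teich_mul_V {R : Type*} [CommRing R] (r e : R) (j : ℕ) :
    teichmuller p r * verschiebung^[j] (teichmuller p e) =
      verschiebung^[j] (teichmuller p (r ^ p ^ j * e)) := by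
  ext a
  rw [teich_mul]
  rcases lt_or_ge a j with h | h
  · simp [iterate_verschiebung_coeff_eq_zero _ h]
  · obtain ⟨b, rfl⟩ := Nat.exists_eq_add_of_le' h
    rw [iterate_verschiebung_coeff, iterate_verschiebung_coeff]
    rcases b with _ | b
    · rw [teichmuller_coeff_zero, teichmuller_coeff_zero, zero_add]
    · rw [teichmuller_coeff_pos _ _ _ b.succ_pos, teichmuller_coeff_pos _ _ _ b.succ_pos, mul_zero]

open MvPolynomial in
theorem taylor1 {k σ R : Type*} [CommRing k] [CommRing R] [Algebra k R] (y d : σ → R) {e : R}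
    (he : e * e = 0) (S : Finset σ) (hd : ∀ v ∉ S, d v = 0) (G : MvPolynomial σ k) :
    aeval (fun v => y v + e * d v) G = aeval y G + e * ∑ v ∈ S, d v * aeval y (pderiv v G) := by
  classical
  induction G using MvPolynomial.induction_on with
  | C a => simp
  | add f g hf hg => simp only [map_add, hf, hg, mul_add, sum_add_distrib]; ring
  | mul_X f s hf =>
    have : ∑ v ∈ S, d v * (aeval y f * aeval y (pderiv v (X s : MvPolynomial σ k))) =
        aeval y f * d s := by
      rw [sum_eq_single s]
      · simp [mul_comm]
      · intro b _ hb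
        simp [pderiv_X_of_ne hb.symm]
      · intro hs
        simp [hd s hs]
    simp only [map_mul, aeval_X, hf, Derivation.leibniz, smul_eq_mul, map_add, mul_add,
      sum_add_distrib, this]
    rw [sum_congr rfl fun v _ => mul_left_comm (d v) (y s) _, ← mul_sum]
    linear_combination (∑ v ∈ S, d v * aeval y (pderiv v f)) * d s * he

end Z

end Pool.Agent.P.MP_6f117a_ag.PJ
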